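import Pool.Agent.V8H98.JF.Ind
import Pool.Agent.V8H63.M2.Core

/-!
# Automorphisms acting trivially on the homology of the double covers: torsion on the homology of the
cover with group `H_1 (S; ℤ/2)` (helper63)
-/

set_option autoImplicit false

namespace Pool.Agent.V8H98.JF

open scoped Pointwise commutatorElement

/-- The kernel of `π → H_1 (S; ℤ/2)`. -/
def Mod2 (g : ℕ) : Subgroup (SurfaceGroup g) where
  carrier := {x | ∀ i, (2 : ℤ) ∣ cls x i}
  one_mem' := fun i => by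
    rw [cls_one]
    exact dvd_zero _
  mul_mem' := fun {x y} hx hy i => by
    rw [cls_mul]
    exact dvd_add (hx i) (hy i)
  inv_mem' := fun {x} hx i => by
    rw [cls_inv]
    exact (dvd_neg).2 (hx i)

variable {g : ℕ}

lemma mem_Mod2 {x : SurfaceGroup g} : x ∈ Mod2 g ↔ ∀ i, (2 : ℤ) ∣ cls x i := Iff.rfl

lemma map_Mod2 (φ : MulAut (SurfaceGroup g)) {x : SurfaceGroup g} (hx : x ∈ Mod2 g) : φ x ∈ Mod2 g := by
  rw [mem_Mod2] at hx ⊢
  intro i
  rw [← rho_cls]
  choose v hv using hx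
  have h1 : cls x = (2 : ℤ) • (v : V g) := by
    funext k
    rw [Pi.smul_apply, smul_eq_mul, hv k]
  rw [h1, map_smul, Pi.smul_apply, smul_eq_mul]
  exact dvd_mul_right _ _

instance Mod2_characteristic : (Mod2 g).Characteristic := by
  rw [Subgroup.characteristic_iff_le_comap]
  intro φ x hx
  exact map_Mod2 φ hx

instance Mod2_normal : (Mod2 g).Normal := inferInstance

/-- The characters of order two. -/
def chs (s : Finset (Fin g ⊕ Fin g)) : SurfaceGroup g →* ℤˣ :=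
  MonoidHom.mk' (fun x => ∏ k ∈ s, Int.negOnePow (cls x k)) (by
    intro x y
    rw [← Finset.prod_mul_distrib]
    exact Finset.prod_congr rfl fun k _ => by rw [cls_mul, Pi.add_apply, Int.negOnePow_add])

lemma chs_apply (s : Finset (Fin g ⊕ Fin g)) (x : SurfaceGroup g) :
    chs s x = ∏ k ∈ s, Int.negOnePow (cls x k) := rfl

lemma chs_Mod2 (s : Finset (Fin g ⊕ Fin g)) : Mod2 g ≤ (chs s).ker := by
  intro x hx
  rw [MonoidHom.mem_ker, chs_apply]
  exact Finset.prod_eq_one fun k _ => (Int.negOnePow_eq_one_iff _).2 (even_iff_two_dvd.2 (hx k))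

lemma chs_of {s : Finset (Fin g ⊕ Fin g)} {k : Fin g ⊕ Fin g} (hk : k ∈ s) :
    chs s (PresentedGroup.of k : SurfaceGroup g) = -1 := by
  rw [chs_apply, Finset.prod_eq_single k]
  · rw [cls_of, Pi.single_eq_same, Int.negOnePow_one]
  · intro j _ hj
    rw [cls_of, Pi.single_eq_of_ne hj, Int.negOnePow_zero]
  · intro h
    exact absurd hk h

lemma chs_sum (x : SurfaceGroup g) :
    ∑ s : Finset (Fin g ⊕ Fin g), ((chs s x : ℤˣ) : ℤ) =
      ∏ k : Fin g ⊕ Fin g, (1 + ((Int.negOnePow (cls x k) : ℤˣ) : ℤ)) := by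
  rw [Finset.prod_one_add, Finset.powerset_univ]
  refine Finset.sum_congr rfl fun s _ => ?_
  rw [chs_apply, Units.coe_prod]

lemma chs_sum_mem {x : SurfaceGroup g} (hx : x ∈ Mod2 g) :
    ∑ s : Finset (Fin g ⊕ Fin g), ((chs s x : ℤˣ) : ℤ) = ((2 ^ (g + g) : ℕ) : ℤ) := by
  rw [chs_sum]
  have h1 : ∀ k : Fin g ⊕ Fin g, (1 + ((Int.negOnePow (cls x k) : ℤˣ) : ℤ)) = 2 := by
    intro k
    rw [(Int.negOnePow_eq_one_iff _).2 (even_iff_two_dvd.2 (hx k))]
    rfl
  rw [Finset.prod_congr rfl fun k _ => h1 k, Finset.prod_const, Finset.card_univ, Fintype.card_sum,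
    Fintype.card_fin]
  push_cast
  rfl

lemma chs_sum_not {x : SurfaceGroup g} (hx : x ∉ Mod2 g) :
    ∑ s : Finset (Fin g ⊕ Fin g), ((chs s x : ℤˣ) : ℤ) = 0 := by
  rw [chs_sum]
  rw [mem_Mod2, not_forall] at hx
  obtain ⟨k, hk⟩ := hx
  refine Finset.prod_eq_zero (Finset.mem_univ k) ?_
  rw [Int.negOnePow_odd _ (Int.not_even_iff_odd.1 fun h => hk (even_iff_two_dvd.1 h))]
  rfl

instance Mod2_finiteIndex : (Mod2 g).FiniteIndex := by
  let m : SurfaceGroup g →* (Fin g ⊕ Fin g → ℤˣ) := Pi.monoidHom (fun k => chs {k})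
  have h1 : Mod2 g = m.ker := by
    ext x
    rw [MonoidHom.mem_ker]
    constructor
    · intro hx
      funext k
      exact chs_Mod2 {k} hx
    · intro hx k
      have h2 : chs {k} x = 1 := congrFun hx k
      rw [chs_apply, Finset.prod_singleton, Int.negOnePow_eq_one_iff] at h2
      exact even_iff_two_dvd.1 h2
  rw [h1]
  infer_instance

lemma chs_index {s : Finset (Fin g ⊕ Fin g)} (hs : s.Nonempty) : (chs s).ker.index = 2 := by
  obtain ⟨k, hk⟩ := hs
  rw [Subgroup.index_eq_two_iff]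
  refine ⟨PresentedGroup.of k, fun x => ?_⟩
  rw [MonoidHom.mem_ker, MonoidHom.mem_ker, map_mul, chs_of hk]
  rcases Int.units_eq_one_or (chs s x) with h1 | h1
  · rw [h1]
    right
    exact ⟨rfl, by decide⟩
  · rw [h1]
    left
    exact ⟨by decide, by decide⟩

lemma mul_self_mem_Mod2 (u : SurfaceGroup g) : u * u ∈ Mod2 g := by
  intro i
  rw [cls_mul, Pi.add_apply, ← two_mul]
  exact dvd_mul_right _ _

lemma commutator_le_Mod2 {x : SurfaceGroup g} (hx : x ∈ commutator (SurfaceGroup g)) : x ∈ Mod2 g := by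
  intro i
  rw [(cls_eq_zero_iff x).2 hx]
  exact dvd_zero _

/-- **Torsion.** -/
theorem mod2_torsion (g : ℕ) : ∃ N : ℕ, 0 < N ∧ ∀ t : MulAut (SurfaceGroup g), rho g t = 1 →
    (∀ Γ : JJ g, t ∈ TT Γ.1 Γ.2) → ∀ x ∈ Mod2 g,
      (t x * x⁻¹) ^ N ∈ (⁅Mod2 g, Mod2 g⁆ : Subgroup (SurfaceGroup g)) := by
  refine ⟨2 ^ (g + g) * 2, by positivity, fun t ht hT x hx => ?_⟩
  haveI : Finite (SurfaceGroup g ⧸ Mod2 g) := Subgroup.finite_quotient_of_finiteIndex
  haveI : Fintype (SurfaceGroup g ⧸ Mod2 g) := Fintype.ofFinite _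
  have hz := rho_one_comm ht x
  refine Pool.Agent.V8H63.M2.core (Mod2 g) mul_self_mem_Mod2 (fun u v => commutator_le_Mod2 ?_)
    (S := Finset (Fin g ⊕ Fin g)) chs chs_Mod2 (2 ^ (g + g)) (fun y hy => chs_sum_mem hy)
    (fun y hy => chs_sum_not hy) (t x * x⁻¹) (commutator_le_Mod2 hz) (fun s => ?_)
  · exact Subgroup.commutator_mem_commutator (Subgroup.mem_top u) (Subgroup.mem_top v)
  · rcases s.eq_empty_or_nonempty with hs | hs
    · have h1 : (chs s).ker = ⊤ := by
        rw [eq_top_iff]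
        intro y _
        rw [MonoidHom.mem_ker, chs_apply, hs, Finset.prod_empty]
      rw [h1, ← commutator_def]
      exact hz
    · exact (hT ⟨(chs s).ker, chs_index hs⟩).2 x (chs_Mod2 s hx)

end Pool.Agent.V8H98.JF
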