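import Pool.Agent.V8H98.CHV.Asm

/-!
# An action on the abelianization which is trivial up to torsion
-/

set_option autoImplicit false

namespace Pool.Agent.V8H98.JF

namespace VST

lemma of_eq_one_iff {G : Type} [Group G] (Γ : Subgroup G) (x : Γ) :
    (Abelianization.of x = 1) ↔ (x : G) ∈ (⁅Γ, Γ⁆ : Subgroup G) := by
  have h0 : (commutator Γ).map Γ.subtype = ⁅Γ, Γ⁆ := by
    rw [commutator_def, Subgroup.map_commutator, ← MonoidHom.range_eq_map, Subgroup.range_subtype]
  constructor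
  · intro h
    rw [← h0]
    exact ⟨x, (QuotientGroup.eq_one_iff _).1 h, rfl⟩
  · intro h
    rw [← h0] at h
    obtain ⟨z, hz, hzx⟩ := h
    have h1 : z = x := Subtype.ext hzx
    rw [← h1]
    exact (QuotientGroup.eq_one_iff _).2 hz

/-- The elements of a finitely generated commutative group of order dividing `N`. -/
lemma finite_tors (L : Type) [CommGroup L] [Group.FG L] (N : ℕ) (hN : 0 < N) :
    Finite {x : L // x ^ N = 1} := by
  have h3 : AddGroup.FG (Additive L) := AddGroup.fg_iff_mul_fg.2 inferInstance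
  have h4 : Module.Finite ℤ (Additive L) := Module.Finite.iff_addGroup_fg.2 h3
  have h5 : IsNoetherian ℤ (Additive L) := isNoetherian_of_isNoetherianRing_of_finite ℤ _
  let p : Submodule ℤ (Additive L) := Submodule.torsionBy ℤ (Additive L) (N : ℤ)
  have h6 : Module.Finite ℤ p := inferInstance
  have h7 : Module.IsTorsion ℤ p := by
    intro x
    refine ⟨⟨(N : ℤ), mem_nonZeroDivisors_of_ne_zero (by exact_mod_cast hN.ne')⟩, ?_⟩
    apply Subtype.ext
    exact x.2
  have h8 : Finite p := Module.finite_of_fg_torsion p h7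
  let f : {x : L // x ^ N = 1} → p := fun x => ⟨Additive.ofMul x.1, by
    show ((N : ℤ)) • Additive.ofMul x.1 = 0
    rw [natCast_zsmul, ← ofMul_pow, x.2]
    rfl⟩
  refine Finite.of_injective f ?_
  intro x y hxy
  apply Subtype.ext
  exact congrArg (fun z : p => Additive.toMul z.1) hxy

/-- The homs from a finitely generated group to the elements of order dividing `N`. -/
lemma finite_homs (H L : Type) [Group H] [Group.FG H] [CommGroup L] [Group.FG L] (N : ℕ)
    (hN : 0 < N) : Finite {φ : H →* L // ∀ x, φ x ^ N = 1} := by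
  obtain ⟨S, hS⟩ := Group.FG.out (G := H)
  have := finite_tors L N hN
  let f : {φ : H →* L // ∀ x, φ x ^ N = 1} → (S → {x : L // x ^ N = 1}) :=
    fun φ s => ⟨φ.1 s, φ.2 s⟩
  refine Finite.of_injective f ?_
  intro φ ψ h
  apply Subtype.ext
  refine MonoidHom.eq_of_eqOn_dense hS ?_
  intro s hs
  exact congrArg Subtype.val (congrFun h ⟨s, hs⟩)

end VST

/-- Let `A` be a group of automorphisms of `G` which preserve `Γ` and act trivially on the
abelianization of `Γ` up to elements of order dividing `N`. Then a subgroup of finite index of `A`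
acts trivially on the abelianization of `Γ`. -/
theorem vs_of_torsion {G : Type} [Group G] [Group.FG G] (Γ : Subgroup G) (hn : Γ.Normal)
    (hf : Γ.FiniteIndex) (A : Subgroup (MulAut G)) (hA : ∀ t ∈ A, ∀ x ∈ Γ, t x ∈ Γ) (N : ℕ)
    (hN : 0 < N) (h : ∀ t ∈ A, ∀ x ∈ Γ, (t x * x⁻¹) ^ N ∈ (⁅Γ, Γ⁆ : Subgroup G)) :
    Pool.Agent.V8H98.CHV.VS A.subtype Γ := by
  classical
  have h1 : Group.FG Γ := Subgroup.fg_of_index_ne_zero Γ
  have h2 : Group.FG (Abelianization Γ) := QuotientGroup.fg _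
  -- the restriction
  let res : A → (Γ →* Γ) := fun t =>
    ((t.1 : MulAut G).toMonoidHom.comp Γ.subtype).codRestrict Γ (fun x => hA t.1 t.2 x x.2)
  have hres : ∀ (t : A) (x : Γ), ((res t x : Γ) : G) = t.1 x := fun t x => rfl
  let F : A → (Γ →* Abelianization Γ) := fun t => (Abelianization.of.comp (res t)) / Abelianization.of
  have hF : ∀ (t : A) (x : Γ), F t x = Abelianization.of (res t x * x⁻¹) := by
    intro t x
    show Abelianization.of (res t x) / Abelianization.of x = _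
    rw [map_mul, map_inv, div_eq_mul_inv]
  have hFN : ∀ (t : A) (x : Γ), F t x ^ N = 1 := by
    intro t x
    rw [hF, ← map_pow, VST.of_eq_one_iff]
    exact h t.1 t.2 x x.2
  have key : ∀ (t : A), F t = 1 ↔ ∀ x ∈ Γ, t.1 x * x⁻¹ ∈ (⁅Γ, Γ⁆ : Subgroup G) := by
    intro t
    constructor
    · intro ht x hx
      have h3 : F t ⟨x, hx⟩ = 1 := by rw [ht]; rfl
      rw [hF, VST.of_eq_one_iff] at h3
      exact h3
    · intro ht
      ext x
      rw [hF]
      show _ = (1 : Abelianization Γ)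
      rw [VST.of_eq_one_iff]
      exact ht x x.2
  have hchar : ∀ t ∈ A, ∀ x ∈ (⁅Γ, Γ⁆ : Subgroup G), t x ∈ (⁅Γ, Γ⁆ : Subgroup G) := by
    intro t ht x hx
    have h4 : (⁅Γ, Γ⁆ : Subgroup G).map (t : MulAut G).toMonoidHom ≤ ⁅Γ, Γ⁆ := by
      rw [Subgroup.map_commutator]
      refine Subgroup.commutator_mono ?_ ?_ <;>
      · rintro _ ⟨y, hy, rfl⟩
        exact hA t ht y hy
    exact h4 ⟨x, hx, rfl⟩
  let E : Subgroup A :=
    { carrier := {t | ∀ x ∈ Γ, t.1 x * x⁻¹ ∈ (⁅Γ, Γ⁆ : Subgroup G)}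
      one_mem' := fun x _ => by
        show x * x⁻¹ ∈ _
        rw [mul_inv_cancel]
        exact one_mem _
      mul_mem' := fun {s t} hs ht x hx => by
        show s.1 (t.1 x) * x⁻¹ ∈ _
        have e : s.1 (t.1 x) * x⁻¹ = (s.1 (t.1 x) * (t.1 x)⁻¹) * (t.1 x * x⁻¹) := by group
        rw [e]
        exact mul_mem (hs _ (hA t.1 t.2 x hx)) (ht x hx)
      inv_mem' := fun {t} ht x hx => by
        show (t.1⁻¹ : MulAut G) x * x⁻¹ ∈ _
        have hi : (t.1⁻¹ : MulAut G) ∈ A := A.inv_mem t.2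
        have hy := hA _ hi x hx
        have h5 := ht ((t.1⁻¹ : MulAut G) x) hy
        have e1 : t.1 ((t.1⁻¹ : MulAut G) x) = x := MulAut.apply_inv_self _ _ _
        rw [e1] at h5
        have h6 := inv_mem h5
        rwa [mul_inv_rev, inv_inv] at h6 }
  refine ⟨E, ?_, 0, ?_⟩
  · have hfin := VST.finite_homs Γ (Abelianization Γ) N hN
    have : Finite (A ⧸ E) := by
      let f : A ⧸ E → {φ : Γ →* Abelianization Γ // ∀ x, φ x ^ N = 1} :=
        fun q => ⟨F q.out, hFN q.out⟩
      refine Finite.of_injective f ?_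
      intro p q hpq
      have h7 : F p.out = F q.out := congrArg Subtype.val hpq
      rw [← p.out_eq', ← q.out_eq']
      refine QuotientGroup.eq.2 ?_
      show ∀ x ∈ Γ, ((p.out⁻¹ * q.out : A)).1 x * x⁻¹ ∈ (⁅Γ, Γ⁆ : Subgroup G)
      intro x hx
      have h8 : Abelianization.of (res p.out ⟨x, hx⟩) = Abelianization.of (res q.out ⟨x, hx⟩) := by
        have h9 := DFunLike.congr_fun h7 ⟨x, hx⟩
        rw [hF, hF, map_mul, map_mul] at h9
        exact mul_right_cancel h9
      have h10 : Abelianization.of (res q.out ⟨x, hx⟩ * (res p.out ⟨x, hx⟩)⁻¹) = 1 := by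
        rw [map_mul, map_inv, h8, mul_inv_cancel]
      rw [VST.of_eq_one_iff] at h10
      have h11 : (q.out.1 : MulAut G) x * ((p.out.1 : MulAut G) x)⁻¹ ∈ (⁅Γ, Γ⁆ : Subgroup G) := h10
      have h12 := hchar _ (A.inv_mem p.out.2) _ h11
      have e2 : (p.out.1⁻¹ : MulAut G) ((q.out.1 : MulAut G) x * ((p.out.1 : MulAut G) x)⁻¹) =
          ((p.out⁻¹ * q.out : A)).1 x * x⁻¹ := by
        rw [map_mul, map_inv]
        have e3 : (p.out.1⁻¹ : MulAut G) ((p.out.1 : MulAut G) x) = x := MulAut.inv_apply_self _ _ _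
        rw [e3]
        rfl
      rwa [e2] at h12
    exact Subgroup.finiteIndex_of_finite_quotient
  · intro d hd
    refine ⟨1, fun x hx => ?_⟩
    have h13 : d.1 x * x⁻¹ ∈ (⁅Γ, Γ⁆ : Subgroup G) := hd x hx
    rw [one_mul, inv_one, mul_one]
    exact h13

end Pool.Agent.V8H98.JF
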