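import Mathlib

/-!
# The action of the automorphisms of a surface group on the first homology: definitions
-/

set_option autoImplicit false

namespace Pool.Agent.V8H98.JF

/-- The relator `[a_1, b_1] ⋯ [a_g, b_g]` of the surface group. -/
def rel (g : ℕ) : FreeGroup (Fin g ⊕ Fin g) :=
  (List.ofFn (fun i : Fin g =>
    FreeGroup.of (Sum.inl i : Fin g ⊕ Fin g) * FreeGroup.of (Sum.inr i : Fin g ⊕ Fin g) *
    (FreeGroup.of (Sum.inl i : Fin g ⊕ Fin g))⁻¹ *
    (FreeGroup.of (Sum.inr i : Fin g ⊕ Fin g))⁻¹)).prod

/-- The fundamental group of the closed orientable surface of genus `g`. -/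
abbrev SurfaceGroup (g : ℕ) : Type := PresentedGroup ({rel g} : Set (FreeGroup (Fin g ⊕ Fin g)))

/-- The first homology of the surface, coordinates `inl i` for `a_i` and `inr i` for `b_i`. -/
abbrev V (g : ℕ) : Type := Fin g ⊕ Fin g → ℤ

/-- The intersection form. -/
def om {g : ℕ} (x y : V g) : ℤ :=
  ∑ i : Fin g, (x (Sum.inl i) * y (Sum.inr i) - x (Sum.inr i) * y (Sum.inl i))

section

variable {g : ℕ}

lemma om_add_left (x x' y : V g) : om (x + x') y = om x y + om x' y := by
  unfold om
  rw [← Finset.sum_add_distrib]
  exact Finset.sum_congr rfl fun i _ => by simp only [Pi.add_apply]; ring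

lemma om_add_right (x y y' : V g) : om x (y + y') = om x y + om x y' := by
  unfold om
  rw [← Finset.sum_add_distrib]
  exact Finset.sum_congr rfl fun i _ => by simp only [Pi.add_apply]; ring

lemma om_smul_left (t : ℤ) (x y : V g) : om (t • x) y = t * om x y := by
  unfold om
  rw [Finset.mul_sum]
  exact Finset.sum_congr rfl fun i _ => by simp only [Pi.smul_apply, smul_eq_mul]; ring

lemma om_smul_right (t : ℤ) (x y : V g) : om x (t • y) = t * om x y := by
  unfold om
  rw [Finset.mul_sum]
  exact Finset.sum_congr rfl fun i _ => by simp only [Pi.smul_apply, smul_eq_mul]; ring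

lemma om_self (x : V g) : om x x = 0 := by
  unfold om
  exact Finset.sum_eq_zero fun i _ => by ring

lemma om_swap (x y : V g) : om x y = - om y x := by
  unfold om
  rw [← Finset.sum_neg_distrib]
  exact Finset.sum_congr rfl fun i _ => by ring

lemma om_neg_left (x y : V g) : om (-x) y = - om x y := by
  have := om_smul_left (-1) x y
  simpa using this

lemma om_neg_right (x y : V g) : om x (-y) = - om x y := by
  have := om_smul_right (-1) x y
  simpa using this

lemma om_sub_left (x x' y : V g) : om (x - x') y = om x y - om x' y := by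
  rw [sub_eq_add_neg, om_add_left, om_neg_left, sub_eq_add_neg]

lemma om_sub_right (x y y' : V g) : om x (y - y') = om x y - om x y' := by
  rw [sub_eq_add_neg, om_add_right, om_neg_right, sub_eq_add_neg]

lemma om_zero_left (x : V g) : om 0 x = 0 := by
  have := om_smul_left 0 x x
  simpa using this

lemma om_zero_right (x : V g) : om x 0 = 0 := by
  have := om_smul_right 0 x x
  simpa using this

/-- The class of `a_i`. -/
def ee (i : Fin g) : V g := Pi.single (Sum.inl i) 1

/-- The class of `b_i`. -/
def ff (i : Fin g) : V g := Pi.single (Sum.inr i) 1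

lemma om_ee_right (x : V g) (i : Fin g) : om x (ee i) = - x (Sum.inr i) := by
  unfold om ee
  rw [Finset.sum_eq_single i]
  · simp
  · intro j _ hj
    have h1 : (Sum.inl j : Fin g ⊕ Fin g) ≠ Sum.inl i := fun h => hj (Sum.inl_injective h)
    simp [Pi.single_apply, h1, hj]
  · intro h
    exact absurd (Finset.mem_univ i) h

lemma om_ff_right (x : V g) (i : Fin g) : om x (ff i) = x (Sum.inl i) := by
  unfold om ff
  rw [Finset.sum_eq_single i]
  · simp
  · intro j _ hj
    have h1 : (Sum.inr j : Fin g ⊕ Fin g) ≠ Sum.inr i := fun h => hj (Sum.inr_injective h)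
    simp [Pi.single_apply, h1, hj]
  · intro h
    exact absurd (Finset.mem_univ i) h

/-- The transvection `x ↦ x + om x v • v`. -/
def tr (v : V g) : (V g ≃ₗ[ℤ] V g) where
  toFun x := x + om x v • v
  invFun x := x - om x v • v
  left_inv x := by
    simp only [om_add_left, om_smul_left, om_self]
    simp
  right_inv x := by
    simp only [om_sub_left, om_smul_left, om_self]
    simp
  map_add' x y := by
    rw [om_add_left, add_smul]
    abel
  map_smul' t x := by
    simp only [om_smul_left, RingHom.id_apply, smul_add, smul_smul]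

lemma tr_apply (v x : V g) : tr v x = x + om x v • v := rfl

/-- The group of automorphisms of `H_1` preserving the intersection form. -/
def Sp (g : ℕ) : Subgroup ((V g ≃ₗ[ℤ] V g)) where
  carrier := {f | ∀ x y, om (f x) (f y) = om x y}
  one_mem' := fun _ _ => rfl
  mul_mem' := fun {a b} ha hb x y => by
    rw [LinearEquiv.mul_apply, LinearEquiv.mul_apply, ha, hb]
  inv_mem' := fun {a} ha x y => by
    have := ha (a⁻¹ x) (a⁻¹ y)
    rw [← LinearEquiv.mul_apply, ← LinearEquiv.mul_apply, mul_inv_cancel] at this
    exact this.symm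

lemma mem_Sp {f : (V g ≃ₗ[ℤ] V g)} : f ∈ Sp g ↔ ∀ x y, om (f x) (f y) = om x y := Iff.rfl

/-! ### The homology class of an element -/

/-- Homs from the surface group to commutative groups. -/
lemma rel_comm {H : Type} [CommGroup H] (f : Fin g ⊕ Fin g → H) :
    FreeGroup.lift f (rel g) = 1 := by
  unfold rel
  rw [map_list_prod]
  apply List.prod_eq_one
  intro x hx
  rw [List.mem_map] at hx
  obtain ⟨y, hy, rfl⟩ := hx
  rw [List.mem_ofFn] at hy
  obtain ⟨i, rfl⟩ := hy
  simp only [map_mul, map_inv, FreeGroup.lift_apply_of]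
  rw [mul_comm (f (Sum.inl i)) (f (Sum.inr i))]
  group

/-- The homology class of an element of the surface group. -/
def xv (g : ℕ) : SurfaceGroup g →* Multiplicative (V g) :=
  PresentedGroup.toGroup (f := fun i => Multiplicative.ofAdd (Pi.single i 1 : V g)) (by
    intro r hr
    rw [Set.mem_singleton_iff] at hr
    subst hr
    exact rel_comm _)

/-- The homology class of an element of the surface group, additively. -/
def cls (x : SurfaceGroup g) : V g := (xv g x).toAdd

@[simp] lemma cls_mul (x y : SurfaceGroup g) : cls (x * y) = cls x + cls y := by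
  unfold cls
  rw [map_mul]
  rfl

@[simp] lemma cls_one : cls (1 : SurfaceGroup g) = 0 := by
  unfold cls
  rw [map_one]
  rfl

@[simp] lemma cls_inv (x : SurfaceGroup g) : cls x⁻¹ = - cls x := by
  unfold cls
  rw [map_inv]
  rfl

lemma cls_of (i : Fin g ⊕ Fin g) : cls (PresentedGroup.of i : SurfaceGroup g) = Pi.single i 1 := by
  unfold cls xv
  rw [PresentedGroup.toGroup.of]
  rfl

/-- The hom from `H_1` to the abelianization. -/
def sec (g : ℕ) : Multiplicative (V g) →* Abelianization (SurfaceGroup g) :=
  MonoidHom.mk' (fun v => ∏ i, (Abelianization.of (PresentedGroup.of i : SurfaceGroup g)) ^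
    ((v.toAdd : V g) i)) (by
    intro a b
    rw [← Finset.prod_mul_distrib]
    exact Finset.prod_congr rfl fun i _ => by
      rw [toAdd_mul, Pi.add_apply, zpow_add])

lemma sec_xv (x : SurfaceGroup g) : sec g (xv g x) = Abelianization.of x := by
  have h : (sec g).comp (xv g) = Abelianization.of := by
    apply PresentedGroup.ext
    intro i
    show sec g (xv g (PresentedGroup.of i)) = Abelianization.of (PresentedGroup.of i)
    unfold sec xv
    rw [PresentedGroup.toGroup.of]
    show ∏ j, (Abelianization.of (PresentedGroup.of j : SurfaceGroup g)) ^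
      ((Pi.single i 1 : V g) j) = _
    rw [Finset.prod_eq_single i]
    · rw [Pi.single_eq_same, zpow_one]
    · intro j _ hj
      rw [Pi.single_eq_of_ne hj, zpow_zero]
    · intro h
      exact absurd (Finset.mem_univ i) h
  exact DFunLike.congr_fun h x

lemma cls_eq_zero_iff (x : SurfaceGroup g) : cls x = 0 ↔ x ∈ commutator (SurfaceGroup g) := by
  constructor
  · intro h
    have h1 : xv g x = 1 := h
    have h2 := sec_xv x
    rw [h1, map_one] at h2
    exact (QuotientGroup.eq_one_iff x).1 h2.symm
  · intro h
    have h1 : commutator (SurfaceGroup g) ≤ (xv g).ker := Abelianization.commutator_subset_ker _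
    exact h1 h

lemma cls_surj (v : V g) : ∃ x : SurfaceGroup g, cls x = v := by
  let R : AddSubgroup (V g) :=
    { carrier := {v | ∃ x : SurfaceGroup g, cls x = v}
      zero_mem' := ⟨1, cls_one⟩
      add_mem' := by
        rintro _ _ ⟨x, rfl⟩ ⟨y, rfl⟩
        exact ⟨x * y, cls_mul x y⟩
      neg_mem' := by
        rintro _ ⟨x, rfl⟩
        exact ⟨x⁻¹, cls_inv x⟩ }
  have h : ∀ v : V g, v ∈ R := by
    intro v
    have h1 : v = ∑ i, v i • (Pi.single i 1 : V g) := by
      ext j
      rw [Finset.sum_apply]
      rw [Finset.sum_eq_single j]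
      · simp
      · intro k _ hk
        simp [Pi.single_apply, hk.symm]
      · intro h
        exact absurd (Finset.mem_univ j) h
    rw [h1]
    refine AddSubgroup.sum_mem _ fun i _ => AddSubgroup.zsmul_mem _ ?_ _
    exact ⟨PresentedGroup.of i, cls_of i⟩
  exact h v

/-- The class of `φ x` depends only on the class of `x`. -/
lemma cls_congr (φ : MulAut (SurfaceGroup g)) {x y : SurfaceGroup g} (h : cls x = cls y) :
    cls (φ x) = cls (φ y) := by
  have h1 : cls (x * y⁻¹) = 0 := by rw [cls_mul, cls_inv, h, add_neg_cancel]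
  rw [cls_eq_zero_iff] at h1
  have h2 : φ (x * y⁻¹) ∈ commutator (SurfaceGroup g) :=
    Subgroup.characteristic_iff_le_comap.1 inferInstance φ h1
  rw [← cls_eq_zero_iff, map_mul, map_inv, cls_mul, cls_inv] at h2
  exact add_neg_eq_zero.1 h2

/-- The action of an automorphism on `H_1`, as a function. -/
noncomputable def rf (φ : MulAut (SurfaceGroup g)) (v : V g) : V g := cls (φ (cls_surj v).choose)

lemma rf_cls (φ : MulAut (SurfaceGroup g)) (x : SurfaceGroup g) : rf φ (cls x) = cls (φ x) :=
  cls_congr φ (cls_surj (cls x)).choose_spec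

/-- The action of the automorphisms of the surface group on `H_1`. -/
noncomputable def rho (g : ℕ) : MulAut (SurfaceGroup g) →* (V g ≃ₗ[ℤ] V g) where
  toFun φ :=
    { toFun := rf φ
      invFun := rf φ⁻¹
      left_inv := fun v => by
        obtain ⟨x, rfl⟩ := cls_surj v
        rw [rf_cls, rf_cls, ← MulAut.mul_apply, inv_mul_cancel, MulAut.one_apply]
      right_inv := fun v => by
        obtain ⟨x, rfl⟩ := cls_surj v
        rw [rf_cls, rf_cls, ← MulAut.mul_apply, mul_inv_cancel, MulAut.one_apply]
      map_add' := fun v w => by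
        obtain ⟨x, rfl⟩ := cls_surj v
        obtain ⟨y, rfl⟩ := cls_surj w
        rw [← cls_mul, rf_cls, map_mul, cls_mul, rf_cls, rf_cls]
      map_smul' := fun t v => by
        obtain ⟨x, rfl⟩ := cls_surj v
        have h1 : ∀ y : SurfaceGroup g, t • cls y = cls (y ^ t) := fun y => by
          unfold cls
          rw [map_zpow]
          rfl
        rw [h1, rf_cls, map_zpow, rf_cls, RingHom.id_apply, h1] }
  map_one' := by
    apply LinearEquiv.ext
    intro v
    obtain ⟨x, rfl⟩ := cls_surj v
    exact rf_cls _ _
  map_mul' φ ψ := by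
    apply LinearEquiv.ext
    intro v
    obtain ⟨x, rfl⟩ := cls_surj v
    show rf (φ * ψ) (cls x) = rf φ (rf ψ (cls x))
    rw [rf_cls, rf_cls, rf_cls, MulAut.mul_apply]

/-- **The defining property of `rho`.** -/
lemma rho_cls (φ : MulAut (SurfaceGroup g)) (x : SurfaceGroup g) :
    rho g φ (cls x) = cls (φ x) := rf_cls φ x

end

end Pool.Agent.V8H98.JF
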