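import Pool.Agent.V8H98.JF.Tws

/-!
# The Prym representation of a double cover
-/

set_option autoImplicit false

namespace Pool.Agent.V8H98.JF

variable {h : ℕ}

namespace PsiAux

/-- `0` for `1` and `1` for `-1`. -/
def cc (s : ℤˣ) : ℤ := if s = 1 then 0 else 1

lemma cc_mul (s t : ℤˣ) : cc (s * t) = cc s + (s : ℤ) * cc t := by
  rcases Int.units_eq_one_or s with rfl | rfl <;> rcases Int.units_eq_one_or t with rfl | rfl <;>
    decide

/-- `(v, s) ↦ (P v + ((1 - s) / 2) u, s)`. -/
def FF (P : V h →ₗ[ℤ] V h) (u : V h) : EE h →* EE h where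
  toFun x := ⟨P x.v + cc x.s • u, x.s⟩
  map_one' := by
    ext1
    · show P 0 + cc 1 • u = 0
      simp [cc]
    · rfl
  map_mul' x y := by
    ext1
    · show P (x.v + (x.s : ℤ) • y.v) + cc (x.s * y.s) • u =
        P x.v + cc x.s • u + (x.s : ℤ) • (P y.v + cc y.s • u)
      rw [cc_mul, map_add, map_smul]
      module
    · rfl

lemma list_ofFn_one {G : Type} [Group G] : ∀ (n : ℕ) (F : Fin n → G), (∀ i, F i = 1) →
    (List.ofFn F).prod = 1 := by
  intro n F hF
  apply List.prod_eq_one
  intro x hx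
  rw [List.mem_ofFn] at hx
  obtain ⟨i, rfl⟩ := hx
  exact hF i

lemma EE_comm_one {x y : EE h} (hx : x.s = 1) (hy : y.s = 1) : x * y * x⁻¹ * y⁻¹ = 1 := by
  rw [mul_inv_eq_one, mul_inv_eq_iff_eq_mul]
  ext1
  · show x.v + (x.s : ℤ) • y.v = y.v + (y.s : ℤ) • x.v
    rw [hx, hy]
    simp [add_comm]
  · exact mul_comm _ _

/-- The relator, evaluated. -/
lemma rel_eval {G : Type} [Group G] (F : SurfaceGroup (h + 1) →* G) :
    (List.ofFn (fun i : Fin (h + 1) => F (PresentedGroup.of (Sum.inl i)) *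
      F (PresentedGroup.of (Sum.inr i)) * (F (PresentedGroup.of (Sum.inl i)))⁻¹ *
      (F (PresentedGroup.of (Sum.inr i)))⁻¹)).prod = 1 := by
  have h1 : PresentedGroup.mk ({rel (h + 1)} : Set (FreeGroup (Fin (h + 1) ⊕ Fin (h + 1))))
      (rel (h + 1)) = 1 := PresentedGroup.one_of_mem rfl
  have h2 := congrArg F h1
  rw [map_one] at h2
  rw [← h2]
  have h3 : F (PresentedGroup.mk ({rel (h + 1)} : Set (FreeGroup (Fin (h + 1) ⊕ Fin (h + 1))))
      (rel (h + 1))) = (F.comp (PresentedGroup.mk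
      ({rel (h + 1)} : Set (FreeGroup (Fin (h + 1) ⊕ Fin (h + 1)))))) (rel (h + 1)) := rfl
  rw [h3]
  have h4 : (F.comp (PresentedGroup.mk
      ({rel (h + 1)} : Set (FreeGroup (Fin (h + 1) ⊕ Fin (h + 1)))))) (rel (h + 1)) =
      (F.comp (PresentedGroup.mk ({rel (h + 1)} : Set (FreeGroup (Fin (h + 1) ⊕ Fin (h + 1))))))
      ((List.ofFn (fun i : Fin (h + 1) =>
        FreeGroup.of (Sum.inl i : Fin (h + 1) ⊕ Fin (h + 1)) *
        FreeGroup.of (Sum.inr i : Fin (h + 1) ⊕ Fin (h + 1)) *
        (FreeGroup.of (Sum.inl i : Fin (h + 1) ⊕ Fin (h + 1)))⁻¹ *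
        (FreeGroup.of (Sum.inr i : Fin (h + 1) ⊕ Fin (h + 1)))⁻¹)).prod) := rfl
  rw [h4, map_list_prod, List.map_ofFn]
  congr 2
  funext i
  simp only [Function.comp_apply, map_mul, map_inv]
  rfl

end PsiAux

open PsiAux

/-- A crossed homomorphism vanishes at `a_0`. -/
lemma kap_a0_eq {G : SurfaceGroup (h + 1) →* EE h} (hG : ∀ x, (G x).s = chi x) :
    (G (PresentedGroup.of (Sum.inl 0))).v = 0 := by
  have h1 := rel_eval G
  rw [List.ofFn_succ, List.prod_cons, list_ofFn_one, mul_one] at h1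
  · rw [mul_inv_eq_one, mul_inv_eq_iff_eq_mul] at h1
    have h2 := congrArg EE.v h1
    have h3 : (G (PresentedGroup.of (Sum.inl 0))).v +
        ((G (PresentedGroup.of (Sum.inl 0))).s : ℤ) • (G (PresentedGroup.of (Sum.inr 0))).v =
        (G (PresentedGroup.of (Sum.inr 0))).v +
        ((G (PresentedGroup.of (Sum.inr 0))).s : ℤ) • (G (PresentedGroup.of (Sum.inl 0))).v := h2
    rw [hG, hG, chi_a, chi_b0] at h3
    simp only [Units.val_one, one_smul, Units.val_neg, neg_smul] at h3
    have h4 : (2 : ℤ) • (G (PresentedGroup.of (Sum.inl 0))).v = 0 := by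
      rw [two_smul]
      have h5 : (G (PresentedGroup.of (Sum.inl 0))).v + (G (PresentedGroup.of (Sum.inl 0))).v =
        ((G (PresentedGroup.of (Sum.inl 0))).v + (G (PresentedGroup.of (Sum.inr 0))).v) -
        ((G (PresentedGroup.of (Sum.inr 0))).v + -(G (PresentedGroup.of (Sum.inl 0))).v) := by abel
      rw [h5, h3, sub_self]
    exact (smul_eq_zero.1 h4).resolve_left two_ne_zero
  · intro i
    exact EE_comm_one (by rw [hG, chi_a]) (by rw [hG, chi_b])

/-- Classification of the crossed homomorphisms. -/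
theorem crossed (G : SurfaceGroup (h + 1) →* EE h) (hG : ∀ x, (G x).s = chi x) :
    ∃ P : V h →ₗ[ℤ] V h, ∀ x ∈ Gam h, (G x).v = P (kap x) := by
  set P := li (fun i : Fin h => (G (PresentedGroup.of (Sum.inl i.succ))).v)
    (fun i : Fin h => (G (PresentedGroup.of (Sum.inr i.succ))).v) with hP
  have hPe : ∀ i, P (ee i) = (G (PresentedGroup.of (Sum.inl i.succ))).v := by
    intro i
    rw [hP, li_apply, Finset.sum_eq_single i]
    · simp [ee]
    · intro j _ hj
      simp [ee, hj]
    · intro h'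
      exact absurd (Finset.mem_univ i) h'
  have hPf : ∀ i, P (ff i) = (G (PresentedGroup.of (Sum.inr i.succ))).v := by
    intro i
    rw [hP, li_apply, Finset.sum_eq_single i]
    · simp [ff]
    · intro j _ hj
      simp [ff, hj]
    · intro h'
      exact absurd (Finset.mem_univ i) h'
  set u := (G (PresentedGroup.of (Sum.inr 0))).v with hu
  have hGF : G = (FF P u).comp (Th h) := by
    apply PresentedGroup.ext
    intro i
    rw [MonoidHom.comp_apply]
    have hs : (G (PresentedGroup.of i)).s = (FF P u (Th h (PresentedGroup.of i))).s := hG _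
    have hv : (G (PresentedGroup.of i)).v = (FF P u (Th h (PresentedGroup.of i))).v := by
      show _ = P (kap (PresentedGroup.of i)) + cc (chi (PresentedGroup.of i)) • u
      rcases i with i | i
      · rw [chi_a]
        induction i using Fin.cases with
        | zero =>
          rw [kap_a0_eq hG, kap_a0]
          simp [cc]
        | succ j =>
          rw [kap_a, hPe]
          simp [cc]
      · induction i using Fin.cases with
        | zero =>
          rw [kap_b0, chi_b0]
          have : cc (-1) = 1 := by decide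
          rw [this, map_zero, one_smul, zero_add]
        | succ j =>
          rw [kap_b, chi_b, hPf]
          simp [cc]
    ext1
    · exact hv
    · exact hs
  refine ⟨P, fun x hx => ?_⟩
  rw [hGF]
  show P (kap x) + cc (chi x) • u = P (kap x)
  rw [hx]
  simp [cc]

lemma kap_phi (φ : A0 h) : ∃ P : V h →ₗ[ℤ] V h, ∀ x ∈ Gam h, kap (φ.1 x) = P (kap x) := by
  obtain ⟨P, hP⟩ := crossed ((Th h).comp φ.1.toMonoidHom) (fun x => φ.2 x)
  exact ⟨P, hP⟩

lemma A0_Gam (φ : A0 h) {x : SurfaceGroup (h + 1)} (hx : x ∈ Gam h) : φ.1 x ∈ Gam h := by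
  rw [mem_Gam, φ.2]
  exact hx

/-- The linear map given by an automorphism preserving `χ`. -/
noncomputable def ps (φ : A0 h) : V h →ₗ[ℤ] V h := (kap_phi φ).choose

lemma ps_spec (φ : A0 h) {x : SurfaceGroup (h + 1)} (hx : x ∈ Gam h) :
    kap (φ.1 x) = ps φ (kap x) := (kap_phi φ).choose_spec x hx

lemma ps_mul (φ φ' : A0 h) (v : V h) : ps (φ * φ') v = ps φ (ps φ' v) := by
  obtain ⟨x, hx, rfl⟩ := kap_surj v
  rw [← ps_spec _ hx, ← ps_spec _ hx, ← ps_spec _ (A0_Gam φ' hx)]
  rfl

lemma ps_one (v : V h) : ps (1 : A0 h) v = v := by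
  obtain ⟨x, hx, rfl⟩ := kap_surj v
  rw [← ps_spec _ hx]
  rfl

variable (h) in
/-- The Prym representation. -/
noncomputable def psi : A0 h →* (V h ≃ₗ[ℤ] V h) where
  toFun φ := LinearEquiv.ofLinearMap (ps φ) (ps φ⁻¹)
    (by
      apply LinearMap.ext
      intro x
      show ps φ (ps φ⁻¹ x) = x
      rw [← ps_mul, mul_inv_cancel, ps_one])
    (by
      apply LinearMap.ext
      intro x
      show ps φ⁻¹ (ps φ x) = x
      rw [← ps_mul, inv_mul_cancel, ps_one])
  map_one' := by
    apply LinearEquiv.ext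
    intro x
    exact ps_one x
  map_mul' A B := by
    apply LinearEquiv.ext
    intro x
    exact ps_mul A B x

/-- **The defining property of the Prym representation.** -/
theorem psi_spec (φ : A0 h) {x : SurfaceGroup (h + 1)} (hx : x ∈ Gam h) :
    kap (φ.1 x) = psi h φ (kap x) := ps_spec φ hx

end Pool.Agent.V8H98.JF
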