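import Pool.Agent.V8H98.JF.Tw
import Pool.Agent.V8H98.JF.Psi

/-!
# Automorphisms of the surface group acting on the Prym representation by transvections, and the
bounding pair
-/

set_option autoImplicit false

namespace Pool.Agent.V8H98.JF

section

variable {h : ℕ}

/-- The character as a homomorphism. -/
def chiH (h : ℕ) : SurfaceGroup (h + 1) →* ℤˣ := MonoidHom.mk' chi chi_mul

/-- An automorphism preserves the character if it does so on the generators. -/
lemma mem_A0_of_gens {φ : MulAut (SurfaceGroup (h + 1))}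
    (hφ : ∀ k, chi (φ (PresentedGroup.of k)) = chi (PresentedGroup.of k : SurfaceGroup (h + 1))) :
    φ ∈ A0 h := by
  have h1 : (chiH h).comp φ.toMonoidHom = chiH h := by
    apply PresentedGroup.ext
    intro k
    exact hφ k
  exact fun x => DFunLike.congr_fun h1 x

lemma psi_ee (φ : A0 h) (i : Fin h) :
    psi h φ (ee i) = kap (φ.1 (PresentedGroup.of (Sum.inl i.succ))) := by
  rw [psi_spec φ (mem_Gam.2 (chi_a _)), kap_a]

lemma psi_ff (φ : A0 h) (i : Fin h) :
    psi h φ (ff i) = kap (φ.1 (PresentedGroup.of (Sum.inr i.succ))) := by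
  rw [psi_spec φ (mem_Gam.2 (chi_b _)), kap_b]

lemma psi_eq_tr (φ : A0 h) (v : V h)
    (h1 : ∀ i : Fin h, kap (φ.1 (PresentedGroup.of (Sum.inl i.succ))) = tr v (ee i))
    (h2 : ∀ i : Fin h, kap (φ.1 (PresentedGroup.of (Sum.inr i.succ))) = tr v (ff i)) :
    psi h φ = tr v := by
  apply LinearEquiv.toLinearMap_injective
  apply LinearMap.pi_ext'
  intro k
  apply LinearMap.ext_ring
  show psi h φ (Pi.single k 1) = tr v (Pi.single k 1)
  rcases k with i | i
  · exact (psi_ee φ i).trans (h1 i)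
  · exact (psi_ff φ i).trans (h2 i)

lemma om_ee_ee' (i k : Fin h) : om (ee k : V h) (ee i) = 0 := by
  show om (Pi.single (Sum.inl k) 1) (ee i) = 0
  rw [om_single_ee, if_neg Sum.inl_ne_inr]

lemma om_ff_ee' (i k : Fin h) : om (ff k : V h) (ee i) = if k = i then -1 else 0 := by
  show om (Pi.single (Sum.inr k) 1) (ee i) = _
  rw [om_single_ee]
  by_cases hk : k = i
  · rw [if_pos (congrArg _ hk), if_pos hk]
  · rw [if_neg (fun hc => hk (Sum.inr_injective hc)), if_neg hk]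

lemma om_ff_ff' (i k : Fin h) : om (ff k : V h) (ff i) = 0 := by
  show om (Pi.single (Sum.inr k) 1) (ff i) = 0
  rw [om_single_ff, if_neg Sum.inr_ne_inl]

lemma om_ee_ff' (i k : Fin h) : om (ee k : V h) (ff i) = if k = i then 1 else 0 := by
  show om (Pi.single (Sum.inl k) 1) (ff i) = _
  rw [om_single_ff]
  by_cases hk : k = i
  · rw [if_pos (congrArg _ hk), if_pos hk]
  · rw [if_neg (fun hc => hk (Sum.inl_injective hc)), if_neg hk]

lemma succ_ne' {i k : Fin h} (hk : k ≠ i) : k.succ ≠ i.succ :=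
  fun hc => hk (Fin.succ_injective _ hc)

/-- The transvection of `e_i`. -/
theorem tws_e (i : Fin h) : ∃ φ : A0 h, psi h φ = tr (ee i) := by
  obtain ⟨-, φ, hφ⟩ := exists_f1 (Sum.inr i.succ : Fin (h + 1) ⊕ Fin (h + 1)) (Sum.inl i.succ)
    Sum.inl_ne_inr (rp_f1_inr i.succ _ (by group)) (rp_f1_inr i.succ _ (by group))
  have hA : φ ∈ A0 h := by
    apply mem_A0_of_gens
    intro k
    rw [hφ]
    by_cases hk : k = Sum.inr i.succ
    · rw [hk, f1_self, chi_mul, chi_inv, chi_a, inv_one, mul_one]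
    · rw [f1_ne _ hk]
  refine ⟨⟨φ, hA⟩, psi_eq_tr _ _ (fun k => ?_) (fun k => ?_)⟩
  · show kap (φ _) = _
    rw [hφ, f1_ne _ Sum.inl_ne_inr, kap_a, tr_apply, om_ee_ee', zero_smul, add_zero]
  · show kap (φ _) = _
    rw [hφ, tr_apply, om_ff_ee']
    by_cases hk : k = i
    · subst hk
      rw [f1_self, kap_mul_Gam (mem_Gam.2 (chi_b k)), kap_inv_Gam (mem_Gam.2 (chi_a _)), kap_b,
        kap_a, if_pos rfl]
      module
    · rw [f1_ne _ (fun hc => succ_ne' hk (Sum.inr_injective hc)), kap_b, if_neg hk, zero_smul,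
        add_zero]

/-- The transvection of `f_i`. -/
theorem tws_f (i : Fin h) : ∃ φ : A0 h, psi h φ = tr (ff i) := by
  obtain ⟨⟨φ, hφ⟩, -⟩ := exists_f1 (Sum.inl i.succ : Fin (h + 1) ⊕ Fin (h + 1)) (Sum.inr i.succ)
    Sum.inr_ne_inl (rp_f1_inl i.succ _ (by group)) (rp_f1_inl i.succ _ (by group))
  have hA : φ ∈ A0 h := by
    apply mem_A0_of_gens
    intro k
    rw [hφ]
    by_cases hk : k = Sum.inl i.succ
    · rw [hk, f1_self, chi_mul, chi_b, mul_one]
    · rw [f1_ne _ hk]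
  refine ⟨⟨φ, hA⟩, psi_eq_tr _ _ (fun k => ?_) (fun k => ?_)⟩
  · show kap (φ _) = _
    rw [hφ, tr_apply, om_ee_ff']
    by_cases hk : k = i
    · subst hk
      rw [f1_self, kap_mul_Gam (mem_Gam.2 (chi_a _)), kap_b, kap_a, if_pos rfl, one_smul]
    · rw [f1_ne _ (fun hc => succ_ne' hk (Sum.inl_injective hc)), kap_a, if_neg hk, zero_smul,
        add_zero]
  · show kap (φ _) = _
    rw [hφ, f1_ne _ Sum.inr_ne_inl, kap_b, tr_apply, om_ff_ff', zero_smul, add_zero]

/-- The transvection of `f_i - f_j`, for `j = i + 1`. -/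
theorem tws_d (i j : Fin h) (hij : (j : ℕ) = i + 1) :
    ∃ φ : A0 h, psi h φ = tr (ff i - ff j) := by
  have hne : j ≠ i := by
    intro hc
    rw [hc] at hij
    omega
  have hij' : (j.succ : ℕ) = i.succ + 1 := by
    rw [Fin.val_succ, Fin.val_succ, hij]
  obtain ⟨φ, hφ⟩ := exists_aut (f2 i.succ j.succ (yy i.succ j.succ)⁻¹)
    (f2 i.succ j.succ (yy i.succ j.succ))
    (rp_f2 _ _ hij' _ (Or.inr rfl)) (rp_f2 _ _ hij' _ (Or.inl rfl))
    (fun k => by
      have := hf_f2 i.succ j.succ hij' (yy i.succ j.succ)⁻¹ (Or.inr rfl)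
        (rp_f2 _ _ hij' _ (Or.inr rfl)) k
      rwa [inv_inv] at this)
    (fun k => hf_f2 i.succ j.succ hij' (yy i.succ j.succ) (Or.inl rfl)
      (rp_f2 _ _ hij' _ (Or.inl rfl)) k)
  have hg1 : yy i.succ j.succ ∈ Gam h := by
    unfold yy
    exact (Gam h).mul_mem ((Gam h).mul_mem ((Gam h).mul_mem ((Gam h).inv_mem (mem_Gam.2 (chi_b _)))
      (mem_Gam.2 (chi_a _))) (mem_Gam.2 (chi_b _))) ((Gam h).inv_mem (mem_Gam.2 (chi_a _)))
  have hga : ∀ k : Fin h, (PresentedGroup.of (Sum.inl k.succ) : SurfaceGroup (h + 1)) ∈ Gam h :=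
    fun k => mem_Gam.2 (chi_a _)
  have hgb : ∀ k : Fin h, (PresentedGroup.of (Sum.inr k.succ) : SurfaceGroup (h + 1)) ∈ Gam h :=
    fun k => mem_Gam.2 (chi_b _)
  have hy : kap (yy i.succ j.succ) = ff j - ff i := by
    have e1 := (Gam h).inv_mem (hgb i)
    have e2 := (Gam h).mul_mem e1 (hga j)
    have e3 := (Gam h).mul_mem e2 (hgb j)
    unfold yy
    rw [kap_mul_Gam e3, kap_mul_Gam e2, kap_mul_Gam e1, kap_inv_Gam (hgb i), kap_inv_Gam (hga j),
      kap_a, kap_b, kap_b]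
    abel
  have hchi : chi (yy i.succ j.succ) = 1 := hg1
  have hA : φ ∈ A0 h := by
    apply mem_A0_of_gens
    intro k
    rw [hφ]
    unfold f2
    split_ifs with h1 h2 h3
    · rw [h1, chi_mul, chi_inv, hchi, inv_one, mul_one]
    · rw [h2, chi_mul, chi_mul, inv_inv, chi_inv, hchi, inv_one, mul_one, one_mul]
    · rw [h3, chi_mul, inv_inv, hchi, one_mul]
    · rfl
  refine ⟨⟨φ, hA⟩, psi_eq_tr _ _ (fun k => ?_) (fun k => ?_)⟩
  · show kap (φ _) = _
    rw [hφ, tr_apply, om_sub_right, om_ee_ff', om_ee_ff']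
    by_cases h1 : k = i
    · subst h1
      rw [f2_ai, kap_mul_Gam (hga k), kap_inv_Gam hg1, hy, kap_a, if_pos rfl, if_neg hne.symm]
      module
    · by_cases h2 : k = j
      · subst h2
        rw [f2_aj (succ_ne' h1), inv_inv, kap_mul_Gam hg1, hy, kap_a, if_pos rfl, if_neg h1]
        module
      · rw [f2_a (succ_ne' h1) (succ_ne' h2), kap_a, if_neg h1, if_neg h2]
        module
  · show kap (φ _) = _
    rw [hφ, tr_apply, om_sub_right, om_ff_ff', om_ff_ff', sub_zero, zero_smul, add_zero]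
    by_cases h1 : k = i
    · subst h1
      rw [f2_bi, inv_inv, kap_mul_Gam ((Gam h).mul_mem hg1 (hgb k)), kap_mul_Gam hg1,
        kap_inv_Gam hg1, kap_b]
      abel
    · rw [f2_b (succ_ne' h1), kap_b]

end

/-! ### The bounding pair -/

section

variable {g : ℕ}

/-- The element `b_i⁻¹ [a_j, b_j]`. -/
def zz (i j : Fin g) : SurfaceGroup g :=
  (PresentedGroup.of (Sum.inr i))⁻¹ * PresentedGroup.of (Sum.inl j) *
    PresentedGroup.of (Sum.inr j) * (PresentedGroup.of (Sum.inl j))⁻¹ *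
    (PresentedGroup.of (Sum.inr j))⁻¹

/-- Images of the generators. -/
def f3 (i j : Fin g) (w t : SurfaceGroup g) (k : Fin g ⊕ Fin g) : SurfaceGroup g :=
  if k = Sum.inl i then w else
  if k = Sum.inr i then t⁻¹ * PresentedGroup.of (Sum.inr i) * t else
  if k = Sum.inl j then t⁻¹ * PresentedGroup.of (Sum.inl j) * t else
  if k = Sum.inr j then t⁻¹ * PresentedGroup.of (Sum.inr j) * t else PresentedGroup.of k

lemma f3_ai (i j : Fin g) (w t : SurfaceGroup g) : f3 i j w t (Sum.inl i) = w := if_pos rfl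

lemma f3_bi (i j : Fin g) (w t : SurfaceGroup g) :
    f3 i j w t (Sum.inr i) = t⁻¹ * PresentedGroup.of (Sum.inr i) * t := by
  unfold f3
  rw [if_neg Sum.inr_ne_inl, if_pos rfl]

lemma f3_aj {i j : Fin g} (h : j ≠ i) (w t : SurfaceGroup g) :
    f3 i j w t (Sum.inl j) = t⁻¹ * PresentedGroup.of (Sum.inl j) * t := by
  unfold f3
  rw [if_neg (fun hc => h (Sum.inl_injective hc)), if_neg Sum.inl_ne_inr, if_pos rfl]

lemma f3_bj {i j : Fin g} (h : j ≠ i) (w t : SurfaceGroup g) :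
    f3 i j w t (Sum.inr j) = t⁻¹ * PresentedGroup.of (Sum.inr j) * t := by
  unfold f3
  rw [if_neg Sum.inr_ne_inl, if_neg (fun hc => h (Sum.inr_injective hc)), if_neg Sum.inr_ne_inl,
    if_pos rfl]

lemma f3_a {i j k : Fin g} (h : k ≠ i) (h' : k ≠ j) (w t : SurfaceGroup g) :
    f3 i j w t (Sum.inl k) = PresentedGroup.of (Sum.inl k) := by
  unfold f3
  rw [if_neg (fun hc => h (Sum.inl_injective hc)), if_neg Sum.inl_ne_inr,
    if_neg (fun hc => h' (Sum.inl_injective hc)), if_neg Sum.inl_ne_inr]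

lemma f3_b {i j k : Fin g} (h : k ≠ i) (h' : k ≠ j) (w t : SurfaceGroup g) :
    f3 i j w t (Sum.inr k) = PresentedGroup.of (Sum.inr k) := by
  unfold f3
  rw [if_neg Sum.inr_ne_inl, if_neg (fun hc => h (Sum.inr_injective hc)), if_neg Sum.inr_ne_inl,
    if_neg (fun hc => h' (Sum.inr_injective hc))]

/-- The two pairs of parameters: the automorphism and its inverse. -/
def Par (i j : Fin g) (w t : SurfaceGroup g) : Prop :=
  (t = zz i j ∧ w = PresentedGroup.of (Sum.inl i) * PresentedGroup.of (Sum.inr i) * t) ∨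
  (t = (zz i j)⁻¹ ∧ w = PresentedGroup.of (Sum.inl i) * (PresentedGroup.of (Sum.inr i))⁻¹ * t)

lemma rp_f3 (i j : Fin g) (hij : (j : ℕ) = i + 1) (w t : SurfaceGroup g) (ht : Par i j w t) :
    rp (f3 i j w t) = 1 := by
  have hne : j ≠ i := by
    intro hc
    rw [hc] at hij
    omega
  rw [← rp_of]
  unfold rp
  refine prod_ofFn_twob g _ _ i j hij (fun k h1 h2 => ?_) ?_
  · rw [f3_a h1 h2, f3_b h1 h2]
  · rw [f3_ai, f3_bi, f3_aj hne, f3_bj hne]
    rcases ht with ⟨rfl, rfl⟩ | ⟨rfl, rfl⟩ <;> unfold zz <;> group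

lemma hf_f3_zz (i j : Fin g) (hij : (j : ℕ) = i + 1) (w t : SurfaceGroup g)
    (ht : t = zz i j ∨ t = (zz i j)⁻¹) (h : rp (f3 i j w t) = 1) :
    hf (f3 i j w t) h (zz i j) = zz i j := by
  have hne : j ≠ i := by
    intro hc
    rw [hc] at hij
    omega
  have h1 : hf (f3 i j w t) h (zz i j) = t⁻¹ * zz i j * t := by
    unfold zz
    rw [map_mul, map_mul, map_mul, map_mul, map_inv, map_inv, map_inv, hf_of, hf_of, hf_of, f3_bi,
      f3_aj hne, f3_bj hne]
    group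
  rw [h1]
  rcases ht with rfl | rfl <;> group

lemma hf_f3 (i j : Fin g) (hij : (j : ℕ) = i + 1) (w w' t : SurfaceGroup g)
    (h1 : Par i j w t) (h2 : Par i j w' t⁻¹)
    (hw : w' = PresentedGroup.of (Sum.inl i) * (PresentedGroup.of (Sum.inr i))⁻¹ * t⁻¹ ∧
        w = PresentedGroup.of (Sum.inl i) * PresentedGroup.of (Sum.inr i) * t ∨
      w' = PresentedGroup.of (Sum.inl i) * PresentedGroup.of (Sum.inr i) * t⁻¹ ∧
        w = PresentedGroup.of (Sum.inl i) * (PresentedGroup.of (Sum.inr i))⁻¹ * t)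
    (h : rp (f3 i j w t) = 1) (k : Fin g ⊕ Fin g) :
    hf (f3 i j w t) h (f3 i j w' t⁻¹ k) = PresentedGroup.of k := by
  have hne : j ≠ i := by
    intro hc
    rw [hc] at hij
    omega
  have ht : t = zz i j ∨ t = (zz i j)⁻¹ := by
    rcases h1 with h1 | h1
    · exact Or.inl h1.1
    · exact Or.inr h1.1
  have h0 : hf (f3 i j w t) h t = t := by
    have h4 := hf_f3_zz i j hij w t ht h
    rcases ht with ht | ht
    · rw [← ht] at h4
      exact h4
    · have h5 : zz i j = t⁻¹ := by rw [ht, inv_inv]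
      rw [h5, map_inv, inv_inj] at h4
      exact h4
  rcases k with k | k
  · by_cases e1 : k = i
    · subst e1
      rw [f3_ai]
      rcases hw with ⟨rfl, hw⟩ | ⟨rfl, hw⟩
      · rw [map_mul, map_mul, map_inv, map_inv, h0, hf_of, hf_of, f3_ai, f3_bi, hw]
        group
      · rw [map_mul, map_mul, map_inv, h0, hf_of, hf_of, f3_ai, f3_bi, hw]
        group
    · by_cases e2 : k = j
      · subst e2
        rw [f3_aj e1, map_mul, map_mul, map_inv, map_inv, h0, hf_of, f3_aj e1]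
        group
      · rw [f3_a e1 e2, hf_of, f3_a e1 e2]
  · by_cases e1 : k = i
    · subst e1
      rw [f3_bi, map_mul, map_mul, map_inv, map_inv, h0, hf_of, f3_bi]
      group
    · by_cases e2 : k = j
      · subst e2
        rw [f3_bj e1, map_mul, map_mul, map_inv, map_inv, h0, hf_of, f3_bj e1]
        group
      · rw [f3_b e1 e2, hf_of, f3_b e1 e2]

/-- The bounding pair of neighbouring handles, explicitly. -/
theorem exists_f3 (i j : Fin g) (hij : (j : ℕ) = i + 1) : ∃ δ : MulAut (SurfaceGroup g), ∀ k,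
    δ (PresentedGroup.of k) = f3 i j (PresentedGroup.of (Sum.inl i) *
      PresentedGroup.of (Sum.inr i) * zz i j) (zz i j) k := by
  have p1 : Par i j (PresentedGroup.of (Sum.inl i) * PresentedGroup.of (Sum.inr i) * zz i j)
      (zz i j) := Or.inl ⟨rfl, rfl⟩
  have p2 : Par i j (PresentedGroup.of (Sum.inl i) * (PresentedGroup.of (Sum.inr i))⁻¹ *
      (zz i j)⁻¹) (zz i j)⁻¹ := Or.inr ⟨rfl, rfl⟩
  have q2 := hf_f3 i j hij _ (PresentedGroup.of (Sum.inl i) *
    PresentedGroup.of (Sum.inr i) * zz i j) (zz i j)⁻¹ p2 (by rw [inv_inv]; exact p1)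
    (Or.inr ⟨by rw [inv_inv], rfl⟩) (rp_f3 i j hij _ _ p2)
  rw [inv_inv] at q2
  exact exists_aut _ _ (rp_f3 i j hij _ _ p1) (rp_f3 i j hij _ _ p2)
    (hf_f3 i j hij _ _ (zz i j) p1 p2 (Or.inl ⟨rfl, rfl⟩) (rp_f3 i j hij _ _ p1)) q2

lemma cls_zz (i j : Fin g) : cls (zz i j) = - ff i := by
  unfold zz
  rw [cls_mul, cls_mul, cls_mul, cls_mul, cls_inv, cls_inv, cls_inv, cls_of, cls_of, cls_of]
  show -(ff i) + ee j + ff j + -(ee j) + -(ff j) = _
  abel

end

section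

variable {h : ℕ}

lemma chi_zz (j : Fin h) : chi (zz 0 j.succ : SurfaceGroup (h + 1)) = -1 := by
  unfold zz
  rw [chi_mul, chi_mul, chi_mul, chi_mul, chi_inv, chi_inv, chi_inv, chi_b0, chi_a, chi_b]
  rfl

/-- The value of `κ` at a conjugate by an element outside the kernel of `χ`. -/
lemma kap_conj_neg {x z : SurfaceGroup (h + 1)} (hx : x ∈ Gam h) (hz : chi z = -1) :
    kap (z⁻¹ * x * z) = - kap x := by
  have hz' : chi z⁻¹ = -1 := by rw [chi_inv, hz]; rfl
  rw [mul_assoc, kap_mul, kap_mul_Gam hx, kap_inv, hz', hz]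
  have e1 : (((-1 : ℤˣ)⁻¹ : ℤˣ) : ℤ) = -1 := rfl
  have e2 : ((-1 : ℤˣ) : ℤ) = -1 := rfl
  rw [e1, e2]
  module

/-- The bounding pair, explicitly. -/
theorem exists_bp (j : Fin h) (hj : (j : ℕ) = 0) : ∃ δ : A0 h, ∀ k,
    δ.1 (PresentedGroup.of k) = f3 0 j.succ (PresentedGroup.of (Sum.inl 0) *
      PresentedGroup.of (Sum.inr 0) * zz 0 j.succ) (zz 0 j.succ) k := by
  obtain ⟨δ, hδ⟩ := exists_f3 (0 : Fin (h + 1)) j.succ (by rw [Fin.val_succ, hj]; rfl)
  have hA : δ ∈ A0 h := by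
    apply mem_A0_of_gens
    intro k
    rw [hδ]
    have hc : ∀ x z : SurfaceGroup (h + 1), chi (z⁻¹ * x * z) = chi x := by
      intro x z
      rw [chi_mul, chi_mul, chi_inv, mul_comm, mul_inv_cancel_left]
    unfold f3
    split_ifs with h1 h2 h3 h4
    · rw [h1, chi_mul, chi_mul, chi_a, chi_b0, chi_zz]
      rfl
    · rw [h2, hc]
    · rw [h3, hc]
    · rw [h4, hc]
    · rfl
  exact ⟨⟨δ, hA⟩, hδ⟩

lemma bp_props (j : Fin h) (hj : (j : ℕ) = 0) (δ : A0 h)
    (hδ : ∀ k, δ.1 (PresentedGroup.of k) = f3 0 j.succ (PresentedGroup.of (Sum.inl 0) *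
      PresentedGroup.of (Sum.inr 0) * zz 0 j.succ) (zz 0 j.succ) k) :
    rho (h + 1) δ.1 = 1 ∧ ∀ i : Fin h,
      psi h δ (ee i) = (if (i : ℕ) = 0 then (-1 : ℤ) else 1) • ee i ∧
      psi h δ (ff i) = (if (i : ℕ) = 0 then (-1 : ℤ) else 1) • ff i := by
  constructor
  · apply LinearEquiv.toLinearMap_injective
    apply LinearMap.pi_ext'
    intro k
    apply LinearMap.ext_ring
    show rho (h + 1) δ.1 (Pi.single k 1) = Pi.single k 1
    rw [← cls_of, rho_cls, hδ]
    have hc : ∀ x z : SurfaceGroup (h + 1), cls (z⁻¹ * x * z) = cls x := by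
      intro x z
      rw [cls_mul, cls_mul, cls_inv]
      abel
    unfold f3
    split_ifs with h1 h2 h3 h4
    · rw [h1, cls_mul, cls_mul, cls_zz, cls_of, cls_of]
      show ee 0 + ff 0 + - ff 0 = ee 0
      abel
    · rw [h2, hc]
    · rw [h3, hc]
    · rw [h4, hc]
    · rfl
  · intro i
    rw [psi_ee, psi_ff, hδ, hδ]
    by_cases hi : i = j
    · subst hi
      rw [f3_aj (Fin.succ_ne_zero _), f3_bj (Fin.succ_ne_zero _),
        kap_conj_neg (mem_Gam.2 (chi_a _)) (chi_zz i), kap_conj_neg (mem_Gam.2 (chi_b _)) (chi_zz i),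
        kap_a, kap_b, if_pos hj, neg_smul, one_smul, neg_smul, one_smul]
      exact ⟨rfl, rfl⟩
    · have hi0 : (i : ℕ) ≠ 0 := fun hc => hi (Fin.ext (by rw [hc, hj]))
      rw [f3_a (Fin.succ_ne_zero _) (succ_ne' hi), f3_b (Fin.succ_ne_zero _) (succ_ne' hi), kap_a,
        kap_b, if_neg hi0, one_smul, one_smul]
      exact ⟨rfl, rfl⟩

/-- **The bounding pair.** -/
theorem bp (h0 : 0 < h) : ∃ δ : A0 h, rho (h + 1) δ.1 = 1 ∧ ∀ i : Fin h,
    psi h δ (ee i) = (if (i : ℕ) = 0 then (-1 : ℤ) else 1) • ee i ∧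
    psi h δ (ff i) = (if (i : ℕ) = 0 then (-1 : ℤ) else 1) • ff i := by
  obtain ⟨δ, hδ⟩ := exists_bp (⟨0, h0⟩ : Fin h) rfl
  exact ⟨δ, bp_props _ rfl δ hδ⟩

/-- The bounding pair acts trivially modulo the commutator subgroup of a normal subgroup that
contains `b_0`, `a_1`, `b_1`. -/
lemma bp_comm (j : Fin h) (_hj : (j : ℕ) = 0) (δ : A0 h)
    (hδ : ∀ k, δ.1 (PresentedGroup.of k) = f3 0 j.succ (PresentedGroup.of (Sum.inl 0) *
      PresentedGroup.of (Sum.inr 0) * zz 0 j.succ) (zz 0 j.succ) k)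
    (G : Subgroup (SurfaceGroup (h + 1))) (hG : G.Normal)
    (hb0 : PresentedGroup.of (Sum.inr 0) ∈ G) (ha1 : PresentedGroup.of (Sum.inl j.succ) ∈ G)
    (hb1 : PresentedGroup.of (Sum.inr j.succ) ∈ G) (x : SurfaceGroup (h + 1)) :
    δ.1 x * x⁻¹ ∈ Bracket.bracket G G := by
  have hN : (Bracket.bracket G G : Subgroup (SurfaceGroup (h + 1))).Normal :=
    Subgroup.commutator_normal G G
  obtain ⟨N, hNe⟩ : ∃ N : Subgroup (SurfaceGroup (h + 1)), N = Bracket.bracket G G := ⟨_, rfl⟩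
  rw [← hNe] at hN ⊢
  -- elements of `G` commute modulo `N`
  have hcomm : ∀ u v : SurfaceGroup (h + 1), u ∈ G → v ∈ G →
      (QuotientGroup.mk' N) u * (QuotientGroup.mk' N) v =
        (QuotientGroup.mk' N) v * (QuotientGroup.mk' N) u := by
    intro u v hu hv
    have h1 : u * v * u⁻¹ * v⁻¹ ∈ N := by
      rw [hNe, ← commutatorElement_def]
      exact Subgroup.commutator_mem_commutator hu hv
    have h2 := (QuotientGroup.eq_one_iff (N := N) _).2 h1
    have h3 : (QuotientGroup.mk' N) (u * v * u⁻¹ * v⁻¹) = 1 := h2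
    rw [map_mul, map_mul, map_mul, map_inv, map_inv, mul_inv_eq_one, mul_inv_eq_iff_eq_mul] at h3
    exact h3
  have hz : zz 0 j.succ ∈ G := by
    unfold zz
    exact G.mul_mem (G.mul_mem (G.mul_mem (G.mul_mem (G.inv_mem hb0) ha1) hb1) (G.inv_mem ha1))
      (G.inv_mem hb1)
  have hconj : ∀ u : SurfaceGroup (h + 1), u ∈ G →
      (QuotientGroup.mk' N) ((zz 0 j.succ)⁻¹ * u * zz 0 j.succ) = (QuotientGroup.mk' N) u := by
    intro u hu
    rw [map_mul, map_mul, map_inv, mul_assoc, hcomm u _ hu hz, inv_mul_cancel_left]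
  have hhom : (QuotientGroup.mk' N).comp δ.1.toMonoidHom = QuotientGroup.mk' N := by
    apply PresentedGroup.ext
    intro k
    show (QuotientGroup.mk' N) (δ.1 (PresentedGroup.of k)) = _
    rw [hδ]
    unfold f3
    split_ifs with h1 h2 h3 h4
    · rw [h1]
      have e1 : (PresentedGroup.of (Sum.inl 0) * PresentedGroup.of (Sum.inr 0) * zz 0 j.succ :
          SurfaceGroup (h + 1)) = PresentedGroup.of (Sum.inl 0) *
          (PresentedGroup.of (Sum.inl j.succ) * PresentedGroup.of (Sum.inr j.succ) *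
            (PresentedGroup.of (Sum.inl j.succ))⁻¹ * (PresentedGroup.of (Sum.inr j.succ))⁻¹) := by
        unfold zz
        group
      rw [e1, map_mul, map_mul _ (_ * _ * _), map_mul _ (_ * _), map_mul, map_inv, map_inv,
        hcomm _ _ ha1 hb1, mul_inv_cancel_right, mul_inv_cancel, mul_one]
    · rw [h2, hconj _ hb0]
    · rw [h3, hconj _ ha1]
    · rw [h4, hconj _ hb1]
    · rfl
  have h5 : (QuotientGroup.mk' N) (δ.1 x) = (QuotientGroup.mk' N) x := DFunLike.congr_fun hhom x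
  rw [← QuotientGroup.eq_one_iff]
  show (QuotientGroup.mk' N) (δ.1 x * x⁻¹) = 1
  rw [map_mul, map_inv, h5, mul_inv_cancel]

/-- **The bounding pair**, stronger form. -/
theorem bp' (h0 : 0 < h) : ∃ δ : A0 h, rho (h + 1) δ.1 = 1 ∧
    (∀ i : Fin h, psi h δ (ee i) = (if (i : ℕ) = 0 then (-1 : ℤ) else 1) • ee i ∧
      psi h δ (ff i) = (if (i : ℕ) = 0 then (-1 : ℤ) else 1) • ff i) ∧
    ∀ Γ'' : Subgroup (SurfaceGroup (h + 1)), Γ''.Normal → PresentedGroup.of (Sum.inr 0) ∈ Γ'' →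
      PresentedGroup.of (Sum.inl ⟨1, by omega⟩) ∈ Γ'' →
      PresentedGroup.of (Sum.inr ⟨1, by omega⟩) ∈ Γ'' →
      ∀ x, δ.1 x * x⁻¹ ∈ (Bracket.bracket Γ'' Γ'' : Subgroup (SurfaceGroup (h + 1))) := by
  obtain ⟨δ, hδ⟩ := exists_bp (⟨0, h0⟩ : Fin h) rfl
  obtain ⟨h1, h2⟩ := bp_props _ rfl δ hδ
  exact ⟨δ, h1, h2, fun G hG hb0 ha1 hb1 x => bp_comm ⟨0, h0⟩ rfl δ hδ G hG hb0 ha1 hb1 x⟩

end

end Pool.Agent.V8H98.JF
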