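import Pool.Agent.V8H98.JF.Tr2
import Pool.Agent.V8H98.JF.Tws2

/-!
# The bounding pair maps avoiding a double cover (helper26)
-/

set_option autoImplicit false

namespace Pool.Agent.V8H98.JF

section Vec

variable {n : ℕ}

/-- Reduction of a vector modulo two by symplectic maps fixing `e_0`. -/
lemma red_two_mod (i0 i1 i2 : Fin n) (h01 : (i0 : ℕ) = 0) (h11 : (i1 : ℕ) = 1) (h21 : (i2 : ℕ) = 2)
    (w : V n) (hw0 : ¬ ∀ k, Even (w k)) (hwe : ¬ ∀ k, Even (w k - ee i0 k)) :
    ∃ H ∈ Sp n, H (ee i0) = ee i0 ∧ Even ((H w) (Sum.inl i0)) ∧ Even ((H w) (Sum.inl i1)) ∧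
      Even ((H w) (Sum.inr i1)) := by
  have n10 : i1 ≠ i0 := by
    rintro rfl
    omega
  have n20 : i2 ≠ i0 := by
    rintro rfl
    omega
  have n21 : i2 ≠ i1 := by
    rintro rfl
    omega
  have l01 : i0 < i1 := by
    rw [Fin.lt_def]
    omega
  have l12 : i1 < i2 := by
    rw [Fin.lt_def]
    omega
  obtain ⟨H, hH, hfix, hlow, hinr, hinl, -⟩ := red_vec w i1
  set x : V n := H w with hx
  have hHe : H (ee i0) = ee i0 := (hfix i0 l01).1
  -- the coordinates
  have x1r : x (Sum.inr i1) = 0 := hinr i1 le_rfl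
  have x2r : x (Sum.inr i2) = 0 := hinr i2 l12.le
  have x2l : x (Sum.inl i2) = 0 := hinl i2 l12
  by_cases hc : Even (x (Sum.inr i0))
  · -- the coordinate `m` is odd
    have hm : ¬ Even (x (Sum.inl i1)) := by
      intro hm
      -- `x` is congruent to `a e_0`
      have hx2 : ∀ k, k ≠ Sum.inl i0 → Even (x k) := by
        intro k hk
        rcases k with i | i
        · rcases lt_trichotomy i i1 with hi | hi | hi
          · exfalso
            apply hk
            have : i = i0 := by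
              apply Fin.ext
              rw [Fin.lt_def] at hi
              omega
            rw [this]
          · rw [hi]; exact hm
          · rw [hinl i hi]; exact Even.zero
        · rcases lt_or_ge i i1 with hi | hi
          · have : i = i0 := by
              apply Fin.ext
              rw [Fin.lt_def] at hi
              omega
            rw [this]; exact hc
          · rw [hinr i hi]; exact Even.zero
      -- hence `w ≡ a e_0`
      have key : ∀ a : ℤ, Even (x (Sum.inl i0) - a) → ∀ k, Even (w k - (a • ee i0 : V n) k) := by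
        intro a ha
        have h1 : ∃ y : V n, x - a • ee i0 = (2 : ℤ) • y := by
          refine ⟨fun k => (x k - (a • ee i0 : V n) k) / 2, ?_⟩
          funext k
          show x k - (a • ee i0 : V n) k = 2 * ((x k - (a • ee i0 : V n) k) / 2)
          have h2 : Even (x k - (a • ee i0 : V n) k) := by
            by_cases hk : k = Sum.inl i0
            · rw [hk, Pi.smul_apply, ee_inl, if_pos rfl, smul_eq_mul, mul_one]
              exact ha
            · have h3 : (a • ee i0 : V n) k = 0 := by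
                rw [Pi.smul_apply]
                unfold ee
                rw [Pi.single_eq_of_ne hk, smul_zero]
              rw [h3, sub_zero]
              exact hx2 k hk
          obtain ⟨r, hr⟩ := h2
          rw [hr]
          omega
        obtain ⟨y, hy⟩ := h1
        have h4 : w - a • ee i0 = (2 : ℤ) • H⁻¹ y := by
          have h5 : H (w - a • ee i0) = (2 : ℤ) • y := by
            rw [map_sub, map_smul, hHe]
            exact hy
          have h6 : H⁻¹ (H (w - a • ee i0)) = H⁻¹ ((2 : ℤ) • y) := by rw [h5]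
          rw [← LinearEquiv.mul_apply, inv_mul_cancel, map_smul] at h6
          exact h6
        intro k
        have h7 := congrFun h4 k
        have h8 : w k - (a • ee i0 : V n) k = 2 * (H⁻¹ y) k := h7
        rw [h8]
        exact even_two_mul _
      rcases Int.even_or_odd (x (Sum.inl i0)) with ha | ha
      · apply hw0
        intro k
        have := key 0 (by rwa [sub_zero]) k
        rwa [zero_smul, Pi.zero_apply, sub_zero] at this
      · apply hwe
        intro k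
        have := key 1 (by
          obtain ⟨r, hr⟩ := ha
          exact ⟨r, by rw [hr]; ring⟩) k
        rwa [one_smul] at this
    have hm' : Odd (x (Sum.inl i1)) := Int.not_even_iff_odd.1 hm
    set m := x (Sum.inl i1) with hmdef
    set a := x (Sum.inl i0) with hadef
    set c := x (Sum.inr i0) with hcdef
    have o1 : om (ee i2) (ff i1) = 0 := by rw [om_ee_ff, if_neg n21]
    have o2 : om (ee i1) (ff i2) = 0 := by rw [om_ee_ff, if_neg n21.symm]
    have o3 : om (ee i0) (ff i2) = 0 := by rw [om_ee_ff, if_neg n20.symm]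
    -- first step
    set x1 : V n := t2 (ee i2) (ff i1) o1 1 x with hx1
    have e1 : x1 = x + m • ee i2 := by
      rw [hx1, t2_apply, om_ee_right, om_ff_right, x2r, ← hmdef]
      module
    set x2 : V n := t2 (ee i1) (ff i2) o2 (-1) x1 with hx2
    have e2 : x2 = x + m • ee i2 - m • ee i1 := by
      have g1 : x1 (Sum.inr i1) = 0 := by
        rw [e1, Pi.add_apply, Pi.smul_apply, ee_inr, x1r]
        simp
      have g2 : x1 (Sum.inl i2) = m := by
        rw [e1, Pi.add_apply, Pi.smul_apply, ee_inl, if_pos rfl, x2l]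
        simp
      rw [hx2, t2_apply, om_ee_right, om_ff_right, g1, g2, e1]
      module
    set x3 : V n := t2 (ee i0) (ff i2) o3 a x2 with hx3
    have e3 : x3 = x + m • ee i2 - m • ee i1 - (a * c) • ff i2 + (a * m) • ee i0 := by
      have g1 : x2 (Sum.inr i0) = c := by
        rw [e2, Pi.sub_apply, Pi.add_apply, Pi.smul_apply, Pi.smul_apply, ee_inr, ee_inr, smul_zero,
          add_zero, sub_zero]
      have g2 : x2 (Sum.inl i2) = m := by
        rw [e2, Pi.sub_apply, Pi.add_apply, Pi.smul_apply, Pi.smul_apply, ee_inl, ee_inl,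
          if_pos rfl, if_neg n21, x2l]
        simp
      rw [hx3, t2_apply, om_ee_right, om_ff_right, g1, g2, e2]
      module
    refine ⟨t2 (ee i0) (ff i2) o3 a * (t2 (ee i1) (ff i2) o2 (-1) * (t2 (ee i2) (ff i1) o1 1 * H)),
      mul_mem (t2_Sp _ _ _ _) (mul_mem (t2_Sp _ _ _ _) (mul_mem (t2_Sp _ _ _ _) hH)), ?_, ?_, ?_, ?_⟩
    · rw [LinearEquiv.mul_apply, LinearEquiv.mul_apply, LinearEquiv.mul_apply, hHe]
      have f1 : t2 (ee i2) (ff i1) o1 1 (ee i0) = ee i0 := by
        rw [t2_apply, om_ee_ee, om_ee_ff, if_neg n10.symm]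
        simp
      have f2 : t2 (ee i1) (ff i2) o2 (-1) (ee i0) = ee i0 := by
        rw [t2_apply, om_ee_ee, om_ee_ff, if_neg n20.symm]
        simp
      have f3 : t2 (ee i0) (ff i2) o3 a (ee i0) = ee i0 := by
        rw [t2_apply, om_ee_ee, om_ee_ff, if_neg n20.symm]
        simp
      rw [f1, f2, f3]
    · show Even (x3 (Sum.inl i0))
      rw [e3, Pi.add_apply, Pi.sub_apply, Pi.sub_apply, Pi.add_apply, Pi.smul_apply, Pi.smul_apply,
        Pi.smul_apply, Pi.smul_apply, ee_inl, ee_inl, ff_inl, ee_inl, if_neg n20.symm,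
        if_neg n10.symm, if_pos rfl, ← hadef]
      obtain ⟨r, hr⟩ := hm'
      refine ⟨a * (r + 1), ?_⟩
      rw [hr]
      simp only [smul_eq_mul]
      ring
    · show Even (x3 (Sum.inl i1))
      rw [e3, Pi.add_apply, Pi.sub_apply, Pi.sub_apply, Pi.add_apply, Pi.smul_apply, Pi.smul_apply,
        Pi.smul_apply, Pi.smul_apply, ee_inl, ee_inl, ff_inl, ee_inl, if_neg n21.symm,
        if_neg n10, if_pos rfl, ← hmdef]
      refine ⟨0, ?_⟩
      simp only [smul_eq_mul]
      ring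
    · show Even (x3 (Sum.inr i1))
      rw [e3, Pi.add_apply, Pi.sub_apply, Pi.sub_apply, Pi.add_apply, Pi.smul_apply, Pi.smul_apply,
        Pi.smul_apply, Pi.smul_apply, ee_inr, ee_inr, ff_inr, ee_inr, if_neg n21.symm, x1r]
      simp
  · have hc' : Odd (x (Sum.inr i0)) := Int.not_even_iff_odd.1 hc
    set m := x (Sum.inl i1) with hmdef
    set a := x (Sum.inl i0) with hadef
    set c := x (Sum.inr i0) with hcdef
    have o1 : om (ee i0) (ee i1) = 0 := om_ee_ee _ _
    set x1 : V n := t2 (ee i0) (ee i1) o1 m x with hx1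
    have e1 : x1 = x - (m * c) • ee i1 := by
      rw [hx1, t2_apply, om_ee_right, om_ee_right, x1r, ← hcdef]
      module
    set x2 : V n := t1 (ee i0) a x1 with hx2
    have e2 : x2 = x - (m * c) • ee i1 - (a * c) • ee i0 := by
      have g1 : x1 (Sum.inr i0) = c := by
        rw [e1, Pi.sub_apply, Pi.smul_apply, ee_inr, smul_zero, sub_zero]
      rw [hx2, t1_apply, om_ee_right, g1, e1]
      module
    refine ⟨t1 (ee i0) a * (t2 (ee i0) (ee i1) o1 m * H),
      mul_mem (t1_Sp _ _) (mul_mem (t2_Sp _ _ _ _) hH), ?_, ?_, ?_, ?_⟩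
    · rw [LinearEquiv.mul_apply, LinearEquiv.mul_apply, hHe]
      have f1 : t2 (ee i0) (ee i1) o1 m (ee i0) = ee i0 := by
        rw [t2_apply, om_ee_ee, om_ee_ee]
        simp
      have f2 : t1 (ee i0) a (ee i0) = ee i0 := by
        rw [t1_apply, om_ee_ee]
        simp
      rw [f1, f2]
    · show Even (x2 (Sum.inl i0))
      rw [e2, Pi.sub_apply, Pi.sub_apply, Pi.smul_apply, Pi.smul_apply, ee_inl, ee_inl,
        if_neg n10.symm, if_pos rfl, ← hadef]
      obtain ⟨r, hr⟩ := hc'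
      refine ⟨-(a * r), ?_⟩
      rw [hr]
      simp only [smul_eq_mul]
      ring
    · show Even (x2 (Sum.inl i1))
      rw [e2, Pi.sub_apply, Pi.sub_apply, Pi.smul_apply, Pi.smul_apply, ee_inl, ee_inl,
        if_neg n10, if_pos rfl, ← hmdef]
      obtain ⟨r, hr⟩ := hc'
      refine ⟨-(m * r), ?_⟩
      rw [hr]
      simp only [smul_eq_mul]
      ring
    · show Even (x2 (Sum.inr i1))
      rw [e2, Pi.sub_apply, Pi.sub_apply, Pi.smul_apply, Pi.smul_apply, ee_inr, ee_inr, x1r]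
      simp

end Vec

/-- The pull back of a subgroup by an automorphism. -/
lemma normal_comap_two {G : Type} [Group G] (Γ : Subgroup G) (hΓ : Γ.index = 2) (φ : MulAut G) :
    (Γ.comap φ.toMonoidHom).Normal :=
  haveI := Subgroup.normal_of_index_eq_two hΓ
  Subgroup.normal_comap _

lemma mem_A0_of_rho {h : ℕ} (φ : MulAut (SurfaceGroup (h + 1))) (hs : rho (h + 1) φ ∈ Sp (h + 1))
    (hφ : rho (h + 1) φ (ee 0) = ee 0) : φ ∈ A0 h := by
  intro x
  have hiff : φ x ∈ Gam h ↔ x ∈ Gam h := by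
    rw [mem_Gam_iff, mem_Gam_iff, ← rho_cls]
    have h1 : om (rho (h + 1) φ (cls x)) (ee 0) = om (cls x) (ee 0) := by
      conv_lhs => rw [← hφ]
      exact hs _ _
    rw [h1]
  rw [mem_Gam, mem_Gam] at hiff
  rcases Int.units_eq_one_or (chi x) with h1 | h1
  · rw [h1]
    exact hiff.2 h1
  · rcases Int.units_eq_one_or (chi (φ x)) with h2 | h2
    · exact absurd (hiff.1 h2) (by rw [h1]; decide)
    · rw [h1, h2]

/-- An automorphism carrying a given double cover to one containing `b_0`, `a_1`, `b_1`. -/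
lemma exists_move {h : ℕ} (hh : 2 ≤ h) (j : Fin h) (hj : (j : ℕ) = 0)
    (Γ' : Subgroup (SurfaceGroup (h + 1))) (hΓ : Γ'.index = 2) (hne : Γ' ≠ Gam h) :
    ∃ φ : A0 h, φ.1 (PresentedGroup.of (Sum.inr 0)) ∈ Γ' ∧
      φ.1 (PresentedGroup.of (Sum.inl j.succ)) ∈ Γ' ∧
      φ.1 (PresentedGroup.of (Sum.inr j.succ)) ∈ Γ' := by
  obtain ⟨w, hw⟩ := exists_vec Γ' hΓ
  have hw0 := not_all_even Γ' hΓ hw
  have hwe : ¬ ∀ k, Even (w k - ee (0 : Fin (h + 1)) k) := by
    intro hc
    apply hne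
    ext x
    rw [hw, mem_Gam_iff]
    have h1 : Even (om (cls x) w - om (cls x) (ee (0 : Fin (h + 1)))) := by
      rw [← om_sub_right]
      unfold om
      refine Finset.even_sum _ fun i _ => ?_
      exact (Even.mul_left (hc _) _).sub (Even.mul_left (hc _) _)
    exact Int.even_sub.1 h1
  obtain ⟨H, hH, hHe, g1, g2, g3⟩ := red_two_mod (0 : Fin (h + 1)) j.succ ⟨2, by omega⟩ rfl
    (by rw [Fin.val_succ, hj]) rfl w hw0 hwe
  obtain ⟨φ, hφ⟩ := Sp_le_range (h + 1) ((Sp (h + 1)).inv_mem hH)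
  have hφe : rho (h + 1) φ (ee 0) = ee 0 := by
    rw [hφ]
    conv_lhs => rw [← hHe]
    rw [← LinearEquiv.mul_apply, inv_mul_cancel]
    rfl
  have hφs : rho (h + 1) φ ∈ Sp (h + 1) := by
    rw [hφ]
    exact (Sp (h + 1)).inv_mem hH
  have hmem : ∀ x, φ x ∈ Γ' ↔ Even (om (cls x) (H w)) := by
    intro x
    rw [hw, ← rho_cls, hφ]
    have h5 := hH (H⁻¹ (cls x)) w
    rw [← LinearEquiv.mul_apply, mul_inv_cancel] at h5
    rw [← h5]
    rfl
  refine ⟨⟨φ, mem_A0_of_rho φ hφs hφe⟩, ?_, ?_, ?_⟩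
  · show φ (PresentedGroup.of (Sum.inr 0)) ∈ Γ'
    rw [hmem, cls_of, om_swap]
    show Even (- om (H w) (ff 0))
    rw [om_ff_right]
    exact g1.neg
  · show φ (PresentedGroup.of (Sum.inl j.succ)) ∈ Γ'
    rw [hmem, cls_of, om_swap]
    show Even (- om (H w) (ee j.succ))
    rw [om_ee_right, neg_neg]
    exact g3
  · show φ (PresentedGroup.of (Sum.inr j.succ)) ∈ Γ'
    rw [hmem, cls_of, om_swap]
    show Even (- om (H w) (ff j.succ))
    rw [om_ff_right]
    exact g2.neg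

/-- **The conjugates of the bounding pair map.** -/
theorem bp_free_of {h : ℕ} (hh : 2 ≤ h) (j : Fin h) (hj : (j : ℕ) = 0)
    (hbp : ∃ δ : A0 h, rho (h + 1) δ.1 = 1 ∧ (∀ i : Fin h,
      psi h δ (ee i) = (if (i : ℕ) = 0 then (-1 : ℤ) else 1) • ee i ∧
      psi h δ (ff i) = (if (i : ℕ) = 0 then (-1 : ℤ) else 1) • ff i) ∧
      ∀ Γ : Subgroup (SurfaceGroup (h + 1)), Γ.Normal → PresentedGroup.of (Sum.inr 0) ∈ Γ →
        PresentedGroup.of (Sum.inl j.succ) ∈ Γ → PresentedGroup.of (Sum.inr j.succ) ∈ Γ →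
        ∀ x, δ.1 x * x⁻¹ ∈ (⁅Γ, Γ⁆ : Subgroup (SurfaceGroup (h + 1))))
    (Γ' : Subgroup (SurfaceGroup (h + 1))) (hΓ : Γ'.index = 2)
    (hne : Γ' ≠ Gam h) : ∃ τ φ : A0 h, ∃ d : V h ≃ₗ[ℤ] V h, rho (h + 1) τ.1 = 1 ∧
      (∀ x, τ.1 x * x⁻¹ ∈ (⁅Γ', Γ'⁆ : Subgroup (SurfaceGroup (h + 1)))) ∧
      (∀ i : Fin h, d (ee i) = (if (i : ℕ) = 0 then (-1 : ℤ) else 1) • ee i ∧
        d (ff i) = (if (i : ℕ) = 0 then (-1 : ℤ) else 1) • ff i) ∧
      psi h τ = psi h φ * d * (psi h φ)⁻¹ := by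
  obtain ⟨δ, hδ1, hδ2, hδ3⟩ := hbp
  obtain ⟨φ, hφ1, hφ2, hφ3⟩ := exists_move hh j hj Γ' hΓ hne
  refine ⟨φ * δ * φ⁻¹, φ, psi h δ, ?_, ?_, hδ2, ?_⟩
  · show rho (h + 1) (φ.1 * δ.1 * φ.1⁻¹) = 1
    rw [map_mul, map_mul, hδ1, mul_one, ← map_mul, mul_inv_cancel, map_one]
  · intro x
    have h1 := hδ3 (Γ'.comap φ.1.toMonoidHom) (normal_comap_two Γ' hΓ φ.1) hφ1 hφ2 hφ3 (φ.1⁻¹ x)
    have h2 : φ.1.toMonoidHom (δ.1 (φ.1⁻¹ x) * (φ.1⁻¹ x)⁻¹) ∈
        (⁅Γ'.comap φ.1.toMonoidHom, Γ'.comap φ.1.toMonoidHom⁆ :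
          Subgroup (SurfaceGroup (h + 1))).map φ.1.toMonoidHom := ⟨_, h1, rfl⟩
    rw [Subgroup.map_commutator] at h2
    have h3 : (Γ'.comap φ.1.toMonoidHom).map φ.1.toMonoidHom ≤ Γ' := Subgroup.map_comap_le _ _
    have h4 := Subgroup.commutator_mono h3 h3 h2
    have h5 : φ.1.toMonoidHom (δ.1 (φ.1⁻¹ x) * (φ.1⁻¹ x)⁻¹) =
        (φ * δ * φ⁻¹ : A0 h).1 x * x⁻¹ := by
      rw [map_mul, map_inv]
      have h6 : φ.1.toMonoidHom (φ.1⁻¹ x) = x := by
        show φ.1 (φ.1⁻¹ x) = x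
        rw [← MulAut.mul_apply, mul_inv_cancel, MulAut.one_apply]
      rw [h6]
      rfl
    rwa [h5] at h4
  · rw [map_mul, map_mul, map_inv]

theorem bp_free {h : ℕ} (hh : 2 ≤ h) (Γ' : Subgroup (SurfaceGroup (h + 1))) (hΓ : Γ'.index = 2)
    (hne : Γ' ≠ Gam h) : ∃ τ φ : A0 h, ∃ d : V h ≃ₗ[ℤ] V h, rho (h + 1) τ.1 = 1 ∧
      (∀ x, τ.1 x * x⁻¹ ∈ (⁅Γ', Γ'⁆ : Subgroup (SurfaceGroup (h + 1)))) ∧
      (∀ i : Fin h, d (ee i) = (if (i : ℕ) = 0 then (-1 : ℤ) else 1) • ee i ∧
        d (ff i) = (if (i : ℕ) = 0 then (-1 : ℤ) else 1) • ff i) ∧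
      psi h τ = psi h φ * d * (psi h φ)⁻¹ :=
  bp_free_of hh ⟨0, by omega⟩ rfl (bp' (by omega)) Γ' hΓ hne

end Pool.Agent.V8H98.JF
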