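import Pool.Agent.V8H98.JF.Base

/-!
# Automorphisms of surface groups preserve the intersection form up to sign

The proof uses the homomorphisms to the Heisenberg group of integers: a pair of linear functionals
`α`, `β` on the first homology is given by a homomorphism to the Heisenberg group if and only if
the value of the dual form at `α`, `β` is zero.
-/

set_option autoImplicit false

namespace Pool.Agent.V8H98.JF

open Matrix

namespace PmAux

/-- The Heisenberg group of integers. -/
@[ext] structure Heis where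
  a : ℤ
  b : ℤ
  c : ℤ

namespace Heis

instance : Mul Heis := ⟨fun x y => ⟨x.a + y.a, x.b + y.b, x.c + y.c + x.a * y.b⟩⟩
instance : One Heis := ⟨⟨0, 0, 0⟩⟩
instance : Inv Heis := ⟨fun x => ⟨-x.a, -x.b, -x.c + x.a * x.b⟩⟩

@[simp] theorem mul_a (x y : Heis) : (x * y).a = x.a + y.a := rfl
@[simp] theorem mul_b (x y : Heis) : (x * y).b = x.b + y.b := rfl
@[simp] theorem mul_c (x y : Heis) : (x * y).c = x.c + y.c + x.a * y.b := rfl
@[simp] theorem one_a : (1 : Heis).a = 0 := rfl
@[simp] theorem one_b : (1 : Heis).b = 0 := rfl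
@[simp] theorem one_c : (1 : Heis).c = 0 := rfl
@[simp] theorem inv_a (x : Heis) : (x⁻¹).a = -x.a := rfl
@[simp] theorem inv_b (x : Heis) : (x⁻¹).b = -x.b := rfl
@[simp] theorem inv_c (x : Heis) : (x⁻¹).c = -x.c + x.a * x.b := rfl

instance : Group Heis where
  mul_assoc x y z := by
    ext
    · simp [add_assoc]
    · simp [add_assoc]
    · simp
      ring
  one_mul x := by ext <;> simp
  mul_one x := by ext <;> simp
  inv_mul_cancel x := by
    ext
    · simp
    · simp
    · simp

/-- the first coordinate -/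
def fst : Heis →* Multiplicative ℤ where
  toFun x := Multiplicative.ofAdd x.a
  map_one' := rfl
  map_mul' _ _ := rfl

/-- the second coordinate -/
def snd : Heis →* Multiplicative ℤ where
  toFun x := Multiplicative.ofAdd x.b
  map_one' := rfl
  map_mul' _ _ := rfl

theorem comm (x y : Heis) : x * y * x⁻¹ * y⁻¹ = ⟨0, 0, x.a * y.b - y.a * x.b⟩ := by
  ext
  · simp
  · simp
  · simp
    ring

theorem prod_central (l : List ℤ) :
    (l.map fun t => (⟨0, 0, t⟩ : Heis)).prod = ⟨0, 0, l.sum⟩ := by
  induction l with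
  | nil => rfl
  | cons t l ih =>
    rw [List.map_cons, List.prod_cons, ih, List.sum_cons]
    ext <;> simp

end Heis

variable {g : ℕ}

/-- the value of a homomorphism at the relator -/
theorem lift_rel {G : Type} [Group G] (f : Fin g ⊕ Fin g → G) :
    FreeGroup.lift f (rel g) = (List.ofFn fun i : Fin g =>
      f (Sum.inl i) * f (Sum.inr i) * (f (Sum.inl i))⁻¹ * (f (Sum.inr i))⁻¹).prod := by
  rw [rel, map_list_prod, List.map_ofFn]
  congr 2
  funext i
  simp

theorem lift_rel_heis (f : Fin g ⊕ Fin g → Heis) :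
    FreeGroup.lift f (rel g) = ⟨0, 0, om (fun x => (f x).a) (fun x => (f x).b)⟩ := by
  rw [lift_rel]
  have h1 : (List.ofFn fun i : Fin g =>
      f (Sum.inl i) * f (Sum.inr i) * (f (Sum.inl i))⁻¹ * (f (Sum.inr i))⁻¹) =
      (List.ofFn fun i : Fin g => (f (Sum.inl i)).a * (f (Sum.inr i)).b -
        (f (Sum.inr i)).a * (f (Sum.inl i)).b).map fun t => (⟨0, 0, t⟩ : Heis) := by
    rw [List.map_ofFn]
    congr 1
    funext i
    exact Heis.comm _ _
  rw [h1, Heis.prod_central, List.sum_ofFn]
  rfl

/-- homomorphisms to the integers factor through the first homology -/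
theorem hom_eq (f : SurfaceGroup g →* Multiplicative ℤ) (x : SurfaceGroup g) :
    Multiplicative.toAdd (f x) =
      ∑ y, Multiplicative.toAdd (f (PresentedGroup.of y)) * cls x y := by
  let h : SurfaceGroup g →* Multiplicative ℤ :=
    { toFun := fun x => Multiplicative.ofAdd
        (∑ y, Multiplicative.toAdd (f (PresentedGroup.of y)) * cls x y)
      map_one' := by
        simp [cls_one]
      map_mul' := fun a b => by
        rw [← ofAdd_add, ← Finset.sum_add_distrib]
        congr 1
        refine Finset.sum_congr rfl fun y _ => ?_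
        rw [cls_mul, Pi.add_apply]
        ring }
  have h1 : f = h := by
    refine PresentedGroup.ext fun z => ?_
    change f (PresentedGroup.of z) = Multiplicative.ofAdd _
    rw [cls_of]
    have : ∑ y, Multiplicative.toAdd (f (PresentedGroup.of y)) * (Pi.single z (1 : ℤ) : _ → ℤ) y =
        Multiplicative.toAdd (f (PresentedGroup.of z)) := by
      rw [Finset.sum_eq_single z]
      · simp
      · intro b _ hb
        simp [hb]
      · intro h
        exact absurd (Finset.mem_univ _) h
    rw [this]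
    rfl
  rw [h1]
  change ∑ y, Multiplicative.toAdd (f (PresentedGroup.of y)) * cls x y = _
  rw [h1]

/-- the relator is trivial -/
theorem heis_rel (F : SurfaceGroup g →* Heis) :
    om (fun y => (F (PresentedGroup.of y)).a) (fun y => (F (PresentedGroup.of y)).b) = 0 := by
  have h1 : (PresentedGroup.mk ({rel g} : Set (FreeGroup (Fin g ⊕ Fin g)))) (rel g) = 1 :=
    PresentedGroup.one_of_mem (Set.mem_singleton _)
  have h2 : FreeGroup.lift (fun y => F (PresentedGroup.of y)) =
      F.comp (PresentedGroup.mk ({rel g} : Set (FreeGroup (Fin g ⊕ Fin g)))) := by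
    ext y
    · simp [PresentedGroup.of]
    · simp [PresentedGroup.of]
    · simp [PresentedGroup.of]
  have h3 := lift_rel_heis (g := g) (fun y => F (PresentedGroup.of y))
  rw [h2, MonoidHom.comp_apply, h1, map_one] at h3
  have h4 := congrArg Heis.c h3
  exact h4.symm

/-- a pair of functionals with `om = 0` comes from a homomorphism to the Heisenberg group -/
theorem exists_heis (α β : V g) (h : om α β = 0) :
    ∃ F : SurfaceGroup g →* Heis, ∀ y, (F (PresentedGroup.of y)).a = α y ∧
      (F (PresentedGroup.of y)).b = β y := by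
  refine ⟨PresentedGroup.toGroup (f := fun y => (⟨α y, β y, 0⟩ : Heis)) ?_, fun y => ?_⟩
  · intro r hr
    rw [Set.mem_singleton_iff] at hr
    subst hr
    rw [lift_rel_heis]
    change (⟨0, 0, om α β⟩ : Heis) = 1
    rw [h]
    rfl
  · rw [PresentedGroup.toGroup.of]
    exact ⟨rfl, rfl⟩

/-- the matrix of an automorphism on the first homology; the columns are the classes of the images
of the generators -/
def pmat (φ : MulAut (SurfaceGroup g)) : Matrix (Fin g ⊕ Fin g) (Fin g ⊕ Fin g) ℤ :=
  fun x y => cls (φ (PresentedGroup.of y)) x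

theorem cls_map (φ : MulAut (SurfaceGroup g)) (x : SurfaceGroup g) :
    cls (φ x) = pmat φ *ᵥ cls x := by
  funext z
  let f : SurfaceGroup g →* Multiplicative ℤ :=
    { toFun := fun x => Multiplicative.ofAdd (cls (φ x) z)
      map_one' := by simp [cls_one]
      map_mul' := fun a b => by
        rw [map_mul, cls_mul, ← ofAdd_add]
        rfl }
  exact hom_eq f x

theorem rho_eq (φ : MulAut (SurfaceGroup g)) (v : V g) : rho g φ v = pmat φ *ᵥ v := by
  obtain ⟨x, rfl⟩ := cls_surj v
  rw [rho_cls, cls_map]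

theorem pmat_mul (φ ψ : MulAut (SurfaceGroup g)) : pmat (φ * ψ) = pmat φ * pmat ψ := by
  ext x y
  change cls (φ (ψ (PresentedGroup.of y))) x = _
  rw [cls_map]
  rfl

theorem pmat_one : pmat (1 : MulAut (SurfaceGroup g)) = 1 := by
  ext x y
  change cls (PresentedGroup.of y) x = _
  rw [cls_of, Matrix.one_apply, Pi.single_apply]

/-- automorphisms preserve the vanishing of the dual form -/
theorem om_vecMul (φ : MulAut (SurfaceGroup g)) (α β : V g)
    (h : om α β = 0) : om (α ᵥ* pmat φ) (β ᵥ* pmat φ) = 0 := by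
  obtain ⟨F, hF⟩ := exists_heis α β h
  have h1 := heis_rel (F.comp φ.toMonoidHom)
  have ha : (fun y => ((F.comp φ.toMonoidHom) (PresentedGroup.of y)).a) = α ᵥ* pmat φ := by
    funext y
    have h2 := hom_eq (Heis.fst.comp F) (φ (PresentedGroup.of y))
    change (F (φ (PresentedGroup.of y))).a = ∑ x, (F (PresentedGroup.of x)).a * _ at h2
    change (F (φ (PresentedGroup.of y))).a = ∑ x, α x * _
    rw [h2]
    exact Finset.sum_congr rfl fun x _ => by rw [(hF x).1]; rfl
  have hb : (fun y => ((F.comp φ.toMonoidHom) (PresentedGroup.of y)).b) = β ᵥ* pmat φ := by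
    funext y
    have h2 := hom_eq (Heis.snd.comp F) (φ (PresentedGroup.of y))
    change (F (φ (PresentedGroup.of y))).b = ∑ x, (F (PresentedGroup.of x)).b * _ at h2
    change (F (φ (PresentedGroup.of y))).b = ∑ x, β x * _
    rw [h2]
    exact Finset.sum_congr rfl fun x _ => by rw [(hF x).2]; rfl
  rwa [ha, hb] at h1

/-- the matrix of the form -/
def KK (g : ℕ) : Matrix (Fin g ⊕ Fin g) (Fin g ⊕ Fin g) ℤ := fromBlocks 0 1 (-1) 0

theorem om_eq (α β : V g) : om α β = α ⬝ᵥ (KK g *ᵥ β) := by
  unfold om KK dotProduct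
  rw [Fintype.sum_sum_type, Finset.sum_sub_distrib, sub_eq_add_neg, ← Finset.sum_neg_distrib]
  congr 1
  · refine Finset.sum_congr rfl fun i _ => ?_
    congr 1
    simp [mulVec, dotProduct, Fintype.sum_sum_type, Matrix.one_apply]
  · refine Finset.sum_congr rfl fun i _ => ?_
    rw [← mul_neg]
    congr 1
    simp [mulVec, dotProduct, Fintype.sum_sum_type, Matrix.one_apply]

theorem KK_mul : KK g * KK g = -1 := by
  unfold KK
  rw [fromBlocks_multiply]
  simp only [mul_zero, zero_mul, one_mul, mul_one, zero_add, add_zero]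
  rw [← fromBlocks_one, fromBlocks_neg, neg_zero]

theorem single_vecMul' (P : Matrix (Fin g ⊕ Fin g) (Fin g ⊕ Fin g) ℤ) (x : Fin g ⊕ Fin g) :
    (Pi.single x (1 : ℤ) : V g) ᵥ* P = P x := by
  rw [Matrix.single_one_vecMul]
  rfl

/-- the values of the form at the rows of the matrix -/
theorem rows (φ : MulAut (SurfaceGroup g)) :
    ∃ c : ℤ, ∀ x y, om (pmat φ x) (pmat φ y) = c * KK g x y := by
  have h0 : ∀ α β : V g, om α β = 0 → om (α ᵥ* pmat φ) (β ᵥ* pmat φ) = 0 := om_vecMul φ
  have hL : ∀ i : Fin g, (ee i) ᵥ* pmat φ = pmat φ (Sum.inl i) := fun i => single_vecMul' _ _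
  have hR : ∀ i : Fin g, (ff i) ᵥ* pmat φ = pmat φ (Sum.inr i) := fun i => single_vecMul' _ _
  have hll : ∀ i j : Fin g, om (pmat φ (Sum.inl i)) (pmat φ (Sum.inl j)) = 0 := fun i j => by
    have := h0 (ee i) (ee j) (by rw [om_ee_right]; simp [ee])
    rwa [hL, hL] at this
  have hrr : ∀ i j : Fin g, om (pmat φ (Sum.inr i)) (pmat φ (Sum.inr j)) = 0 := fun i j => by
    have := h0 (ff i) (ff j) (by rw [om_ff_right]; simp [ff])
    rwa [hR, hR] at this
  have hlr : ∀ i j : Fin g, i ≠ j → om (pmat φ (Sum.inl i)) (pmat φ (Sum.inr j)) = 0 :=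
    fun i j hij => by
      have := h0 (ee i) (ff j) (by rw [om_ff_right]; simp [ee, Ne.symm hij])
      rwa [hL, hR] at this
  have hd : ∀ i j : Fin g, om (pmat φ (Sum.inl i)) (pmat φ (Sum.inr i)) =
      om (pmat φ (Sum.inl j)) (pmat φ (Sum.inr j)) := fun i j => by
    by_cases hij : i = j
    · rw [hij]
    have := h0 (ee i + ee j) (ff i - ff j) (by
      rw [om_add_left, om_sub_right, om_sub_right, om_ff_right, om_ff_right, om_ff_right,
        om_ff_right]
      simp [ee, hij, Ne.symm hij])
    rw [add_vecMul, sub_vecMul, hL, hL, hR, hR, om_add_left, om_sub_right, om_sub_right,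
      hlr i j hij, hlr j i (Ne.symm hij)] at this
    linarith
  rcases g with _ | n
  · exact ⟨0, fun x => by rcases x with x | x <;> exact x.elim0⟩
  · refine ⟨om (pmat φ (Sum.inl 0)) (pmat φ (Sum.inr 0)), fun x y => ?_⟩
    rcases x with i | i <;> rcases y with j | j
    · rw [hll]
      simp [KK]
    · by_cases hij : i = j
      · subst hij
        rw [hd i 0]
        simp [KK]
      · rw [hlr i j hij]
        simp [KK, hij]
    · rw [om_swap]
      by_cases hij : j = i
      · subst hij
        rw [hd j 0]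
        simp [KK]
      · rw [hlr j i hij]
        simp [KK, Ne.symm hij]
    · rw [hrr]
      simp [KK]

theorem mat_rel (φ : MulAut (SurfaceGroup g)) :
    ∃ c : ℤ, pmat φ * (KK g * (pmat φ)ᵀ) = c • KK g := by
  obtain ⟨c, hc⟩ := rows φ
  refine ⟨c, ?_⟩
  ext x y
  change pmat φ x ⬝ᵥ (KK g *ᵥ pmat φ y) = c * KK g x y
  rw [← om_eq, hc]

end PmAux

open PmAux

/-- **Automorphisms of surface groups preserve the intersection form up to sign.** -/
theorem pm {g : ℕ} (φ : MulAut (SurfaceGroup g)) : ∃ ε : ℤ, (ε = 1 ∨ ε = -1) ∧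
    ∀ x y : V g, om (rho g φ x) (rho g φ y) = ε * om x y := by
  rcases Nat.eq_zero_or_pos g with hg | hg
  · subst hg
    exact ⟨1, Or.inl rfl, fun x y => by simp [om]⟩
  obtain ⟨c, hc⟩ := mat_rel φ
  obtain ⟨d, hd⟩ := mat_rel φ⁻¹
  have hP : pmat φ⁻¹ * pmat φ = 1 := by rw [← pmat_mul, inv_mul_cancel, pmat_one]
  -- `c d = 1`
  have h1 : KK g = (c * d) • KK g := by
    calc KK g = (pmat φ⁻¹ * pmat φ) * (KK g * (pmat φ⁻¹ * pmat φ)ᵀ) := by
          rw [hP, transpose_one, one_mul, mul_one]
      _ = pmat φ⁻¹ * (pmat φ * (KK g * (pmat φ)ᵀ)) * (pmat φ⁻¹)ᵀ := by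
          rw [transpose_mul]
          simp only [Matrix.mul_assoc]
      _ = c • (pmat φ⁻¹ * (KK g * (pmat φ⁻¹)ᵀ)) := by
          rw [hc, Matrix.mul_smul, Matrix.smul_mul, Matrix.mul_assoc]
      _ = (c * d) • KK g := by rw [hd, smul_smul]
  have h2 : c * d = 1 := by
    have h3 := congrFun (congrFun h1 (Sum.inl ⟨0, hg⟩)) (Sum.inr ⟨0, hg⟩)
    simpa [KK] using h3.symm
  have hε : c = 1 ∨ c = -1 := Int.eq_one_or_neg_one_of_mul_eq_one h2
  have hcc : c * c = 1 := by rcases hε with h | h <;> rw [h] <;> norm_num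
  refine ⟨c, hε, ?_⟩
  -- the relation for the transposed matrix
  have h4 : ((-c) • (KK g * (pmat φ * KK g))) * (pmat φ)ᵀ = 1 := by
    calc ((-c) • (KK g * (pmat φ * KK g))) * (pmat φ)ᵀ
        = (-c) • (KK g * (pmat φ * (KK g * (pmat φ)ᵀ))) := by
          rw [Matrix.smul_mul]
          simp only [Matrix.mul_assoc]
      _ = (-c) • (c • (KK g * KK g)) := by rw [hc, Matrix.mul_smul]
      _ = 1 := by
          rw [KK_mul, smul_smul]
          have : -c * c = -1 := by linarith
          rw [this, neg_smul, one_smul, neg_neg]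
  have h5 := mul_eq_one_comm.1 h4
  have h6 : (pmat φ)ᵀ * (KK g * pmat φ) = c • KK g := by
    calc (pmat φ)ᵀ * (KK g * pmat φ)
        = (c * c) • ((pmat φ)ᵀ * (KK g * pmat φ)) := by rw [hcc, one_smul]
      _ = c • ((pmat φ)ᵀ * ((-c) • (KK g * (pmat φ * KK g))) * KK g) := by
          rw [Matrix.mul_smul, Matrix.smul_mul, smul_smul]
          have h7 : (pmat φ)ᵀ * (KK g * (pmat φ * KK g)) * KK g =
              - ((pmat φ)ᵀ * (KK g * pmat φ)) := by
            calc (pmat φ)ᵀ * (KK g * (pmat φ * KK g)) * KK g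
                = (pmat φ)ᵀ * (KK g * (pmat φ * (KK g * KK g))) := by
                  simp only [Matrix.mul_assoc]
              _ = - ((pmat φ)ᵀ * (KK g * pmat φ)) := by
                  rw [KK_mul]
                  simp
          rw [h7, smul_neg, mul_neg, neg_smul, neg_neg]
      _ = c • KK g := by rw [h5, one_mul]
  intro x y
  rw [rho_eq, rho_eq, om_eq, om_eq]
  have h8 : (pmat φ *ᵥ x) ⬝ᵥ (KK g *ᵥ (pmat φ *ᵥ y)) =
      x ⬝ᵥ (((pmat φ)ᵀ * (KK g * pmat φ)) *ᵥ y) := by
    rw [← vecMul_transpose, ← Matrix.dotProduct_mulVec, mulVec_mulVec, mulVec_mulVec,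
      Matrix.mul_assoc]
  rw [h8, h6, smul_mulVec, dotProduct_smul, smul_eq_mul]

end Pool.Agent.V8H98.JF
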