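import Pool.Agent.V8H98.JF.Base

/-!
# Some automorphisms of the surface group that act on the first homology by transvections
-/

set_option autoImplicit false

namespace Pool.Agent.V8H98.JF

/-- Two products that differ in two neighbouring factors only. -/
lemma prod_ofFn_twob {G : Type} [Group G] : ∀ (n : ℕ) (h h' : Fin n → G) (i j : Fin n),
    (j : ℕ) = i + 1 → (∀ k, k ≠ i → k ≠ j → h k = h' k) → h i * h j = h' i * h' j →
    (List.ofFn h).prod = (List.ofFn h').prod := by
  intro n
  induction n with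
  | zero => intro h h' i; exact i.elim0
  | succ n ih =>
    intro h h' i j hij hk hm
    rw [List.ofFn_succ, List.ofFn_succ, List.prod_cons, List.prod_cons]
    induction i using Fin.cases with
    | zero =>
      cases n with
      | zero =>
        exfalso
        have h1 := j.2
        rw [hij] at h1
        simp at h1
      | succ n =>
        have hj : j = Fin.succ 0 := by
          apply Fin.ext
          rw [hij]
          simp
        subst hj
        rw [List.ofFn_succ, List.ofFn_succ, List.prod_cons, List.prod_cons, ← mul_assoc,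
          ← mul_assoc, hm]
        congr 2
        congr 1
        funext k
        exact hk _ (Fin.succ_ne_zero _) (fun hc => Fin.succ_ne_zero _ (Fin.succ_injective _ hc))
    | succ i =>
      have h0 : j ≠ 0 := by
        intro hc
        rw [hc] at hij
        simp at hij
      obtain ⟨j', rfl⟩ := Fin.exists_succ_eq.2 h0
      rw [hk 0 (Fin.succ_ne_zero _).symm (Fin.succ_ne_zero _).symm]
      congr 1
      exact ih (fun k => h k.succ) (fun k => h' k.succ) i j'
        (by simpa using hij)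
        (fun k h1 h2 => hk _ (fun hc => h1 (Fin.succ_injective _ hc))
          (fun hc => h2 (Fin.succ_injective _ hc))) hm

section

variable {g : ℕ}

/-- The product of the commutators of the images. -/
def rp (f : Fin g ⊕ Fin g → SurfaceGroup g) : SurfaceGroup g :=
  (List.ofFn (fun i : Fin g =>
    f (Sum.inl i) * f (Sum.inr i) * (f (Sum.inl i))⁻¹ * (f (Sum.inr i))⁻¹)).prod

lemma lift_rel_rp (f : Fin g ⊕ Fin g → SurfaceGroup g) : FreeGroup.lift f (rel g) = rp f := by
  unfold rel rp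
  rw [map_list_prod, List.map_ofFn]
  congr 2
  funext i
  show FreeGroup.lift f (FreeGroup.of (Sum.inl i) * FreeGroup.of (Sum.inr i) *
    (FreeGroup.of (Sum.inl i))⁻¹ * (FreeGroup.of (Sum.inr i))⁻¹) = _
  rw [map_mul, map_mul, map_mul, map_inv, map_inv, FreeGroup.lift_apply_of,
    FreeGroup.lift_apply_of]

lemma rp_of : rp (fun i => (PresentedGroup.of i : SurfaceGroup g)) = 1 := by
  rw [← lift_rel_rp]
  have h1 : FreeGroup.lift (fun i => (PresentedGroup.of i : SurfaceGroup g)) =
      PresentedGroup.mk _ := by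
    apply FreeGroup.ext_hom
    intro i
    rw [FreeGroup.lift_apply_of]
    rfl
  rw [h1]
  exact PresentedGroup.one_of_mem (Set.mem_singleton _)

/-- The endomorphism given by the images of the generators. -/
def hf (f : Fin g ⊕ Fin g → SurfaceGroup g) (h : rp f = 1) : SurfaceGroup g →* SurfaceGroup g :=
  PresentedGroup.toGroup (f := f) (by
    intro r hr
    rw [Set.mem_singleton_iff] at hr
    rw [hr, lift_rel_rp, h])

@[simp] lemma hf_of (f : Fin g ⊕ Fin g → SurfaceGroup g) (h : rp f = 1) (i : Fin g ⊕ Fin g) :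
    hf f h (PresentedGroup.of i) = f i := by
  unfold hf
  rw [PresentedGroup.toGroup.of]

/-- An automorphism from two inverse endomorphisms. -/
lemma exists_aut (f f' : Fin g ⊕ Fin g → SurfaceGroup g) (h : rp f = 1) (h' : rp f' = 1)
    (h1 : ∀ i, hf f h (f' i) = PresentedGroup.of i)
    (h2 : ∀ i, hf f' h' (f i) = PresentedGroup.of i) :
    ∃ φ : MulAut (SurfaceGroup g), ∀ i, φ (PresentedGroup.of i) = f i := by
  refine ⟨MonoidHom.toMulEquiv (hf f h) (hf f' h') ?_ ?_, fun i => ?_⟩
  · apply PresentedGroup.ext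
    intro i
    rw [MonoidHom.comp_apply, hf_of, h2, MonoidHom.id_apply]
  · apply PresentedGroup.ext
    intro i
    rw [MonoidHom.comp_apply, hf_of, h1, MonoidHom.id_apply]
  · show hf f h (PresentedGroup.of i) = f i
    rw [hf_of]

/-- The action on homology is determined on the generators. -/
lemma rho_eq_tr (φ : MulAut (SurfaceGroup g)) (v : V g)
    (h : ∀ i, cls (φ (PresentedGroup.of i)) = tr v (Pi.single i 1)) : rho g φ = tr v := by
  apply LinearEquiv.toLinearMap_injective
  apply LinearMap.pi_ext'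
  intro i
  apply LinearMap.ext_ring
  show rho g φ (Pi.single i 1) = tr v (Pi.single i 1)
  rw [← h, ← rho_cls, cls_of]

lemma om_single_ee (i : Fin g) (k : Fin g ⊕ Fin g) :
    om (Pi.single k 1) (ee i) = if k = Sum.inr i then -1 else 0 := by
  rw [om_ee_right, Pi.single_apply]
  by_cases h : k = Sum.inr i
  · rw [if_pos h.symm, if_pos h]
  · rw [if_neg (fun hc => h hc.symm), if_neg h, neg_zero]

lemma om_single_ff (i : Fin g) (k : Fin g ⊕ Fin g) :
    om (Pi.single k 1) (ff i) = if k = Sum.inl i then 1 else 0 := by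
  rw [om_ff_right, Pi.single_apply]
  by_cases h : k = Sum.inl i
  · rw [if_pos h.symm, if_pos h]
  · rw [if_neg (fun hc => h hc.symm), if_neg h]

/-- Images of the generators in the first automorphisms: `b_i` goes to `w`. -/
def f1 (k0 : Fin g ⊕ Fin g) (w : SurfaceGroup g) (k : Fin g ⊕ Fin g) : SurfaceGroup g :=
  if k = k0 then w else PresentedGroup.of k

lemma f1_self (k0 : Fin g ⊕ Fin g) (w : SurfaceGroup g) : f1 k0 w k0 = w := if_pos rfl

lemma f1_ne {k0 k : Fin g ⊕ Fin g} (w : SurfaceGroup g) (h : k ≠ k0) :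
    f1 k0 w k = PresentedGroup.of k := if_neg h

lemma rp_f1_inr (i : Fin g) (w : SurfaceGroup g)
    (hw : PresentedGroup.of (Sum.inl i) * w * (PresentedGroup.of (Sum.inl i))⁻¹ * w⁻¹ =
      PresentedGroup.of (Sum.inl i) * PresentedGroup.of (Sum.inr i) *
        (PresentedGroup.of (Sum.inl i))⁻¹ * (PresentedGroup.of (Sum.inr i) : SurfaceGroup g)⁻¹) :
    rp (f1 (Sum.inr i) w) = 1 := by
  rw [← rp_of]
  unfold rp
  congr 2
  funext j
  rw [f1_ne w (Sum.inl_ne_inr : (Sum.inl j : Fin g ⊕ Fin g) ≠ Sum.inr i)]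
  by_cases h : j = i
  · subst h
    rw [f1_self]
    exact hw
  · rw [f1_ne w (fun hc => h (Sum.inr_injective hc))]

lemma rp_f1_inl (i : Fin g) (w : SurfaceGroup g)
    (hw : w * PresentedGroup.of (Sum.inr i) * w⁻¹ * (PresentedGroup.of (Sum.inr i))⁻¹ =
      PresentedGroup.of (Sum.inl i) * PresentedGroup.of (Sum.inr i) *
        (PresentedGroup.of (Sum.inl i))⁻¹ * (PresentedGroup.of (Sum.inr i) : SurfaceGroup g)⁻¹) :
    rp (f1 (Sum.inl i) w) = 1 := by
  rw [← rp_of]
  unfold rp
  congr 2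
  funext j
  rw [f1_ne w (Sum.inr_ne_inl : (Sum.inr j : Fin g ⊕ Fin g) ≠ Sum.inl i)]
  by_cases h : j = i
  · subst h
    rw [f1_self]
    exact hw
  · rw [f1_ne w (fun hc => h (Sum.inl_injective hc))]

lemma exists_f1 (k0 k1 : Fin g ⊕ Fin g) (hk : k1 ≠ k0)
    (h : rp (f1 k0 (PresentedGroup.of k0 * PresentedGroup.of k1)) = 1)
    (h' : rp (f1 k0 (PresentedGroup.of k0 * (PresentedGroup.of k1)⁻¹)) = 1) :
    (∃ φ : MulAut (SurfaceGroup g), ∀ i, φ (PresentedGroup.of i) =
      f1 k0 (PresentedGroup.of k0 * PresentedGroup.of k1) i) ∧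
    ∃ φ : MulAut (SurfaceGroup g), ∀ i, φ (PresentedGroup.of i) =
      f1 k0 (PresentedGroup.of k0 * (PresentedGroup.of k1)⁻¹) i := by
  have h1 : ∀ i, hf _ h (f1 k0 (PresentedGroup.of k0 * (PresentedGroup.of k1)⁻¹) i) =
      PresentedGroup.of i := by
    intro i
    by_cases hi : i = k0
    · subst hi
      rw [f1_self, map_mul, map_inv, hf_of, hf_of, f1_self, f1_ne _ hk, mul_inv_cancel_right]
    · rw [f1_ne _ hi, hf_of, f1_ne _ hi]
  have h2 : ∀ i, hf _ h' (f1 k0 (PresentedGroup.of k0 * PresentedGroup.of k1) i) =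
      PresentedGroup.of i := by
    intro i
    by_cases hi : i = k0
    · subst hi
      rw [f1_self, map_mul, hf_of, hf_of, f1_self, f1_ne _ hk, inv_mul_cancel_right]
    · rw [f1_ne _ hi, hf_of, f1_ne _ hi]
  exact ⟨exists_aut _ _ h h' h1 h2, exists_aut _ _ h' h h2 h1⟩

/-- The transvection of the class of `a_i`. -/
theorem tw_e (i : Fin g) : ∃ φ : MulAut (SurfaceGroup g), rho g φ = tr (ee i) := by
  obtain ⟨-, φ, hφ⟩ := exists_f1 (Sum.inr i : Fin g ⊕ Fin g) (Sum.inl i) Sum.inl_ne_inr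
    (rp_f1_inr i _ (by group)) (rp_f1_inr i _ (by group))
  refine ⟨φ, rho_eq_tr φ _ fun k => ?_⟩
  rw [hφ, tr_apply, om_single_ee]
  by_cases hk : k = Sum.inr i
  · subst hk
    rw [f1_self, cls_mul, cls_inv, cls_of, cls_of, if_pos rfl, neg_smul, one_smul]
    rfl
  · rw [f1_ne _ hk, cls_of, if_neg hk, zero_smul, add_zero]

/-- The transvection of the class of `b_i`. -/
theorem tw_f (i : Fin g) : ∃ φ : MulAut (SurfaceGroup g), rho g φ = tr (ff i) := by
  obtain ⟨⟨φ, hφ⟩, -⟩ := exists_f1 (Sum.inl i : Fin g ⊕ Fin g) (Sum.inr i) Sum.inr_ne_inl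
    (rp_f1_inl i _ (by group)) (rp_f1_inl i _ (by group))
  refine ⟨φ, rho_eq_tr φ _ fun k => ?_⟩
  rw [hφ, tr_apply, om_single_ff]
  by_cases hk : k = Sum.inl i
  · subst hk
    rw [f1_self, cls_mul, cls_of, cls_of, if_pos rfl, one_smul]
    rfl
  · rw [f1_ne _ hk, cls_of, if_neg hk, zero_smul, add_zero]

/-- The element `b_i⁻¹ a_j b_j a_j⁻¹`. -/
def yy (i j : Fin g) : SurfaceGroup g :=
  (PresentedGroup.of (Sum.inr i))⁻¹ * PresentedGroup.of (Sum.inl j) *
    PresentedGroup.of (Sum.inr j) * (PresentedGroup.of (Sum.inl j))⁻¹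

/-- Images of the generators, for `t = y` or `t = y⁻¹`. -/
def f2 (i j : Fin g) (t : SurfaceGroup g) (k : Fin g ⊕ Fin g) : SurfaceGroup g :=
  if k = Sum.inl i then PresentedGroup.of (Sum.inl i) * t else
  if k = Sum.inr i then t⁻¹ * PresentedGroup.of (Sum.inr i) * t else
  if k = Sum.inl j then t⁻¹ * PresentedGroup.of (Sum.inl j) else PresentedGroup.of k

lemma f2_ai (i j : Fin g) (t : SurfaceGroup g) :
    f2 i j t (Sum.inl i) = PresentedGroup.of (Sum.inl i) * t := if_pos rfl

lemma f2_bi (i j : Fin g) (t : SurfaceGroup g) :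
    f2 i j t (Sum.inr i) = t⁻¹ * PresentedGroup.of (Sum.inr i) * t := by
  unfold f2
  rw [if_neg Sum.inr_ne_inl, if_pos rfl]

lemma f2_aj {i j : Fin g} (h : j ≠ i) (t : SurfaceGroup g) :
    f2 i j t (Sum.inl j) = t⁻¹ * PresentedGroup.of (Sum.inl j) := by
  unfold f2
  rw [if_neg (fun hc => h (Sum.inl_injective hc)), if_neg Sum.inl_ne_inr, if_pos rfl]

lemma f2_a {i j k : Fin g} (h : k ≠ i) (h' : k ≠ j) (t : SurfaceGroup g) :
    f2 i j t (Sum.inl k) = PresentedGroup.of (Sum.inl k) := by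
  unfold f2
  rw [if_neg (fun hc => h (Sum.inl_injective hc)), if_neg Sum.inl_ne_inr,
    if_neg (fun hc => h' (Sum.inl_injective hc))]

lemma f2_b {i j k : Fin g} (h : k ≠ i) (t : SurfaceGroup g) :
    f2 i j t (Sum.inr k) = PresentedGroup.of (Sum.inr k) := by
  unfold f2
  rw [if_neg Sum.inr_ne_inl, if_neg (fun hc => h (Sum.inr_injective hc)), if_neg Sum.inr_ne_inl]

lemma rp_f2 (i j : Fin g) (hij : (j : ℕ) = i + 1) (t : SurfaceGroup g)
    (ht : t = yy i j ∨ t = (yy i j)⁻¹) : rp (f2 i j t) = 1 := by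
  have hne : j ≠ i := by
    intro hc
    rw [hc] at hij
    omega
  rw [← rp_of]
  unfold rp
  refine prod_ofFn_twob g _ _ i j hij (fun k h1 h2 => ?_) ?_
  · rw [f2_a h1 h2, f2_b h1]
  · rw [f2_ai, f2_bi, f2_aj hne, f2_b hne]
    rcases ht with rfl | rfl <;> unfold yy <;> group

lemma hf_f2_yy (i j : Fin g) (hij : (j : ℕ) = i + 1) (t : SurfaceGroup g)
    (ht : t = yy i j ∨ t = (yy i j)⁻¹) (h : rp (f2 i j t) = 1) :
    hf (f2 i j t) h (yy i j) = yy i j := by
  have hne : j ≠ i := by
    intro hc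
    rw [hc] at hij
    omega
  have h1 : hf (f2 i j t) h (yy i j) = t⁻¹ * yy i j * t := by
    unfold yy
    rw [map_mul, map_mul, map_mul, map_inv, map_inv, hf_of, hf_of, hf_of, f2_bi, f2_aj hne,
      f2_b hne]
    group
  rw [h1]
  rcases ht with rfl | rfl <;> group

lemma hf_f2 (i j : Fin g) (hij : (j : ℕ) = i + 1) (t : SurfaceGroup g)
    (ht : t = yy i j ∨ t = (yy i j)⁻¹) (h : rp (f2 i j t) = 1) (k : Fin g ⊕ Fin g) :
    hf (f2 i j t) h (f2 i j t⁻¹ k) = PresentedGroup.of k := by
  have hne : j ≠ i := by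
    intro hc
    rw [hc] at hij
    omega
  have h0 : hf (f2 i j t) h t = t := by
    rcases ht with rfl | rfl
    · exact hf_f2_yy i j hij _ (Or.inl rfl) h
    · rw [map_inv, hf_f2_yy i j hij _ (Or.inr rfl) h]
  rcases k with k | k
  · by_cases h1 : k = i
    · subst h1
      rw [f2_ai, map_mul, map_inv, h0, hf_of, f2_ai, mul_inv_cancel_right]
    · by_cases h2 : k = j
      · subst h2
        rw [f2_aj h1, map_mul, map_inv, map_inv, h0, hf_of, f2_aj h1, inv_inv,
          mul_inv_cancel_left]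
      · rw [f2_a h1 h2, hf_of, f2_a h1 h2]
  · by_cases h1 : k = i
    · subst h1
      rw [f2_bi, map_mul, map_mul, map_inv, map_inv, h0, hf_of, f2_bi]
      group
    · rw [f2_b h1, hf_of, f2_b h1]

/-- The transvection of the class of `b_i - b_j`, for `j = i + 1`. -/
theorem tw_d (i j : Fin g) (hij : (j : ℕ) = i + 1) :
    ∃ φ : MulAut (SurfaceGroup g), rho g φ = tr (ff i - ff j) := by
  have hne : j ≠ i := by
    intro hc
    rw [hc] at hij
    omega
  obtain ⟨φ, hφ⟩ := exists_aut (f2 i j (yy i j)⁻¹) (f2 i j (yy i j))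
    (rp_f2 i j hij _ (Or.inr rfl)) (rp_f2 i j hij _ (Or.inl rfl))
    (fun k => by
      have := hf_f2 i j hij (yy i j)⁻¹ (Or.inr rfl) (rp_f2 i j hij _ (Or.inr rfl)) k
      rwa [inv_inv] at this)
    (fun k => hf_f2 i j hij (yy i j) (Or.inl rfl) (rp_f2 i j hij _ (Or.inl rfl)) k)
  have hy : cls (yy i j) = ff j - ff i := by
    unfold yy
    rw [cls_mul, cls_mul, cls_mul, cls_inv, cls_inv, cls_of, cls_of, cls_of]
    show -(ff i) + ee j + ff j + -(ee j) = _
    abel
  refine ⟨φ, rho_eq_tr φ _ fun k => ?_⟩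
  rw [hφ, tr_apply, om_sub_right, om_single_ff, om_single_ff]
  rcases k with k | k
  · by_cases h1 : k = i
    · subst h1
      rw [f2_ai, cls_mul, cls_inv, hy, cls_of, if_pos rfl,
        if_neg (fun hc => hne (Sum.inl_injective hc).symm), sub_zero, one_smul]
      abel
    · by_cases h2 : k = j
      · subst h2
        rw [f2_aj h1, cls_mul, cls_inv, cls_inv, hy, cls_of, if_pos rfl,
          if_neg (fun hc => h1 (Sum.inl_injective hc)), zero_sub, neg_smul, one_smul]
        abel
      · rw [f2_a h1 h2, cls_of, if_neg (fun hc => h1 (Sum.inl_injective hc)),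
          if_neg (fun hc => h2 (Sum.inl_injective hc)), sub_zero, zero_smul, add_zero]
  · rw [if_neg Sum.inr_ne_inl, if_neg Sum.inr_ne_inl, sub_zero, zero_smul, add_zero]
    by_cases h1 : k = i
    · subst h1
      rw [f2_bi, cls_mul, cls_mul, cls_inv, cls_inv, cls_of]
      abel
    · rw [f2_b h1, cls_of]

end

end Pool.Agent.V8H98.JF
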