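import Pool.Agent.V8H98.JF.Sp4
import Pool.Agent.V8H98.JF.Tw
import Pool.Agent.V8H98.JF.Pm
import Pool.Agent.V8H98.CHV.Asm

/-!
# Congruence subgroups of groups of automorphisms of surface groups: the assembly
-/

set_option autoImplicit false

open Pool.Agent.R569.CS

namespace Pool.Agent.V8H98.JF

variable {g : ℕ}

theorem fg_surface (g : ℕ) : Group.FG (SurfaceGroup g) :=
  QuotientGroup.fg _

/-- The congruence subgroup of level `M` of the surface group. -/
def levK (g M : ℕ) : Subgroup (SurfaceGroup g) where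
  carrier := {x | ∀ i, (M : ℤ) ∣ cls x i}
  one_mem' := fun i => by
    rw [cls_one]
    exact dvd_zero _
  mul_mem' := fun {x y} hx hy i => by
    rw [cls_mul, Pi.add_apply]
    exact dvd_add (hx i) (hy i)
  inv_mem' := fun {x} hx i => by
    rw [cls_inv, Pi.neg_apply]
    exact (dvd_neg).2 (hx i)

lemma mem_levK {M : ℕ} {x : SurfaceGroup g} : x ∈ levK g M ↔ ∀ i, (M : ℤ) ∣ cls x i := Iff.rfl

lemma levK_char (g M : ℕ) : (levK g M).Characteristic := by
  rw [Subgroup.characteristic_iff_le_comap]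
  intro φ x hx i
  show (M : ℤ) ∣ cls (φ x) i
  have h1 : ∃ v : V g, cls x = (M : ℤ) • v := by
    choose v hv using hx
    exact ⟨v, funext fun j => by rw [hv j, Pi.smul_apply, smul_eq_mul]⟩
  obtain ⟨v, hv⟩ := h1
  rw [← rho_cls, hv, map_smul]
  exact Dvd.intro _ rfl

lemma levK_fin (g : ℕ) {M : ℕ} (hM : 0 < M) : (levK g M).FiniteIndex := by
  have : NeZero M := ⟨hM.ne'⟩
  let f : SurfaceGroup g →* Multiplicative (Fin g ⊕ Fin g → ZMod M) :=
    { toFun := fun x => Multiplicative.ofAdd (fun i => ((cls x i : ℤ) : ZMod M))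
      map_one' := by
        rw [cls_one]
        apply congrArg Multiplicative.ofAdd
        funext i
        simp
      map_mul' := fun x y => by
        rw [← ofAdd_add, cls_mul]
        apply congrArg Multiplicative.ofAdd
        funext i
        simp }
  have h1 : f.ker = levK g M := by
    ext x
    rw [MonoidHom.mem_ker, mem_levK]
    constructor
    · intro h i
      have h2 := congrFun (congrArg Multiplicative.toAdd h) i
      exact (ZMod.intCast_zmod_eq_zero_iff_dvd _ _).1 h2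
    · intro h
      apply congrArg Multiplicative.ofAdd
      funext i
      exact (ZMod.intCast_zmod_eq_zero_iff_dvd _ _).2 (h i)
  rw [← h1]
  infer_instance

/-- The image of a subgroup of finite index has finite index in the image. -/
lemma map_fin {A L : Type} [Group A] [Group L] (f : A →* L) (B : Subgroup A) (hB : B.FiniteIndex) :
    (B.map f).relIndex f.range ≠ 0 := by
  have h1 : (B.map f).subgroupOf f.range = B.map f.rangeRestrict := by
    ext ⟨y, hy⟩
    rw [Subgroup.mem_subgroupOf]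
    constructor
    · rintro ⟨x, hx, hxy⟩
      exact ⟨x, hx, Subtype.ext hxy⟩
    · rintro ⟨x, hx, hxy⟩
      exact ⟨x, hx, congrArg Subtype.val hxy⟩
  unfold Subgroup.relIndex
  rw [h1]
  intro h2
  have h3 := Subgroup.index_map_dvd B f.rangeRestrict_surjective
  rw [h2] at h3
  exact hB.index_ne_zero (Nat.eq_zero_of_zero_dvd h3)

/-- A subgroup of finite index contains a normal subgroup of finite index. -/
lemma exists_norm {L : Type} [Group L] (S P : Subgroup L) (hP : P.relIndex S ≠ 0) :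
    ∃ (N : Subgroup L) (k : ℕ), N ≤ P ∧ 0 < k ∧ (∀ h ∈ S, ∀ x ∈ N, h * x * h⁻¹ ∈ N) ∧
      ∀ h ∈ S, h ^ k ∈ N := by
  have h0 : (P.subgroupOf S).FiniteIndex := ⟨hP⟩
  have hCn : (P.subgroupOf S).normalCore.Normal := Subgroup.normalCore_normal _
  have hCf : (P.subgroupOf S).normalCore.FiniteIndex := inferInstance
  refine ⟨(P.subgroupOf S).normalCore.map S.subtype, (P.subgroupOf S).normalCore.index, ?_,
    Nat.pos_of_ne_zero hCf.index_ne_zero, ?_, ?_⟩
  · rintro _ ⟨x, hx, rfl⟩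
    exact Subgroup.normalCore_le (P.subgroupOf S) hx
  · rintro h hh _ ⟨x, hx, rfl⟩
    let s : S := ⟨h, hh⟩
    exact ⟨s * x * s⁻¹, hCn.conj_mem x hx s, rfl⟩
  · intro h hh
    let s : S := ⟨h, hh⟩
    exact ⟨s ^ (P.subgroupOf S).normalCore.index, Subgroup.pow_index_mem _ s,
      map_pow S.subtype s _⟩

/-- A subgroup of finite index of the symplectic group contains a good subgroup. -/
lemma exists_good (P : Subgroup (V g ≃ₗ[ℤ] V g)) (hP : P.relIndex (Sp g) ≠ 0) :
    ∃ (N : Subgroup (V g ≃ₗ[ℤ] V g)) (M : ℕ), Good N M ∧ 4 ∣ M ∧ N ≤ P := by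
  obtain ⟨N, k, hNP, hk, hc, hp⟩ := exists_norm (Sp g) P hP
  refine ⟨N, 4 * k, ⟨hc, fun h hh => ?_, Nat.mul_pos (by norm_num) hk⟩, Dvd.intro _ rfl, hNP⟩
  rw [mul_comm, pow_mul]
  exact N.pow_mem (hp h hh) 4

/-- Automorphisms that are trivial modulo `M ≥ 3` on the homology preserve the form. -/
lemma rho_mem_Sp {M : ℕ} (hg : 0 < g) (hM : 3 ≤ M) (φ : MulAut (SurfaceGroup g))
    (hc : ∀ x i, (M : ℤ) ∣ (rho g φ x - x) i) : rho g φ ∈ Sp g := by
  obtain ⟨ε, hε, h⟩ := pm φ
  have h1 : ∀ x : V g, ∃ u : V g, rho g φ x = x + (M : ℤ) • u := by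
    intro x
    choose u hu using hc x
    refine ⟨u, funext fun i => ?_⟩
    have := hu i
    rw [Pi.sub_apply] at this
    rw [Pi.add_apply, Pi.smul_apply, smul_eq_mul]
    linarith
  have h2 : ε = 1 := by
    rcases hε with h3 | h3
    · exact h3
    exfalso
    obtain ⟨u, hu⟩ := h1 (ee ⟨0, hg⟩)
    obtain ⟨w, hw⟩ := h1 (ff ⟨0, hg⟩)
    have h4 := h (ee ⟨0, hg⟩) (ff ⟨0, hg⟩)
    have h5 : om (ee (⟨0, hg⟩ : Fin g)) (ff ⟨0, hg⟩) = 1 := by
      rw [om_ff_right]
      simp [ee]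
    rw [hu, hw, om_add_left, om_add_right, om_add_right, om_smul_left, om_smul_left, om_smul_right,
      om_smul_right, h5, h3] at h4
    have h6 : (M : ℤ) ∣ 2 := by
      refine ⟨-(om (ee ⟨0, hg⟩) w + om u (ff ⟨0, hg⟩) + (M : ℤ) * om u w), ?_⟩
      linarith
    have h7 := Int.le_of_dvd (by norm_num) h6
    omega
  rw [mem_Sp]
  intro x y
  rw [h, h2, one_mul]

/-- **The core of the assembly**, for a group of automorphisms whose image in the automorphisms of
the first homology has the congruence subgroup property. -/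
theorem core_asm (A : Subgroup (MulAut (SurfaceGroup g)))
    (hCSP : ∀ W : Subgroup A, W.FiniteIndex → (∀ a : A, a.1 ∈ (rho g).ker → a ∈ W) →
      ∃ M : ℕ, 0 < M ∧ ∀ a : A, (∀ v i, (M : ℤ) ∣ (rho g a.1 v - v) i) → a ∈ W)
    (W : Subgroup A) (hW : W.FiniteIndex)
    (hT : ∃ K1 : Subgroup (SurfaceGroup g), K1.Characteristic ∧ K1.FiniteIndex ∧
      ∀ a : A, a.1 ∈ (rho g).ker → (∀ x, a.1 x * x⁻¹ ∈ K1) → a ∈ W) :
    ∃ K : Subgroup (SurfaceGroup g), K.Characteristic ∧ K.FiniteIndex ∧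
      ∀ a : A, (∀ x, a.1 x * x⁻¹ ∈ K) → a ∈ W := by
  obtain ⟨K1, hK1c, hK1f, hK1⟩ := hT
  have hC : (act A.subtype K1).FiniteIndex := act_finiteIndex A.subtype K1
  set B : Subgroup A := W ⊓ act A.subtype K1 with hB
  have hBf : B.FiniteIndex := inferInstance
  set T : Subgroup A := (rho g).ker.comap A.subtype with hT
  have hTn : T.Normal := inferInstance
  have hf2 : (B ⊔ T).FiniteIndex := Subgroup.finiteIndex_of_le (H := B) le_sup_left
  obtain ⟨M, hM, hMW⟩ := hCSP (B ⊔ T) hf2 (fun a ha => le_sup_right (a := B) ha)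
  refine ⟨K1 ⊓ levK g M, CHV.char_inf hK1c (levK_char g M), ?_, ?_⟩
  · have := levK_fin g hM
    infer_instance
  intro a ha
  have h5 : ∀ x i, (M : ℤ) ∣ (rho g a.1 x - x) i := by
    intro v i
    obtain ⟨x, rfl⟩ := cls_surj v
    have h6 := (ha x).2 i
    rwa [cls_mul, cls_inv, ← sub_eq_add_neg, ← rho_cls] at h6
  have h6 := hMW a h5
  rw [← SetLike.mem_coe, Subgroup.mul_normal] at h6
  obtain ⟨b, hb, t, ht, rfl⟩ := h6
  have h10 : b * t ∈ act A.subtype K1 := fun x => (ha x).1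
  have h7 : t ∈ act A.subtype K1 := by
    have := (act A.subtype K1).mul_mem ((act A.subtype K1).inv_mem hb.2) h10
    rwa [inv_mul_cancel_left] at this
  exact W.mul_mem hb.1 (hK1 t ht h7)

/-- **The assembly**, for a group of automorphisms whose image in the automorphisms of the first
homology has the congruence subgroup property. -/
theorem asm_gen {I : Type} [Finite I] (Γ : I → Subgroup (SurfaceGroup g))
    (hn : ∀ i, (Γ i).Normal) (hf : ∀ i, (Γ i).FiniteIndex) (c : I → ℕ)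
    (A : Subgroup (MulAut (SurfaceGroup g)))
    (hCSP : ∀ W : Subgroup A, W.FiniteIndex → (∀ a : A, a.1 ∈ (rho g).ker → a ∈ W) →
      ∃ M : ℕ, 0 < M ∧ ∀ a : A, (∀ v i, (M : ℤ) ∣ (rho g a.1 v - v) i) → a ∈ W)
    (hVS : ∀ i, CHV.VS (A ⊓ (rho g).ker).subtype (Γ i))
    (W : Subgroup A) (hW : W.FiniteIndex)
    (hle : ∀ a : A, (∀ x, a.1 x * x⁻¹ ∈ ⨅ i, (Γ i).lowerCentralSeries (c i)) → a ∈ W) :
    ∃ K : Subgroup (SurfaceGroup g), K.Characteristic ∧ K.FiniteIndex ∧
      ∀ a : A, (∀ x, a.1 x * x⁻¹ ∈ K) → a ∈ W := by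
  have hfg := fg_surface g
  obtain ⟨K1, hK1c, hK1f, hK1⟩ := CHV.csp_main Γ hn hf c (A ⊓ (rho g).ker).subtype hVS
    (W.comap (Subgroup.inclusion inf_le_left)) (fi_comap _ _)
    (fun t ht => hle ⟨t.1, t.2.1⟩ ht)
  refine core_asm A hCSP W hW ⟨K1, hK1c, hK1f, fun a ha hact => ?_⟩
  exact hK1 (show (⟨a.1, a.2, ha⟩ : (A ⊓ (rho g).ker : Subgroup _)) ∈
    act (A ⊓ (rho g).ker).subtype K1 from hact)

/-- **The congruence subgroup property** for the groups whose image in the automorphisms of the first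
homology contains a subgroup of finite index of the symplectic group. -/
theorem large_csp (hg : 3 ≤ g) (A : Subgroup (MulAut (SurfaceGroup g)))
    (hA : ((A.map (rho g)).subgroupOf (Sp g)).FiniteIndex)
    (W : Subgroup A) (hW : W.FiniteIndex) (hTW : ∀ a : A, a.1 ∈ (rho g).ker → a ∈ W) :
    ∃ M : ℕ, 0 < M ∧ ∀ a : A, (∀ v i, (M : ℤ) ∣ (rho g a.1 v - v) i) → a ∈ W := by
  have h1 : (W.map ((rho g).comp A.subtype)).relIndex (A.map (rho g)) ≠ 0 := by
    have h2 := map_fin ((rho g).comp A.subtype) W hW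
    have h3 : ((rho g).comp A.subtype).range = A.map (rho g) := by
      rw [MonoidHom.range_comp, Subgroup.range_subtype]
    rwa [h3] at h2
  obtain ⟨N, M, hN, h4, hNP⟩ := exists_good (W.map ((rho g).comp A.subtype))
    (Subgroup.relIndex_ne_zero_trans h1 hA.index_ne_zero)
  refine ⟨M, hN.pos, fun a h5 => ?_⟩
  have h3 : 3 ≤ M := by
    have h7 := Nat.le_of_dvd hN.pos h4
    omega
  have h8 : rho g a.1 ∈ N := csp_sp hg hN h4 (rho_mem_Sp (by omega) h3 a.1 h5) h5
  obtain ⟨b, hb, hba⟩ := hNP h8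
  have hba' : rho g b.1 = rho g a.1 := hba
  have h10 : (b⁻¹ * a).1 ∈ (rho g).ker := by
    rw [MonoidHom.mem_ker]
    show rho g (b.1⁻¹ * a.1) = 1
    rw [map_mul, map_inv, hba', inv_mul_cancel]
  have h13 := W.mul_mem hb (hTW _ h10)
  rwa [mul_inv_cancel_left] at h13

/-- **The assembly.** -/
theorem asm (hg : 3 ≤ g) {I : Type} [Finite I] (Γ : I → Subgroup (SurfaceGroup g))
    (hn : ∀ i, (Γ i).Normal) (hf : ∀ i, (Γ i).FiniteIndex) (c : I → ℕ)
    (A : Subgroup (MulAut (SurfaceGroup g)))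
    (hA : ((A.map (rho g)).subgroupOf (Sp g)).FiniteIndex)
    (hVS : ∀ i, CHV.VS (A ⊓ (rho g).ker).subtype (Γ i))
    (W : Subgroup A) (hW : W.FiniteIndex)
    (hle : ∀ a : A, (∀ x, a.1 x * x⁻¹ ∈ ⨅ i, (Γ i).lowerCentralSeries (c i)) → a ∈ W) :
    ∃ K : Subgroup (SurfaceGroup g), K.Characteristic ∧ K.FiniteIndex ∧
      ∀ a : A, (∀ x, a.1 x * x⁻¹ ∈ K) → a ∈ W :=
  asm_gen Γ hn hf c A (large_csp hg A hA) hVS W hW hle

/-- The Torelli group acts trivially on the homology. -/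
theorem torelli_VS (A : Subgroup (MulAut (SurfaceGroup g))) :
    CHV.VS (A ⊓ (rho g).ker).subtype (⊤ : Subgroup (SurfaceGroup g)) := by
  refine ⟨⊤, inferInstance, 0, fun d _ => ⟨1, fun x _ => ?_⟩⟩
  have h1 : d.1 x * (1 * x * 1⁻¹)⁻¹ ∈ commutator (SurfaceGroup g) := by
    rw [← cls_eq_zero_iff, one_mul, inv_one, mul_one, cls_mul, cls_inv, ← rho_cls,
      MonoidHom.mem_ker.1 d.2.2]
    exact add_neg_cancel _
  exact h1

/-- The image of the automorphism group of the surface group contains the symplectic group. -/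
theorem Sp_le_map_top (g : ℕ) : Sp g ≤ (⊤ : Subgroup (MulAut (SurfaceGroup g))).map (rho g) := by
  apply gen
  · intro i
    obtain ⟨φ, hφ⟩ := tw_e i
    exact ⟨φ, Subgroup.mem_top _, hφ⟩
  · intro i
    obtain ⟨φ, hφ⟩ := tw_f i
    exact ⟨φ, Subgroup.mem_top _, hφ⟩
  · intro i j hij
    obtain ⟨φ, hφ⟩ := tw_d i j hij
    exact ⟨φ, Subgroup.mem_top _, hφ⟩

/-- The whole automorphism group satisfies the hypothesis of `asm`. -/
theorem map_top (g : ℕ) :
    (((⊤ : Subgroup (MulAut (SurfaceGroup g))).map (rho g)).subgroupOf (Sp g)).FiniteIndex := by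
  rw [Subgroup.subgroupOf_eq_top.2 (Sp_le_map_top g)]
  infer_instance

end Pool.Agent.V8H98.JF
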