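import Pool.Agent.V8H98.JF.Ind3
import Pool.Agent.V8H98.JF.Fin

/-!
# Subgroups of the mapping class group and the homology of the double covers
-/

set_option autoImplicit false

namespace Pool.Agent.V8H98.JF

open Pool.Agent.R569.CS (act act_finiteIndex charCore)

variable {h : ℕ}

/-- The automorphisms acting trivially on the first homology of the surface and of all its double
covers. -/
noncomputable def DD (g : ℕ) : Subgroup (MulAut (SurfaceGroup g)) :=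
  (rho g).ker ⊓ ⨅ Γ : JJ g, TT Γ.1 Γ.2

lemma mem_DD {g : ℕ} {t : MulAut (SurfaceGroup g)} :
    t ∈ DD g ↔ rho g t = 1 ∧ ∀ Γ : JJ g, t ∈ TT Γ.1 Γ.2 := by
  unfold DD
  rw [Subgroup.mem_inf, Subgroup.mem_iInf, MonoidHom.mem_ker]

/-- **Reduction to the automorphisms acting trivially on the homology of the double covers.** -/
theorem red2 (hh : 3 ≤ h) (W : Subgroup (MulAut (SurfaceGroup (h + 1)))) (hWf : W.FiniteIndex)
    (hW : ∃ K1 : Subgroup (SurfaceGroup (h + 1)), K1.Characteristic ∧ K1.FiniteIndex ∧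
      ∀ t ∈ DD (h + 1), (∀ x, t x * x⁻¹ ∈ K1) → t ∈ W) :
    ∃ K : Subgroup (SurfaceGroup (h + 1)), K.Characteristic ∧ K.FiniteIndex ∧
      ∀ a, (∀ x, a x * x⁻¹ ∈ K) → a ∈ W := by
  have hW2 : (W.comap (⊤ : Subgroup (MulAut (SurfaceGroup (h + 1)))).subtype).FiniteIndex :=
    Pool.Agent.R569.CS.fi_comap _ _
  obtain ⟨K1, c1, f1, h1⟩ := hW
  obtain ⟨K2, c2, f2, h2⟩ := torelli_part hh W hWf ⟨K1, c1, f1, fun t ht hΓ hx =>
    h1 t (mem_DD.2 ⟨ht, hΓ⟩) hx⟩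
  obtain ⟨K, c3, f3, h3⟩ := core_asm (⊤ : Subgroup (MulAut (SurfaceGroup (h + 1))))
    (large_csp (by omega) _ (map_top _)) (W.comap (⊤ : Subgroup _).subtype) hW2
    ⟨K2, c2, f2, fun a ha hx => h2 a.1 ha hx⟩
  exact ⟨K, c3, f3, fun a hx => h3 ⟨a, Subgroup.mem_top a⟩ hx⟩

/-- **The congruence property modulo the double covers.** -/
theorem main2 (hh : 3 ≤ h) {I : Type} [Finite I] (Γ : I → Subgroup (SurfaceGroup (h + 1)))
    (hn : ∀ i, (Γ i).Normal) (hf : ∀ i, (Γ i).FiniteIndex) (c : I → ℕ)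
    (hVS : ∀ i, CHV.VS (DD (h + 1)).subtype (Γ i))
    (W : Subgroup (MulAut (SurfaceGroup (h + 1)))) (hWf : W.FiniteIndex)
    (hle : ∀ a, (∀ x, a x * x⁻¹ ∈ ⨅ i, (Γ i).lowerCentralSeries (c i)) → a ∈ W) :
    ∃ K : Subgroup (SurfaceGroup (h + 1)), K.Characteristic ∧ K.FiniteIndex ∧
      ∀ a, (∀ x, a x * x⁻¹ ∈ K) → a ∈ W := by
  have hfg := surface_fg' (h + 1)
  have hW1 : (W.comap (DD (h + 1)).subtype).FiniteIndex := Pool.Agent.R569.CS.fi_comap _ _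
  obtain ⟨K1, c1, f1, h1⟩ := CHV.csp_main Γ hn hf c (DD (h + 1)).subtype hVS
    (W.comap (DD (h + 1)).subtype) hW1 (fun a ha => hle a.1 ha)
  exact red2 hh W hWf ⟨K1, c1, f1, fun t ht hx => h1 (show (⟨t, ht⟩ : DD (h + 1)) ∈ _ from hx)⟩

end Pool.Agent.V8H98.JF
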