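import Pool.Agent.V8H98.JF.Psi

/-!
# The abelianization of the subgroup of index two
-/

set_option autoImplicit false

namespace Pool.Agent.V8H98.JF

variable {h : ℕ}

namespace GabAux

open PsiAux

instance gamNormal : (Gam h).Normal := ⟨fun n hn g => by
  show chi (g * n * g⁻¹) = 1
  rw [chi_mul, chi_mul, chi_inv, mem_Gam.1 hn, mul_one, mul_inv_cancel]⟩

/-- The abelianization of the subgroup of index two. -/
abbrev AB (h : ℕ) : Type := Abelianization (Gam h)

open Classical in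
/-- The class of an element of the subgroup. -/
noncomputable def q (x : SurfaceGroup (h + 1)) : AB h :=
  if hx : x ∈ Gam h then Abelianization.of ⟨x, hx⟩ else 1

lemma q_of {x : SurfaceGroup (h + 1)} (hx : x ∈ Gam h) : q x = Abelianization.of ⟨x, hx⟩ :=
  dif_pos hx

lemma q_mul {x y : SurfaceGroup (h + 1)} (hx : x ∈ Gam h) (hy : y ∈ Gam h) :
    q (x * y) = q x * q y := by
  rw [q_of hx, q_of hy, q_of (mul_mem hx hy), ← map_mul]
  rfl

lemma q_one : q (1 : SurfaceGroup (h + 1)) = 1 := by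
  rw [q_of (one_mem _)]
  exact map_one Abelianization.of

lemma q_inv {x : SurfaceGroup (h + 1)} (hx : x ∈ Gam h) : q x⁻¹ = (q x)⁻¹ := by
  rw [q_of hx, q_of (inv_mem hx), ← map_inv]
  rfl

lemma q_surj (z : AB h) : ∃ x ∈ Gam h, q x = z := by
  obtain ⟨y, rfl⟩ := QuotientGroup.mk_surjective z
  exact ⟨y.1, y.2, q_of y.2⟩

lemma mem_comm {x : SurfaceGroup (h + 1)} (hx : x ∈ Gam h) (hq : q x = 1) :
    x ∈ (⁅Gam h, Gam h⁆ : Subgroup (SurfaceGroup (h + 1))) := by
  rw [q_of hx] at hq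
  have h1 : (⟨x, hx⟩ : Gam h) ∈ commutator (Gam h) := (QuotientGroup.eq_one_iff _).1 hq
  rw [← Subgroup.map_subtype_commutator]
  exact ⟨_, h1, rfl⟩

/-- The conjugation. -/
def ta (g : SurfaceGroup (h + 1)) : AB h →* AB h :=
  Abelianization.map (MulAut.conjNormal g : MulAut (Gam h)).toMonoidHom

lemma conj_Gam (g : SurfaceGroup (h + 1)) {x : SurfaceGroup (h + 1)} (hx : x ∈ Gam h) :
    g * x * g⁻¹ ∈ Gam h := gamNormal.conj_mem x hx g

lemma ta_q (g : SurfaceGroup (h + 1)) {x : SurfaceGroup (h + 1)} (hx : x ∈ Gam h) :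
    ta g (q x) = q (g * x * g⁻¹) := by
  rw [q_of hx, q_of (conj_Gam g hx)]
  rfl

lemma ta_mul (g g' : SurfaceGroup (h + 1)) (z : AB h) : ta (g * g') z = ta g (ta g' z) := by
  obtain ⟨x, hx, rfl⟩ := q_surj z
  rw [ta_q _ hx, ta_q _ hx, ta_q _ (conj_Gam _ hx)]
  congr 1
  group

lemma ta_Gam {g : SurfaceGroup (h + 1)} (hg : g ∈ Gam h) (z : AB h) : ta g z = z := by
  obtain ⟨x, hx, rfl⟩ := q_surj z
  rw [ta_q _ hx, q_mul (mul_mem hg hx) (inv_mem hg), q_mul hg hx, q_inv hg, mul_comm (q g),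
    mul_assoc, mul_inv_cancel, mul_one]

/-- `a_0`. -/
abbrev a0 (h : ℕ) : SurfaceGroup (h + 1) := PresentedGroup.of (Sum.inl 0)

/-- `b_0`. -/
abbrev b0 (h : ℕ) : SurfaceGroup (h + 1) := PresentedGroup.of (Sum.inr 0)

/-- The other generators. -/
abbrev su (s : Fin h ⊕ Fin h) : Fin (h + 1) ⊕ Fin (h + 1) := Sum.map Fin.succ Fin.succ s

/-- The other generators. -/
abbrev uu (s : Fin h ⊕ Fin h) : SurfaceGroup (h + 1) := PresentedGroup.of (su s)

lemma a0_mem : a0 h ∈ Gam h := chi_a 0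

lemma uu_mem (s : Fin h ⊕ Fin h) : uu s ∈ Gam h := by
  rcases s with i | i
  · exact chi_a i.succ
  · exact chi_b i

lemma kap_uu (s : Fin h ⊕ Fin h) : kap (uu s) = Pi.single s 1 := by
  rcases s with i | i
  · exact kap_a i
  · exact kap_b i

/-- The kernel of `q`. -/
def G1 (h : ℕ) : Subgroup (SurfaceGroup (h + 1)) where
  carrier := {x | x ∈ Gam h ∧ q x = 1}
  one_mem' := ⟨one_mem _, q_one⟩
  mul_mem' := fun {x y} hx hy => ⟨mul_mem hx.1 hy.1, by rw [q_mul hx.1 hy.1, hx.2, hy.2, mul_one]⟩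
  inv_mem' := fun {x} hx => ⟨inv_mem hx.1, by rw [q_inv hx.1, hx.2, inv_one]⟩

lemma comm_G1 {x y : SurfaceGroup (h + 1)} (hx : x ∈ Gam h) (hy : y ∈ Gam h) :
    x * y * x⁻¹ * y⁻¹ ∈ G1 h := by
  refine ⟨mul_mem (mul_mem (mul_mem hx hy) (inv_mem hx)) (inv_mem hy), ?_⟩
  rw [q_mul (mul_mem (mul_mem hx hy) (inv_mem hx)) (inv_mem hy), q_mul (mul_mem hx hy) (inv_mem hx),
    q_mul hx hy, q_inv hx, q_inv hy, mul_comm (q x), mul_assoc (q y), mul_inv_cancel, mul_one,
    mul_inv_cancel]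

lemma ta_a0 : ta (b0 h) (q (a0 h)) = q (a0 h) := by
  have h1 := rel_eval (MonoidHom.id (SurfaceGroup (h + 1)))
  rw [List.ofFn_succ, List.prod_cons] at h1
  have h2 : (List.ofFn (fun i : Fin h => (MonoidHom.id (SurfaceGroup (h + 1)))
      (PresentedGroup.of (Sum.inl i.succ)) * (MonoidHom.id (SurfaceGroup (h + 1)))
      (PresentedGroup.of (Sum.inr i.succ)) * ((MonoidHom.id (SurfaceGroup (h + 1)))
      (PresentedGroup.of (Sum.inl i.succ)))⁻¹ * ((MonoidHom.id (SurfaceGroup (h + 1)))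
      (PresentedGroup.of (Sum.inr i.succ)))⁻¹)).prod ∈ G1 h := by
    apply Subgroup.list_prod_mem
    intro x hx
    rw [List.mem_ofFn] at hx
    obtain ⟨i, rfl⟩ := hx
    exact comm_G1 (chi_a _) (chi_b _)
  generalize (List.ofFn (fun i : Fin h => (MonoidHom.id (SurfaceGroup (h + 1)))
      (PresentedGroup.of (Sum.inl i.succ)) * (MonoidHom.id (SurfaceGroup (h + 1)))
      (PresentedGroup.of (Sum.inr i.succ)) * ((MonoidHom.id (SurfaceGroup (h + 1)))
      (PresentedGroup.of (Sum.inl i.succ)))⁻¹ * ((MonoidHom.id (SurfaceGroup (h + 1)))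
      (PresentedGroup.of (Sum.inr i.succ)))⁻¹)).prod = P at h1 h2
  have h3 : b0 h * a0 h * (b0 h)⁻¹ = P * a0 h := by
    have h4 : a0 h * b0 h * (a0 h)⁻¹ * (b0 h)⁻¹ * P = 1 := h1
    have h5 : P = b0 h * a0 h * (b0 h)⁻¹ * (a0 h)⁻¹ := by
      have := eq_inv_of_mul_eq_one_right h4
      rw [this]
      group
    rw [h5]
    group
  rw [ta_q _ a0_mem, h3, q_mul h2.1 a0_mem, h2.2, one_mul]

variable (h) in
/-- The span of the classes of the other generators. -/
noncomputable def la : Multiplicative (V h) →* AB h :=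
  MonoidHom.mk' (fun v => ∏ i, (q (uu i)) ^ ((v.toAdd : V h) i)) (by
    intro a b
    rw [← Finset.prod_mul_distrib]
    exact Finset.prod_congr rfl fun i _ => by
      rw [toAdd_mul, Pi.add_apply, zpow_add])

lemma la_apply (v : Multiplicative (V h)) : la h v = ∏ i, (q (uu i)) ^ ((v.toAdd : V h) i) := rfl

variable (h) in
/-- The subgroup of the normal forms. -/
noncomputable def Z : Subgroup (AB h) :=
  Subgroup.zpowers (q (a0 h)) ⊔ ((la h).range ⊔ (la h).range.map (ta (b0 h)))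

lemma bb_mem : b0 h * b0 h ∈ Gam h := by
  show chi (b0 h * b0 h) = 1
  rw [chi_mul, chi_b0]
  rfl

lemma Z_b0 : Z h ≤ (Z h).comap (ta (b0 h)) := by
  refine sup_le ?_ (sup_le ?_ ?_)
  · rw [Subgroup.zpowers_le]
    show ta (b0 h) (q (a0 h)) ∈ Z h
    rw [ta_a0]
    exact Subgroup.mem_sup_left (Subgroup.mem_zpowers _)
  · intro z hz
    exact Subgroup.mem_sup_right (Subgroup.mem_sup_right ⟨z, hz, rfl⟩)
  · rintro _ ⟨z, hz, rfl⟩
    show ta (b0 h) (ta (b0 h) z) ∈ Z h
    rw [← ta_mul, ta_Gam bb_mem]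
    exact Subgroup.mem_sup_right (Subgroup.mem_sup_left hz)

lemma Z_ta (g : SurfaceGroup (h + 1)) {z : AB h} (hz : z ∈ Z h) : ta g z ∈ Z h := by
  rcases Int.units_eq_one_or (chi g) with hg | hg
  · rw [ta_Gam hg]
    exact hz
  · have h1 : g * (b0 h)⁻¹ ∈ Gam h := by
      show chi (g * (b0 h)⁻¹) = 1
      rw [chi_mul, chi_inv, hg, chi_b0]
      rfl
    have h2 : ta g z = ta (b0 h) z := by
      have h3 := ta_mul (g * (b0 h)⁻¹) (b0 h) z
      rw [inv_mul_cancel_right, ta_Gam h1] at h3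
      exact h3
    rw [h2]
    exact Z_b0 hz

variable (h) in
/-- The elements with a normal form. -/
noncomputable def R : Subgroup (SurfaceGroup (h + 1)) where
  carrier := {x | ∃ k : ℤ, x * b0 h ^ (-k) ∈ Gam h ∧ q (x * b0 h ^ (-k)) ∈ Z h}
  one_mem' := ⟨0, by
    rw [neg_zero, zpow_zero, mul_one]
    exact ⟨one_mem _, by rw [q_one]; exact one_mem _⟩⟩
  mul_mem' := by
    rintro x y ⟨k, hx, hx'⟩ ⟨l, hy, hy'⟩
    refine ⟨k + l, ?_⟩
    have h1 : x * y * b0 h ^ (-(k + l)) =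
        (x * b0 h ^ (-k)) * (b0 h ^ k * (y * b0 h ^ (-l)) * (b0 h ^ k)⁻¹) := by
      group
    rw [h1]
    refine ⟨mul_mem hx (conj_Gam _ hy), ?_⟩
    rw [q_mul hx (conj_Gam _ hy), ← ta_q _ hy]
    exact mul_mem hx' (Z_ta _ hy')
  inv_mem' := by
    rintro x ⟨k, hx, hx'⟩
    refine ⟨-k, ?_⟩
    have h1 : x⁻¹ * b0 h ^ (-(-k)) =
        (b0 h ^ (-k) * (x * b0 h ^ (-k)) * (b0 h ^ (-k))⁻¹)⁻¹ := by
      group
    rw [h1]
    refine ⟨inv_mem (conj_Gam _ hx), ?_⟩
    rw [q_inv (conj_Gam _ hx), ← ta_q _ hx]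
    exact inv_mem (Z_ta _ hx')

lemma R_top (x : SurfaceGroup (h + 1)) : x ∈ R h := by
  have h1 : (⊤ : Subgroup (SurfaceGroup (h + 1))) ≤ R h := by
    rw [← PresentedGroup.closure_range_of, Subgroup.closure_le]
    rintro _ ⟨s, rfl⟩
    have key : ∀ y : SurfaceGroup (h + 1), y ∈ Gam h → q y ∈ Z h → y ∈ R h := by
      intro y hy hy'
      refine ⟨0, ?_⟩
      rw [neg_zero, zpow_zero, mul_one]
      exact ⟨hy, hy'⟩
    have ku : ∀ s : Fin h ⊕ Fin h, uu s ∈ R h := by
      intro s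
      refine key _ (uu_mem s) (Subgroup.mem_sup_right (Subgroup.mem_sup_left
        ⟨Multiplicative.ofAdd (Pi.single s 1), ?_⟩))
      rw [la_apply, Finset.prod_eq_single s]
      · show q (uu s) ^ ((Pi.single s 1 : V h) s) = q (uu s)
        rw [Pi.single_eq_same, zpow_one]
      · intro t _ ht
        show q (uu t) ^ ((Pi.single s 1 : V h) t) = 1
        rw [Pi.single_eq_of_ne ht, zpow_zero]
      · intro h'
        exact absurd (Finset.mem_univ s) h'
    rcases s with i | i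
    · induction i using Fin.cases with
      | zero => exact key _ a0_mem (Subgroup.mem_sup_left (Subgroup.mem_zpowers _))
      | succ j => exact ku (Sum.inl j)
    · induction i using Fin.cases with
      | zero =>
        refine ⟨1, ?_⟩
        have : (b0 h) * b0 h ^ (-1 : ℤ) = 1 := by group
        show b0 h * b0 h ^ (-1 : ℤ) ∈ Gam h ∧ q (b0 h * b0 h ^ (-1 : ℤ)) ∈ Z h
        rw [this]
        exact ⟨one_mem _, by rw [q_one]; exact one_mem _⟩
      | succ j => exact ku (Sum.inr j)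
  exact h1 (Subgroup.mem_top x)

/-! ### The two invariants -/

variable (h) in
/-- The homology class, on the abelianization. -/
def Cl : AB h →* Multiplicative (V (h + 1)) :=
  Abelianization.lift ((xv (h + 1)).comp (Gam h).subtype)

lemma Cl_q {x : SurfaceGroup (h + 1)} (hx : x ∈ Gam h) : (Cl h (q x)).toAdd = cls x := by
  rw [q_of hx]
  rfl

variable (h) in
/-- The crossed homomorphism, on the abelianization. -/
def Kp : AB h →* Multiplicative (V h) :=
  Abelianization.lift (MonoidHom.mk' (fun x : Gam h => Multiplicative.ofAdd (kap x.1))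
    (fun x y => by
      rw [← ofAdd_add, ← kap_mul_Gam x.2]
      rfl))

lemma Kp_q {x : SurfaceGroup (h + 1)} (hx : x ∈ Gam h) : (Kp h (q x)).toAdd = kap x := by
  rw [q_of hx]
  rfl

lemma Cl_ta (g : SurfaceGroup (h + 1)) (z : AB h) :
    (Cl h (ta g z)).toAdd = (Cl h z).toAdd := by
  obtain ⟨x, hx, rfl⟩ := q_surj z
  rw [ta_q _ hx, Cl_q hx, Cl_q (conj_Gam _ hx), cls_mul, cls_mul, cls_inv]
  abel

lemma Kp_ta (z : AB h) : (Kp h (ta (b0 h) z)).toAdd = - (Kp h z).toAdd := by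
  obtain ⟨x, hx, rfl⟩ := q_surj z
  rw [ta_q _ hx, Kp_q hx, Kp_q (conj_Gam _ hx), kap_mul, kap_mul, kap_inv, kap_b0, chi_b0]
  simp

lemma Cl_la (v : V h) : (Cl h (la h (Multiplicative.ofAdd v))).toAdd =
    ∑ s, v s • (Pi.single (su s) 1 : V (h + 1)) := by
  rw [la_apply, map_prod, toAdd_prod]
  refine Finset.sum_congr rfl fun s _ => ?_
  rw [map_zpow, toAdd_zpow, Cl_q (uu_mem s), cls_of]
  rfl

lemma Kp_la (v : V h) : (Kp h (la h (Multiplicative.ofAdd v))).toAdd = v := by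
  rw [la_apply, map_prod, toAdd_prod]
  have h1 : v = ∑ i, v i • (Pi.single i 1 : V h) := by
    ext j
    rw [Finset.sum_apply, Finset.sum_eq_single j]
    · simp
    · intro k _ hk
      simp [hk.symm]
    · intro h
      exact absurd (Finset.mem_univ j) h
  refine Eq.trans ?_ h1.symm
  refine Finset.sum_congr rfl fun s _ => ?_
  rw [map_zpow, toAdd_zpow, Kp_q (uu_mem s), kap_uu]
  rfl

lemma su_inj {s t : Fin h ⊕ Fin h} (hst : su s = su t) : s = t := by
  rcases s with i | i <;> rcases t with j | j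
  · rw [Fin.succ_injective _ (Sum.inl_injective hst)]
  · cases hst
  · cases hst
  · rw [Fin.succ_injective _ (Sum.inr_injective hst)]

lemma sum_su (v : V h) (t : Fin h ⊕ Fin h) :
    (∑ s, v s • (Pi.single (su s) 1 : V (h + 1))) (su t) = v t := by
  rw [Finset.sum_apply, Finset.sum_eq_single t]
  · simp
  · intro k _ hk
    rw [Pi.smul_apply, Pi.single_eq_of_ne (fun h' => hk (su_inj h').symm), smul_zero]
  · intro h
    exact absurd (Finset.mem_univ t) h

lemma sum_inl0 (v : V h) :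
    (∑ s, v s • (Pi.single (su s) 1 : V (h + 1))) (Sum.inl 0) = 0 := by
  rw [Finset.sum_apply]
  refine Finset.sum_eq_zero fun s _ => ?_
  rw [Pi.smul_apply, Pi.single_eq_of_ne, smul_zero]
  rcases s with i | i
  · exact fun h' => (Fin.succ_ne_zero i) (Sum.inl_injective h').symm
  · exact fun h' => by cases h'

lemma sum_inr0 (v : V h) :
    (∑ s, v s • (Pi.single (su s) 1 : V (h + 1))) (Sum.inr 0) = 0 := by
  rw [Finset.sum_apply]
  refine Finset.sum_eq_zero fun s _ => ?_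
  rw [Pi.smul_apply, Pi.single_eq_of_ne, smul_zero]
  rcases s with i | i
  · exact fun h' => by cases h'
  · exact fun h' => (Fin.succ_ne_zero i) (Sum.inr_injective h').symm

end GabAux

open GabAux

/-- **The kernel of the homology class and the crossed homomorphism on the subgroup of index two is
its commutator subgroup.** -/
theorem gamma_ab {x : SurfaceGroup (h + 1)} (hx : x ∈ Gam h) (hc : cls x = 0) (hk : kap x = 0) :
    x ∈ (⁅Gam h, Gam h⁆ : Subgroup (SurfaceGroup (h + 1))) := by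
  obtain ⟨k, h1, h2⟩ := R_top x
  obtain ⟨y, hy, z, hz, hyz⟩ := Subgroup.mem_sup.1 h2
  obtain ⟨n, rfl⟩ := Subgroup.mem_zpowers_iff.1 hy
  obtain ⟨z1, ⟨v, rfl⟩, z2, hz2, rfl⟩ := Subgroup.mem_sup.1 hz
  obtain ⟨_, ⟨v', rfl⟩, rfl⟩ := hz2
  obtain ⟨v, rfl⟩ := Multiplicative.ofAdd.surjective v
  obtain ⟨v', rfl⟩ := Multiplicative.ofAdd.surjective v'
  have hcb : cls (b0 h ^ (-k)) = (-k) • (Pi.single (Sum.inr 0) 1 : V (h + 1)) := by
    have : ∀ m : ℤ, cls (b0 h ^ m) = m • (Pi.single (Sum.inr 0) 1 : V (h + 1)) := by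
      intro m
      unfold cls
      rw [map_zpow, toAdd_zpow]
      show m • cls (b0 h) = _
      rw [cls_of]
    exact this _
  have e1 := congrArg (fun z => (Cl h z).toAdd) hyz
  simp only [map_mul, map_zpow, toAdd_mul, toAdd_zpow] at e1
  rw [Cl_ta, Cl_la, Cl_la, Cl_q a0_mem, Cl_q h1, cls_mul, hc, zero_add, hcb, cls_of] at e1
  have e3 := congrFun e1 (Sum.inr 0)
  simp only [Pi.add_apply, Pi.smul_apply] at e3
  rw [sum_inr0, sum_inr0] at e3
  have hk0 : k = 0 := by
    simpa using e3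
  subst hk0
  have e4 := congrFun e1 (Sum.inl 0)
  simp only [Pi.add_apply, Pi.smul_apply] at e4
  rw [sum_inl0, sum_inl0] at e4
  have hn0 : n = 0 := by
    simpa using e4
  subst hn0
  have e5 : v + v' = 0 := by
    funext t
    have := congrFun e1 (su t)
    simp only [Pi.add_apply, Pi.smul_apply] at this
    rw [sum_su, sum_su] at this
    simpa using this
  rw [neg_zero, zpow_zero, mul_one] at h1
  have hyz' : la h (Multiplicative.ofAdd v) * ta (b0 h) (la h (Multiplicative.ofAdd v')) = q x := by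
    rw [zpow_zero, one_mul, neg_zero, zpow_zero, mul_one] at hyz
    exact hyz
  have e6 := congrArg (fun z => (Kp h z).toAdd) hyz'
  simp only [map_mul, toAdd_mul] at e6
  rw [Kp_ta, Kp_la, Kp_la, Kp_q h1, hk] at e6
  have e7 : v = 0 := by
    funext t
    have a1 := congrFun e5 t
    have a2 := congrFun e6 t
    simp only [Pi.add_apply, Pi.neg_apply, Pi.zero_apply] at a1 a2
    show v t = 0
    omega
  have e8 : v' = 0 := by
    rw [e7, zero_add] at e5
    exact e5
  subst e7 e8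
  have e9 : la h (Multiplicative.ofAdd 0) = 1 := map_one (la h)
  rw [e9, map_one, one_mul] at hyz'
  exact mem_comm hx hyz'.symm

end Pool.Agent.V8H98.JF
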