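import Pool.Agent.V8H98.JF.Sp2

/-!
# Reduction of a vector by the integral symplectic group
-/

set_option autoImplicit false

namespace Pool.Agent.V8H98.JF

/-- The Euclidean algorithm. -/
lemma euclid (P : ℤ → ℤ → Prop) (h1 : ∀ a b t, P (a + t * b) b → P a b)
    (h2 : ∀ a b t, P a (b + t * a) → P a b) (h3 : ∀ g, 0 ≤ g → P g 0) : ∀ a b, P a b := by
  have h0 : ∀ a, P a 0 := by
    intro a
    rcases le_or_gt 0 a with ha | ha
    · exact h3 a ha
    · apply h2 a 0 (-1)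
      apply h1 _ _ 2
      apply h2 _ _ 1
      have e1 : a + 2 * (0 + -1 * a) = -a := by ring
      have e2 : (0 + -1 * a) + 1 * (a + 2 * (0 + -1 * a)) = -2 * a := by ring
      rw [e1]
      have e3 : (0 + -1 * a) + 1 * (-a) = -2 * a := by ring
      rw [e3]
      apply h2 _ _ (-2)
      have e4 : -2 * a + -2 * -a = 0 := by ring
      rw [e4]
      exact h3 _ (by omega)
  have key : ∀ N : ℕ, ∀ a b : ℤ, b.natAbs ≤ N → P a b := by
    intro N
    induction N with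
    | zero =>
      intro a b hb
      have : b = 0 := by omega
      subst this
      exact h0 a
    | succ N ih =>
      intro a b hb
      by_cases hb0 : b = 0
      · subst hb0
        exact h0 a
      · apply h1 a b (-(a / b))
        have e : a + -(a / b) * b = a % b := by
          have := Int.emod_add_mul_ediv a b
          linarith
        rw [e]
        have hr0 : 0 ≤ a % b := Int.emod_nonneg a hb0
        have hr1 : a % b < |b| := Int.emod_lt_abs a hb0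
        generalize a % b = r at hr0 hr1
        apply h1 r b 1
        apply h2 _ _ (-1)
        have e2 : b + -1 * (r + 1 * b) = -r := by ring
        rw [e2]
        apply h1 _ _ 1
        have e3 : r + 1 * b + 1 * -r = b := by ring
        rw [e3]
        apply ih
        have : |b| = (b.natAbs : ℤ) := Int.abs_eq_natAbs b
        omega
  exact fun a b => key _ a b le_rfl

variable {n : ℕ}

/-! ### Coordinates -/

lemma ee_inl (k i : Fin n) : ee k (Sum.inl i) = if i = k then 1 else 0 := by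
  unfold ee
  rw [Pi.single_apply]
  simp

lemma ee_inr (k i : Fin n) : ee k (Sum.inr i) = 0 := by
  unfold ee
  rw [Pi.single_apply]
  simp

lemma ff_inr (k i : Fin n) : ff k (Sum.inr i) = if i = k then 1 else 0 := by
  unfold ff
  rw [Pi.single_apply]
  simp

lemma ff_inl (k i : Fin n) : ff k (Sum.inl i) = 0 := by
  unfold ff
  rw [Pi.single_apply]
  simp

lemma om_ee_ff (i j : Fin n) : om (ee i) (ff j) = if i = j then 1 else 0 := by
  rw [om_ff_right, ee_inl]
  by_cases h : i = j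
  · rw [if_pos h, if_pos h.symm]
  · rw [if_neg h, if_neg (fun h' => h h'.symm)]

lemma om_ff_ee (i j : Fin n) : om (ff i) (ee j) = if i = j then -1 else 0 := by
  rw [om_ee_right, ff_inr]
  by_cases h : i = j
  · rw [if_pos h, if_pos h.symm]
  · rw [if_neg h, if_neg (fun h' => h h'.symm), neg_zero]

lemma om_ee_ee (i j : Fin n) : om (ee i) (ee j) = 0 := by
  rw [om_ee_right, ee_inr, neg_zero]

lemma om_ff_ff (i j : Fin n) : om (ff i) (ff j) = 0 := by
  rw [om_ff_right, ff_inl]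

/-- The automorphisms of the form fixing the first `j` hyperbolic pairs. -/
def Fx (n j : ℕ) : Subgroup (V n ≃ₗ[ℤ] V n) where
  carrier := {h | h ∈ Sp n ∧ ∀ i : Fin n, (i : ℕ) < j → h (ee i) = ee i ∧ h (ff i) = ff i}
  one_mem' := ⟨one_mem _, fun _ _ => ⟨rfl, rfl⟩⟩
  mul_mem' := fun {a b} ha hb => ⟨mul_mem ha.1 hb.1, fun i hi => by
    rw [LinearEquiv.mul_apply, LinearEquiv.mul_apply, (hb.2 i hi).1, (hb.2 i hi).2]
    exact ha.2 i hi⟩
  inv_mem' := fun {a} ha => ⟨inv_mem ha.1, fun i hi => by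
    constructor
    · exact (LinearEquiv.symm_apply_eq a).2 (ha.2 i hi).1.symm
    · exact (LinearEquiv.symm_apply_eq a).2 (ha.2 i hi).2.symm⟩

lemma Fx_Sp {j : ℕ} {h : V n ≃ₗ[ℤ] V n} (hh : h ∈ Fx n j) : h ∈ Sp n := hh.1

lemma Fx_mono {i j : ℕ} (hij : i ≤ j) : Fx n j ≤ Fx n i :=
  fun _ hh => ⟨hh.1, fun k hk => hh.2 k (by omega)⟩

lemma Fx_inl {j : ℕ} {h : V n ≃ₗ[ℤ] V n} (hh : h ∈ Fx n j) (x : V n) (i : Fin n) (hi : (i : ℕ) < j) :
    h x (Sum.inl i) = x (Sum.inl i) := by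
  have h1 : om (h x) (ff i) = om x (ff i) := by
    conv_lhs => rw [← (hh.2 i hi).2]
    exact hh.1 x (ff i)
  rw [om_ff_right, om_ff_right] at h1
  exact h1

lemma Fx_inr {j : ℕ} {h : V n ≃ₗ[ℤ] V n} (hh : h ∈ Fx n j) (x : V n) (i : Fin n) (hi : (i : ℕ) < j) :
    h x (Sum.inr i) = x (Sum.inr i) := by
  have h1 : om (h x) (ee i) = om x (ee i) := by
    conv_lhs => rw [← (hh.2 i hi).1]
    exact hh.1 x (ee i)
  rw [om_ee_right, om_ee_right] at h1
  linarith

lemma t1e_Fx (k : Fin n) (j : ℕ) (hj : j ≤ k) (t : ℤ) : t1 (ee k) t ∈ Fx n j := by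
  refine ⟨t1_Sp _ _, fun i hi => ?_⟩
  have hik : i ≠ k := by
    rintro rfl
    omega
  rw [t1_apply, t1_apply, om_ee_ee, om_ff_ee, if_neg hik]
  simp

lemma t1f_Fx (k : Fin n) (j : ℕ) (hj : j ≤ k) (t : ℤ) : t1 (ff k) t ∈ Fx n j := by
  refine ⟨t1_Sp _ _, fun i hi => ?_⟩
  have hik : i ≠ k := by
    rintro rfl
    omega
  rw [t1_apply, t1_apply, om_ff_ff, om_ee_ff, if_neg hik]
  simp

lemma t2_Fx (v w : V n) (h : om v w = 0) (j : ℕ) (t : ℤ)
    (hv : ∀ i : Fin n, (i : ℕ) < j → om (ee i) v = 0 ∧ om (ff i) v = 0)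
    (hw : ∀ i : Fin n, (i : ℕ) < j → om (ee i) w = 0 ∧ om (ff i) w = 0) :
    t2 v w h t ∈ Fx n j := by
  refine ⟨t2_Sp _ _ _ _, fun i hi => ?_⟩
  rw [t2_apply, t2_apply, (hv i hi).1, (hv i hi).2, (hw i hi).1, (hw i hi).2]
  simp

lemma om_far_ee (k : Fin n) (j : ℕ) (hj : j ≤ k) (i : Fin n) (hi : (i : ℕ) < j) :
    om (ee i) (ee k) = 0 ∧ om (ff i) (ee k) = 0 := by
  have hik : i ≠ k := by
    rintro rfl
    omega
  rw [om_ee_ee, om_ff_ee, if_neg hik]
  exact ⟨rfl, rfl⟩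

lemma om_far_ff (k : Fin n) (j : ℕ) (hj : j ≤ k) (i : Fin n) (hi : (i : ℕ) < j) :
    om (ee i) (ff k) = 0 ∧ om (ff i) (ff k) = 0 := by
  have hik : i ≠ k := by
    rintro rfl
    omega
  rw [om_ff_ff, om_ee_ff, if_neg hik]
  exact ⟨rfl, rfl⟩

/-! ### Conjugates of the double transvections -/

lemma conj_t2 {h : V n ≃ₗ[ℤ] V n} (hh : h ∈ Sp n) (v w : V n) (hvw : om v w = 0)
    (hvw' : om (h v) (h w) = 0) (t : ℤ) :
    h * t2 v w hvw t * h⁻¹ = t2 (h v) (h w) hvw' t := by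
  apply LinearEquiv.ext
  intro x
  rw [LinearEquiv.mul_apply, LinearEquiv.mul_apply, t2_apply, t2_apply, map_add, map_add, map_smul,
    map_smul]
  have h1 : h (h⁻¹ x) = x := by rw [← LinearEquiv.mul_apply, mul_inv_cancel]; rfl
  have h2 : ∀ v, om (h⁻¹ x) v = om x (h v) := fun v => by rw [← hh, h1]
  rw [h1, h2, h2]

lemma t2_neg_left (v w : V n) (h : om v w = 0) (h' : om (-v) w = 0) (t : ℤ) :
    t2 (-v) w h' t = t2 v w h (-t) := by
  apply LinearEquiv.ext
  intro x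
  rw [t2_apply, t2_apply, om_neg_right]
  module

lemma t2_neg_right (v w : V n) (h : om v w = 0) (h' : om v (-w) = 0) (t : ℤ) :
    t2 v (-w) h' t = t2 v w h (-t) := by
  apply LinearEquiv.ext
  intro x
  rw [t2_apply, t2_apply, om_neg_right]
  module

/-- The rotation of a hyperbolic pair. -/
def wr (k : Fin n) : V n ≃ₗ[ℤ] V n := t1 (ee k) 1 * t1 (ff k) 1 * t1 (ee k) 1

lemma wr_Sp (k : Fin n) : wr k ∈ Sp n :=
  mul_mem (mul_mem (t1_Sp _ _) (t1_Sp _ _)) (t1_Sp _ _)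

lemma wr_ff (k : Fin n) : wr k (ff k) = - ee k := by
  unfold wr
  rw [LinearEquiv.mul_apply, LinearEquiv.mul_apply, t1_apply, t1_apply, t1_apply]
  simp only [om_add_left, om_smul_left, om_ff_ff, om_ff_ee, om_ee_ee, om_ee_ff, if_true]
  module

lemma wr_ff_ne (k i : Fin n) (h : i ≠ k) : wr k (ff i) = ff i := by
  unfold wr
  rw [LinearEquiv.mul_apply, LinearEquiv.mul_apply, t1_apply, t1_apply, t1_apply]
  simp only [om_add_left, om_smul_left, om_ff_ff, om_ff_ee, om_ee_ee, om_ee_ff, if_neg h]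
  module

lemma wr_ee_ne (k i : Fin n) (h : i ≠ k) : wr k (ee i) = ee i := by
  unfold wr
  rw [LinearEquiv.mul_apply, LinearEquiv.mul_apply, t1_apply, t1_apply, t1_apply]
  simp only [om_add_left, om_smul_left, om_ff_ee, om_ee_ee, om_ee_ff, if_neg h]
  module

section Group

variable (K : Subgroup (V n ≃ₗ[ℤ] V n)) (he : ∀ i : Fin n, tr (ee i) ∈ K)
  (hf : ∀ i : Fin n, tr (ff i) ∈ K)
  (hd : ∀ i j : Fin n, (j : ℕ) = i + 1 → tr (ff i - ff j) ∈ K)

lemma t1_mem_of_tr {K : Subgroup (V n ≃ₗ[ℤ] V n)} {v : V n} (h : tr v ∈ K) (t : ℤ) : t1 v t ∈ K := by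
  have h1 := t1_zpow v 1 t
  rw [one_mul, t1_one] at h1
  rw [h1]
  exact zpow_mem h t

include he hf in
lemma wr_mem (k : Fin n) : wr k ∈ K :=
  mul_mem (mul_mem (t1_mem_of_tr (he k) _) (t1_mem_of_tr (hf k) _)) (t1_mem_of_tr (he k) _)

include hf hd in
lemma t2ff_mem (i j : Fin n) (hij : (j : ℕ) = i + 1) (h : om (ff i) (ff j) = 0) (t : ℤ) :
    t2 (ff i) (ff j) h t ∈ K := by
  have h' : om (ff i) (-ff j) = 0 := by rw [om_neg_right, h, neg_zero]
  have h1 := t2_eq (ff i) (-ff j) h' (-t)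
  rw [t2_neg_right _ _ h, neg_neg] at h1
  rw [h1, ← sub_eq_add_neg]
  refine mul_mem (mul_mem (t1_mem_of_tr (hd i j hij) _) (t1_mem_of_tr (hf i) _)) ?_
  have h2 : t1 (-ff j) t = t1 (ff j) t := by
    apply LinearEquiv.ext
    intro x
    rw [t1_apply, t1_apply, om_neg_right]
    module
  rw [h2]
  exact t1_mem_of_tr (hf j) _

include he hf hd in
lemma t2ef_mem (i j : Fin n) (hij : (j : ℕ) = i + 1) (h : om (ee i) (ff j) = 0) (t : ℤ) :
    t2 (ee i) (ff j) h t ∈ K := by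
  have hne : j ≠ i := by
    rintro rfl
    omega
  have h0 : om (ff i) (ff j) = 0 := om_ff_ff i j
  have h' : om (-ee i) (ff j) = 0 := by rw [om_neg_left, h, neg_zero]
  have h1 := conj_t2 (wr_Sp i) (ff i) (ff j) h0 (by
    rw [wr_Sp]
    exact h0) (-t)
  have h2 : wr i * t2 (ff i) (ff j) h0 (-t) * (wr i)⁻¹ ∈ K :=
    mul_mem (mul_mem (wr_mem K he hf i) (t2ff_mem K hf hd i j hij h0 _))
      (inv_mem (wr_mem K he hf i))
  have h3 : t2 (ee i) (ff j) h t = wr i * t2 (ff i) (ff j) h0 (-t) * (wr i)⁻¹ := by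
    rw [h1]
    apply LinearEquiv.ext
    intro x
    rw [t2_apply, t2_apply, wr_ff, wr_ff_ne i j hne, om_neg_right]
    module
  rw [h3]
  exact h2

include he hf hd in
lemma t2fe_mem (i j : Fin n) (hij : (j : ℕ) = i + 1) (h : om (ff i) (ee j) = 0) (t : ℤ) :
    t2 (ff i) (ee j) h t ∈ K := by
  have hne : i ≠ j := by
    rintro rfl
    omega
  have h0 : om (ff i) (ff j) = 0 := om_ff_ff i j
  have h1 := conj_t2 (wr_Sp j) (ff i) (ff j) h0 (by
    rw [wr_Sp]
    exact h0) (-t)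
  have h2 : wr j * t2 (ff i) (ff j) h0 (-t) * (wr j)⁻¹ ∈ K :=
    mul_mem (mul_mem (wr_mem K he hf j) (t2ff_mem K hf hd i j hij h0 _))
      (inv_mem (wr_mem K he hf j))
  have h3 : t2 (ff i) (ee j) h t = wr j * t2 (ff i) (ff j) h0 (-t) * (wr j)⁻¹ := by
    rw [h1]
    apply LinearEquiv.ext
    intro x
    rw [t2_apply, t2_apply, wr_ff, wr_ff_ne j i hne, om_neg_right]
    module
  rw [h3]
  exact h2

include he hf hd in
lemma t2ee_mem (i j : Fin n) (hij : (j : ℕ) = i + 1) (h : om (ee i) (ee j) = 0) (t : ℤ) :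
    t2 (ee i) (ee j) h t ∈ K := by
  have hne : j ≠ i := by
    rintro rfl
    omega
  have h0 : om (ff i) (ee j) = 0 := by rw [om_ff_ee, if_neg (fun h => hne h.symm)]
  have h1 := conj_t2 (wr_Sp i) (ff i) (ee j) h0 (by
    rw [wr_Sp]
    exact h0) (-t)
  have h2 : wr i * t2 (ff i) (ee j) h0 (-t) * (wr i)⁻¹ ∈ K :=
    mul_mem (mul_mem (wr_mem K he hf i) (t2fe_mem K he hf hd i j hij h0 _))
      (inv_mem (wr_mem K he hf i))
  have h3 : t2 (ee i) (ee j) h t = wr i * t2 (ff i) (ee j) h0 (-t) * (wr i)⁻¹ := by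
    rw [h1]
    apply LinearEquiv.ext
    intro x
    rw [t2_apply, t2_apply, wr_ff, wr_ee_ne i j hne, om_neg_right]
    module
  rw [h3]
  exact h2

include he hf in
/-- The reduction on one hyperbolic pair. -/
lemma red_one (k : Fin n) (a b : ℤ) : ∀ x : V n, x (Sum.inl k) = a → x (Sum.inr k) = b →
    ∃ h ∈ K ⊓ Fx n k, (∀ i, i ≠ k → (h x) (Sum.inl i) = x (Sum.inl i)) ∧
      (∀ i, i ≠ k → (h x) (Sum.inr i) = x (Sum.inr i)) ∧
      (h x) (Sum.inr k) = 0 ∧ 0 ≤ (h x) (Sum.inl k) := by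
  refine euclid (fun a b => ∀ x : V n, x (Sum.inl k) = a → x (Sum.inr k) = b →
    ∃ h ∈ K ⊓ Fx n k, (∀ i, i ≠ k → (h x) (Sum.inl i) = x (Sum.inl i)) ∧
      (∀ i, i ≠ k → (h x) (Sum.inr i) = x (Sum.inr i)) ∧
      (h x) (Sum.inr k) = 0 ∧ 0 ≤ (h x) (Sum.inl k)) ?_ ?_ ?_ a b
  · intro a b t hP x ha hb
    have c1 : ∀ i, (t1 (ee k) (-t) x) (Sum.inl i) = x (Sum.inl i) + if i = k then t * b else 0 := by
      intro i
      rw [t1_apply, Pi.add_apply, Pi.smul_apply, ee_inl, om_ee_right, hb]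
      split_ifs <;> simp
    have c2 : ∀ i, (t1 (ee k) (-t) x) (Sum.inr i) = x (Sum.inr i) := by
      intro i
      rw [t1_apply, Pi.add_apply, Pi.smul_apply, ee_inr]
      simp
    obtain ⟨h, hh, h1, h2, h3, h4⟩ := hP (t1 (ee k) (-t) x) (by rw [c1, ha, if_pos rfl])
      (by rw [c2, hb])
    refine ⟨h * t1 (ee k) (-t), mul_mem hh ⟨t1_mem_of_tr (he k) _, t1e_Fx k k le_rfl _⟩, ?_, ?_,
      h3, h4⟩
    · intro i hi
      rw [LinearEquiv.mul_apply, h1 i hi, c1, if_neg hi, add_zero]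
    · intro i hi
      rw [LinearEquiv.mul_apply, h2 i hi, c2]
  · intro a b t hP x ha hb
    have c1 : ∀ i, (t1 (ff k) t x) (Sum.inl i) = x (Sum.inl i) := by
      intro i
      rw [t1_apply, Pi.add_apply, Pi.smul_apply, ff_inl]
      simp
    have c2 : ∀ i, (t1 (ff k) t x) (Sum.inr i) = x (Sum.inr i) + if i = k then t * a else 0 := by
      intro i
      rw [t1_apply, Pi.add_apply, Pi.smul_apply, ff_inr, om_ff_right, ha]
      split_ifs <;> simp
    obtain ⟨h, hh, h1, h2, h3, h4⟩ := hP (t1 (ff k) t x) (by rw [c1, ha])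
      (by rw [c2, hb, if_pos rfl])
    refine ⟨h * t1 (ff k) t, mul_mem hh ⟨t1_mem_of_tr (hf k) _, t1f_Fx k k le_rfl _⟩, ?_, ?_,
      h3, h4⟩
    · intro i hi
      rw [LinearEquiv.mul_apply, h1 i hi, c1]
    · intro i hi
      rw [LinearEquiv.mul_apply, h2 i hi, c2, if_neg hi, add_zero]
  · intro g hg x ha hb
    exact ⟨1, one_mem _, fun _ _ => rfl, fun _ _ => rfl, hb, by
      show 0 ≤ x (Sum.inl k)
      rw [ha]
      exact hg⟩

include he hf hd in
/-- The reduction on two adjacent hyperbolic pairs. -/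
lemma red_two (k l : Fin n) (hkl : (l : ℕ) = k + 1) (a b : ℤ) : ∀ x : V n, x (Sum.inl k) = a →
    x (Sum.inl l) = b → x (Sum.inr k) = 0 → x (Sum.inr l) = 0 →
    ∃ h ∈ K ⊓ Fx n k, (∀ i, i ≠ k → i ≠ l → (h x) (Sum.inl i) = x (Sum.inl i)) ∧
      (∀ i, (h x) (Sum.inr i) = x (Sum.inr i)) ∧
      (h x) (Sum.inl l) = 0 ∧ 0 ≤ (h x) (Sum.inl k) := by
  have hlk : l ≠ k := by
    rintro rfl
    omega
  have hkl' : k ≠ l := fun h => hlk h.symm
  have o1 : om (ee k) (ff l) = 0 := by rw [om_ee_ff, if_neg hkl']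
  have o2 : om (ff k) (ee l) = 0 := by rw [om_ff_ee, if_neg hkl']
  refine euclid (fun a b => ∀ x : V n, x (Sum.inl k) = a →
    x (Sum.inl l) = b → x (Sum.inr k) = 0 → x (Sum.inr l) = 0 →
    ∃ h ∈ K ⊓ Fx n k, (∀ i, i ≠ k → i ≠ l → (h x) (Sum.inl i) = x (Sum.inl i)) ∧
      (∀ i, (h x) (Sum.inr i) = x (Sum.inr i)) ∧
      (h x) (Sum.inl l) = 0 ∧ 0 ≤ (h x) (Sum.inl k)) ?_ ?_ ?_ a b
  · intro a b t hP x ha hb hc hd'
    have c1 : ∀ i, (t2 (ee k) (ff l) o1 t x) (Sum.inl i) =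
        x (Sum.inl i) + if i = k then t * b else 0 := by
      intro i
      rw [t2_apply, Pi.add_apply, Pi.add_apply, Pi.smul_apply, Pi.smul_apply, ee_inl, ff_inl,
        om_ee_right, om_ff_right, hb, hc]
      split_ifs <;> simp
    have c2 : ∀ i, (t2 (ee k) (ff l) o1 t x) (Sum.inr i) = x (Sum.inr i) := by
      intro i
      rw [t2_apply, Pi.add_apply, Pi.add_apply, Pi.smul_apply, Pi.smul_apply, ee_inr,
        om_ee_right, om_ff_right, hb, hc]
      simp
    obtain ⟨h, hh, h1, h2, h3, h4⟩ := hP (t2 (ee k) (ff l) o1 t x) (by rw [c1, ha, if_pos rfl])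
      (by rw [c1, hb, if_neg hlk, add_zero]) (by rw [c2, hc]) (by rw [c2, hd'])
    refine ⟨h * t2 (ee k) (ff l) o1 t, mul_mem hh ⟨t2ef_mem K he hf hd k l hkl _ _, t2_Fx _ _ _ _ _
      (om_far_ee k k le_rfl) (om_far_ff l k (by omega))⟩, ?_, ?_, h3, h4⟩
    · intro i hi hi'
      rw [LinearEquiv.mul_apply, h1 i hi hi', c1, if_neg hi, add_zero]
    · intro i
      rw [LinearEquiv.mul_apply, h2 i, c2]
  · intro a b t hP x ha hb hc hd'
    have c1 : ∀ i, (t2 (ff k) (ee l) o2 t x) (Sum.inl i) =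
        x (Sum.inl i) + if i = l then t * a else 0 := by
      intro i
      rw [t2_apply, Pi.add_apply, Pi.add_apply, Pi.smul_apply, Pi.smul_apply, ee_inl, ff_inl,
        om_ee_right, om_ff_right, ha, hd']
      split_ifs <;> simp
    have c2 : ∀ i, (t2 (ff k) (ee l) o2 t x) (Sum.inr i) = x (Sum.inr i) := by
      intro i
      rw [t2_apply, Pi.add_apply, Pi.add_apply, Pi.smul_apply, Pi.smul_apply, ee_inr,
        om_ee_right, om_ff_right, ha, hd']
      simp
    obtain ⟨h, hh, h1, h2, h3, h4⟩ := hP (t2 (ff k) (ee l) o2 t x)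
      (by rw [c1, ha, if_neg hkl', add_zero])
      (by rw [c1, hb, if_pos rfl]) (by rw [c2, hc]) (by rw [c2, hd'])
    refine ⟨h * t2 (ff k) (ee l) o2 t, mul_mem hh ⟨t2fe_mem K he hf hd k l hkl _ _, t2_Fx _ _ _ _ _
      (om_far_ff k k le_rfl) (om_far_ee l k (by omega))⟩, ?_, ?_, h3, h4⟩
    · intro i hi hi'
      rw [LinearEquiv.mul_apply, h1 i hi hi', c1, if_neg hi', add_zero]
    · intro i
      rw [LinearEquiv.mul_apply, h2 i, c2]
  · intro g hg x ha hb hc hd'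
    exact ⟨1, one_mem _, fun _ _ _ => rfl, fun _ => rfl, hb, by
      show 0 ≤ x (Sum.inl k)
      rw [ha]
      exact hg⟩

include he hf hd in
/-- **Reduction of a vector.** -/
theorem red_vecK (x : V n) (j : Fin n) : ∃ h ∈ K ⊓ Fx n j,
    (∀ i, j ≤ i → (h x) (Sum.inr i) = 0) ∧ (∀ i, j < i → (h x) (Sum.inl i) = 0) ∧
      0 ≤ (h x) (Sum.inl j) := by
  have key : ∀ d : ℕ, ∀ j : Fin n, (j : ℕ) + d + 1 = n → ∃ h ∈ K ⊓ Fx n j,
      (∀ i, j ≤ i → (h x) (Sum.inr i) = 0) ∧ (∀ i, j < i → (h x) (Sum.inl i) = 0) ∧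
      0 ≤ (h x) (Sum.inl j) := by
    intro d
    induction d with
    | zero =>
      intro j hj
      obtain ⟨h, hh, h1, h2, h3, h4⟩ := red_one K he hf j _ _ x rfl rfl
      refine ⟨h, hh, ?_, ?_, h4⟩
      · intro i hi
        have : i = j := by
          apply Fin.ext
          have h5 : (j : ℕ) ≤ i := hi
          have := i.isLt
          omega
        rw [this, h3]
      · intro i hi
        have h5 : (j : ℕ) < i := hi
        have := i.isLt
        omega
    | succ d ih =>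
      intro j hj
      let l : Fin n := ⟨j + 1, by omega⟩
      have hl : (l : ℕ) = j + 1 := rfl
      have hlj : l ≠ j := by
        intro h
        have := congrArg Fin.val h
        omega
      obtain ⟨h, hh, h1, h2, h3⟩ := ih l (by rw [hl]; omega)
      obtain ⟨h', hh', h1', h2', h3', h4'⟩ := red_one K he hf j _ _ (h x) rfl rfl
      obtain ⟨h'', hh'', h1'', h2'', h3'', h4''⟩ := red_two K he hf hd j l hl _ _ (h' (h x)) rfl rfl
        h3' (by rw [h2' l hlj, h1 l le_rfl])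
      refine ⟨h'' * (h' * h), mul_mem hh'' (mul_mem hh' ⟨hh.1, Fx_mono (by omega) hh.2⟩), ?_, ?_, h4''⟩
      · intro i hi
        rw [LinearEquiv.mul_apply, LinearEquiv.mul_apply, h2'' i]
        by_cases hij : i = j
        · rw [hij, h3']
        · rw [h2' i hij]
          apply h1
          have h5 : (j : ℕ) ≤ i := hi
          have h6 : (i : ℕ) ≠ j := fun h => hij (Fin.ext h)
          show (l : ℕ) ≤ i
          omega
      · intro i hi
        have h5 : (j : ℕ) < i := hi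
        rw [LinearEquiv.mul_apply, LinearEquiv.mul_apply]
        by_cases hil : i = l
        · rw [hil, h3'']
        · have hij : i ≠ j := by
            rintro rfl
            omega
          rw [h1'' i hij hil, h1' i hij]
          apply h2
          have h6 : (i : ℕ) ≠ l := fun h => hil (Fin.ext h)
          show (l : ℕ) < i
          omega
  exact key (n - 1 - j) j (by have := j.isLt; omega)

end Group

/-- **Reduction of a vector.** -/
theorem red_vec (x : V n) (j : Fin n) : ∃ h ∈ Sp n, (∀ i, i < j → h (ee i) = ee i ∧ h (ff i) = ff i) ∧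
    (∀ i, i < j → (h x) (Sum.inl i) = x (Sum.inl i) ∧ (h x) (Sum.inr i) = x (Sum.inr i)) ∧
    (∀ i, j ≤ i → (h x) (Sum.inr i) = 0) ∧ (∀ i, j < i → (h x) (Sum.inl i) = 0) ∧
      0 ≤ (h x) (Sum.inl j) := by
  obtain ⟨h, hh, h1, h2, h3⟩ := red_vecK ⊤ (fun _ => Subgroup.mem_top _)
    (fun _ => Subgroup.mem_top _) (fun _ _ _ => Subgroup.mem_top _) x j
  exact ⟨h, hh.2.1, fun i hi => hh.2.2 i hi, fun i hi => ⟨Fx_inl hh.2 x i hi, Fx_inr hh.2 x i hi⟩,
    h1, h2, h3⟩

end Pool.Agent.V8H98.JF
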