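import Pool.Agent.V8H98.JF.Gcd

/-!
# The integral symplectic group is generated by transvections
-/

set_option autoImplicit false

namespace Pool.Agent.V8H98.JF

variable {n : ℕ}

lemma V_ext {x y : V n} (h1 : ∀ i, x (Sum.inl i) = y (Sum.inl i))
    (h2 : ∀ i, x (Sum.inr i) = y (Sum.inr i)) : x = y := by
  funext s
  rcases s with i | i
  · exact h1 i
  · exact h2 i

lemma eq_one_of_fix {h : V n ≃ₗ[ℤ] V n} (hh : ∀ i, h (ee i) = ee i ∧ h (ff i) = ff i) : h = 1 := by
  have h1 : (h : V n →ₗ[ℤ] V n) = ((1 : V n ≃ₗ[ℤ] V n) : V n →ₗ[ℤ] V n) := by
    apply LinearMap.pi_ext'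
    intro s
    apply LinearMap.ext_ring
    rcases s with i | i
    · exact (hh i).1
    · exact (hh i).2
  apply LinearEquiv.ext
  intro x
  exact LinearMap.congr_fun h1 x

/-- **The symplectic group is generated by the transvections of a chain.** -/
theorem gen (K : Subgroup (V n ≃ₗ[ℤ] V n)) (he : ∀ i : Fin n, tr (ee i) ∈ K)
    (hf : ∀ i : Fin n, tr (ff i) ∈ K)
    (hd : ∀ i j : Fin n, (j : ℕ) = i + 1 → tr (ff i - ff j) ∈ K) : Sp n ≤ K := by
  have key : ∀ d j : ℕ, j + d = n → Fx n j ≤ K := by
    intro d
    induction d with
    | zero =>
      intro j hj X hX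
      rw [eq_one_of_fix (fun i => hX.2 i (by have := i.isLt; omega))]
      exact one_mem _
    | succ d ih =>
      intro j hj X hX
      have hjn : j < n := by omega
      let J : Fin n := ⟨j, hjn⟩
      have hJ : (J : ℕ) = j := rfl
      obtain ⟨h, hh, h1, h2, h3⟩ := red_vecK K he hf hd (X (ee J)) J
      have hY : h * X ∈ Fx n j := mul_mem hh.2 hX
      -- the image of `e_j`
      have g1 : (h * X) (ee J) = (h (X (ee J)) (Sum.inl J)) • ee J := by
        apply V_ext
        · intro i
          rw [Pi.smul_apply, ee_inl, LinearEquiv.mul_apply]
          rcases lt_trichotomy (i : ℕ) j with hi | hi | hi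
          · have hne : i ≠ J := by
              rintro rfl
              omega
            rw [if_neg hne, smul_zero, ← LinearEquiv.mul_apply, Fx_inl hY _ i hi, ee_inl, if_neg hne]
          · have heq : i = J := Fin.ext hi
            rw [if_pos heq, heq]
            simp
          · have hne : i ≠ J := by
              rintro rfl
              omega
            rw [if_neg hne, smul_zero]
            exact h2 i hi
        · intro i
          rw [Pi.smul_apply, ee_inr, smul_zero, LinearEquiv.mul_apply]
          rcases lt_or_ge (i : ℕ) j with hi | hi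
          · rw [← LinearEquiv.mul_apply, Fx_inr hY _ i hi, ee_inr]
          · exact h1 i hi
      have g2 : h (X (ee J)) (Sum.inl J) = 1 := by
        have o1 : om ((h * X) (ee J)) ((h * X) (ff J)) = 1 := by
          rw [hY.1, om_ee_ff, if_pos rfl]
        rw [g1, om_smul_left] at o1
        exact Int.eq_one_of_mul_eq_one_right h3 o1
      rw [g2, one_smul] at g1
      -- the image of `f_j`
      have g3 : ∀ Y : V n ≃ₗ[ℤ] V n, Y ∈ Fx n j → Y (ee J) = ee J →
          (∀ i : Fin n, j < i → (Y (ff J)) (Sum.inl i) = 0) →
          (∀ i : Fin n, j < i → (Y (ff J)) (Sum.inr i) = 0) → Y ∈ K := by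
        intro Y hY hYe y1 y2
        have c1 : (Y (ff J)) (Sum.inr J) = 1 := by
          have o1 : om (Y (ff J)) (Y (ee J)) = -1 := by
            rw [hY.1, om_ff_ee, if_pos rfl]
          rw [hYe, om_ee_right] at o1
          linarith
        have c2 : t1 (ee J) ((Y (ff J)) (Sum.inl J)) * Y ∈ Fx n (j + 1) := by
          refine ⟨mul_mem (t1_Sp _ _) hY.1, fun i hi => ?_⟩
          rcases Nat.lt_succ_iff_lt_or_eq.1 hi with hi | hi
          · exact (mul_mem (t1e_Fx J j le_rfl _) hY : t1 (ee J) _ * Y ∈ Fx n j).2 i hi
          · have hiJ : i = J := Fin.ext hi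
            subst hiJ
            rw [LinearEquiv.mul_apply, LinearEquiv.mul_apply, hYe]
            constructor
            · rw [t1_apply, om_self]
              simp
            · have c3 : om (Y (ff J)) (ee J) = -1 := by rw [om_ee_right, c1]
              rw [t1_apply, c3]
              apply V_ext
              · intro k
                rw [Pi.add_apply, Pi.smul_apply, ee_inl, ff_inl]
                rcases lt_trichotomy (k : ℕ) j with hk | hk | hk
                · have hne : k ≠ J := by
                    rintro rfl
                    omega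
                  rw [Fx_inl hY _ k hk, ff_inl, if_neg hne]
                  simp
                · have heq : k = J := Fin.ext hk
                  rw [heq, if_pos rfl]
                  simp
                · have hne : k ≠ J := by
                    rintro rfl
                    omega
                  rw [y1 k hk, if_neg hne]
                  simp
              · intro k
                rw [Pi.add_apply, Pi.smul_apply, ee_inr, ff_inr, smul_zero, add_zero]
                rcases lt_trichotomy (k : ℕ) j with hk | hk | hk
                · rw [Fx_inr hY _ k hk, ff_inr]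
                · have heq : k = J := Fin.ext hk
                  rw [heq, if_pos rfl, c1]
                · have hne : k ≠ J := by
                    rintro rfl
                    omega
                  rw [y2 k hk, if_neg hne]
        have c4 := ih (j + 1) (by omega) c2
        have c5 := mul_mem (inv_mem (t1_mem_of_tr (he J) ((Y (ff J)) (Sum.inl J)))) c4
        rwa [inv_mul_cancel_left] at c5
      suffices hYK : h * X ∈ K by
        have := mul_mem (inv_mem (Subgroup.mem_inf.1 hh).1) hYK
        rwa [inv_mul_cancel_left] at this
      by_cases hjn1 : j + 1 = n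
      · apply g3 _ hY g1
        · intro i hi
          have := i.isLt
          omega
        · intro i hi
          have := i.isLt
          omega
      · let L : Fin n := ⟨j + 1, by omega⟩
        have hL : (L : ℕ) = J + 1 := rfl
        have hLJ : L ≠ J := by
          intro h
          have := congrArg Fin.val h
          omega
        obtain ⟨h', hh', k1, k2, k3⟩ := red_vecK K he hf hd ((h * X) (ff J)) L
        have f1 := (hh'.2.2 J (by rw [hL]; omega))
        have hZ : h' * (h * X) ∈ Fx n j := mul_mem (Fx_mono (by omega) hh'.2) hY
        have z1 : (h' * (h * X)) (ee J) = ee J := by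
          rw [LinearEquiv.mul_apply, g1, f1.1]
        have z2 : ((h' * (h * X)) (ff J)) (Sum.inr J) = 1 := by
          have o1 : om ((h' * (h * X)) (ff J)) ((h' * (h * X)) (ee J)) = -1 := by
            rw [hZ.1, om_ff_ee, if_pos rfl]
          rw [z1, om_ee_right] at o1
          linarith
        have z3 : ∀ i : Fin n, j < i → ((h' * (h * X)) (ff J)) (Sum.inr i) = 0 := fun i hi => k1 i hi
        have z4 : ∀ i : Fin n, j < i → i ≠ L → ((h' * (h * X)) (ff J)) (Sum.inl i) = 0 := by
          intro i hi hiL
          apply k2 i
          have : (i : ℕ) ≠ L := fun h => hiL (Fin.ext h)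
          show (L : ℕ) < i
          omega
        set s := ((h' * (h * X)) (ff J)) (Sum.inl L) with hs
        have o0 : om (ee J) (ee L) = 0 := om_ee_ee _ _
        have hW : t2 (ee J) (ee L) o0 s * (h' * (h * X)) ∈ Fx n j :=
          mul_mem (t2_Fx _ _ _ _ _ (om_far_ee J j le_rfl) (om_far_ee L j (by omega))) hZ
        have w1 : (t2 (ee J) (ee L) o0 s * (h' * (h * X))) (ee J) = ee J := by
          rw [LinearEquiv.mul_apply, z1, t2_apply, om_self, om_ee_ee]
          simp
        have w2 : ∀ i, ((t2 (ee J) (ee L) o0 s * (h' * (h * X))) (ff J)) (Sum.inl i) =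
            ((h' * (h * X)) (ff J)) (Sum.inl i) - if i = L then s else 0 := by
          intro i
          rw [LinearEquiv.mul_apply, t2_apply, om_ee_right, om_ee_right, z2,
            z3 L (by omega), Pi.add_apply, Pi.add_apply, Pi.smul_apply, Pi.smul_apply, ee_inl, ee_inl]
          split_ifs <;> simp <;> ring
        have w3 : ∀ i, ((t2 (ee J) (ee L) o0 s * (h' * (h * X))) (ff J)) (Sum.inr i) =
            ((h' * (h * X)) (ff J)) (Sum.inr i) := by
          intro i
          rw [LinearEquiv.mul_apply, t2_apply, Pi.add_apply, Pi.add_apply, Pi.smul_apply,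
            Pi.smul_apply, ee_inr, ee_inr]
          simp
        have hWK := g3 _ hW w1 (by
          intro i hi
          rw [w2]
          by_cases hiL : i = L
          · rw [if_pos hiL, hiL, ← hs, sub_self]
          · rw [if_neg hiL, sub_zero, z4 i hi hiL]) (by
          intro i hi
          rw [w3, z3 i hi])
        have e1 := mul_mem (inv_mem (t2ee_mem K he hf hd J L hL o0 s)) hWK
        rw [inv_mul_cancel_left] at e1
        have e2 := mul_mem (inv_mem (Subgroup.mem_inf.1 hh').1) e1
        rwa [inv_mul_cancel_left] at e2
  intro X hX
  exact key n 0 (by omega) ⟨hX, fun i hi => absurd hi (by omega)⟩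

end Pool.Agent.V8H98.JF
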