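import Pool.Agent.V8H98.JF.Sp3
import Pool.Agent.V8H98.JF.Gen

/-!
# The congruence subgroup property of the integral symplectic group
-/

set_option autoImplicit false

namespace Pool.Agent.V8H98.JF

open Matrix
open Pool.Agent.Helper460_CSP (mt mt_mul mt_one S3 B12 tv tvh tv_mul_zpow tv_zero)

variable {n : ℕ}

/-! ### Basis vectors -/

lemma om_ef (i j : Fin n) : om (ee i : V n) (ff j) = if i = j then 1 else 0 := by
  rw [om_ff_right]
  unfold ee
  rw [Pi.single_apply]
  by_cases h : i = j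
  · subst h; simp
  · rw [if_neg h, if_neg (fun h' => h (Sum.inl_injective h').symm)]

lemma om_ee (i j : Fin n) : om (ee i : V n) (ee j) = 0 := by
  rw [om_ee_right]
  unfold ee
  rw [Pi.single_apply, if_neg (by simp)]
  simp

lemma om_ff (i j : Fin n) : om (ff i : V n) (ff j) = 0 := by
  rw [om_ff_right]
  unfold ff
  rw [Pi.single_apply, if_neg (by simp)]

lemma om_fe (i j : Fin n) : om (ff i : V n) (ee j) = if i = j then -1 else 0 := by
  rw [om_swap, om_ef]
  by_cases h : i = j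
  · subst h; simp
  · rw [if_neg (fun h' => h h'.symm), if_neg h, neg_zero]

lemma frame3 {i j k : Fin n} (hij : i ≠ j) (hik : i ≠ k) (hjk : j ≠ k) :
    Frame (n := n) ![ee i, ee j, ee k] ![ff i, ff j, ff k] where
  ef a b := by
    fin_cases a <;> fin_cases b <;> simp [om_ef, hij, hik, hjk, hij.symm, hik.symm, hjk.symm]
  ee a b := by
    fin_cases a <;> fin_cases b <;> simp [om_ee]
  ff a b := by
    fin_cases a <;> fin_cases b <;> simp [om_ff]

/-- The expansion of a vector. -/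
lemma expand (x : V n) : x = ∑ i, (x (Sum.inl i) • ee i + x (Sum.inr i) • ff i) := by
  ext s
  rcases s with s | s
  · rw [Finset.sum_apply, Finset.sum_eq_single s]
    · simp [ee, ff]
    · intro b _ hb
      simp [ee, ff, Pi.single_apply, hb.symm]
    · intro h
      exact absurd (Finset.mem_univ s) h
  · rw [Finset.sum_apply, Finset.sum_eq_single s]
    · simp [ee, ff]
    · intro b _ hb
      simp [ee, ff, Pi.single_apply, hb.symm]
    · intro h
      exact absurd (Finset.mem_univ s) h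

lemma ext_ef {X Y : V n ≃ₗ[ℤ] V n} (h1 : ∀ i, X (ee i) = Y (ee i)) (h2 : ∀ i, X (ff i) = Y (ff i)) :
    X = Y := by
  apply LinearEquiv.ext
  intro x
  rw [expand x, map_sum, map_sum]
  refine Finset.sum_congr rfl fun i _ => ?_
  rw [map_add, map_add, map_smul, map_smul, map_smul, map_smul, h1, h2]

lemma inv_apply_of {X : V n ≃ₗ[ℤ] V n} {x y : V n} (h : X x = y) : X⁻¹ y = x := by
  rw [← h, ← LinearEquiv.mul_apply, inv_mul_cancel]
  rfl

/-! ### Congruence subgroups -/

/-- The congruence subgroup of level `M`. -/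
def Ga (n : ℕ) (M : ℤ) : Subgroup (V n ≃ₗ[ℤ] V n) where
  carrier := {X | ∀ x i, M ∣ (X x - x) i}
  one_mem' := fun x i => by
    show M ∣ (x - x) i
    rw [sub_self]
    exact dvd_zero M
  mul_mem' := fun {a b} ha hb x i => by
    have h1 : (a * b) x - x = (a (b x) - b x) + (b x - x) := by
      rw [LinearEquiv.mul_apply]
      abel
    rw [h1]
    exact dvd_add (ha _ _) (hb _ _)
  inv_mem' := fun {a} ha x i => by
    have h1 : a⁻¹ x - x = -(a (a⁻¹ x) - a⁻¹ x) := by
      have : a (a⁻¹ x) = x := by rw [← LinearEquiv.mul_apply, mul_inv_cancel]; rfl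
      rw [this]
      abel
    rw [h1]
    exact (dvd_neg.2 (ha _ _))

lemma dvd_map {M : ℤ} (X : V n ≃ₗ[ℤ] V n) {x : V n} (h : ∀ i, M ∣ x i) (i : Fin n ⊕ Fin n) :
    M ∣ (X x) i := by
  choose y hy using h
  have h1 : x = M • y := by
    ext i
    exact hy i
  rw [h1, map_smul]
  exact ⟨X y i, rfl⟩

lemma Ga_conj {M : ℤ} (h : V n ≃ₗ[ℤ] V n) {X : V n ≃ₗ[ℤ] V n} (hX : X ∈ Ga n M) :
    h * X * h⁻¹ ∈ Ga n M := by
  intro x i
  have h1 : (h * X * h⁻¹) x - x = h (X (h⁻¹ x) - h⁻¹ x) := by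
    rw [map_sub, LinearEquiv.mul_apply, LinearEquiv.mul_apply]
    have : h (h⁻¹ x) = x := by rw [← LinearEquiv.mul_apply, mul_inv_cancel]; rfl
    rw [this]
  rw [h1]
  exact dvd_map h (fun i => hX _ i) i

lemma t1_Ga (v : V n) {M t : ℤ} (ht : M ∣ t) : t1 v t ∈ Ga n M := by
  intro x i
  rw [t1_apply, add_sub_cancel_left]
  show M ∣ t * om x v * v i
  exact (ht.mul_right _).mul_right _

lemma t2_Ga (v w : V n) (h : om v w = 0) {M t : ℤ} (ht : M ∣ t) : t2 v w h t ∈ Ga n M := by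
  intro x i
  rw [t2_apply, add_assoc, add_sub_cancel_left]
  show M ∣ t * om x v * w i + t * om x w * v i
  exact dvd_add ((ht.mul_right _).mul_right _) ((ht.mul_right _).mul_right _)

lemma SS_Ga {e f : Fin 3 → V n} (hF : Frame e f) {M a b c d : ℤ}
    (h : a * d - b * c = 1) (ha : M ∣ a - 1) (hb : M ∣ b) (hc : M ∣ c)
    (hd : M ∣ d - 1) : SS hF (B12 a b c d h) ∈ Ga n M := by
  intro x i
  rw [SS_apply]
  have h1 : ∀ y : V n, x + y - x = y := fun y => by abel
  rw [add_assoc x, add_assoc x, add_assoc x, h1]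
  show M ∣ ((a - 1) * om x (f 0) + b * om x (f 1)) * e 0 i +
    (c * om x (f 0) + (d - 1) * om x (f 1)) * e 1 i +
    ((d - 1) * om (e 0) x - c * om (e 1) x) * f 0 i +
    (-b * om (e 0) x + (a - 1) * om (e 1) x) * f 1 i
  refine dvd_add (dvd_add (dvd_add ?_ ?_) ?_) ?_
  · exact (dvd_add (ha.mul_right _) (hb.mul_right _)).mul_right _
  · exact (dvd_add (hc.mul_right _) (hd.mul_right _)).mul_right _
  · exact (dvd_sub (hd.mul_right _) (hc.mul_right _)).mul_right _
  · exact (dvd_add ((dvd_neg.2 hb).mul_right _) (ha.mul_right _)).mul_right _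

/-- `X` fixes the basis vectors with index less than `j`. -/
def Fix (j : ℕ) (X : V n ≃ₗ[ℤ] V n) : Prop :=
  ∀ i : Fin n, (i : ℕ) < j → X (ee i) = ee i ∧ X (ff i) = ff i

lemma Fix.mul {j : ℕ} {X Y : V n ≃ₗ[ℤ] V n} (hX : Fix j X) (hY : Fix j Y) : Fix j (X * Y) :=
  fun i hi => by
    rw [LinearEquiv.mul_apply, LinearEquiv.mul_apply, (hY i hi).1, (hY i hi).2]
    exact hX i hi

lemma Fix.inv {j : ℕ} {X : V n ≃ₗ[ℤ] V n} (hX : Fix j X) : Fix j X⁻¹ :=
  fun i hi => ⟨inv_apply_of (hX i hi).1, inv_apply_of (hX i hi).2⟩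

/-- Making two numbers coprime. -/
lemma exists_coprime {a x y : ℤ} (ha : a ≠ 0) (h : ∃ u v w : ℤ, u * a + v * x + w * y = 1) :
    ∃ t : ℤ, IsCoprime a (x + t * y) := by
  classical
  set S : Finset ℕ := a.natAbs.primeFactors.filter (fun p : ℕ => ¬ (p : ℤ) ∣ x) with hS
  refine ⟨∏ p ∈ S, (p : ℤ), ?_⟩
  by_contra hne
  rw [Int.isCoprime_iff_gcd_eq_one] at hne
  obtain ⟨p, hp, hpd⟩ := Nat.exists_prime_and_dvd hne
  have h1 : (p : ℤ) ∣ a := (Int.natCast_dvd_natCast.2 hpd).trans (Int.gcd_dvd_left ..)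
  have h2 : (p : ℤ) ∣ x + (∏ p ∈ S, (p : ℤ)) * y :=
    (Int.natCast_dvd_natCast.2 hpd).trans (Int.gcd_dvd_right ..)
  have hp' := Nat.prime_iff_prime_int.1 hp
  by_cases hx : (p : ℤ) ∣ x
  · have h3 : (p : ℤ) ∣ (∏ p ∈ S, (p : ℤ)) * y := (dvd_add_right hx).1 h2
    rcases hp'.dvd_or_dvd h3 with h4 | h4
    · obtain ⟨q, hq, hpq⟩ := (hp'.dvd_finsetProd_iff _).1 h4
      rw [hS, Finset.mem_filter, Nat.mem_primeFactors] at hq
      have h5 : p = q := (Nat.prime_dvd_prime_iff_eq hp hq.1.1).1 (Int.natCast_dvd_natCast.1 hpq)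
      exact hq.2 (h5 ▸ hx)
    · obtain ⟨u, v, w, huvw⟩ := h
      have h5 : (p : ℤ) ∣ 1 := by
        rw [← huvw]
        exact dvd_add (dvd_add (h1.mul_left _) (hx.mul_left _)) (h4.mul_left _)
      exact hp'.not_isUnit (isUnit_of_dvd_one h5)
  · have hpS : p ∈ S := by
      rw [hS, Finset.mem_filter, Nat.mem_primeFactors]
      exact ⟨⟨hp, Int.natCast_dvd.1 h1, Int.natAbs_ne_zero.2 ha⟩, hx⟩
    have h3 : (p : ℤ) ∣ ∏ p ∈ S, (p : ℤ) := Finset.dvd_prod_of_mem (fun p : ℕ => (p : ℤ)) hpS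
    exact hx ((dvd_add_left (h3.mul_right y)).1 h2)

/-- The group of the elements used in the reduction. -/
def NN (N : Subgroup (V n ≃ₗ[ℤ] V n)) (M : ℕ) : Subgroup (V n ≃ₗ[ℤ] V n) := N ⊓ Sp n ⊓ Ga n M

variable {N : Subgroup (V n ≃ₗ[ℤ] V n)} {M : ℕ}

lemma NN_t1 (hG : Good' N M) (v : V n) {t : ℤ} (ht : (M : ℤ) ∣ t) : t1 v t ∈ NN N M :=
  ⟨⟨hG.t1_mem v ht, t1_Sp v t⟩, t1_Ga v ht⟩

lemma NN_t2 (hG : Good' N M) (v w : V n) (h : om v w = 0) {t : ℤ} (ht : (M : ℤ) ∣ t) :
    t2 v w h t ∈ NN N M :=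
  ⟨⟨hG.t2_mem v w h ht, t2_Sp v w h t⟩, t2_Ga v w h ht⟩

lemma NN_SS (hG : Good' N M) {e f : Fin 3 → V n} (hF : Frame e f) {a b c d : ℤ}
    (h : a * d - b * c = 1) (ha : (M : ℤ) ∣ a - 1) (hb : (M : ℤ) ∣ b) (hc : (M : ℤ) ∣ c)
    (hd : (M : ℤ) ∣ d - 1) : SS hF (B12 a b c d h) ∈ NN N M :=
  ⟨⟨hG.SS_mem hF h ha hb hc hd, SS_Sp hF _⟩, SS_Ga hF h ha hb hc hd⟩

lemma NN_conj (hG : Good' N M) {h X : V n ≃ₗ[ℤ] V n} (hh : h ∈ Sp n) (hX : X ∈ NN N M) :
    h * X * h⁻¹ ∈ NN N M :=
  ⟨⟨hG.conj h hh X hX.1.1, (Sp n).mul_mem ((Sp n).mul_mem hh hX.1.2) ((Sp n).inv_mem hh)⟩,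
    Ga_conj h hX.2⟩

/-- First part of the reduction. -/
lemma step1 (hG : Good' N M) (hM : 1 < M) {j k l : Fin n} (hjk : (k : ℕ) = j + 1) (hjl : j ≠ l) (hkl : k ≠ l)
    {x : V n} (h1 : (M : ℤ) ∣ x (Sum.inl j) - 1)
    (h2 : ∀ i, i ≠ j → (M : ℤ) ∣ x (Sum.inl i)) (h3 : ∀ i, (M : ℤ) ∣ x (Sum.inr i))
    (h0 : ∀ i : Fin n, (i : ℕ) < j → x (Sum.inl i) = 0 ∧ x (Sum.inr i) = 0)
    (hu : ∃ y, om x y = 1) :
    ∃ ν ∈ NN N M, Fix j ν ∧ ν x = ee j := by
  have hjk' : j ≠ k := by
    intro h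
    rw [← h] at hjk
    omega
  obtain ⟨h, hh, f1, f2, f3, f4, -⟩ := red_vec x k
  set a := x (Sum.inl j) with ha
  set c := x (Sum.inr j) with hc
  set m := (h x) (Sum.inl k) with hm
  have hjk2 : j < k := by
    rw [Fin.lt_def]
    omega
  have hx' : h x = a • ee j + c • ff j + m • ee k := by
    rw [expand (h x)]
    rw [← Finset.add_sum_erase Finset.univ _ (Finset.mem_univ j),
      ← Finset.add_sum_erase _ _ (show k ∈ Finset.univ.erase j from
        Finset.mem_erase.2 ⟨hjk'.symm, Finset.mem_univ k⟩), Finset.sum_eq_zero]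
    · rw [(f2 j hjk2).1, (f2 j hjk2).2, f3 k le_rfl]
      simp only [zero_smul, add_zero]
      rfl
    · intro i hi
      rw [Finset.mem_erase, Finset.mem_erase] at hi
      rcases lt_trichotomy i j with h5 | h5 | h5
      · rw [(f2 i (h5.trans hjk2)).1, (f2 i (h5.trans hjk2)).2, (h0 i h5).1, (h0 i h5).2]
        simp
      · exact absurd h5 hi.2.1
      · have h6 : k < i := by
          rcases lt_trichotomy i k with h7 | h7 | h7
          · exfalso
            rw [Fin.lt_def] at h5 h7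
            omega
          · exact absurd h7 hi.1
          · exact h7
        rw [f3 i h6.le, f4 i h6]
        simp
  have hMm : (M : ℤ) ∣ m := by
    have h5 : ∀ i, (M : ℤ) ∣ (x - ee j) i := by
      intro i
      rcases i with i | i
      · by_cases hi : i = j
        · subst hi
          simpa [ee] using h1
        · have : (x - ee j) (Sum.inl i) = x (Sum.inl i) := by
            simp [ee, Pi.single_apply, hi]
          rw [this]
          exact h2 i hi
      · have : (x - ee j) (Sum.inr i) = x (Sum.inr i) := by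
          simp [ee, Pi.single_apply]
        rw [this]
        exact h3 i
    have h6 := dvd_map h h5 (Sum.inl k)
    rw [map_sub, (f1 j hjk2).1] at h6
    have : (h x - ee j) (Sum.inl k) = m := by
      simp [ee, Pi.single_apply, hjk'.symm, hm]
    rwa [this] at h6
  have ha0 : a ≠ 0 := by
    intro h5
    rw [h5, zero_sub, dvd_neg] at h1
    have h6 := Int.eq_one_of_dvd_one (by positivity) h1
    omega
  obtain ⟨y, hy⟩ := hu
  have hcop : ∃ u v w : ℤ, u * a + v * m + w * (-c) = 1 := by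
    have h5 : om (h x) (h y) = 1 := by rw [hh]; exact hy
    rw [hx'] at h5
    simp only [om_add_left, om_smul_left] at h5
    exact ⟨om (ee j) (h y), om (ee k) (h y), -om (ff j) (h y), by linear_combination h5⟩
  obtain ⟨t, ht⟩ := exists_coprime ha0 hcop
  set m' := m + t * -c with hm'
  have hMm' : (M : ℤ) ∣ m' := dvd_add hMm ((dvd_neg.2 (h3 j)).mul_left _)
  -- the first change
  have hejk : om (ee j : V n) (ee k) = 0 := om_ee j k
  set T := t2 (ee j : V n) (ee k) hejk t with hT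
  have hTx : T (h x) = a • ee j + c • ff j + m' • ee k := by
    rw [hx', hT, t2_apply]
    simp only [om_add_left, om_smul_left, om_ee, om_fe, if_pos, if_neg hjk']
    rw [hm']
    module
  -- the matrix
  have hcop2 : IsCoprime a ((M : ℤ) * m') := by
    refine IsCoprime.mul_right ?_ ht
    obtain ⟨s, hs⟩ := h1
    exact ⟨1, -s, by linear_combination hs⟩
  obtain ⟨u, v, huv⟩ := hcop2
  have hdet : u * a - (v * M) * (-m') = 1 := by linear_combination huv
  have hu1 : (M : ℤ) ∣ u - 1 := by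
    have h5 : u - 1 = -(u * (a - 1)) - v * m' * M := by linear_combination huv
    rw [h5]
    exact dvd_sub (dvd_neg.2 (h1.mul_left _)) (dvd_mul_left _ _)
  have hF := frame3 hjk' hjl hkl
  set S := SS hF (B12 u (v * M) (-m') a hdet) with hS
  have hSx : S (a • ee j + c • ff j + m' • ee k) = ee j + (a * c) • ff j + (-(v * M * c)) • ff k := by
    rw [hS, SS_apply]
    simp only [Matrix.cons_val_zero, Matrix.cons_val_one, om_add_left, om_add_right, om_smul_left,
      om_smul_right, om_ef, om_ff, om_ee, om_fe, if_pos, if_neg hjk', if_neg hjk'.symm]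
    match_scalars
    · linear_combination hdet
    · ring
    · ring
    · ring
  have hjj : om (ff j : V n) (ff k) = 0 := om_ff j k
  set T2 := t2 (ff j : V n) (ff k) hjj (v * M * c) with hT2
  set T1 := t1 (ff j : V n) (-(a * c)) with hT1
  have hfin : T1 (T2 (ee j + (a * c) • ff j + (-(v * M * c)) • ff k)) = ee j := by
    rw [hT1, hT2, t1_apply, t2_apply]
    simp only [om_add_left, om_smul_left, om_ef, om_ff, om_ee, om_fe, if_pos, if_neg hjk']
    module
  set ν0 := T1 * T2 * S with hν0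
  have hν0N : ν0 ∈ NN N M := by
    refine mul_mem (mul_mem (NN_t1 hG _ (dvd_neg.2 ((h3 j).mul_left _))) (NN_t2 hG _ _ _ ?_))
      (NN_SS hG hF _ hu1 (dvd_mul_left _ _) (dvd_neg.2 hMm') h1)
    exact (dvd_mul_left _ _).mul_right _
  have hν0F : Fix j ν0 := by
    intro i hi
    have i1 : i ≠ j := fun h => by rw [h] at hi; exact lt_irrefl _ hi
    have i2 : i ≠ k := fun h => by rw [h] at hi; omega
    rw [hν0, hT1, hT2, hS]
    constructor
    · rw [LinearEquiv.mul_apply, LinearEquiv.mul_apply, SS_apply]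
      simp only [Matrix.cons_val_zero, Matrix.cons_val_one, om_ef, om_ff, om_ee, om_fe, if_neg i1,
        if_neg i2, mul_zero, add_zero, sub_zero, zero_smul, t1_apply, t2_apply]
    · rw [LinearEquiv.mul_apply, LinearEquiv.mul_apply, SS_apply]
      simp only [Matrix.cons_val_zero, Matrix.cons_val_one, om_ef, om_ff, om_ee, om_fe, if_neg i1,
        if_neg i2, if_neg i1.symm, if_neg i2.symm, mul_zero, add_zero, sub_zero, zero_smul, t1_apply,
        t2_apply]
  have hTF : Fix j T := by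
    intro i hi
    have i1 : i ≠ j := fun h => by rw [h] at hi; exact lt_irrefl _ hi
    have i2 : i ≠ k := fun h => by rw [h] at hi; omega
    rw [hT]
    constructor
    · rw [t2_apply]
      simp only [om_ee, mul_zero, add_zero, zero_smul]
    · rw [t2_apply]
      simp only [om_fe, if_neg i1, if_neg i2, mul_zero, add_zero, zero_smul]
  have hhF : Fix j h := by
    intro i hi
    exact f1 i (by rw [Fin.lt_def]; omega)
  have hThj : (T * h) (ee j) = ee j := by
    rw [LinearEquiv.mul_apply, (f1 j hjk2).1, hT, t2_apply]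
    simp only [om_ee, mul_zero, add_zero, zero_smul]
  have hThS : T * h ∈ Sp n := mul_mem (t2_Sp _ _ _ _) hh
  refine ⟨(T * h)⁻¹ * ν0 * (T * h), ?_, ?_, ?_⟩
  · have h5 := NN_conj hG (inv_mem hThS) hν0N
    rwa [inv_inv] at h5
  · exact ((hTF.mul hhF).inv.mul hν0F).mul (hTF.mul hhF)
  · rw [LinearEquiv.mul_apply, LinearEquiv.mul_apply]
    apply inv_apply_of
    rw [hThj, LinearEquiv.mul_apply T h, hTx, hν0, LinearEquiv.mul_apply, LinearEquiv.mul_apply, hSx,
      hfin]

/-- Second part of the reduction. -/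
lemma step2 (hG : Good' N M) {j : Fin n} {y : V n} (h1 : ∀ i, (M : ℤ) ∣ (y - ff j) i)
    (h0 : ∀ i : Fin n, (i : ℕ) < j → om (ee i) y = 0 ∧ om (ff i) y = 0) (h2 : om (ee j) y = 1) :
    ∃ ν ∈ NN N M, Fix j ν ∧ ν (ee j) = ee j ∧ ν y = ff j := by
  choose z hz using h1
  have hz' : y - ff j = (M : ℤ) • z := by
    ext i
    exact hz i
  have hM0 : (M : ℤ) ≠ 0 := by exact_mod_cast hG.pos.ne'
  have hyz : y = ff j + (M : ℤ) • z := by rw [← hz']; abel
  have e1 : om (ee j) z = 0 := by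
    have h5 : (M : ℤ) * om (ee j) z = 0 := by
      rw [← om_smul_right, ← hz', om_sub_right, h2, om_ef, if_pos rfl, sub_self]
    exact (mul_eq_zero.1 h5).resolve_left hM0
  have e2 : ∀ i : Fin n, (i : ℕ) < j → om (ee i) z = 0 ∧ om (ff i) z = 0 := by
    intro i hi
    have i1 : i ≠ j := fun h => by rw [h] at hi; exact lt_irrefl _ hi
    constructor
    · have h5 : (M : ℤ) * om (ee i) z = 0 := by
        rw [← om_smul_right, ← hz', om_sub_right, (h0 i hi).1, om_ef, if_neg i1, sub_self]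
      exact (mul_eq_zero.1 h5).resolve_left hM0
    · have h5 : (M : ℤ) * om (ff i) z = 0 := by
        rw [← om_smul_right, ← hz', om_sub_right, (h0 i hi).2, om_ff, sub_self]
      exact (mul_eq_zero.1 h5).resolve_left hM0
  set s := om y z with hs
  refine ⟨t1 (ee j) (M * s) * t2 (ee j) z e1 M,
    mul_mem (NN_t1 hG _ (dvd_mul_right _ _)) (NN_t2 hG _ _ _ (dvd_refl _)), ?_, ?_, ?_⟩
  · intro i hi
    have i1 : i ≠ j := fun h => by rw [h] at hi; exact lt_irrefl _ hi
    constructor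
    · rw [LinearEquiv.mul_apply, t2_apply]
      simp only [om_ee, (e2 i hi).1, mul_zero, add_zero, zero_smul, t1_apply]
    · rw [LinearEquiv.mul_apply, t2_apply]
      simp only [om_fe, if_neg i1, (e2 i hi).2, mul_zero, add_zero, zero_smul, t1_apply]
  · rw [LinearEquiv.mul_apply, t2_apply]
    simp only [om_ee, e1, mul_zero, add_zero, zero_smul, t1_apply]
  · have h5 : om y (ee j) = -1 := by rw [om_swap, h2]
    have h6 : om z (ee j) = 0 := by rw [om_swap, e1, neg_zero]
    rw [LinearEquiv.mul_apply, t2_apply, t1_apply]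
    simp only [om_add_left, om_smul_left, h5, h6, om_ee, ← hs]
    have h7 : y - (M : ℤ) • z = ff j := by rw [hyz]; abel
    calc _ = y - (M : ℤ) • z := by module
      _ = ff j := h7

lemma Ga_of_mul {M : ℤ} {X Y : V n ≃ₗ[ℤ] V n} (hX : X ∈ Ga n M) (hY : Y ∈ Ga n M) : X * Y ∈ Ga n M :=
  (Ga n M).mul_mem hX hY

/-- One stage of the reduction. -/
lemma stage (hG : Good' N M) (hM : 1 < M) {j k l : Fin n} (hjk : (k : ℕ) = j + 1) (hjl : j ≠ l)
    (hkl : k ≠ l) {X : V n ≃ₗ[ℤ] V n} (hX : X ∈ Sp n) (hXG : X ∈ Ga n M) (hXF : Fix j X) :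
    ∃ ν ∈ NN N M, Fix ((j : ℕ) + 1) (ν * X) := by
  have c1 : ∀ i : Fin n, (X (ee j)) (Sum.inl i) = om (X (ee j)) (ff i) := fun i => by
    rw [om_ff_right]
  have c2 : ∀ i : Fin n, (X (ee j)) (Sum.inr i) = - om (X (ee j)) (ee i) := fun i => by
    rw [om_ee_right, neg_neg]
  have hc : ∀ s, (M : ℤ) ∣ (X (ee j) - ee j) s := fun s => hXG _ s
  obtain ⟨ν1, hν1, g1, g2⟩ := step1 hG hM hjk hjl hkl (x := X (ee j))
    (by
      have := hc (Sum.inl j)
      simpa [ee] using this)
    (by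
      intro i hi
      have := hc (Sum.inl i)
      have e : (X (ee j) - ee j) (Sum.inl i) = X (ee j) (Sum.inl i) := by simp [ee, hi]
      rwa [e] at this)
    (by
      intro i
      have := hc (Sum.inr i)
      have e : (X (ee j) - ee j) (Sum.inr i) = X (ee j) (Sum.inr i) := by simp [ee]
      rwa [e] at this)
    (by
      intro i hi
      have i1 : i ≠ j := fun h => by rw [h] at hi; exact lt_irrefl _ hi
      constructor
      · rw [c1, ← (hXF i hi).2, hX, om_ef, if_neg i1.symm]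
      · rw [c2, ← (hXF i hi).1, hX, om_ee, neg_zero])
    ⟨X (ff j), by rw [hX, om_ef, if_pos rfl]⟩
  set X1 := ν1 * X with hX1
  have hX1S : X1 ∈ Sp n := (Sp n).mul_mem hν1.1.2 hX
  have hX1G : X1 ∈ Ga n M := Ga_of_mul hν1.2 hXG
  have hX1F : Fix j X1 := g1.mul hXF
  have hX1e : X1 (ee j) = ee j := g2
  obtain ⟨ν2, hν2, g3, g4, g5⟩ := step2 hG (j := j) (y := X1 (ff j)) (fun i => hX1G _ i)
    (by
      intro i hi
      have i1 : i ≠ j := fun h => by rw [h] at hi; exact lt_irrefl _ hi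
      constructor
      · rw [← (hX1F i hi).1, hX1S, om_ef, if_neg i1]
      · rw [← (hX1F i hi).2, hX1S, om_ff])
    (by
      have h5 : om (X1 (ee j)) (X1 (ff j)) = 1 := by rw [hX1S, om_ef, if_pos rfl]
      rwa [hX1e] at h5)
  refine ⟨ν2 * ν1, mul_mem hν2 hν1, ?_⟩
  rw [mul_assoc, ← hX1]
  intro i hi
  by_cases hij : i = j
  · subst hij
    show ν2 (X1 (ee i)) = ee i ∧ ν2 (X1 (ff i)) = ff i
    rw [hX1e, g4, g5]
    exact ⟨rfl, rfl⟩
  · have h6 : (i : ℕ) < j := by
      have : (i : ℕ) ≠ j := fun h => hij (Fin.ext h)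
      omega
    exact (g3.mul hX1F) i h6

/-- The reduction to one hyperbolic pair. -/
lemma reduce (hG : Good' N M) (hM : 1 < M) (hn : 3 ≤ n) {X : V n ≃ₗ[ℤ] V n} (hX : X ∈ Sp n)
    (hXG : X ∈ Ga n M) : ∀ j : ℕ, j + 1 ≤ n → ∃ ν ∈ NN N M, Fix j (ν * X) := by
  intro j
  induction j with
  | zero =>
    intro _
    exact ⟨1, one_mem _, fun i hi => absurd hi (Nat.not_lt_zero _)⟩
  | succ j ih =>
    intro hj
    obtain ⟨ν, hν, hF⟩ := ih (by omega)
    obtain ⟨l, hl1, hl2⟩ : ∃ l : Fin n, (l : ℕ) ≠ j ∧ (l : ℕ) ≠ j + 1 := by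
      rcases Nat.eq_zero_or_pos j with h | h
      · exact ⟨⟨2, by omega⟩, by simp; omega, by simp; omega⟩
      · exact ⟨⟨0, by omega⟩, by simp; omega, by simp⟩
    obtain ⟨ν', hν', hF'⟩ := stage hG hM (j := ⟨j, by omega⟩) (k := ⟨j + 1, by omega⟩) (l := l) rfl
      (fun h => hl1 (congrArg Fin.val h).symm) (fun h => hl2 (congrArg Fin.val h).symm)
      ((Sp n).mul_mem hν.1.2 hX) (Ga_of_mul hν.2 hXG) hF
    exact ⟨ν' * ν, mul_mem hν' hν, by rw [mul_assoc]; exact hF'⟩

/-- **The congruence subgroup property of `Sp_{2n} (ℤ)`, `n ≥ 3`.** -/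
theorem csp_sp' (hn : 3 ≤ n) (hG : Good' N M) (h4 : 4 ∣ M) {X : V n ≃ₗ[ℤ] V n}
    (hX : X ∈ Sp n) (hc : ∀ x i, (M : ℤ) ∣ (X x - x) i) : X ∈ N := by
  have hM : 1 < M := by
    have := hG.pos
    have := Nat.le_of_dvd hG.pos h4
    omega
  obtain ⟨ν, hν, hF⟩ := reduce hG hM hn hX hc (n - 1) (by omega)
  set Y := ν * X with hY
  have hYS : Y ∈ Sp n := (Sp n).mul_mem hν.1.2 hX
  have hYG : Y ∈ Ga n M := Ga_of_mul hν.2 hc
  suffices h : Y ∈ N by
    have h1 : X = ν⁻¹ * Y := by rw [hY, inv_mul_cancel_left]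
    rw [h1]
    exact N.mul_mem (N.inv_mem hν.1.1) h
  -- the last pair
  set j : Fin n := ⟨n - 1, by omega⟩ with hj
  have hlt : ∀ i : Fin n, i ≠ j → (i : ℕ) < n - 1 := by
    intro i hi
    have h1 : (i : ℕ) ≠ n - 1 := fun h => hi (Fin.ext h)
    have := i.2
    omega
  have hfr : Frame (n := n) ![ee j, ee ⟨0, by omega⟩, ee ⟨1, by omega⟩]
      ![ff j, ff ⟨0, by omega⟩, ff ⟨1, by omega⟩] := by
    apply frame3
    · intro h
      have := congrArg Fin.val h
      simp only [hj] at this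
      omega
    · intro h
      have := congrArg Fin.val h
      simp only [hj] at this
      omega
    · intro h
      have := congrArg Fin.val h
      simp at this
  have hcoord : ∀ x : V n, (∀ i, i ≠ j → om (ee i) x = 0 ∧ om (ff i) x = 0) →
      x = x (Sum.inl j) • ee j + x (Sum.inr j) • ff j := by
    intro x hx
    conv_lhs => rw [expand x]
    rw [Finset.sum_eq_single j]
    · intro i _ hi
      have h1 := (hx i hi).1
      have h2 := (hx i hi).2
      rw [om_swap, om_ee_right, neg_neg] at h1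
      rw [om_swap, om_ff_right, neg_eq_zero] at h2
      rw [h1, h2, zero_smul, zero_smul, add_zero]
    · intro h
      exact absurd (Finset.mem_univ j) h
  have he : ∀ i, i ≠ j → om (ee i) (Y (ee j)) = 0 ∧ om (ff i) (Y (ee j)) = 0 := by
    intro i hi
    constructor
    · rw [← (hF i (hlt i hi)).1, hYS, om_ee]
    · rw [← (hF i (hlt i hi)).2, hYS, om_fe, if_neg hi]
  have hf : ∀ i, i ≠ j → om (ee i) (Y (ff j)) = 0 ∧ om (ff i) (Y (ff j)) = 0 := by
    intro i hi
    constructor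
    · rw [← (hF i (hlt i hi)).1, hYS, om_ef, if_neg hi]
    · rw [← (hF i (hlt i hi)).2, hYS, om_ff]
  set a := Y (ee j) (Sum.inl j) with ha
  set c := Y (ee j) (Sum.inr j) with hcc
  set b := Y (ff j) (Sum.inl j) with hb
  set d := Y (ff j) (Sum.inr j) with hd
  have hYe : Y (ee j) = a • ee j + c • ff j := hcoord _ he
  have hYf : Y (ff j) = b • ee j + d • ff j := hcoord _ hf
  have hdet : a * d - b * c = 1 := by
    have h1 : om (Y (ee j)) (Y (ff j)) = 1 := by rw [hYS, om_ef, if_pos rfl]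
    rw [hYe, hYf] at h1
    simp only [om_add_left, om_add_right, om_smul_left, om_smul_right, om_ee, om_ff, om_ef, om_fe,
      if_pos] at h1
    linear_combination h1
  have ha1 : (M : ℤ) ∣ a - 1 := by
    have := hYG (ee j) (Sum.inl j)
    have e : (Y (ee j) - ee j) (Sum.inl j) = a - 1 := by simp [ee, ha]
    rwa [e] at this
  have hc1 : (M : ℤ) ∣ c := by
    have := hYG (ee j) (Sum.inr j)
    have e : (Y (ee j) - ee j) (Sum.inr j) = c := by simp [ee, hcc]
    rwa [e] at this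
  have hb1 : (M : ℤ) ∣ b := by
    have := hYG (ff j) (Sum.inl j)
    have e : (Y (ff j) - ff j) (Sum.inl j) = b := by simp [ff, hb]
    rwa [e] at this
  have hd1 : (M : ℤ) ∣ d - 1 := by
    have := hYG (ff j) (Sum.inr j)
    have e : (Y (ff j) - ff j) (Sum.inr j) = d - 1 := by simp [ff, hd]
    rwa [e] at this
  have h5 := LL_mem hG h4 hfr hdet ha1 hb1 hc1 hd1
  have h6 : LL hfr.h0 (mk2 a b c d hdet) = Y := by
    apply ext_ef
    · intro i
      rw [LL_mk2]
      simp only [Matrix.cons_val_zero]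
      by_cases hi : i = j
      · rw [hi, hYe]
        simp only [om_ee, om_ef, if_pos]
        module
      · rw [(hF i (hlt i hi)).1, om_ef, if_neg hi, om_ee]
        module
    · intro i
      rw [LL_mk2]
      simp only [Matrix.cons_val_zero]
      by_cases hi : i = j
      · rw [hi, hYf]
        simp only [om_ff, om_ef, if_pos]
        module
      · rw [(hF i (hlt i hi)).2, om_ff, om_ef, if_neg (fun h => hi h.symm)]
        module
  rwa [h6] at h5

/-- **The congruence subgroup property of `Sp_{2n} (ℤ)`, `n ≥ 3`**, for subgroups of finite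
exponent in it. -/
theorem csp_sp (hn : 3 ≤ n) (hG : Good N M) (h4 : 4 ∣ M) {X : V n ≃ₗ[ℤ] V n}
    (hX : X ∈ Sp n) (hc : ∀ x i, (M : ℤ) ∣ (X x - x) i) : X ∈ N :=
  csp_sp' hn hG.good' h4 hX hc

end Pool.Agent.V8H98.JF
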