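import Pool.Agent.V8H98.JF.Psi
import Pool.Agent.V8H98.JF.Sp4

/-!
# Independence of the Prym representations of the double covers
-/

set_option autoImplicit false

namespace Pool.Agent.V8H98.JF

open scoped Pointwise commutatorElement

section TT

variable {g : ℕ}

lemma comm_mem_of_index {G : Type} [Group G] {Γ : Subgroup G} (h2 : Γ.index = 2) :
    commutator G ≤ Γ := by
  rw [commutator_def, Subgroup.commutator_le]
  intro x _ y _
  rw [commutatorElement_def]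
  simp only [Subgroup.mul_mem_iff_of_index_two h2, Subgroup.inv_mem_iff]
  tauto

lemma rho_one_comm {t : MulAut (SurfaceGroup g)} (ht : rho g t = 1) (x : SurfaceGroup g) :
    t x * x⁻¹ ∈ commutator (SurfaceGroup g) := by
  rw [← cls_eq_zero_iff, cls_mul, cls_inv, ← rho_cls, ht]
  show cls x + - cls x = 0
  exact add_neg_cancel _

lemma rho_one_stab {Γ : Subgroup (SurfaceGroup g)} (h2 : Γ.index = 2) {t : MulAut (SurfaceGroup g)}
    (ht : rho g t = 1) (x : SurfaceGroup g) : t x ∈ Γ ↔ x ∈ Γ := by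
  have h1 := comm_mem_of_index h2 (rho_one_comm ht x)
  constructor
  · intro h3
    have h4 := Γ.mul_mem (Γ.inv_mem h1) h3
    rwa [mul_inv_rev, inv_inv, inv_mul_cancel_right] at h4
  · intro h3
    have h4 := Γ.mul_mem h1 h3
    rwa [inv_mul_cancel_right] at h4

/-- The automorphisms acting trivially on `H_1 (S)` and on the first homology of the double cover
`Γ`. -/
def TT (Γ : Subgroup (SurfaceGroup g)) (h2 : Γ.index = 2) : Subgroup (MulAut (SurfaceGroup g)) where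
  carrier := {t | rho g t = 1 ∧ ∀ x ∈ Γ, t x * x⁻¹ ∈ (⁅Γ, Γ⁆ : Subgroup (SurfaceGroup g))}
  one_mem' := ⟨map_one _, fun x _ => by
    rw [MulAut.one_apply, mul_inv_cancel]
    exact Subgroup.one_mem _⟩
  mul_mem' := fun {s t} hs ht => ⟨by rw [map_mul, hs.1, ht.1, one_mul], fun x hx => by
    have h1 : (s * t) x * x⁻¹ = (s (t x) * (t x)⁻¹) * (t x * x⁻¹) := by
      rw [MulAut.mul_apply]
      group
    rw [h1]
    exact Subgroup.mul_mem _ (hs.2 _ ((rho_one_stab h2 ht.1 x).2 hx)) (ht.2 _ hx)⟩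
  inv_mem' := fun {t} ht => ⟨by rw [map_inv, ht.1, inv_one], fun x hx => by
    have h0 : rho g t⁻¹ = 1 := by rw [map_inv, ht.1, inv_one]
    have h1 : t (t⁻¹ x) = x := by rw [← MulAut.mul_apply, mul_inv_cancel, MulAut.one_apply]
    have h2' := ht.2 (t⁻¹ x) ((rho_one_stab h2 h0 x).2 hx)
    rw [h1] at h2'
    have h3 := Subgroup.inv_mem _ h2'
    rwa [mul_inv_rev, inv_inv] at h3⟩

lemma mem_TT {Γ : Subgroup (SurfaceGroup g)} {h2 : Γ.index = 2} {t : MulAut (SurfaceGroup g)} :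
    t ∈ TT Γ h2 ↔ rho g t = 1 ∧ ∀ x ∈ Γ, t x * x⁻¹ ∈ (⁅Γ, Γ⁆ : Subgroup (SurfaceGroup g)) := Iff.rfl

/-- Conjugation. -/
lemma conj_TT {Γ Γ' : Subgroup (SurfaceGroup g)} {h2 : Γ.index = 2} {h2' : Γ'.index = 2}
    (s : MulAut (SurfaceGroup g)) (hs : ∀ x, s x ∈ Γ' ↔ x ∈ Γ) {t : MulAut (SurfaceGroup g)}
    (ht : t ∈ TT Γ h2) : s * t * s⁻¹ ∈ TT Γ' h2' := by
  refine ⟨by rw [map_mul, map_mul, ht.1, mul_one, map_inv, mul_inv_cancel], fun x hx => ?_⟩
  set y := s⁻¹ x with hy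
  have hsy : s y = x := by rw [hy, ← MulAut.mul_apply, mul_inv_cancel, MulAut.one_apply]
  have hyΓ : y ∈ Γ := by rw [← hs, hsy]; exact hx
  have h1 : (s * t * s⁻¹) x * x⁻¹ = s (t y * y⁻¹) := by
    rw [map_mul, map_inv, hsy]
    rfl
  rw [h1]
  have h3 : (⁅Γ, Γ⁆ : Subgroup (SurfaceGroup g)) ≤ (⁅Γ', Γ'⁆ : Subgroup (SurfaceGroup g)).comap
      s.toMonoidHom := by
    rw [Subgroup.commutator_le]
    intro a ha b hb
    rw [Subgroup.mem_comap, map_commutatorElement]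
    exact Subgroup.commutator_mem_commutator ((hs a).2 ha) ((hs b).2 hb)
  exact h3 (ht.2 y hyΓ)

/-- `TT Γ` is normalized by the Torelli group. -/
lemma TT_normal {Γ : Subgroup (SurfaceGroup g)} {h2 : Γ.index = 2} {s t : MulAut (SurfaceGroup g)}
    (hs : rho g s = 1) (ht : t ∈ TT Γ h2) : s * t * s⁻¹ ∈ TT Γ h2 :=
  conj_TT s (rho_one_stab h2 hs) ht

lemma TT_comm_left {Γ : Subgroup (SurfaceGroup g)} {h2 : Γ.index = 2}
    {s t : MulAut (SurfaceGroup g)} (hs : rho g s = 1) (ht : t ∈ TT Γ h2) : ⁅s, t⁆ ∈ TT Γ h2 := by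
  rw [commutatorElement_def]
  exact Subgroup.mul_mem _ (TT_normal hs ht) (Subgroup.inv_mem _ ht)

lemma TT_comm_right {Γ : Subgroup (SurfaceGroup g)} {h2 : Γ.index = 2}
    {s t : MulAut (SurfaceGroup g)} (hs : rho g s = 1) (ht : t ∈ TT Γ h2) : ⁅t, s⁆ ∈ TT Γ h2 := by
  rw [← commutatorElement_inv]
  exact Subgroup.inv_mem _ (TT_comm_left hs ht)

/-- The type of double covers. -/
abbrev JJ (g : ℕ) : Type := {Γ : Subgroup (SurfaceGroup g) // Γ.index = 2}

lemma smul_index (s : MulAut (SurfaceGroup g)) (Γ : Subgroup (SurfaceGroup g)) :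
    (s • Γ).index = Γ.index := by
  have h1 : s • Γ = Γ.map s.toMonoidHom := rfl
  rw [h1]
  exact Subgroup.index_map_equiv Γ s

instance : MulAction (MulAut (SurfaceGroup g)) (JJ g) where
  smul s Γ := ⟨s • Γ.1, by rw [smul_index]; exact Γ.2⟩
  one_smul Γ := Subtype.ext (one_smul _ _)
  mul_smul s t Γ := Subtype.ext (mul_smul _ _ _)

lemma smul_val (s : MulAut (SurfaceGroup g)) (Γ : JJ g) : (s • Γ).1 = s • Γ.1 := rfl

/-- A power of every automorphism preserves all double covers. -/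
lemma exists_power [Finite (JJ g)] : ∃ k : ℕ, 0 < k ∧ ∀ (s : MulAut (SurfaceGroup g)) (Γ : JJ g) (x),
    (s ^ k) x ∈ Γ.1 ↔ x ∈ Γ.1 := by
  refine ⟨Nat.card (Equiv.Perm (JJ g)), Nat.card_pos, fun s Γ x => ?_⟩
  have h1 : (MulAction.toPermHom (MulAut (SurfaceGroup g)) (JJ g) s) ^
      (Nat.card (Equiv.Perm (JJ g))) = 1 := pow_card_eq_one'
  rw [← map_pow] at h1
  have h2 : (s ^ Nat.card (Equiv.Perm (JJ g))) • Γ = Γ := by
    have := Equiv.congr_fun h1 Γ
    exact this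
  have h3 : (s ^ Nat.card (Equiv.Perm (JJ g))) • Γ.1 = Γ.1 := by
    rw [← smul_val, h2]
  conv_lhs => rw [← h3]
  rw [← MulAut.smul_def]
  exact Subgroup.smul_mem_pointwise_smul_iff

end TT

section

variable {h : ℕ}

lemma Gam_index : (Gam h).index = 2 := by
  rw [Subgroup.index_eq_two_iff]
  refine ⟨PresentedGroup.of (Sum.inr 0), fun x => ?_⟩
  rw [mem_Gam, mem_Gam, chi_mul, chi_b0]
  rcases Int.units_eq_one_or (chi x) with h1 | h1
  · rw [h1]
    right
    exact ⟨rfl, by decide⟩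
  · rw [h1]
    left
    exact ⟨by decide, by decide⟩

lemma T_le_A0 {t : MulAut (SurfaceGroup (h + 1))} (ht : rho (h + 1) t = 1) : t ∈ A0 h := by
  intro x
  have h1 : commutator (SurfaceGroup (h + 1)) ≤ Gam h := by
    rw [commutator_def, Subgroup.commutator_le]
    intro x _ y _
    rw [mem_Gam, commutatorElement_def, chi_mul, chi_mul, chi_mul, chi_inv, chi_inv]
    rw [mul_comm (chi x) (chi y), mul_inv_cancel_right, mul_inv_cancel]
  have h2 := h1 (rho_one_comm ht x)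
  rw [mem_Gam, chi_mul, chi_inv, mul_inv_eq_one] at h2
  exact h2

end

end Pool.Agent.V8H98.JF
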