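import Pool.Agent.V8H98.JF.Gen

/-!
# Subgroups containing a sign change, and commutators of transvections
-/

set_option autoImplicit false

namespace Pool.Agent.V8H98.JF

open scoped commutatorElement

/-- `t2 v w` fixes `v`. -/
lemma t2_left {h : ℕ} (v w : V h) (o : om v w = 0) (s : ℤ) : t2 v w o s v = v := by
  rw [t2_apply, om_self, o]
  simp

/-- The commutator of two double transvections with the same first vector. -/
lemma comm_shear {h : ℕ} (v w w' : V h) (o : om v w = 0) (o' : om v w' = 0) (s t : ℤ) :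
    ⁅t2 v w o s, t2 v w' o' t⁆ = t1 v (2 * s * t * om w' w) := by
  have e3 : om (t2 v w o s v) (t2 v w o s w') = 0 := by rw [t2_Sp, o']
  have e1 : t2 v w o s v = v := t2_left v w o s
  have e2 : t2 v w o s w' = w' + (s * om w' w) • v := by
    rw [t2_apply, om_swap w' v, o']
    simp
  have h1 : t2 v w o s * t2 v w' o' t * (t2 v w o s)⁻¹ =
      t1 v (2 * s * t * om w' w) * t2 v w' o' t := by
    rw [conj_t2 (t2_Sp _ _ _ _) _ _ o' e3]
    apply LinearEquiv.ext
    intro x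
    rw [LinearEquiv.mul_apply, t1_apply, t2_apply _ _ e3, e1, e2, t2_apply v w' o']
    simp only [om_add_left, om_add_right, om_smul_left, om_smul_right, om_self, om_swap w' v, o']
    module
  rw [commutatorElement_def, h1, mul_assoc, mul_inv_cancel, mul_one]

/-- The sign change preserves the form, and splits the vectors. -/
lemma sign_spec {h : ℕ} (hh : 2 ≤ h) (d : V h ≃ₗ[ℤ] V h)
    (hde : ∀ i : Fin h, d (ee i) = (if (i : ℕ) = 0 then (-1 : ℤ) else 1) • ee i ∧
      d (ff i) = (if (i : ℕ) = 0 then (-1 : ℤ) else 1) • ff i) :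
    d ∈ Sp h ∧ ∀ u : V h, ∃ u₁ u₂ : V h, u = u₁ + u₂ ∧ d u₁ = u₁ ∧ d u₂ = -u₂ := by
  have key : ∀ x : V h, ∀ i, (d x) (Sum.inl i) = (if (i : ℕ) = 0 then (-1 : ℤ) else 1) * x (Sum.inl i)
      ∧ (d x) (Sum.inr i) = (if (i : ℕ) = 0 then (-1 : ℤ) else 1) * x (Sum.inr i) := by
    intro x i
    have hx : x = ∑ i, (x (Sum.inl i) • ee i + x (Sum.inr i) • ff i) := by
      apply V_ext
      · intro j
        rw [Finset.sum_apply, Finset.sum_eq_single j]
        · rw [Pi.add_apply, Pi.smul_apply, Pi.smul_apply, ee_inl, ff_inl, if_pos rfl]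
          simp
        · intro k _ hk
          rw [Pi.add_apply, Pi.smul_apply, Pi.smul_apply, ee_inl, ff_inl,
            if_neg (fun h => hk h.symm)]
          simp
        · intro h
          exact absurd (Finset.mem_univ j) h
      · intro j
        rw [Finset.sum_apply, Finset.sum_eq_single j]
        · rw [Pi.add_apply, Pi.smul_apply, Pi.smul_apply, ee_inr, ff_inr, if_pos rfl]
          simp
        · intro k _ hk
          rw [Pi.add_apply, Pi.smul_apply, Pi.smul_apply, ee_inr, ff_inr,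
            if_neg (fun h => hk h.symm)]
          simp
        · intro h
          exact absurd (Finset.mem_univ j) h
    have hdx : d x = ∑ i, (x (Sum.inl i) • ((if (i : ℕ) = 0 then (-1 : ℤ) else 1) • ee i) +
        x (Sum.inr i) • ((if (i : ℕ) = 0 then (-1 : ℤ) else 1) • ff i)) := by
      conv_lhs => rw [hx]
      rw [map_sum]
      refine Finset.sum_congr rfl fun k _ => ?_
      rw [map_add, map_smul, map_smul, (hde k).1, (hde k).2]
    constructor
    · rw [hdx, Finset.sum_apply, Finset.sum_eq_single i]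
      · rw [Pi.add_apply, Pi.smul_apply, Pi.smul_apply, Pi.smul_apply, Pi.smul_apply, ee_inl,
          ff_inl, if_pos (rfl : i = i)]
        simp [mul_comm]
      · intro k _ hk
        rw [Pi.add_apply, Pi.smul_apply, Pi.smul_apply, Pi.smul_apply, Pi.smul_apply, ee_inl,
          ff_inl, if_neg (fun h : i = k => hk h.symm)]
        simp
      · intro h
        exact absurd (Finset.mem_univ i) h
    · rw [hdx, Finset.sum_apply, Finset.sum_eq_single i]
      · rw [Pi.add_apply, Pi.smul_apply, Pi.smul_apply, Pi.smul_apply, Pi.smul_apply, ee_inr,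
          ff_inr, if_pos (rfl : i = i)]
        simp [mul_comm]
      · intro k _ hk
        rw [Pi.add_apply, Pi.smul_apply, Pi.smul_apply, Pi.smul_apply, Pi.smul_apply, ee_inr,
          ff_inr, if_neg (fun h : i = k => hk h.symm)]
        simp
      · intro h
        exact absurd (Finset.mem_univ i) h
  refine ⟨?_, ?_⟩
  · intro x y
    unfold om
    refine Finset.sum_congr rfl fun i _ => ?_
    rw [(key x i).1, (key x i).2, (key y i).1, (key y i).2]
    split_ifs <;> ring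
  · intro u
    let i0 : Fin h := ⟨0, by omega⟩
    have hi0 : (i0 : ℕ) = 0 := rfl
    refine ⟨u - (u (Sum.inl i0) • ee i0 + u (Sum.inr i0) • ff i0),
      u (Sum.inl i0) • ee i0 + u (Sum.inr i0) • ff i0, by abel, ?_, ?_⟩
    · apply V_ext
      · intro i
        rw [(key _ i).1]
        by_cases hi : i = i0
        · have e : (u - (u (Sum.inl i0) • ee i0 + u (Sum.inr i0) • ff i0)) (Sum.inl i) = 0 := by
            rw [Pi.sub_apply, Pi.add_apply, Pi.smul_apply, Pi.smul_apply, ee_inl, ff_inl, if_pos hi,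
              hi]
            simp
          rw [e, mul_zero]
        · have : (i : ℕ) ≠ 0 := fun h => hi (Fin.ext h)
          rw [if_neg this, one_mul]
      · intro i
        rw [(key _ i).2]
        by_cases hi : i = i0
        · have e : (u - (u (Sum.inl i0) • ee i0 + u (Sum.inr i0) • ff i0)) (Sum.inr i) = 0 := by
            rw [Pi.sub_apply, Pi.add_apply, Pi.smul_apply, Pi.smul_apply, ee_inr, ff_inr, if_pos hi,
              hi]
            simp
          rw [e, mul_zero]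
        · have : (i : ℕ) ≠ 0 := fun h => hi (Fin.ext h)
          rw [if_neg this, one_mul]
    · rw [map_add, map_smul, map_smul, (hde i0).1, (hde i0).2, if_pos hi0]
      module

/-- The step: `t2 v₁ v₂ (2 k)` is in `Q`. -/
lemma lam_t2 {h : ℕ} (Q : Subgroup (V h ≃ₗ[ℤ] V h)) (k : ℤ)
    (hQ : ∀ v : V h, ∀ x ∈ Q, t1 v k * x * (t1 v k)⁻¹ ∈ Q) {f : V h ≃ₗ[ℤ] V h} (hf : f ∈ Q)
    (hS : f ∈ Sp h) {v w : V h} (hvw : om v w = 0) (hv : f v = v) (hw : f w = -w) :
    t2 v w hvw (2 * k) ∈ Q := by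
  have h4 : t1 (v + w) k * f⁻¹ * (t1 (v + w) k)⁻¹ ∈ Q := hQ _ _ (inv_mem hf)
  have h5 : (t1 (v + w) k)⁻¹ = t1 (v + w) (-k) := by
    rw [inv_eq_iff_mul_eq_one, ← t1_add, add_neg_cancel]
    exact t1_zero _
  have h7 : f * (t1 (v + w) k * f⁻¹ * (t1 (v + w) k)⁻¹) =
      (f * t1 (v + w) k * f⁻¹) * (t1 (v + w) k)⁻¹ := by
    simp only [mul_assoc]
  have h8 : f * (t1 (v + w) k * f⁻¹ * (t1 (v + w) k)⁻¹) = t2 v w hvw (-(2 * k)) := by
    rw [h7, conj_t1 hS, h5]
    apply LinearEquiv.ext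
    intro x
    rw [LinearEquiv.mul_apply, t1_apply, t1_apply, t2_apply, map_add, hv, hw]
    simp only [om_add_left, om_add_right, om_smul_left, om_self, om_neg_right, om_swap w v, hvw]
    module
  have h9 : t2 v w hvw (-(2 * k)) ∈ Q := by
    rw [← h8]
    exact mul_mem hf h4
  have h10 : t2 v w hvw (2 * k) = (t2 v w hvw (-(2 * k))) ^ (-1 : ℤ) := by
    rw [← t2_zpow]
    congr 1
    ring
  rw [h10]
  exact zpow_mem h9 _

/-- A subgroup normalized by the transvections `t1 v k`, containing a conjugate of the sign change,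
contains all `t1 v m` for some `m > 0`. -/
theorem lam {h : ℕ} (hh : 2 ≤ h) (Q : Subgroup (V h ≃ₗ[ℤ] V h)) (k : ℤ) (hk : 0 < k)
    (hQ : ∀ v : V h, ∀ x ∈ Q, t1 v k * x * (t1 v k)⁻¹ ∈ Q) (d p : V h ≃ₗ[ℤ] V h)
    (hde : ∀ i : Fin h, d (ee i) = (if (i : ℕ) = 0 then (-1 : ℤ) else 1) • ee i ∧
      d (ff i) = (if (i : ℕ) = 0 then (-1 : ℤ) else 1) • ff i)
    (ε : ℤ) (hε : ε = 1 ∨ ε = -1) (hp : ∀ x y : V h, om (p x) (p y) = ε * om x y)
    (hd : p * d * p⁻¹ ∈ Q) : ∃ m : ℤ, 0 < m ∧ ∀ v : V h, t1 v m ∈ Q := by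
  obtain ⟨hdS, hsp⟩ := sign_spec hh d hde
  obtain ⟨f, hfd⟩ : ∃ f, f = p * d * p⁻¹ := ⟨_, rfl⟩
  rw [← hfd] at hd
  have hpi : ∀ x : V h, p (p⁻¹ x) = x := fun x => by
    rw [← LinearEquiv.mul_apply, mul_inv_cancel]
    rfl
  have hip : ∀ x : V h, p⁻¹ (p x) = x := fun x => by
    rw [← LinearEquiv.mul_apply, inv_mul_cancel]
    rfl
  have hfx : ∀ x : V h, f (p x) = p (d x) := fun x => by
    rw [hfd, LinearEquiv.mul_apply, LinearEquiv.mul_apply, hip]
  have hfS : f ∈ Sp h := by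
    intro x y
    rw [← hpi x, ← hpi y, hfx, hfx, hp, hp, hdS]
  have horth : ∀ x y : V h, f x = x → f y = -y → om x y = 0 := by
    intro x y hx hy
    have h1 := hfS x y
    rw [hx, hy, om_neg_right] at h1
    omega
  have hsplit : ∀ v : V h, ∃ v₁ v₂ : V h, v = v₁ + v₂ ∧ f v₁ = v₁ ∧ f v₂ = -v₂ := by
    intro v
    obtain ⟨u₁, u₂, h1, h2, h3⟩ := hsp (p⁻¹ v)
    refine ⟨p u₁, p u₂, ?_, ?_, ?_⟩
    · rw [← map_add, ← h1, hpi]
    · rw [hfx, h2]
    · rw [hfx, h3, map_neg]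
  let i0 : Fin h := ⟨0, by omega⟩
  let i1 : Fin h := ⟨1, by omega⟩
  have hi0 : (i0 : ℕ) = 0 := rfl
  have hi1 : ¬ (i1 : ℕ) = 0 := Nat.one_ne_zero
  have a1 : f (p (ee i1)) = p (ee i1) := by rw [hfx, (hde i1).1, if_neg hi1, one_smul]
  have a2 : f (p (ff i1)) = p (ff i1) := by rw [hfx, (hde i1).2, if_neg hi1, one_smul]
  have a3 : f (p (ee i0)) = -p (ee i0) := by rw [hfx, (hde i0).1, if_pos hi0, neg_one_smul, map_neg]
  have a4 : f (p (ff i0)) = -p (ff i0) := by rw [hfx, (hde i0).2, if_pos hi0, neg_one_smul, map_neg]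
  have b1 : om (p (ee i1)) (p (ff i1)) = ε := by rw [hp, om_ee_ff, if_pos rfl, mul_one]
  have b2 : om (p (ee i0)) (p (ff i0)) = ε := by rw [hp, om_ee_ff, if_pos rfl, mul_one]
  have hT : ∀ (v w : V h) (o : om v w = 0), f v = v → f w = -w → t2 v w o (2 * k) ∈ Q :=
    fun v w o hv hw => lam_t2 Q k hQ hd hfS o hv hw
  have hT' : ∀ (v w : V h) (o : om v w = 0), f v = -v → f w = w → t2 v w o (2 * k) ∈ Q := by
    intro v w o hv hw
    have o' : om w v = 0 := horth w v hw hv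
    have e : t2 v w o (2 * k) = t2 w v o' (2 * k) := by
      apply LinearEquiv.ext
      intro x
      rw [t2_apply, t2_apply]
      abel
    rw [e]
    exact hT w v o' hw hv
  have hcomm : ∀ x ∈ Q, ∀ y ∈ Q, ⁅x, y⁆ ∈ Q := fun x hx y hy => by
    rw [commutatorElement_def]
    exact mul_mem (mul_mem (mul_mem hx hy) (inv_mem hx)) (inv_mem hy)
  have fin : ∀ (v : V h) (t : ℤ), (t1 v (t * ε) ∈ Q) → t1 v t ∈ Q := by
    intro v t ht
    rcases hε with h1 | h1
    · rwa [h1, mul_one] at ht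
    · have e : t1 v t = (t1 v (t * ε)) ^ (-1 : ℤ) := by
        rw [← t1_zpow, h1]
        congr 1
        ring
      rw [e]
      exact zpow_mem ht _
  have hP : ∀ v : V h, f v = v → t1 v (8 * k ^ 2) ∈ Q := by
    intro v hv
    have o1 : om v (p (ff i0)) = 0 := horth _ _ hv a4
    have o2 : om v (p (ee i0)) = 0 := horth _ _ hv a3
    have h1 := hcomm _ (hT v _ o1 hv a4) _ (hT v _ o2 hv a3)
    rw [comm_shear, b2] at h1
    apply fin
    have e : 8 * k ^ 2 * ε = 2 * (2 * k) * (2 * k) * ε := by ring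
    rw [e]
    exact h1
  have hM : ∀ v : V h, f v = -v → t1 v (8 * k ^ 2) ∈ Q := by
    intro v hv
    have o1 : om v (p (ff i1)) = 0 := by
      rw [om_swap, horth _ _ a2 hv, neg_zero]
    have o2 : om v (p (ee i1)) = 0 := by
      rw [om_swap, horth _ _ a1 hv, neg_zero]
    have h1 := hcomm _ (hT' v _ o1 hv a2) _ (hT' v _ o2 hv a1)
    rw [comm_shear, b1] at h1
    apply fin
    have e : 8 * k ^ 2 * ε = 2 * (2 * k) * (2 * k) * ε := by ring
    rw [e]
    exact h1
  refine ⟨8 * k ^ 2, by positivity, fun v => ?_⟩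
  obtain ⟨v₁, v₂, rfl, h1, h2⟩ := hsplit v
  have o : om v₁ v₂ = 0 := horth _ _ h1 h2
  have e : t1 (v₁ + v₂) (8 * k ^ 2) = t1 v₁ (8 * k ^ 2) * t1 v₂ (8 * k ^ 2) *
      t2 v₁ v₂ o (8 * k ^ 2) := by
    apply LinearEquiv.ext
    intro x
    rw [LinearEquiv.mul_apply, LinearEquiv.mul_apply, t2_apply, t1_apply, t1_apply, t1_apply]
    simp only [om_add_left, om_add_right, om_smul_left, om_self, om_swap v₂ v₁, o]
    module
  rw [e]
  refine mul_mem (mul_mem (hP _ h1) (hM _ h2)) ?_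
  have e2 : (8 * k ^ 2 : ℤ) = 2 * k * (4 * k) := by ring
  rw [e2, t2_zpow]
  exact zpow_mem (hT _ _ o h1 h2) _

/-- Every `t1 v (2 m m')` is a commutator. -/
theorem comm_t1 {h : ℕ} (hh : 2 ≤ h) (X Y : Subgroup (V h ≃ₗ[ℤ] V h)) (m m' : ℤ)
    (hX : ∀ v, t1 v m ∈ X) (hY : ∀ v, t1 v m' ∈ Y) (v : V h) :
    ∃ x ∈ X, ∃ y ∈ Y, ⁅x, y⁆ = t1 v (2 * m * m') := by
  let i0 : Fin h := ⟨0, by omega⟩
  let i1 : Fin h := ⟨1, by omega⟩
  have hne : i0 ≠ i1 := by
    intro h
    have h1 : (i0 : ℕ) = i1 := congrArg Fin.val h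
    exact absurd h1 (Nat.zero_ne_one)
  obtain ⟨s, hs, -, -, r1, r2, r3⟩ := red_vec v i0
  obtain ⟨c, hc⟩ : ∃ c, c = (s v) (Sum.inl i0) := ⟨_, rfl⟩
  have hsv : s v = c • ee i0 := by
    apply V_ext
    · intro i
      rw [Pi.smul_apply, ee_inl]
      by_cases hi : i = i0
      · rw [if_pos hi, hi, hc]
        simp
      · rw [if_neg hi, smul_zero]
        apply r2
        have : (i : ℕ) ≠ 0 := fun h => hi (Fin.ext h)
        show (0 : ℕ) < i
        omega
    · intro i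
      rw [Pi.smul_apply, ee_inr, smul_zero]
      apply r1
      show (0 : ℕ) ≤ i
      omega
  have hs' : s⁻¹ ∈ Sp h := inv_mem hs
  have hv : v = c • (s⁻¹ (ee i0)) := by
    rw [← map_smul, ← hsv, ← LinearEquiv.mul_apply, inv_mul_cancel]
    rfl
  have o1 : om v (s⁻¹ (ee i1)) = 0 := by
    rw [hv, om_smul_left, hs', om_ee_ee, mul_zero]
  have o2 : om v (-(s⁻¹ (ff i1))) = 0 := by
    rw [om_neg_right, hv, om_smul_left, hs', om_ee_ff, if_neg hne, mul_zero, neg_zero]
  have o3 : om (-(s⁻¹ (ff i1))) (s⁻¹ (ee i1)) = 1 := by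
    rw [om_neg_left, hs', om_ff_ee, if_pos rfl, neg_neg]
  have ht : ∀ (Z : Subgroup (V h ≃ₗ[ℤ] V h)) (t : ℤ), (∀ v, t1 v t ∈ Z) → ∀ (v w : V h)
      (o : om v w = 0), t2 v w o t ∈ Z := by
    intro Z t hZ v w o
    have hn : ∀ v, t1 v (-t) ∈ Z := fun v => by
      have e : t1 v (-t) = (t1 v t) ^ (-1 : ℤ) := by
        rw [← t1_zpow]
        congr 1
        ring
      rw [e]
      exact zpow_mem (hZ v) _
    rw [t2_eq]
    exact mul_mem (mul_mem (hZ _) (hn _)) (hn _)
  refine ⟨_, ht X m hX v _ o1, _, ht Y m' hY v _ o2, ?_⟩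
  rw [comm_shear, o3, mul_one]

end Pool.Agent.V8H98.JF
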