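import Pool.Agent.V8H98.JF.Psi
import Pool.Agent.V8H98.JF.Pm

/-!
# The Prym representation preserves the intersection form up to sign
-/

set_option autoImplicit false

namespace Pool.Agent.V8H98.JF

open Matrix

namespace Pm2Aux

open PmAux

/-! ### Linear algebra -/

section

variable {g : ℕ}

/-- the values of the form at the rows of a matrix which preserves the pairs with `om = 0` -/
theorem rows' (P : Matrix (Fin g ⊕ Fin g) (Fin g ⊕ Fin g) ℤ)
    (h0 : ∀ α β : V g, om α β = 0 → om (α ᵥ* P) (β ᵥ* P) = 0) :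
    ∃ c : ℤ, ∀ x y, om (P x) (P y) = c * KK g x y := by
  have hL : ∀ i : Fin g, (ee i) ᵥ* P = P (Sum.inl i) := fun i => single_vecMul' _ _
  have hR : ∀ i : Fin g, (ff i) ᵥ* P = P (Sum.inr i) := fun i => single_vecMul' _ _
  have hll : ∀ i j : Fin g, om (P (Sum.inl i)) (P (Sum.inl j)) = 0 := fun i j => by
    have := h0 (ee i) (ee j) (by rw [om_ee_right]; simp [ee])
    rwa [hL, hL] at this
  have hrr : ∀ i j : Fin g, om (P (Sum.inr i)) (P (Sum.inr j)) = 0 := fun i j => by
    have := h0 (ff i) (ff j) (by rw [om_ff_right]; simp [ff])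
    rwa [hR, hR] at this
  have hlr : ∀ i j : Fin g, i ≠ j → om (P (Sum.inl i)) (P (Sum.inr j)) = 0 :=
    fun i j hij => by
      have := h0 (ee i) (ff j) (by rw [om_ff_right]; simp [ee, Ne.symm hij])
      rwa [hL, hR] at this
  have hd : ∀ i j : Fin g, om (P (Sum.inl i)) (P (Sum.inr i)) =
      om (P (Sum.inl j)) (P (Sum.inr j)) := fun i j => by
    by_cases hij : i = j
    · rw [hij]
    have := h0 (ee i + ee j) (ff i - ff j) (by
      rw [om_add_left, om_sub_right, om_sub_right, om_ff_right, om_ff_right, om_ff_right,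
        om_ff_right]
      simp [ee, hij, Ne.symm hij])
    rw [add_vecMul, sub_vecMul, hL, hL, hR, hR, om_add_left, om_sub_right, om_sub_right,
      hlr i j hij, hlr j i (Ne.symm hij)] at this
    linarith
  rcases g with _ | n
  · exact ⟨0, fun x => by rcases x with x | x <;> exact x.elim0⟩
  · refine ⟨om (P (Sum.inl 0)) (P (Sum.inr 0)), fun x y => ?_⟩
    rcases x with i | i <;> rcases y with j | j
    · rw [hll]
      simp [KK]
    · by_cases hij : i = j
      · subst hij
        rw [hd i 0]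
        simp [KK]
      · rw [hlr i j hij]
        simp [KK, hij]
    · rw [om_swap]
      by_cases hij : j = i
      · subst hij
        rw [hd j 0]
        simp [KK]
      · rw [hlr j i hij]
        simp [KK, Ne.symm hij]
    · rw [hrr]
      simp [KK]

theorem mat_rel' (P : Matrix (Fin g ⊕ Fin g) (Fin g ⊕ Fin g) ℤ)
    (h0 : ∀ α β : V g, om α β = 0 → om (α ᵥ* P) (β ᵥ* P) = 0) :
    ∃ c : ℤ, P * (KK g * Pᵀ) = c • KK g := by
  obtain ⟨c, hc⟩ := rows' P h0
  refine ⟨c, ?_⟩
  ext x y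
  change P x ⬝ᵥ (KK g *ᵥ P y) = c * KK g x y
  rw [← om_eq, hc]

/-- Invertible matrices that preserve the pairs with `om = 0` preserve the form up to sign. -/
theorem sign (P Q : Matrix (Fin g ⊕ Fin g) (Fin g ⊕ Fin g) ℤ) (hQP : Q * P = 1)
    (hP : ∀ α β : V g, om α β = 0 → om (α ᵥ* P) (β ᵥ* P) = 0)
    (hQ : ∀ α β : V g, om α β = 0 → om (α ᵥ* Q) (β ᵥ* Q) = 0) :
    ∃ ε : ℤ, (ε = 1 ∨ ε = -1) ∧ ∀ x y : V g, om (P *ᵥ x) (P *ᵥ y) = ε * om x y := by
  rcases Nat.eq_zero_or_pos g with hg | hg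
  · subst hg
    exact ⟨1, Or.inl rfl, fun x y => by simp [om]⟩
  obtain ⟨c, hc⟩ := mat_rel' P hP
  obtain ⟨d, hd⟩ := mat_rel' Q hQ
  -- `c d = 1`
  have h1 : KK g = (c * d) • KK g := by
    calc KK g = (Q * P) * (KK g * (Q * P)ᵀ) := by
          rw [hQP, transpose_one, one_mul, mul_one]
      _ = Q * (P * (KK g * Pᵀ)) * Qᵀ := by
          rw [transpose_mul]
          simp only [Matrix.mul_assoc]
      _ = c • (Q * (KK g * Qᵀ)) := by
          rw [hc, Matrix.mul_smul, Matrix.smul_mul, Matrix.mul_assoc]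
      _ = (c * d) • KK g := by rw [hd, smul_smul]
  have h2 : c * d = 1 := by
    have h3 := congrFun (congrFun h1 (Sum.inl ⟨0, hg⟩)) (Sum.inr ⟨0, hg⟩)
    simpa [KK] using h3.symm
  have hε : c = 1 ∨ c = -1 := Int.eq_one_or_neg_one_of_mul_eq_one h2
  have hcc : c * c = 1 := by rcases hε with h | h <;> rw [h] <;> norm_num
  refine ⟨c, hε, ?_⟩
  have h4 : ((-c) • (KK g * (P * KK g))) * Pᵀ = 1 := by
    calc ((-c) • (KK g * (P * KK g))) * Pᵀ
        = (-c) • (KK g * (P * (KK g * Pᵀ))) := by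
          rw [Matrix.smul_mul]
          simp only [Matrix.mul_assoc]
      _ = (-c) • (c • (KK g * KK g)) := by rw [hc, Matrix.mul_smul]
      _ = 1 := by
          rw [KK_mul, smul_smul]
          have : -c * c = -1 := by linarith
          rw [this, neg_smul, one_smul, neg_neg]
  have h5 := mul_eq_one_comm.1 h4
  have h6 : Pᵀ * (KK g * P) = c • KK g := by
    calc Pᵀ * (KK g * P)
        = (c * c) • (Pᵀ * (KK g * P)) := by rw [hcc, one_smul]
      _ = c • (Pᵀ * ((-c) • (KK g * (P * KK g))) * KK g) := by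
          rw [Matrix.mul_smul, Matrix.smul_mul, smul_smul]
          have h7 : Pᵀ * (KK g * (P * KK g)) * KK g = - (Pᵀ * (KK g * P)) := by
            calc Pᵀ * (KK g * (P * KK g)) * KK g
                = Pᵀ * (KK g * (P * (KK g * KK g))) := by
                  simp only [Matrix.mul_assoc]
              _ = - (Pᵀ * (KK g * P)) := by
                  rw [KK_mul]
                  simp
          rw [h7, smul_neg, mul_neg, neg_smul, neg_neg]
      _ = c • KK g := by rw [h5, one_mul]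
  intro x y
  rw [om_eq, om_eq]
  have h8 : (P *ᵥ x) ⬝ᵥ (KK g *ᵥ (P *ᵥ y)) = x ⬝ᵥ ((Pᵀ * (KK g * P)) *ᵥ y) := by
    rw [← vecMul_transpose, ← Matrix.dotProduct_mulVec, mulVec_mulVec, mulVec_mulVec,
      Matrix.mul_assoc]
  rw [h8, h6, smul_mulVec, dotProduct_smul, smul_eq_mul]

end

/-! ### The group `Heis ⋊ {1, -1}` -/

/-- The semidirect product of the Heisenberg group of integers with `{1, -1}`; `-1` acts by
`(a, b, c) ↦ (-a, -b, c)`. -/
@[ext] structure HS where
  a : ℤ
  b : ℤ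
  c : ℤ
  s : ℤˣ

namespace HS

instance : Mul HS := ⟨fun x y =>
  ⟨x.a + x.s * y.a, x.b + x.s * y.b, x.c + y.c + x.a * (x.s * y.b), x.s * y.s⟩⟩
instance : One HS := ⟨⟨0, 0, 0, 1⟩⟩
instance : Inv HS := ⟨fun x => ⟨-(x.s * x.a), -(x.s * x.b), -x.c + x.a * x.b, x.s⟩⟩

@[simp] theorem mul_a (x y : HS) : (x * y).a = x.a + x.s * y.a := rfl
@[simp] theorem mul_b (x y : HS) : (x * y).b = x.b + x.s * y.b := rfl
@[simp] theorem mul_c (x y : HS) : (x * y).c = x.c + y.c + x.a * (x.s * y.b) := rfl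
@[simp] theorem mul_s (x y : HS) : (x * y).s = x.s * y.s := rfl
@[simp] theorem one_a : (1 : HS).a = 0 := rfl
@[simp] theorem one_b : (1 : HS).b = 0 := rfl
@[simp] theorem one_c : (1 : HS).c = 0 := rfl
@[simp] theorem one_s : (1 : HS).s = 1 := rfl
@[simp] theorem inv_a (x : HS) : (x⁻¹).a = -(x.s * x.a) := rfl
@[simp] theorem inv_b (x : HS) : (x⁻¹).b = -(x.s * x.b) := rfl
@[simp] theorem inv_c (x : HS) : (x⁻¹).c = -x.c + x.a * x.b := rfl
@[simp] theorem inv_s (x : HS) : (x⁻¹).s = x.s := rfl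

theorem sq (s : ℤˣ) : (s : ℤ) * s = 1 := by
  rcases Int.units_eq_one_or s with rfl | rfl <;> norm_num

instance : Group HS := Group.ofLeftAxioms
  (by
    intro x y z
    ext1
    · show x.a + x.s * y.a + ((x.s * y.s : ℤˣ) : ℤ) * z.a = x.a + x.s * (y.a + y.s * z.a)
      rw [Units.val_mul]
      ring
    · show x.b + x.s * y.b + ((x.s * y.s : ℤˣ) : ℤ) * z.b = x.b + x.s * (y.b + y.s * z.b)
      rw [Units.val_mul]
      ring
    · show x.c + y.c + x.a * (x.s * y.b) + z.c +
        (x.a + x.s * y.a) * (((x.s * y.s : ℤˣ) : ℤ) * z.b) =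
        x.c + (y.c + z.c + y.a * (y.s * z.b)) + x.a * (x.s * (y.b + y.s * z.b))
      rw [Units.val_mul]
      linear_combination (y.a * y.s * z.b) * sq x.s
    · exact mul_assoc _ _ _)
  (by
    intro x
    ext1
    · show (0 : ℤ) + ((1 : ℤˣ) : ℤ) * x.a = x.a
      simp
    · show (0 : ℤ) + ((1 : ℤˣ) : ℤ) * x.b = x.b
      simp
    · show (0 : ℤ) + x.c + 0 * (((1 : ℤˣ) : ℤ) * x.b) = x.c
      simp
    · exact one_mul _)
  (by
    intro x
    ext1
    · show -((x.s : ℤ) * x.a) + x.s * x.a = 0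
      ring
    · show -((x.s : ℤ) * x.b) + x.s * x.b = 0
      ring
    · show -x.c + x.a * x.b + x.c + -((x.s : ℤ) * x.a) * (x.s * x.b) = 0
      linear_combination (-(x.a * x.b)) * sq x.s
    · show x.s * x.s = 1
      exact Int.units_mul_self _)

theorem comm {x y : HS} (hx : x.s = 1) (hy : y.s = 1) :
    x * y * x⁻¹ * y⁻¹ = ⟨0, 0, x.a * y.b - y.a * x.b, 1⟩ := by
  ext1
  · simp [hx, hy]
  · simp [hx, hy]
  · simp [hx, hy]
    ring
  · simp [hx, hy]

theorem comm_central {x : HS} (ha : x.a = 0) (hb : x.b = 0) (hs : x.s = 1) (y : HS) :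
    x * y * x⁻¹ * y⁻¹ = 1 := by
  rw [mul_inv_eq_one, mul_inv_eq_iff_eq_mul]
  ext1
  · simp [ha, hs]
  · simp [hb, hs]
  · simp [ha, hb, add_comm]
  · exact mul_comm _ _

theorem prod_central (l : List ℤ) :
    (l.map fun t => (⟨0, 0, t, 1⟩ : HS)).prod = ⟨0, 0, l.sum, 1⟩ := by
  induction l with
  | nil => rfl
  | cons t l ih =>
    rw [List.map_cons, List.prod_cons, ih, List.sum_cons]
    ext1 <;> simp

end HS

variable {h : ℕ}

/-- The product of the commutators. -/
theorem prod_eval (p q : Fin (h + 1) → HS) (h0a : (p 0).a = 0) (h0b : (p 0).b = 0)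
    (h0s : (p 0).s = 1) (hp : ∀ i : Fin h, (p i.succ).s = 1) (hq : ∀ i : Fin h, (q i.succ).s = 1) :
    (List.ofFn fun i : Fin (h + 1) => p i * q i * (p i)⁻¹ * (q i)⁻¹).prod =
      ⟨0, 0, ∑ i : Fin h, ((p i.succ).a * (q i.succ).b - (q i.succ).a * (p i.succ).b), 1⟩ := by
  rw [List.ofFn_succ, List.prod_cons, HS.comm_central h0a h0b h0s, one_mul]
  have h1 : (List.ofFn fun i : Fin h =>
      p i.succ * q i.succ * (p i.succ)⁻¹ * (q i.succ)⁻¹) =
      (List.ofFn fun i : Fin h => (p i.succ).a * (q i.succ).b -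
        (q i.succ).a * (p i.succ).b).map fun t => (⟨0, 0, t, 1⟩ : HS) := by
    rw [List.map_ofFn]
    congr 1
    funext i
    exact HS.comm (hp i) (hq i)
  rw [h1, HS.prod_central, List.sum_ofFn]

/-- The images of the generators. -/
def gen2 (α β : V h) : Fin (h + 1) ⊕ Fin (h + 1) → HS
  | Sum.inl i => Fin.cases 1 (fun j => ⟨α (Sum.inl j), β (Sum.inl j), 0, 1⟩) i
  | Sum.inr i => Fin.cases ⟨0, 0, 0, -1⟩ (fun j => ⟨α (Sum.inr j), β (Sum.inr j), 0, 1⟩) i

theorem exists_HS (α β : V h) (hom : om α β = 0) :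
    ∃ F : SurfaceGroup (h + 1) →* HS, ∀ y, F (PresentedGroup.of y) = gen2 α β y := by
  refine ⟨PresentedGroup.toGroup (f := gen2 α β) ?_, fun y => PresentedGroup.toGroup.of _⟩
  intro r hr
  rw [Set.mem_singleton_iff] at hr
  subst hr
  rw [PmAux.lift_rel, prod_eval (fun i => gen2 α β (Sum.inl i)) (fun i => gen2 α β (Sum.inr i))
    rfl rfl rfl (fun i => rfl) (fun i => rfl)]
  change (⟨0, 0, om α β, 1⟩ : HS) = 1
  rw [hom]
  rfl

/-- The components of the values of `F`. -/
theorem F_spec (α β : V h) (F : SurfaceGroup (h + 1) →* HS)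
    (hF : ∀ y, F (PresentedGroup.of y) = gen2 α β y) (x : SurfaceGroup (h + 1)) :
    (F x).s = chi x ∧ (F x).a = α ⬝ᵥ kap x ∧ (F x).b = β ⬝ᵥ kap x := by
  let R : Subgroup (SurfaceGroup (h + 1)) :=
    { carrier := {x | (F x).s = chi x ∧ (F x).a = α ⬝ᵥ kap x ∧ (F x).b = β ⬝ᵥ kap x}
      one_mem' := by
        refine ⟨?_, ?_, ?_⟩
        · rw [map_one, chi_one]; rfl
        · rw [map_one, kap_one, dotProduct_zero]; rfl
        · rw [map_one, kap_one, dotProduct_zero]; rfl
      mul_mem' := by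
        rintro x y ⟨hx1, hx2, hx3⟩ ⟨hy1, hy2, hy3⟩
        refine ⟨?_, ?_, ?_⟩
        · rw [map_mul, HS.mul_s, hx1, hy1, chi_mul]
        · rw [map_mul, HS.mul_a, hx1, hx2, hy2, kap_mul, dotProduct_add, dotProduct_smul,
            smul_eq_mul]
        · rw [map_mul, HS.mul_b, hx1, hx3, hy3, kap_mul, dotProduct_add, dotProduct_smul,
            smul_eq_mul]
      inv_mem' := by
        rintro x ⟨hx1, hx2, hx3⟩
        refine ⟨?_, ?_, ?_⟩
        · rw [map_inv, HS.inv_s, hx1, chi_inv, Int.units_inv_eq_self]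
        · rw [map_inv, HS.inv_a, hx1, hx2, kap_inv, Int.units_inv_eq_self, dotProduct_smul,
            smul_eq_mul]
          ring
        · rw [map_inv, HS.inv_b, hx1, hx3, kap_inv, Int.units_inv_eq_self, dotProduct_smul,
            smul_eq_mul]
          ring }
  have hR : ∀ x, x ∈ R := by
    intro x
    have h1 : Subgroup.closure (Set.range (PresentedGroup.of :
        Fin (h + 1) ⊕ Fin (h + 1) → SurfaceGroup (h + 1))) ≤ R := by
      rw [Subgroup.closure_le]
      rintro _ ⟨y, rfl⟩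
      show (F (PresentedGroup.of y)).s = chi (PresentedGroup.of y) ∧
        (F (PresentedGroup.of y)).a = α ⬝ᵥ kap (PresentedGroup.of y) ∧
        (F (PresentedGroup.of y)).b = β ⬝ᵥ kap (PresentedGroup.of y)
      rw [hF]
      rcases y with i | i
      · induction i using Fin.cases with
        | zero =>
          rw [chi_a, kap_a0, dotProduct_zero, dotProduct_zero]
          exact ⟨rfl, rfl, rfl⟩
        | succ j =>
          rw [chi_a, kap_a]
          refine ⟨rfl, ?_, ?_⟩
          · show α (Sum.inl j) = _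
            rw [ee, dotProduct_single, mul_one]
          · show β (Sum.inl j) = _
            rw [ee, dotProduct_single, mul_one]
      · induction i using Fin.cases with
        | zero =>
          rw [chi_b0, kap_b0, dotProduct_zero, dotProduct_zero]
          exact ⟨rfl, rfl, rfl⟩
        | succ j =>
          rw [chi_b, kap_b]
          refine ⟨rfl, ?_, ?_⟩
          · show α (Sum.inr j) = _
            rw [ff, dotProduct_single, mul_one]
          · show β (Sum.inr j) = _
            rw [ff, dotProduct_single, mul_one]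
    rw [PresentedGroup.closure_range_of] at h1
    exact h1 (Subgroup.mem_top x)
  exact hR x

/-- The matrix of the Prym representation preserves the pairs of functionals with `om = 0`. -/
theorem vecMul_psi (φ : A0 h) (α β : V h) (hom : om α β = 0) :
    om (α ᵥ* LinearMap.toMatrix' (psi h φ).toLinearMap)
      (β ᵥ* LinearMap.toMatrix' (psi h φ).toLinearMap) = 0 := by
  obtain ⟨F, hF⟩ := exists_HS α β hom
  have hS := F_spec α β F hF
  have h1 := PsiAux.rel_eval (F.comp φ.1.toMonoidHom)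
  have hs : ∀ y, (F (φ.1 (PresentedGroup.of y))).s = chi (PresentedGroup.of y) := fun y => by
    rw [(hS _).1, φ.2]
  have hk0 : kap (φ.1 (PresentedGroup.of (Sum.inl 0))) = 0 :=
    kap_a0_eq (G := (Th h).comp φ.1.toMonoidHom) (fun x => φ.2 x)
  have h2 := prod_eval (fun i => (F.comp φ.1.toMonoidHom) (PresentedGroup.of (Sum.inl i)))
    (fun i => (F.comp φ.1.toMonoidHom) (PresentedGroup.of (Sum.inr i)))
    (by
      show (F (φ.1 (PresentedGroup.of (Sum.inl 0)))).a = 0
      rw [(hS _).2.1, hk0, dotProduct_zero])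
    (by
      show (F (φ.1 (PresentedGroup.of (Sum.inl 0)))).b = 0
      rw [(hS _).2.2, hk0, dotProduct_zero])
    ((hs _).trans (chi_a 0)) (fun i => (hs _).trans (chi_a _)) (fun i => (hs _).trans (chi_b _))
  rw [h1] at h2
  have h3 := congrArg HS.c h2
  have hcol : ∀ (γ : V h) (y : Fin h ⊕ Fin h),
      (γ ᵥ* LinearMap.toMatrix' (psi h φ).toLinearMap) y = γ ⬝ᵥ psi h φ (Pi.single y 1) := by
    intro γ y
    unfold vecMul
    congr 1
  have hA : ∀ i : Fin h, kap (φ.1 (PresentedGroup.of (Sum.inl i.succ))) =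
      psi h φ (Pi.single (Sum.inl i) 1) := fun i => by
    rw [psi_spec φ (chi_a _), kap_a]
    rfl
  have hB : ∀ i : Fin h, kap (φ.1 (PresentedGroup.of (Sum.inr i.succ))) =
      psi h φ (Pi.single (Sum.inr i) 1) := fun i => by
    rw [psi_spec φ (chi_b _), kap_b]
    rfl
  refine Eq.trans (Finset.sum_congr rfl fun i _ => ?_) h3.symm
  rw [hcol, hcol, hcol, hcol, ← hA, ← hB, ← (hS _).2.1, ← (hS _).2.1, ← (hS _).2.2,
    ← (hS _).2.2]
  rfl

end Pm2Aux

open Pm2Aux

/-- **The Prym representation preserves the intersection form up to sign.** -/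
theorem pm2 {h : ℕ} (φ : A0 h) : ∃ ε : ℤ, (ε = 1 ∨ ε = -1) ∧
    ∀ x y : V h, om (psi h φ x) (psi h φ y) = ε * om x y := by
  obtain ⟨ε, hε, hh⟩ := sign (LinearMap.toMatrix' (psi h φ).toLinearMap)
    (LinearMap.toMatrix' (psi h φ⁻¹).toLinearMap) (by
      rw [← LinearMap.toMatrix'_comp]
      have h1 : (psi h φ⁻¹).toLinearMap ∘ₗ (psi h φ).toLinearMap = LinearMap.id := by
        apply LinearMap.ext
        intro v
        show (psi h φ⁻¹ * psi h φ) v = v
        rw [← map_mul, inv_mul_cancel, map_one]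
        rfl
      rw [h1, LinearMap.toMatrix'_id]) (vecMul_psi φ) (vecMul_psi φ⁻¹)
  refine ⟨ε, hε, fun x y => ?_⟩
  have h2 := hh x y
  rw [LinearMap.toMatrix'_mulVec, LinearMap.toMatrix'_mulVec] at h2
  exact h2

end Pool.Agent.V8H98.JF
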