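import Pool.Agent.V8H98.JF.Tws
import Pool.Agent.V8H98.JF.Tw
import Pool.Agent.V8H98.JF.Gen

/-!
# The automorphisms of a surface group permute the subgroups of index two transitively (helper63)
-/

set_option autoImplicit false

namespace Pool.Agent.V8H98.JF

section Two

variable {g : ℕ}

/-- The character of parity of `∑ n k * (cls x) k`. -/
def sgh (n : Fin g ⊕ Fin g → ℤ) : SurfaceGroup g →* ℤˣ :=
  MonoidHom.mk' (fun x => Int.negOnePow (∑ k, n k * (cls x) k)) (by
    intro x y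
    rw [← Int.negOnePow_add, ← Finset.sum_add_distrib]
    congr 1
    exact Finset.sum_congr rfl fun k _ => by rw [cls_mul, Pi.add_apply, mul_add])

lemma sgh_apply (n : Fin g ⊕ Fin g → ℤ) (x : SurfaceGroup g) :
    sgh n x = Int.negOnePow (∑ k, n k * (cls x) k) := rfl

lemma sgh_eq_one (n : Fin g ⊕ Fin g → ℤ) (x : SurfaceGroup g) :
    sgh n x = 1 ↔ Even (∑ k, n k * (cls x) k) := by
  rw [sgh_apply, Int.negOnePow_eq_one_iff]

lemma sgh_of (n : Fin g ⊕ Fin g → ℤ) (k : Fin g ⊕ Fin g) :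
    sgh n (PresentedGroup.of k : SurfaceGroup g) = Int.negOnePow (n k) := by
  rw [sgh_apply, cls_of]
  congr 1
  rw [Finset.sum_eq_single k]
  · rw [Pi.single_eq_same, mul_one]
  · intro j _ hj
    rw [Pi.single_eq_of_ne hj, mul_zero]
  · intro h
    exact absurd (Finset.mem_univ k) h

open Classical in
/-- Which generators are outside `Γ`. -/
noncomputable def nk (Γ : Subgroup (SurfaceGroup g)) (k : Fin g ⊕ Fin g) : ℤ :=
  if (PresentedGroup.of k : SurfaceGroup g) ∈ Γ then 0 else 1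

open Classical in
/-- The character of a subgroup of index two. -/
noncomputable def chG (Γ : Subgroup (SurfaceGroup g)) (hΓ : Γ.index = 2) : SurfaceGroup g →* ℤˣ :=
  MonoidHom.mk' (fun x => if x ∈ Γ then 1 else -1) (by
    intro x y
    have h := Subgroup.mul_mem_iff_of_index_two hΓ (a := x) (b := y)
    by_cases hx : x ∈ Γ <;> by_cases hy : y ∈ Γ
    · rw [if_pos (h.2 (iff_of_true hx hy)), if_pos hx, if_pos hy, one_mul]
    · rw [if_neg (fun h1 => hy ((h.1 h1).1 hx)), if_pos hx, if_neg hy, one_mul]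
    · rw [if_neg (fun h1 => hx ((h.1 h1).2 hy)), if_neg hx, if_pos hy, mul_one]
    · rw [if_pos (h.2 (iff_of_false hx hy)), if_neg hx, if_neg hy]
      decide)

open Classical in
lemma chG_eq_one (Γ : Subgroup (SurfaceGroup g)) (hΓ : Γ.index = 2) (x : SurfaceGroup g) :
    chG Γ hΓ x = 1 ↔ x ∈ Γ := by
  show (if x ∈ Γ then (1 : ℤˣ) else -1) = 1 ↔ x ∈ Γ
  by_cases h : x ∈ Γ
  · rw [if_pos h]
    exact iff_of_true rfl h
  · rw [if_neg h]
    exact iff_of_false (by decide) h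

open Classical in
lemma chG_eq (Γ : Subgroup (SurfaceGroup g)) (hΓ : Γ.index = 2) : chG Γ hΓ = sgh (nk Γ) := by
  apply PresentedGroup.ext
  intro k
  rw [sgh_of]
  show (if (PresentedGroup.of k : SurfaceGroup g) ∈ Γ then (1 : ℤˣ) else -1) = Int.negOnePow (nk Γ k)
  unfold nk
  by_cases h : (PresentedGroup.of k : SurfaceGroup g) ∈ Γ
  · rw [if_pos h, if_pos h, Int.negOnePow_zero]
  · rw [if_neg h, if_neg h, Int.negOnePow_one]

/-- Membership in a subgroup of index two. -/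
lemma mem_index_two (Γ : Subgroup (SurfaceGroup g)) (hΓ : Γ.index = 2) (x : SurfaceGroup g) :
    x ∈ Γ ↔ Even (∑ k, nk Γ k * (cls x) k) := by
  rw [← chG_eq_one Γ hΓ, chG_eq, sgh_eq_one]

theorem finite_index_two (g : ℕ) : Finite {Γ : Subgroup (SurfaceGroup g) // Γ.index = 2} := by
  refine Finite.of_injective
    (fun Γ : {Γ : Subgroup (SurfaceGroup g) // Γ.index = 2} =>
      {k : Fin g ⊕ Fin g | (PresentedGroup.of k : SurfaceGroup g) ∈ Γ.1}) ?_
  intro Γ Γ' h
  have h1 : nk Γ.1 = nk Γ'.1 := by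
    funext k
    have h2 : (PresentedGroup.of k : SurfaceGroup g) ∈ Γ.1 ↔ (PresentedGroup.of k : SurfaceGroup g) ∈ Γ'.1 :=
      Set.ext_iff.1 h k
    unfold nk
    by_cases h3 : (PresentedGroup.of k : SurfaceGroup g) ∈ Γ.1
    · rw [if_pos h3, if_pos (h2.1 h3)]
    · rw [if_neg h3, if_neg fun h4 => h3 (h2.2 h4)]
  apply Subtype.ext
  ext x
  rw [mem_index_two _ Γ.2, mem_index_two _ Γ'.2, h1]

/-- The vector of a subgroup of index two. -/
lemma exists_vec (Γ : Subgroup (SurfaceGroup g)) (hΓ : Γ.index = 2) :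
    ∃ w : V g, ∀ x, x ∈ Γ ↔ Even (om (cls x) w) := by
  refine ⟨fun k => Sum.casesOn k (fun i => - nk Γ (Sum.inr i)) (fun i => nk Γ (Sum.inl i)), fun x => ?_⟩
  rw [mem_index_two Γ hΓ]
  have h : ∑ k, nk Γ k * (cls x) k = om (cls x)
      (fun k => Sum.casesOn k (fun i => - nk Γ (Sum.inr i)) (fun i => nk Γ (Sum.inl i))) := by
    unfold om
    rw [Fintype.sum_sum_type, ← Finset.sum_add_distrib]
    exact Finset.sum_congr rfl fun i _ => by ring
  rw [h]

lemma not_all_even (Γ : Subgroup (SurfaceGroup g)) (hΓ : Γ.index = 2) {w : V g}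
    (hw : ∀ x, x ∈ Γ ↔ Even (om (cls x) w)) : ¬ ∀ k, Even (w k) := by
  intro h
  have h1 : Γ = ⊤ := by
    rw [eq_top_iff]
    intro x _
    rw [hw]
    unfold om
    refine Finset.even_sum _ fun i _ => ?_
    exact (Even.mul_left (h _) _).sub (Even.mul_left (h _) _)
  rw [h1, Subgroup.index_top] at hΓ
  omega

/-- All symplectic maps come from automorphisms. -/
lemma Sp_le_range (g : ℕ) : Sp g ≤ (rho g).range :=
  gen _ (fun i => tw_e i) (fun i => tw_f i) (fun i j hij => tw_d i j hij)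

end Two

lemma mem_Gam_iff {h : ℕ} (x : SurfaceGroup (h + 1)) :
    x ∈ Gam h ↔ Even (om (cls x) (ee (0 : Fin (h + 1)))) := by
  have h1 : (MonoidHom.mk' (fun x : SurfaceGroup (h + 1) => chi x) chi_mul : SurfaceGroup (h + 1) →* ℤˣ) =
      sgh (Pi.single (Sum.inr 0) 1) := by
    apply PresentedGroup.ext
    intro k
    rw [sgh_of]
    show chi (PresentedGroup.of k : SurfaceGroup (h + 1)) = _
    rcases k with i | i
    · rw [chi_a, Pi.single_eq_of_ne Sum.inl_ne_inr, Int.negOnePow_zero]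
    · induction i using Fin.cases with
      | zero => rw [chi_b0, Pi.single_eq_same, Int.negOnePow_one]
      | succ j =>
        have h2 : (Sum.inr j.succ : Fin (h + 1) ⊕ Fin (h + 1)) ≠ Sum.inr 0 :=
          fun hc => Fin.succ_ne_zero j (Sum.inr_injective hc)
        rw [chi_b, Pi.single_eq_of_ne h2, Int.negOnePow_zero]
  have h3 : chi x = sgh (Pi.single (Sum.inr 0) 1) x := DFunLike.congr_fun h1 x
  have h4 : ∑ k, (Pi.single (Sum.inr 0) 1 : Fin (h + 1) ⊕ Fin (h + 1) → ℤ) k * (cls x) k =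
      (cls x) (Sum.inr 0) := by
    rw [Finset.sum_eq_single (Sum.inr 0)]
    · rw [Pi.single_eq_same, one_mul]
    · intro j _ hj
      rw [Pi.single_eq_of_ne hj, zero_mul]
    · intro hc
      exact absurd (Finset.mem_univ _) hc
  rw [mem_Gam, h3, sgh_eq_one, h4, om_ee_right, even_neg]

/-- **Transitivity on the double covers.** -/
theorem trans2 {h : ℕ} (Γ' : Subgroup (SurfaceGroup (h + 1))) (hΓ : Γ'.index = 2) :
    ∃ φ : MulAut (SurfaceGroup (h + 1)), ∀ x, φ x ∈ Γ' ↔ x ∈ Gam h := by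
  obtain ⟨w, hw⟩ := exists_vec Γ' hΓ
  have hne := not_all_even Γ' hΓ hw
  obtain ⟨H, hH, -, -, h1, h2, -⟩ := red_vec w (0 : Fin (h + 1))
  set m : ℤ := (H w) (Sum.inl 0) with hm
  have hHw : H w = m • ee (0 : Fin (h + 1)) := by
    apply V_ext
    · intro i
      rw [Pi.smul_apply, ee_inl]
      by_cases hi : i = 0
      · subst hi
        rw [if_pos rfl, smul_eq_mul, mul_one]
      · rw [if_neg hi, smul_zero]
        exact h2 i (Fin.pos_of_ne_zero hi)
    · intro i
      rw [Pi.smul_apply, ee_inr, smul_zero]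
      exact h1 i (Fin.zero_le i)
  have hodd : ¬ Even m := by
    rintro ⟨c, hc⟩
    apply hne
    have h3 : w = m • H⁻¹ (ee (0 : Fin (h + 1))) := by
      rw [← map_smul, ← hHw, ← LinearEquiv.mul_apply, inv_mul_cancel]
      rfl
    intro k
    rw [h3, Pi.smul_apply, smul_eq_mul]
    exact Even.mul_right ⟨c, hc⟩ _
  obtain ⟨φ, hφ⟩ := Sp_le_range (h + 1) ((Sp (h + 1)).inv_mem hH)
  refine ⟨φ, fun x => ?_⟩
  rw [hw, ← rho_cls, hφ, mem_Gam_iff]
  have h4 : om (H⁻¹ (cls x)) w = om (cls x) (H w) := by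
    have h5 := hH (H⁻¹ (cls x)) w
    rw [← LinearEquiv.mul_apply, mul_inv_cancel] at h5
    exact h5.symm
  rw [h4, hHw, om_smul_right, Int.even_mul]
  exact ⟨fun h6 => h6.resolve_left hodd, fun h6 => Or.inr h6⟩

end Pool.Agent.V8H98.JF
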