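import Pool.Agent.V8H98.JF.Ind
import Pool.Agent.V8H98.JF.Bpf
import Pool.Agent.V8H98.JF.Pm2
import Pool.Agent.V8H98.JF.Gab
import Pool.Agent.V8H98.JF.Lam
import Pool.Agent.V8H98.JF.Tr2

/-!
# Independence of the Prym representations of the double covers
-/

set_option autoImplicit false

namespace Pool.Agent.V8H98.JF

open scoped Pointwise commutatorElement

variable {h : ℕ}

/-- The symplectic group is in the image of the Prym representation. -/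
lemma Sp_le_psi : Sp h ≤ (psi h).range :=
  gen _ (fun i => tws_e i) (fun i => tws_f i) (fun i j hij => tws_d i j hij)

/-- The image under the Prym representation of a subgroup of the Torelli group. -/
noncomputable def im (X : Subgroup (MulAut (SurfaceGroup (h + 1)))) : Subgroup (V h ≃ₗ[ℤ] V h) :=
  ((X ⊓ (rho (h + 1)).ker).subgroupOf (A0 h)).map (psi h)

lemma mem_im {X : Subgroup (MulAut (SurfaceGroup (h + 1)))} {y : V h ≃ₗ[ℤ] V h} :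
    y ∈ im X ↔ ∃ t, ∃ ht : rho (h + 1) t = 1, t ∈ X ∧ psi h ⟨t, T_le_A0 ht⟩ = y := by
  constructor
  · rintro ⟨a, ha, rfl⟩
    exact ⟨a.1, ha.2, ha.1, rfl⟩
  · rintro ⟨t, ht, hX, rfl⟩
    exact ⟨⟨t, T_le_A0 ht⟩, ⟨hX, ht⟩, rfl⟩

/-- Conjugation by an element of `A0`. -/
lemma im_conj {X : Subgroup (MulAut (SurfaceGroup (h + 1)))} (s : A0 h)
    (hs : ∀ t ∈ X, rho (h + 1) t = 1 → s.1 * t * s.1⁻¹ ∈ X) {y : V h ≃ₗ[ℤ] V h} (hy : y ∈ im X) :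
    psi h s * y * (psi h s)⁻¹ ∈ im X := by
  rw [mem_im] at hy ⊢
  obtain ⟨t, ht, hX, rfl⟩ := hy
  have h1 : rho (h + 1) (s.1 * t * s.1⁻¹) = 1 := by
    rw [map_mul, map_mul, ht, mul_one, map_inv, mul_inv_cancel]
  refine ⟨s.1 * t * s.1⁻¹, h1, hs t hX ht, ?_⟩
  rw [← map_mul, ← map_inv, ← map_mul]
  rfl

/-- Powers of transvections are in the image of the normalizer of all `TT Γ`. -/
lemma exists_nrm : ∃ k : ℕ, 0 < k ∧ ∀ v : V h, ∃ s : A0 h, psi h s = t1 v k ∧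
    ∀ (Γ : JJ (h + 1)) (x), s.1 x ∈ Γ.1 ↔ x ∈ Γ.1 := by
  have := finite_index_two (h + 1)
  obtain ⟨k, hk, hk2⟩ := exists_power (g := h + 1)
  refine ⟨k, hk, fun v => ?_⟩
  obtain ⟨s, hs⟩ := Sp_le_psi (t1_Sp v 1)
  refine ⟨s ^ k, ?_, fun Γ x => ?_⟩
  · rw [map_pow, hs, ← zpow_natCast, ← t1_zpow, one_mul]
  · have h1 : ((s ^ k : A0 h) : MulAut (SurfaceGroup (h + 1))) = s.1 ^ k := rfl
    rw [h1]
    exact hk2 s.1 Γ x

/-- The image of the group acting trivially on one other double cover is large. -/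
lemma big_TT (hh : 2 ≤ h) (Γ : JJ (h + 1)) (hne : Γ.1 ≠ Gam h) :
    ∃ m : ℤ, 0 < m ∧ ∀ v : V h, t1 v m ∈ im (TT Γ.1 Γ.2) := by
  obtain ⟨τ, φ, d, h1, h2, h3, h4⟩ := bp_free hh Γ.1 Γ.2 hne
  obtain ⟨k, hk, hk2⟩ := exists_nrm (h := h)
  obtain ⟨ε, hε, hp⟩ := pm2 φ
  refine lam hh _ k (by exact_mod_cast hk) (fun v x hx => ?_) d (psi h φ) h3 ε hε hp ?_
  · obtain ⟨s, hs, hs2⟩ := hk2 v
    rw [← hs]
    exact im_conj s (fun t ht _ => conj_TT s.1 (hs2 Γ) ht) hx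
  · rw [← h4, mem_im]
    exact ⟨τ.1, h1, ⟨h1, fun x _ => h2 x⟩, rfl⟩

lemma big_T (hh : 2 ≤ h) : ∃ m : ℤ, 0 < m ∧ ∀ v : V h, t1 v m ∈ im (h := h) ⊤ := by
  obtain ⟨δ, h1, h2⟩ := bp (h := h) (by omega)
  refine lam hh _ 1 one_pos (fun v x hx => ?_) (psi h δ) 1 h2 1 (Or.inl rfl)
    (fun x y => by rw [one_mul]; rfl) ?_
  · obtain ⟨s, hs⟩ := Sp_le_psi (t1_Sp v 1)
    rw [← hs]
    exact im_conj s (fun _ _ _ => Subgroup.mem_top _) hx
  · rw [one_mul, inv_one, mul_one, mem_im]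
    exact ⟨δ.1, h1, Subgroup.mem_top _, rfl⟩

/-- The automorphisms acting trivially on `H_1 (S)` and on the first homology of all double covers
but `Gam h`. -/
noncomputable def T0 (h : ℕ) : Subgroup (MulAut (SurfaceGroup (h + 1))) :=
  (rho (h + 1)).ker ⊓ ⨅ Γ : {Γ : JJ (h + 1) // Γ.1 ≠ Gam h}, TT Γ.1.1 Γ.1.2

lemma mem_T0 {t : MulAut (SurfaceGroup (h + 1))} :
    t ∈ T0 h ↔ rho (h + 1) t = 1 ∧ ∀ Γ : JJ (h + 1), Γ.1 ≠ Gam h → t ∈ TT Γ.1 Γ.2 := by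
  unfold T0
  rw [Subgroup.mem_inf, Subgroup.mem_iInf, MonoidHom.mem_ker]
  constructor
  · rintro ⟨h1, h2⟩
    exact ⟨h1, fun Γ hΓ => h2 ⟨Γ, hΓ⟩⟩
  · rintro ⟨h1, h2⟩
    exact ⟨h1, fun Γ => h2 Γ.1 Γ.2⟩

/-- **Independence of the Prym representations.** -/
theorem big_T0 (hh : 2 ≤ h) : ∃ m : ℤ, 0 < m ∧ ∀ v : V h, t1 v m ∈ im (T0 h) := by
  classical
  have := finite_index_two (h + 1)
  have := Fintype.ofFinite (JJ (h + 1))
  have key : ∀ F : Finset (JJ (h + 1)), (∀ Γ ∈ F, Γ.1 ≠ Gam h) →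
      ∃ m : ℤ, 0 < m ∧ ∀ v : V h, ∃ t, ∃ ht : rho (h + 1) t = 1, (∀ Γ ∈ F, t ∈ TT Γ.1 Γ.2) ∧
        psi h ⟨t, T_le_A0 ht⟩ = t1 v m := by
    intro F
    induction F using Finset.induction_on with
    | empty =>
      intro _
      obtain ⟨m, hm, hm2⟩ := big_T hh
      refine ⟨m, hm, fun v => ?_⟩
      obtain ⟨t, ht, -, h2⟩ := mem_im.1 (hm2 v)
      exact ⟨t, ht, fun Γ hΓ => absurd hΓ (Finset.notMem_empty _), h2⟩
    | insert Γ F hΓF ih =>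
      intro hF
      obtain ⟨m, hm, hm2⟩ := ih (fun Γ' hΓ' => hF Γ' (Finset.mem_insert_of_mem hΓ'))
      obtain ⟨m', hm', hm2'⟩ := big_TT hh Γ (hF Γ (Finset.mem_insert_self _ _))
      refine ⟨2 * m * m', by positivity, fun v => ?_⟩
      obtain ⟨x, hx, y, hy, hxy⟩ := comm_t1 hh
        (im (⨅ Γ : {Γ : JJ (h + 1) // Γ ∈ F}, TT Γ.1.1 Γ.1.2)) (im (TT Γ.1 Γ.2)) m m'
        (fun v => by
          obtain ⟨t, ht, h1, h2⟩ := hm2 v
          rw [mem_im]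
          refine ⟨t, ht, ?_, h2⟩
          rw [Subgroup.mem_iInf]
          intro Γ'
          exact h1 Γ'.1 Γ'.2) hm2' v
      obtain ⟨s, hs, hsX, rfl⟩ := mem_im.1 hx
      obtain ⟨t, ht, htY, rfl⟩ := mem_im.1 hy
      have hc : rho (h + 1) ⁅s, t⁆ = 1 := by
        rw [map_commutatorElement, hs, ht, commutatorElement_one_left]
      refine ⟨⁅s, t⁆, hc, ?_, ?_⟩
      · intro Γ' hΓ'
        rcases Finset.mem_insert.1 hΓ' with rfl | hΓ'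
        · exact TT_comm_left hs htY
        · rw [Subgroup.mem_iInf] at hsX
          have h3 := hsX ⟨Γ', hΓ'⟩
          exact TT_comm_right ht h3
      · rw [← hxy, ← map_commutatorElement]
        rfl
  obtain ⟨m, hm, hm2⟩ := key (Finset.univ.filter fun Γ => Γ.1 ≠ Gam h)
    (fun Γ hΓ => (Finset.mem_filter.1 hΓ).2)
  refine ⟨m, hm, fun v => ?_⟩
  obtain ⟨t, ht, h1, h2⟩ := hm2 v
  rw [mem_im]
  exact ⟨t, ht, mem_T0.2 ⟨ht, fun Γ hΓ => h1 Γ (Finset.mem_filter.2 ⟨Finset.mem_univ _, hΓ⟩)⟩, h2⟩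

end Pool.Agent.V8H98.JF
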