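import Pool.Agent.V8H98.JF.Ind2
import Pool.Agent.R569.CS.Layer

/-!
# The Torelli group modulo the double covers
-/

set_option autoImplicit false

namespace Pool.Agent.V8H98.JF

open scoped Pointwise commutatorElement
open Pool.Agent.R569.CS (act act_finiteIndex charCore)

variable {h : ℕ}

lemma om_congr {n : ℕ} {M : ℤ} {x x' y y' : V n} (hx : ∀ i, M ∣ (x' - x) i)
    (hy : ∀ i, M ∣ (y' - y) i) : M ∣ om x' y' - om x y := by
  choose z hz using hx
  choose w hw using hy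
  have h1 : x' = x + M • z := by
    have : x' - x = M • z := by
      ext i
      exact hz i
    rw [← this]; abel
  have h2 : y' = y + M • w := by
    have : y' - y = M • w := by
      ext i
      exact hw i
    rw [← this]; abel
  rw [h1, h2]
  simp only [om_add_left, om_add_right, om_smul_left, om_smul_right]
  exact ⟨om x w + om z y + M * om z w, by ring⟩

/-- An automorphism which is congruent to the identity and preserves the form up to sign preserves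
the form. -/
lemma Sp_of_sign {n : ℕ} (hn : 0 < n) {M : ℤ} (hM : 3 ≤ M) {P : V n ≃ₗ[ℤ] V n}
    (hP : ∀ x i, M ∣ (P x - x) i) (hs : ∃ ε : ℤ, (ε = 1 ∨ ε = -1) ∧ ∀ x y, om (P x) (P y) = ε * om x y) :
    P ∈ Sp n := by
  obtain ⟨ε, hε, h1⟩ := hs
  rcases hε with rfl | rfl
  · intro x y
    rw [h1, one_mul]
  · exfalso
    have h2 := om_congr (M := M) (hP (ee ⟨0, hn⟩)) (hP (ff ⟨0, hn⟩))
    rw [h1, om_ef, if_pos rfl] at h2
    have h3 := Int.le_of_dvd (by norm_num) ((dvd_neg.2 h2))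
    omega

lemma A0_iff (s : A0 h) (x : SurfaceGroup (h + 1)) : s.1 x ∈ Gam h ↔ x ∈ Gam h := by
  rw [mem_Gam, mem_Gam, s.2]

lemma eq_of_smul {s : MulAut (SurfaceGroup (h + 1))} {Γ Γ' Γ'' : Subgroup (SurfaceGroup (h + 1))}
    (hs : ∀ x, s x ∈ Γ' ↔ x ∈ Γ'') (hs' : ∀ x, s x ∈ Γ ↔ x ∈ Γ'') : Γ = Γ' := by
  ext y
  have h1 : s (s⁻¹ y) = y := by rw [← MulAut.mul_apply, mul_inv_cancel, MulAut.one_apply]
  have h2 := hs (s⁻¹ y)
  have h3 := hs' (s⁻¹ y)
  rw [h1] at h2 h3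
  rw [h3, h2]

/-- The preimage of a double cover. -/
def pre (s : MulAut (SurfaceGroup (h + 1))) (Γ : JJ (h + 1)) : JJ (h + 1) := s⁻¹ • Γ

lemma mem_pre (s : MulAut (SurfaceGroup (h + 1))) (Γ : JJ (h + 1)) (x) :
    s x ∈ Γ.1 ↔ x ∈ (pre s Γ).1 := by
  have h1 : (pre s Γ).1 = s⁻¹ • Γ.1 := rfl
  rw [h1, Subgroup.mem_inv_pointwise_smul_iff]
  rfl

lemma T0_conj (s : A0 h) {t : MulAut (SurfaceGroup (h + 1))} (ht : t ∈ T0 h) :
    s.1 * t * s.1⁻¹ ∈ T0 h := by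
  rw [mem_T0] at ht ⊢
  refine ⟨by rw [map_mul, map_mul, ht.1, mul_one, map_inv, mul_inv_cancel], fun Γ hΓ => ?_⟩
  refine conj_TT s.1 (mem_pre s.1 Γ) (ht.2 (pre s.1 Γ) fun h1 => hΓ ?_)
  have h2 := mem_pre s.1 Γ
  rw [h1] at h2
  exact eq_of_smul (A0_iff s) h2

/-- A subgroup of finite index of the double cover. -/
def SG (h M : ℕ) : Subgroup (SurfaceGroup (h + 1)) where
  carrier := {x | x ∈ Gam h ∧ ∀ i, (M : ℤ) ∣ kap x i}
  one_mem' := ⟨(Gam h).one_mem, fun i => by rw [kap_one]; exact dvd_zero _⟩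
  mul_mem' := fun {x y} hx hy => ⟨(Gam h).mul_mem hx.1 hy.1, fun i => by
    rw [kap_mul_Gam hx.1]
    exact dvd_add (hx.2 i) (hy.2 i)⟩
  inv_mem' := fun {x} hx => ⟨(Gam h).inv_mem hx.1, fun i => by
    rw [kap_inv_Gam hx.1]
    exact (dvd_neg.2 (hx.2 i))⟩

lemma SG_fin (h M : ℕ) (hM : 0 < M) : (SG h M).FiniteIndex := by
  have : NeZero M := ⟨hM.ne'⟩
  let F : SurfaceGroup (h + 1) → ℤˣ × (Fin h ⊕ Fin h → ZMod M) :=
    fun x => (chi x, fun i => ((kap x i : ℤ) : ZMod M))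
  have hF : ∀ x y, F x = F y → x⁻¹ * y ∈ SG h M := by
    intro x y hxy
    have h1 : chi x = chi y := congrArg Prod.fst hxy
    have h2 : ∀ i, (M : ℤ) ∣ kap y i - kap x i := by
      intro i
      have h3 : ((kap x i : ℤ) : ZMod M) = ((kap y i : ℤ) : ZMod M) :=
        congrFun (congrArg Prod.snd hxy) i
      rw [← ZMod.intCast_zmod_eq_zero_iff_dvd]
      push_cast
      rw [h3, sub_self]
    refine ⟨?_, fun i => ?_⟩
    · rw [mem_Gam, chi_mul, chi_inv, h1, inv_mul_cancel]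
    · have h4 : kap (x⁻¹ * y) = (((chi x)⁻¹ : ℤˣ) : ℤ) • (kap y - kap x) := by
        rw [kap_mul, kap_inv, chi_inv]
        module
      rw [h4]
      exact (h2 i).mul_left _
  have : Finite (SurfaceGroup (h + 1) ⧸ SG h M) := by
    refine Finite.of_injective (fun q : SurfaceGroup (h + 1) ⧸ SG h M => F q.out) ?_
    intro q q' hqq
    have h1 := hF _ _ hqq
    rw [← QuotientGroup.out_eq' q, ← QuotientGroup.out_eq' q']
    exact QuotientGroup.eq.2 h1
  exact Subgroup.finiteIndex_of_finite_quotient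

theorem surface_fg' (g : ℕ) : Group.FG (SurfaceGroup g) := QuotientGroup.fg _

/-- **The congruence property of the Torelli group modulo the double covers.** -/
theorem torelli_part (hh : 3 ≤ h) (W : Subgroup (MulAut (SurfaceGroup (h + 1))))
    (hWf : W.FiniteIndex)
    (hW : ∃ K1 : Subgroup (SurfaceGroup (h + 1)), K1.Characteristic ∧ K1.FiniteIndex ∧
      ∀ t, rho (h + 1) t = 1 → (∀ Γ : JJ (h + 1), t ∈ TT Γ.1 Γ.2) → (∀ x, t x * x⁻¹ ∈ K1) →
        t ∈ W) :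
    ∃ K : Subgroup (SurfaceGroup (h + 1)), K.Characteristic ∧ K.FiniteIndex ∧
      ∀ t, rho (h + 1) t = 1 → (∀ x, t x * x⁻¹ ∈ K) → t ∈ W := by
  classical
  have hfin := finite_index_two (h + 1)
  have hfg := surface_fg' (h + 1)
  obtain ⟨K1, c1, f1, hK1⟩ := hW
  set C : Subgroup (MulAut (SurfaceGroup (h + 1))) := act (MonoidHom.id _) K1 with hC
  have hCf : C.FiniteIndex := act_finiteIndex _ K1
  set B := (W ⊓ C).normalCore with hB
  have hBn : B.Normal := Subgroup.normalCore_normal _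
  have hBf : B.FiniteIndex := inferInstance
  have hBW : B ≤ W := (Subgroup.normalCore_le _).trans inf_le_left
  have hBC : B ≤ C := (Subgroup.normalCore_le _).trans inf_le_right
  have hk0 : B.index ≠ 0 := hBf.index_ne_zero
  obtain ⟨m, hm, hm2⟩ := big_T0 (h := h) (by omega)
  obtain ⟨m', rfl⟩ := Int.eq_ofNat_of_zero_le hm.le
  have hm'0 : 0 < m' := by exact_mod_cast hm
  set M2 : ℕ := m' * B.index * 4 with hM2
  have hM2pos : 0 < M2 := by positivity
  have h4 : 4 ∣ M2 := dvd_mul_left _ _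
  have hM23 : (3 : ℤ) ≤ (M2 : ℤ) := by
    have := Nat.le_of_dvd hM2pos h4
    omega
  have hG : Good' (im (B ⊓ T0 h)) M2 := by
    refine ⟨?_, ?_, hM2pos⟩
    · intro s hs x hx
      obtain ⟨φ, rfl⟩ := Sp_le_psi hs
      exact im_conj (X := B ⊓ T0 h) φ (fun t ht _ => ⟨hBn.conj_mem t ht.1 φ.1, T0_conj φ ht.2⟩) hx
    · intro v
      obtain ⟨t, ht, h1, h2⟩ := mem_im.1 (hm2 v)
      have h3 : t1 v ((m' * B.index : ℕ) : ℤ) ∈ im (B ⊓ T0 h) := by
        rw [Nat.cast_mul, t1_zpow, zpow_natCast, ← h2, ← map_pow, mem_im]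
        refine ⟨t ^ B.index, by rw [map_pow, ht, one_pow], ⟨?_, ?_⟩, rfl⟩
        · exact Subgroup.pow_index_mem B t
        · exact (T0 h).pow_mem h1 _
      rw [hM2, Nat.cast_mul, t1_zpow]
      exact Subgroup.zpow_mem _ h3 _
  obtain ⟨K2, c2, f2, hK2⟩ := charCore (SG h M2) (SG_fin h M2 hM2pos)
  refine ⟨K1 ⊓ K2, inferInstance, inferInstance, fun t ht htK => ?_⟩
  -- one double cover
  have claim : ∀ Γ : JJ (h + 1), ∃ b ∈ B, rho (h + 1) b = 1 ∧
      (∀ Γ' : JJ (h + 1), Γ' ≠ Γ → b ∈ TT Γ'.1 Γ'.2) ∧ t * b⁻¹ ∈ TT Γ.1 Γ.2 := by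
    intro Γ
    obtain ⟨φ, hφ⟩ := trans2 Γ.1 Γ.2
    set t' := φ⁻¹ * t * φ with ht'
    have ht'1 : rho (h + 1) t' = 1 := by
      rw [ht', map_mul, map_mul, ht, mul_one, map_inv, inv_mul_cancel]
    have ht'K : ∀ x, t' x * x⁻¹ ∈ K2 := by
      intro x
      have h1 : t' x * x⁻¹ = φ⁻¹ (t (φ x) * (φ x)⁻¹) := by
        rw [map_mul, map_inv]
        have h2 : φ⁻¹ (φ x) = x := by rw [← MulAut.mul_apply, inv_mul_cancel, MulAut.one_apply]
        rw [h2]
        rfl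
      rw [h1]
      exact Subgroup.characteristic_iff_le_comap.1 c2 φ⁻¹ (htK (φ x)).2
    set P := psi h ⟨t', T_le_A0 ht'1⟩ with hP
    have hPc : ∀ v i, (M2 : ℤ) ∣ (P v - v) i := by
      intro v i
      obtain ⟨x, hx, rfl⟩ := kap_surj v
      rw [hP, ← psi_spec _ hx]
      have h1 := (hK2 (ht'K x)).2 i
      have h2 : kap (t' x * x⁻¹) = kap (t' x) - kap x := by
        rw [kap_mul_Gam ((rho_one_stab Gam_index ht'1 x).2 hx), kap_inv_Gam hx, sub_eq_add_neg]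
      rw [h2] at h1
      exact h1
    have hPS : P ∈ Sp h := Sp_of_sign (by omega) hM23 hPc (pm2 _)
    obtain ⟨b', hb', hb'B, hb'P⟩ := mem_im.1 (csp_sp' hh hG h4 hPS hPc)
    refine ⟨φ * b' * φ⁻¹, hBn.conj_mem b' hb'B.1 φ, ?_, ?_, ?_⟩
    · rw [map_mul, map_mul, hb', mul_one, map_inv, mul_inv_cancel]
    · intro Γ' hΓ'
      refine conj_TT φ (mem_pre φ Γ') ((mem_T0.1 hb'B.2).2 (pre φ Γ') fun h1 => hΓ' ?_)
      have h2 := mem_pre φ Γ'
      rw [h1] at h2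
      exact Subtype.ext (eq_of_smul hφ h2)
    · have h1 : t * (φ * b' * φ⁻¹)⁻¹ = φ * (t' * b'⁻¹) * φ⁻¹ := by
        rw [ht']
        group
      rw [h1]
      refine conj_TT (Γ := Gam h) (h2 := Gam_index) φ hφ ?_
      have h2 : rho (h + 1) (t' * b'⁻¹) = 1 := by rw [map_mul, ht'1, map_inv, hb', inv_one, one_mul]
      refine ⟨h2, fun x hx => ?_⟩
      have h3 : (t' * b'⁻¹) x ∈ Gam h := (rho_one_stab Gam_index h2 x).2 hx
      refine gamma_ab ((Gam h).mul_mem h3 ((Gam h).inv_mem hx)) ?_ ?_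
      · rw [cls_eq_zero_iff]
        exact rho_one_comm h2 x
      · rw [kap_mul_Gam h3, kap_inv_Gam hx]
        have h4 := psi_spec ⟨t' * b'⁻¹, T_le_A0 h2⟩ hx
        have h5 : psi h ⟨t' * b'⁻¹, T_le_A0 h2⟩ = 1 := by
          have h6 : (⟨t' * b'⁻¹, T_le_A0 h2⟩ : A0 h) = ⟨t', T_le_A0 ht'1⟩ * ⟨b', T_le_A0 hb'⟩⁻¹ := rfl
          rw [h6, map_mul, map_inv, hb'P, ← hP, mul_inv_cancel]
        rw [h5] at h4
        have h7 : kap ((t' * b'⁻¹) x) = kap x := h4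
        rw [h7, add_neg_cancel]
  -- all double covers
  have := Fintype.ofFinite (JJ (h + 1))
  have key : ∀ F : Finset (JJ (h + 1)), ∃ b ∈ B, rho (h + 1) b = 1 ∧
      (∀ Γ : JJ (h + 1), Γ ∉ F → b ∈ TT Γ.1 Γ.2) ∧ ∀ Γ ∈ F, t * b⁻¹ ∈ TT Γ.1 Γ.2 := by
    intro F
    induction F using Finset.induction_on with
    | empty =>
      exact ⟨1, B.one_mem, map_one _, fun Γ _ => Subgroup.one_mem _, fun Γ hΓ =>
        absurd hΓ (Finset.notMem_empty _)⟩
    | insert Γ F hΓF ih =>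
      obtain ⟨b, hb, hb1, hb2, hb3⟩ := ih
      obtain ⟨b', hb', hb'1, hb'2, hb'3⟩ := claim Γ
      refine ⟨b * b', B.mul_mem hb hb', by rw [map_mul, hb1, hb'1, one_mul], ?_, ?_⟩
      · intro Γ' hΓ'
        rw [Finset.mem_insert, not_or] at hΓ'
        exact Subgroup.mul_mem _ (hb2 Γ' hΓ'.2) (hb'2 Γ' hΓ'.1)
      · intro Γ' hΓ'
        by_cases h1 : Γ' = Γ
        · subst h1
          have h2 : t * (b * b')⁻¹ = (t * b'⁻¹) * b⁻¹ := by group
          rw [h2]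
          exact Subgroup.mul_mem _ hb'3 (Subgroup.inv_mem _ (hb2 _ hΓF))
        · have h2 : Γ' ∈ F := (Finset.mem_insert.1 hΓ').resolve_left h1
          have h3 : t * (b * b')⁻¹ = (t * b⁻¹) * (b * b'⁻¹ * b⁻¹) := by group
          rw [h3]
          exact Subgroup.mul_mem _ (hb3 _ h2) (TT_normal hb1 (Subgroup.inv_mem _ (hb'2 _ h1)))
  obtain ⟨b, hb, hb1, -, hb3⟩ := key Finset.univ
  have h1 : t * b⁻¹ ∈ W := by
    refine hK1 _ (by rw [map_mul, ht, map_inv, hb1, inv_one, one_mul]) (fun Γ => hb3 Γ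
      (Finset.mem_univ _)) ?_
    have h2 : t ∈ C := fun x => (htK x).1
    exact C.mul_mem h2 (C.inv_mem (hBC hb))
  have h2 := W.mul_mem h1 (hBW hb)
  rwa [inv_mul_cancel_right] at h2

end Pool.Agent.V8H98.JF
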