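import Pool.Agent.V8H98.JF.Base
import Pool.Agent.Helper460_CSP.Men3

/-!
# Block subgroups of the integral symplectic group
-/

set_option autoImplicit false

namespace Pool.Agent.V8H98.JF

open Matrix
open Pool.Agent.Helper460_CSP (mt mt_mul mt_one)

section Frames

variable {n m : ℕ}

/-- `e_k, f_k` is a part of a symplectic basis. -/
structure Frame (e f : Fin m → V n) : Prop where
  ef : ∀ i j, om (e i) (f j) = if i = j then 1 else 0
  ee : ∀ i j, om (e i) (e j) = 0
  ff : ∀ i j, om (f i) (f j) = 0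

/-- The coordinates with respect to a frame. -/
def pr (e f : Fin m → V n) : V n →ₗ[ℤ] V m where
  toFun x := Sum.elim (fun k => om x (f k)) (fun k => om (e k) x)
  map_add' x y := by
    ext i
    rcases i with i | i
    · exact om_add_left _ _ _
    · exact om_add_right _ _ _
  map_smul' t x := by
    ext i
    rcases i with i | i
    · exact om_smul_left _ _ _
    · exact om_smul_right _ _ _

/-- The linear combinations of a frame. -/
def li (e f : Fin m → V n) : V m →ₗ[ℤ] V n where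
  toFun y := ∑ k, (y (Sum.inl k) • e k + y (Sum.inr k) • f k)
  map_add' x y := by
    rw [← Finset.sum_add_distrib]
    exact Finset.sum_congr rfl fun k _ => by
      simp only [Pi.add_apply, add_smul]
      abel
  map_smul' t x := by
    rw [Finset.smul_sum]
    exact Finset.sum_congr rfl fun k _ => by
      simp only [Pi.smul_apply, smul_eq_mul, RingHom.id_apply, smul_add, smul_smul]

lemma om_sum_left {ι : Type} (s : Finset ι) (F : ι → V n) (y : V n) :
    om (∑ k ∈ s, F k) y = ∑ k ∈ s, om (F k) y := by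
  classical
  induction s using Finset.induction_on with
  | empty => simp [om_zero_left]
  | insert a s ha ih => rw [Finset.sum_insert ha, Finset.sum_insert ha, om_add_left, ih]

lemma om_li (e f : Fin m → V n) (y : V m) (x : V n) :
    om (li e f y) x = om y (pr e f x) := by
  show om (∑ k, (y (Sum.inl k) • e k + y (Sum.inr k) • f k)) x = _
  rw [om_sum_left]
  unfold om
  refine Finset.sum_congr rfl fun k _ => ?_
  have h := om_add_left (y (Sum.inl k) • e k) (y (Sum.inr k) • f k) x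
  rw [om_smul_left, om_smul_left, om_swap (f k) x] at h
  unfold om at h
  rw [h]
  show _ = y (Sum.inl k) * om (e k) x - y (Sum.inr k) * om x (f k)
  unfold om
  ring

lemma pr_li {e f : Fin m → V n} (h : Frame e f) (y : V m) : pr e f (li e f y) = y := by
  ext i
  rcases i with i | i
  · show om (li e f y) (f i) = _
    show om (∑ k, (y (Sum.inl k) • e k + y (Sum.inr k) • f k)) (f i) = _
    rw [om_sum_left, Finset.sum_eq_single i]
    · rw [om_add_left, om_smul_left, om_smul_left, h.ef, h.ff]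
      simp
    · intro k _ hk
      rw [om_add_left, om_smul_left, om_smul_left, h.ef, h.ff, if_neg hk]
      simp
    · intro h'
      exact absurd (Finset.mem_univ i) h'
  · show om (e i) (li e f y) = _
    rw [om_swap]
    show - om (∑ k, (y (Sum.inl k) • e k + y (Sum.inr k) • f k)) (e i) = _
    rw [om_sum_left, Finset.sum_eq_single i]
    · rw [om_add_left, om_smul_left, om_smul_left, om_swap (f i) (e i), h.ef, h.ee]
      simp
    · intro k _ hk
      rw [om_add_left, om_smul_left, om_smul_left, om_swap (f k) (e i), h.ef, h.ee,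
        if_neg (fun h' => hk h'.symm)]
      simp
    · intro h'
      exact absurd (Finset.mem_univ i) h'

/-- The linear map of `V n` given by an automorphism of the span of a frame. -/
def ph (e f : Fin m → V n) (A : V m ≃ₗ[ℤ] V m) : V n →ₗ[ℤ] V n :=
  LinearMap.id + (li e f).comp (((A : V m →ₗ[ℤ] V m) - LinearMap.id).comp (pr e f))

lemma ph_apply (e f : Fin m → V n) (A : V m ≃ₗ[ℤ] V m) (x : V n) :
    ph e f A x = x + li e f (A (pr e f x) - pr e f x) := rfl

lemma pr_ph {e f : Fin m → V n} (h : Frame e f) (A : V m ≃ₗ[ℤ] V m) (x : V n) :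
    pr e f (ph e f A x) = A (pr e f x) := by
  rw [ph_apply, map_add, pr_li h]
  abel

lemma ph_mul {e f : Fin m → V n} (h : Frame e f) (A B : V m ≃ₗ[ℤ] V m) (x : V n) :
    ph e f A (ph e f B x) = ph e f (A * B) x := by
  rw [ph_apply e f A, pr_ph h, ph_apply e f B, ph_apply e f (A * B), LinearEquiv.mul_apply, add_assoc,
    ← map_add]
  congr 2
  abel

lemma ph_one (e f : Fin m → V n) (x : V n) : ph e f 1 x = x := by
  rw [ph_apply]
  simp

/-- The embedding of the automorphisms of the span of a frame. -/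
def Ph {e f : Fin m → V n} (h : Frame e f) : (V m ≃ₗ[ℤ] V m) →* (V n ≃ₗ[ℤ] V n) where
  toFun A := LinearEquiv.ofLinearMap (ph e f A) (ph e f A⁻¹)
    (by
      apply LinearMap.ext
      intro x
      show ph e f A (ph e f A⁻¹ x) = x
      rw [ph_mul h, mul_inv_cancel, ph_one])
    (by
      apply LinearMap.ext
      intro x
      show ph e f A⁻¹ (ph e f A x) = x
      rw [ph_mul h, inv_mul_cancel, ph_one])
  map_one' := by
    apply LinearEquiv.ext
    intro x
    exact ph_one e f x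
  map_mul' A B := by
    apply LinearEquiv.ext
    intro x
    exact (ph_mul h A B x).symm

lemma Ph_apply {e f : Fin m → V n} (h : Frame e f) (A : V m ≃ₗ[ℤ] V m) (x : V n) :
    Ph h A x = x + li e f (A (pr e f x) - pr e f x) := rfl

lemma Ph_Sp {e f : Fin m → V n} (h : Frame e f) {A : V m ≃ₗ[ℤ] V m} (hA : A ∈ Sp m) :
    Ph h A ∈ Sp n := by
  intro x y
  rw [Ph_apply, Ph_apply, om_add_left, om_add_right, om_add_right, om_li, om_li, pr_li h,
    om_swap x (li e f _), om_li]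
  simp only [om_sub_left, om_sub_right]
  rw [hA]
  rw [om_swap (pr e f y) (pr e f x), om_swap (A (pr e f y)) (pr e f x)]
  ring

end Frames

/-! ### The group `SL_2` acting on `V 1` -/

/-- The matrix `(a b; c d)` acting on `V 1`. -/
def z1 (Z : SpecialLinearGroup (Fin 2) ℤ) : V 1 →ₗ[ℤ] V 1 where
  toFun y := Sum.elim (fun k => mt Z 0 0 * y (Sum.inl k) + mt Z 0 1 * y (Sum.inr k))
    (fun k => mt Z 1 0 * y (Sum.inl k) + mt Z 1 1 * y (Sum.inr k))
  map_add' x y := by
    ext i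
    rcases i with i | i
    · show mt Z 0 0 * (x _ + y _) + mt Z 0 1 * (x _ + y _) =
        (mt Z 0 0 * x _ + mt Z 0 1 * x _) + (mt Z 0 0 * y _ + mt Z 0 1 * y _)
      ring
    · show mt Z 1 0 * (x _ + y _) + mt Z 1 1 * (x _ + y _) =
        (mt Z 1 0 * x _ + mt Z 1 1 * x _) + (mt Z 1 0 * y _ + mt Z 1 1 * y _)
      ring
  map_smul' t x := by
    ext i
    rcases i with i | i
    · show mt Z 0 0 * (t * x _) + mt Z 0 1 * (t * x _) = t * (mt Z 0 0 * x _ + mt Z 0 1 * x _)
      ring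
    · show mt Z 1 0 * (t * x _) + mt Z 1 1 * (t * x _) = t * (mt Z 1 0 * x _ + mt Z 1 1 * x _)
      ring

lemma z1_mul (Z W : SpecialLinearGroup (Fin 2) ℤ) (y : V 1) : z1 (Z * W) y = z1 Z (z1 W y) := by
  ext i
  rcases i with i | i
  · show mt (Z * W) 0 0 * _ + mt (Z * W) 0 1 * _ = mt Z 0 0 * (mt W 0 0 * _ + _) + mt Z 0 1 * (_ + _)
    simp only [mt_mul, Matrix.mul_apply, Fin.sum_univ_two]
    ring
  · show mt (Z * W) 1 0 * _ + mt (Z * W) 1 1 * _ = mt Z 1 0 * (mt W 0 0 * _ + _) + mt Z 1 1 * (_ + _)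
    simp only [mt_mul, Matrix.mul_apply, Fin.sum_univ_two]
    ring

lemma z1_one (y : V 1) : z1 1 y = y := by
  ext i
  rcases i with i | i
  · show (1 : Matrix (Fin 2) (Fin 2) ℤ) 0 0 * _ + (1 : Matrix (Fin 2) (Fin 2) ℤ) 0 1 * _ = _
    simp
  · show (1 : Matrix (Fin 2) (Fin 2) ℤ) 1 0 * _ + (1 : Matrix (Fin 2) (Fin 2) ℤ) 1 1 * _ = _
    simp

/-- `SL_2` acting on `V 1`. -/
def Z1 : SpecialLinearGroup (Fin 2) ℤ →* (V 1 ≃ₗ[ℤ] V 1) where
  toFun Z := LinearEquiv.ofLinearMap (z1 Z) (z1 Z⁻¹)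
    (by
      apply LinearMap.ext
      intro x
      show z1 Z (z1 Z⁻¹ x) = x
      rw [← z1_mul, mul_inv_cancel, z1_one])
    (by
      apply LinearMap.ext
      intro x
      show z1 Z⁻¹ (z1 Z x) = x
      rw [← z1_mul, inv_mul_cancel, z1_one])
  map_one' := by
    apply LinearEquiv.ext
    intro x
    exact z1_one x
  map_mul' A B := by
    apply LinearEquiv.ext
    intro x
    exact z1_mul A B x

lemma det2 (Z : SpecialLinearGroup (Fin 2) ℤ) : mt Z 0 0 * mt Z 1 1 - mt Z 0 1 * mt Z 1 0 = 1 := by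
  have := Z.2
  rwa [Matrix.det_fin_two] at this

lemma Z1_Sp (Z : SpecialLinearGroup (Fin 2) ℤ) : Z1 Z ∈ Sp 1 := by
  intro x y
  show om (z1 Z x) (z1 Z y) = om x y
  unfold om
  rw [Fin.sum_univ_one, Fin.sum_univ_one]
  show (mt Z 0 0 * x (Sum.inl 0) + mt Z 0 1 * x (Sum.inr 0)) *
      (mt Z 1 0 * y (Sum.inl 0) + mt Z 1 1 * y (Sum.inr 0)) -
    (mt Z 1 0 * x (Sum.inl 0) + mt Z 1 1 * x (Sum.inr 0)) *
      (mt Z 0 0 * y (Sum.inl 0) + mt Z 0 1 * y (Sum.inr 0)) = _
  linear_combination (x (Sum.inl 0) * y (Sum.inr 0) - x (Sum.inr 0) * y (Sum.inl 0)) * det2 Z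

/-! ### The group `SL_m` acting on `V m` -/

section

variable {m : ℕ}

/-- `(a, c) ↦ (A a, A^{-T} c)`. -/
def bl (A : SpecialLinearGroup (Fin m) ℤ) : V m →ₗ[ℤ] V m where
  toFun y := Sum.elim (mt A *ᵥ fun k => y (Sum.inl k)) ((mt A⁻¹)ᵀ *ᵥ fun k => y (Sum.inr k))
  map_add' x y := by
    ext i
    rcases i with i | i
    · show (mt A *ᵥ ((fun k => x (Sum.inl k)) + fun k => y (Sum.inl k))) i = _
      rw [mulVec_add]
      rfl
    · show ((mt A⁻¹)ᵀ *ᵥ ((fun k => x (Sum.inr k)) + fun k => y (Sum.inr k))) i = _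
      rw [mulVec_add]
      rfl
  map_smul' t x := by
    ext i
    rcases i with i | i
    · show (mt A *ᵥ (t • (fun k => x (Sum.inl k)))) i = _
      rw [mulVec_smul]
      rfl
    · show ((mt A⁻¹)ᵀ *ᵥ (t • (fun k => x (Sum.inr k)))) i = _
      rw [mulVec_smul]
      rfl

lemma bl_mul (A B : SpecialLinearGroup (Fin m) ℤ) (y : V m) : bl (A * B) y = bl A (bl B y) := by
  ext i
  rcases i with i | i
  · show (mt (A * B) *ᵥ _) i = (mt A *ᵥ (mt B *ᵥ _)) i
    rw [mulVec_mulVec]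
    rfl
  · show ((mt (A * B)⁻¹)ᵀ *ᵥ _) i = ((mt A⁻¹)ᵀ *ᵥ ((mt B⁻¹)ᵀ *ᵥ _)) i
    rw [mulVec_mulVec, ← transpose_mul, _root_.mul_inv_rev]
    rfl

lemma bl_one (y : V m) : bl 1 y = y := by
  ext i
  rcases i with i | i
  · show ((1 : Matrix (Fin m) (Fin m) ℤ) *ᵥ _) i = _
    rw [one_mulVec]
  · show ((mt (1⁻¹ : SpecialLinearGroup (Fin m) ℤ))ᵀ *ᵥ _) i = _
    rw [inv_one]
    show ((1 : Matrix (Fin m) (Fin m) ℤ)ᵀ *ᵥ _) i = _
    rw [transpose_one, one_mulVec]

variable (m) in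
/-- `SL_m` acting on `V m`. -/
def Bl : SpecialLinearGroup (Fin m) ℤ →* (V m ≃ₗ[ℤ] V m) where
  toFun Z := LinearEquiv.ofLinearMap (bl Z) (bl Z⁻¹)
    (by
      apply LinearMap.ext
      intro x
      show bl Z (bl Z⁻¹ x) = x
      rw [← bl_mul, mul_inv_cancel, bl_one])
    (by
      apply LinearMap.ext
      intro x
      show bl Z⁻¹ (bl Z x) = x
      rw [← bl_mul, inv_mul_cancel, bl_one])
  map_one' := by
    apply LinearEquiv.ext
    intro x
    exact bl_one x
  map_mul' A B := by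
    apply LinearEquiv.ext
    intro x
    exact bl_mul A B x

lemma om_dot (x y : V m) : om x y = (fun k => x (Sum.inl k)) ⬝ᵥ (fun k => y (Sum.inr k)) -
    (fun k => x (Sum.inr k)) ⬝ᵥ (fun k => y (Sum.inl k)) := by
  unfold om dotProduct
  rw [Finset.sum_sub_distrib]

lemma Bl_Sp (A : SpecialLinearGroup (Fin m) ℤ) : Bl m A ∈ Sp m := by
  intro x y
  show om (bl A x) (bl A y) = om x y
  rw [om_dot, om_dot]
  show (mt A *ᵥ fun k => x (Sum.inl k)) ⬝ᵥ ((mt A⁻¹)ᵀ *ᵥ fun k => y (Sum.inr k)) -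
    ((mt A⁻¹)ᵀ *ᵥ fun k => x (Sum.inr k)) ⬝ᵥ (mt A *ᵥ fun k => y (Sum.inl k)) = _
  have h1 : ∀ u v : Fin m → ℤ, (mt A *ᵥ u) ⬝ᵥ ((mt A⁻¹)ᵀ *ᵥ v) = u ⬝ᵥ v := by
    intro u v
    rw [mulVec_transpose, dotProduct_comm, ← dotProduct_mulVec, mulVec_mulVec]
    have : mt A⁻¹ * mt A = 1 := by
      have := inv_mul_cancel A
      exact congrArg Subtype.val this
    rw [this, one_mulVec, dotProduct_comm]
  rw [h1, dotProduct_comm ((mt A⁻¹)ᵀ *ᵥ _), h1, dotProduct_comm (fun k => y (Sum.inl k))]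

end

end Pool.Agent.V8H98.JF
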