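import Pool.Agent.V8H98.JF.Sp1

/-!
# Transvections and block subgroups: formulas
-/

set_option autoImplicit false

namespace Pool.Agent.V8H98.JF

open Matrix
open Pool.Agent.Helper460_CSP (mt mt_mul mt_one S3 B12 tv tvh tv_mul_zpow tv_zero)

variable {n : ℕ}

/-! ### Transvections -/

/-- `x ↦ x + t om x v • v`. -/
def t1 (v : V n) (t : ℤ) : V n ≃ₗ[ℤ] V n where
  toFun x := x + (t * om x v) • v
  invFun x := x - (t * om x v) • v
  left_inv x := by
    simp only [om_add_left, om_smul_left, om_self]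
    simp
  right_inv x := by
    simp only [om_sub_left, om_smul_left, om_self]
    simp
  map_add' x y := by
    rw [om_add_left, mul_add, add_smul]
    abel
  map_smul' s x := by
    simp only [om_smul_left, RingHom.id_apply, smul_add, smul_smul]
    rw [mul_left_comm]

lemma t1_apply (v : V n) (t : ℤ) (x : V n) : t1 v t x = x + (t * om x v) • v := rfl

lemma t1_one (v : V n) : t1 v 1 = tr v := by
  apply LinearEquiv.ext
  intro x
  rw [t1_apply, tr_apply, one_mul]

lemma t1_zero (v : V n) : t1 v 0 = 1 := by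
  apply LinearEquiv.ext
  intro x
  rw [t1_apply, zero_mul, zero_smul, add_zero]
  rfl

lemma t1_add (v : V n) (s t : ℤ) : t1 v (s + t) = t1 v s * t1 v t := by
  apply LinearEquiv.ext
  intro x
  rw [LinearEquiv.mul_apply, t1_apply, t1_apply, t1_apply, om_add_left, om_smul_left, om_self]
  module

lemma t1_zpow (v : V n) (s t : ℤ) : t1 v (s * t) = t1 v s ^ t := by
  let F : Multiplicative ℤ →* (V n ≃ₗ[ℤ] V n) :=
    { toFun := fun t => t1 v t.toAdd
      map_one' := t1_zero v
      map_mul' := fun s t => t1_add v _ _ }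
  have h1 := map_zpow F (Multiplicative.ofAdd s) t
  rw [← ofAdd_zsmul, smul_eq_mul, mul_comm] at h1
  exact h1

lemma t1_Sp (v : V n) (t : ℤ) : t1 v t ∈ Sp n := by
  intro x y
  simp only [t1_apply, om_add_left, om_add_right, om_smul_left, om_smul_right, om_self]
  rw [om_swap v y]
  ring

/-- `x ↦ x + t om x v • w + t om x w • v` for `om v w = 0`. -/
def t2 (v w : V n) (h : om v w = 0) (t : ℤ) : V n ≃ₗ[ℤ] V n where
  toFun x := x + (t * om x v) • w + (t * om x w) • v
  invFun x := x - (t * om x v) • w - (t * om x w) • v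
  left_inv x := by
    simp only [om_add_left, om_smul_left, om_self, h, om_swap w v]
    module
  right_inv x := by
    simp only [om_sub_left, om_smul_left, om_self, h, om_swap w v]
    module
  map_add' x y := by
    rw [om_add_left, om_add_left, mul_add, mul_add, add_smul, add_smul]
    abel
  map_smul' s x := by
    simp only [om_smul_left, RingHom.id_apply, smul_add, smul_smul]
    rw [mul_left_comm, mul_left_comm t]

lemma t2_apply (v w : V n) (h : om v w = 0) (t : ℤ) (x : V n) :
    t2 v w h t x = x + (t * om x v) • w + (t * om x w) • v := rfl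

lemma t2_zero (v w : V n) (h : om v w = 0) : t2 v w h 0 = 1 := by
  apply LinearEquiv.ext
  intro x
  rw [t2_apply, zero_mul, zero_mul, zero_smul, zero_smul, add_zero, add_zero]
  rfl

lemma t2_add (v w : V n) (h : om v w = 0) (s t : ℤ) : t2 v w h (s + t) = t2 v w h s * t2 v w h t := by
  apply LinearEquiv.ext
  intro x
  rw [LinearEquiv.mul_apply, t2_apply, t2_apply, t2_apply]
  simp only [om_add_left, om_smul_left, om_self, h, om_swap w v]
  module

lemma t2_zpow (v w : V n) (h : om v w = 0) (s t : ℤ) : t2 v w h (s * t) = t2 v w h s ^ t := by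
  let F : Multiplicative ℤ →* (V n ≃ₗ[ℤ] V n) :=
    { toFun := fun t => t2 v w h t.toAdd
      map_one' := t2_zero v w h
      map_mul' := fun s t => t2_add v w h _ _ }
  have h1 := map_zpow F (Multiplicative.ofAdd s) t
  rw [← ofAdd_zsmul, smul_eq_mul, mul_comm] at h1
  exact h1

lemma t2_Sp (v w : V n) (h : om v w = 0) (t : ℤ) : t2 v w h t ∈ Sp n := by
  intro x y
  simp only [t2_apply, om_add_left, om_add_right, om_smul_left, om_smul_right, om_self, h,
    om_swap w v]
  rw [om_swap v y, om_swap w y]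
  ring

/-- The transvection `t2` is a product of three transvections. -/
lemma t2_eq (v w : V n) (h : om v w = 0) (t : ℤ) :
    t2 v w h t = t1 (v + w) t * t1 v (-t) * t1 w (-t) := by
  apply LinearEquiv.ext
  intro x
  rw [LinearEquiv.mul_apply, LinearEquiv.mul_apply, t2_apply, t1_apply, t1_apply, t1_apply]
  simp only [om_add_left, om_add_right, om_smul_left, om_smul_right, om_self, h, om_swap w v]
  module

/-- Conjugates of transvections. -/
lemma conj_t1 {h : V n ≃ₗ[ℤ] V n} (hh : h ∈ Sp n) (v : V n) (t : ℤ) :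
    h * t1 v t * h⁻¹ = t1 (h v) t := by
  apply LinearEquiv.ext
  intro x
  rw [LinearEquiv.mul_apply, LinearEquiv.mul_apply, t1_apply, t1_apply, map_add, map_smul]
  have h1 : h (h⁻¹ x) = x := by rw [← LinearEquiv.mul_apply, mul_inv_cancel]; rfl
  have h2 : om (h⁻¹ x) v = om x (h v) := by rw [← hh, h1]
  rw [h1, h2]

/-! ### The group `SL_2` on a hyperbolic pair -/

lemma frame1 {e f : V n} (h : om e f = 1) : Frame (m := 1) (fun _ => e) (fun _ => f) where
  ef i j := by rw [if_pos (Subsingleton.elim i j), h]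
  ee _ _ := om_self e
  ff _ _ := om_self f

/-- `SL_2` acting on the span of a hyperbolic pair. -/
def LL {e f : V n} (h : om e f = 1) : SpecialLinearGroup (Fin 2) ℤ →* (V n ≃ₗ[ℤ] V n) :=
  (Ph (frame1 h)).comp Z1

lemma LL_Sp {e f : V n} (h : om e f = 1) (Z : SpecialLinearGroup (Fin 2) ℤ) : LL h Z ∈ Sp n :=
  Ph_Sp (frame1 h) (Z1_Sp Z)

lemma LL_apply {e f : V n} (h : om e f = 1) (Z : SpecialLinearGroup (Fin 2) ℤ) (x : V n) :
    LL h Z x = x + ((mt Z 0 0 - 1) * om x f + mt Z 0 1 * om e x) • e +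
      (mt Z 1 0 * om x f + (mt Z 1 1 - 1) * om e x) • f := by
  show x + ∑ k : Fin 1, _ = _
  rw [Fin.sum_univ_one]
  show x + ((mt Z 0 0 * om x f + mt Z 0 1 * om e x - om x f) • e +
    (mt Z 1 0 * om x f + mt Z 1 1 * om e x - om e x) • f) = _
  module

lemma li_apply {m : ℕ} (e f : Fin m → V n) (y : V m) :
    li e f y = ∑ k, (y (Sum.inl k) • e k + y (Sum.inr k) • f k) := rfl

/-! ### The group `SL_3` on an isotropic space and its dual -/

/-- `SL_3` acting on the span of a frame. -/
def SS {e f : Fin 3 → V n} (h : Frame e f) : S3 →* (V n ≃ₗ[ℤ] V n) :=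
  (Ph h).comp (Bl 3)

lemma SS_Sp {e f : Fin 3 → V n} (h : Frame e f) (A : S3) : SS h A ∈ Sp n :=
  Ph_Sp h (Bl_Sp A)

/-- The inverse of a block. -/
lemma B12_inv (a b c d : ℤ) (h : a * d - b * c = 1) :
    (B12 a b c d h)⁻¹ = B12 d (-b) (-c) a (by linarith) := by
  rw [inv_eq_iff_mul_eq_one]
  apply Pool.Agent.Helper460_CSP.mt_inj
  rw [mt_mul, Pool.Agent.Helper460_CSP.cB12, Pool.Agent.Helper460_CSP.cB12,
    Pool.Agent.Helper460_CSP.m3, mt_one]
  ext i j
  fin_cases i <;> fin_cases j <;> simp <;> linarith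

lemma SS_apply {e f : Fin 3 → V n} (h : Frame e f) (a b c d : ℤ) (hd : a * d - b * c = 1) (x : V n) :
    SS h (B12 a b c d hd) x = x +
      ((a - 1) * om x (f 0) + b * om x (f 1)) • e 0 + (c * om x (f 0) + (d - 1) * om x (f 1)) • e 1 +
      ((d - 1) * om (e 0) x - c * om (e 1) x) • f 0 +
      (-b * om (e 0) x + (a - 1) * om (e 1) x) • f 1 := by
  show Ph h (Bl 3 (B12 a b c d hd)) x = _
  rw [Ph_apply, li_apply, Fin.sum_univ_three]
  have h1 : ∀ k, (Bl 3 (B12 a b c d hd) (pr e f x) - pr e f x) (Sum.inl k) =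
      (mt (B12 a b c d hd) *ᵥ fun k => om x (f k)) k - om x (f k) := fun k => rfl
  have h2 : ∀ k, (Bl 3 (B12 a b c d hd) (pr e f x) - pr e f x) (Sum.inr k) =
      ((mt (B12 a b c d hd)⁻¹)ᵀ *ᵥ fun k => om (e k) x) k - om (e k) x := fun k => rfl
  rw [B12_inv] at h2
  have g0 := h1 0
  have g1 := h1 1
  have g2 := h1 2
  have k0 := h2 0
  have k1 := h2 1
  have k2 := h2 2
  rw [Pool.Agent.Helper460_CSP.cB12] at g0 g1 g2 k0 k1 k2
  simp [Matrix.mulVec, dotProduct, Fin.sum_univ_three, Matrix.transpose_apply] at g0 g1 g2 k0 k1 k2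
  simp only [Pi.sub_apply] at *
  rw [g0, g1, g2, k0, k1, k2]
  module

end Pool.Agent.V8H98.JF
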