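import Pool.Agent.V8H98.JF.Sp2

/-!
# Mennicke symbols of the symplectic group
-/

set_option autoImplicit false

namespace Pool.Agent.V8H98.JF

open Matrix
open Pool.Agent.Helper460_CSP (mt mt_mul mt_one S3 B12 tv tvh tv_mul_zpow tv_zero)

variable {n : ℕ}

/-- A subgroup of the linear group normalized by the symplectic group which contains the `M`-th
powers of all elements of it. -/
structure Good (N : Subgroup (V n ≃ₗ[ℤ] V n)) (M : ℕ) : Prop where
  conj : ∀ h ∈ Sp n, ∀ x ∈ N, h * x * h⁻¹ ∈ N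
  pow : ∀ h ∈ Sp n, h ^ M ∈ N
  pos : 0 < M

variable {N : Subgroup (V n ≃ₗ[ℤ] V n)} {M : ℕ}

/-- A subgroup of the linear group normalized by the symplectic group which contains the
transvections of level `M`. -/
structure Good' (N : Subgroup (V n ≃ₗ[ℤ] V n)) (M : ℕ) : Prop where
  conj : ∀ h ∈ Sp n, ∀ x ∈ N, h * x * h⁻¹ ∈ N
  t1M : ∀ v : V n, t1 v M ∈ N
  pos : 0 < M

lemma Good.good' (hG : Good N M) : Good' N M where
  conj := hG.conj
  t1M v := by
    rw [← one_mul (M : ℤ), t1_zpow, zpow_natCast]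
    exact hG.pow _ (t1_Sp v 1)
  pos := hG.pos

lemma Good'.t1_mem (hG : Good' N M) (v : V n) {t : ℤ} (ht : (M : ℤ) ∣ t) : t1 v t ∈ N := by
  obtain ⟨s, rfl⟩ := ht
  rw [t1_zpow]
  exact N.zpow_mem (hG.t1M v) s

lemma Good'.t2_mem (hG : Good' N M) (v w : V n) (h : om v w = 0) {t : ℤ} (ht : (M : ℤ) ∣ t) :
    t2 v w h t ∈ N := by
  rw [t2_eq]
  exact N.mul_mem (N.mul_mem (hG.t1_mem _ ht) (hG.t1_mem _ (dvd_neg.2 ht)))
    (hG.t1_mem _ (dvd_neg.2 ht))

/-- Elementary matrices act as transvections. -/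
lemma SS_tv {e f : Fin 3 → V n} (hF : Frame e f) {i j : Fin 3} (hij : i ≠ j) (t : ℤ)
    (h : om (e i) (f j) = 0) : SS hF (tv i j hij t) = t2 (e i) (f j) h t := by
  apply LinearEquiv.ext
  intro x
  show Ph hF (Bl 3 (tv i j hij t)) x = _
  rw [Ph_apply, li_apply, t2_apply]
  have h1 : ∀ k, (Bl 3 (tv i j hij t) (pr e f x) - pr e f x) (Sum.inl k) =
      if k = i then t * om x (f j) else 0 := by
    intro k
    show (mt (tv i j hij t) *ᵥ fun k => om x (f k)) k - om x (f k) = _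
    show ((transvection i j t) *ᵥ fun k => om x (f k)) k - om x (f k) = _
    unfold transvection
    rw [add_mulVec, one_mulVec, single_mulVec]
    show om x (f k) + Function.update (0 : Fin 3 → ℤ) i (t * om x (f j)) k - om x (f k) = _
    by_cases hk : k = i
    · subst hk; simp
    · simp [hk]
  have h2 : ∀ k, (Bl 3 (tv i j hij t) (pr e f x) - pr e f x) (Sum.inr k) =
      if k = j then t * om x (e i) else 0 := by
    intro k
    show ((mt (tv i j hij t)⁻¹)ᵀ *ᵥ fun k => om (e k) x) k - om (e k) x = _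
    have h3 : (tv i j hij t)⁻¹ = tv i j hij (-t) := by
      rw [inv_eq_iff_mul_eq_one, ← Pool.Agent.Helper460_CSP.tv_add, add_neg_cancel, tv_zero]
    rw [h3]
    show ((transvection i j (-t))ᵀ *ᵥ fun k => om (e k) x) k - om (e k) x = _
    unfold transvection
    rw [transpose_add, transpose_one, transpose_single, add_mulVec, one_mulVec, single_mulVec]
    show om (e k) x + Function.update (0 : Fin 3 → ℤ) j (-t * om (e i) x) k - om (e k) x = _
    rw [om_swap (e i) x]
    by_cases hk : k = j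
    · subst hk; simp
    · simp [hk]
  have h3 : ∀ k, (Bl 3 (tv i j hij t) (pr e f x) - pr e f x) (Sum.inl k) • e k +
      (Bl 3 (tv i j hij t) (pr e f x) - pr e f x) (Sum.inr k) • f k =
      (if k = i then (t * om x (f j)) • e k else 0) +
      (if k = j then (t * om x (e i)) • f k else 0) := by
    intro k
    rw [h1, h2]
    by_cases hki : k = i <;> by_cases hkj : k = j <;> simp [hki, hkj]
  rw [Finset.sum_congr rfl fun k _ => h3 k, Finset.sum_add_distrib, Finset.sum_ite_eq' , Finset.sum_ite_eq']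
  simp only [Finset.mem_univ, if_true]
  abel

lemma Good'.SS_mem (hG : Good' N M) {e f : Fin 3 → V n} (hF : Frame e f) {a b c d : ℤ}
    (h : a * d - b * c = 1) (ha : (M : ℤ) ∣ a - 1) (hb : (M : ℤ) ∣ b) (hc : (M : ℤ) ∣ c)
    (hd : (M : ℤ) ∣ d - 1) : SS hF (B12 a b c d h) ∈ N := by
  have hn : (N.comap (SS hF)).Normal := by
    constructor
    intro x hx g
    show SS hF (g * x * g⁻¹) ∈ N
    rw [map_mul, map_mul, map_inv]
    exact hG.conj _ (SS_Sp hF g) _ hx
  have h1 : ∀ (i j : Fin 3) (h : i ≠ j), tv i j h (M : ℤ) ∈ N.comap (SS hF) := by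
    intro i j h
    show SS hF (tv i j h (M : ℤ)) ∈ N
    rw [SS_tv hF h (M : ℤ) (by rw [hF.ef, if_neg h])]
    exact hG.t2_mem _ _ _ (dvd_refl _)
  exact Pool.Agent.Helper460_CSP.B12_mem h1 (by exact_mod_cast hG.pos.ne') h ha hb hc hd

/-- The matrix `(a b; c d)`. -/
def mk2 (a b c d : ℤ) (h : a * d - b * c = 1) : SpecialLinearGroup (Fin 2) ℤ :=
  ⟨!![a, b; c, d], by rw [Matrix.det_fin_two]; simpa using h⟩

lemma mt_mk2 (a b c d : ℤ) (h : a * d - b * c = 1) : mt (mk2 a b c d h) = !![a, b; c, d] := rfl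

lemma mk2_mul (a b c d a' b' c' d' : ℤ) (h : a * d - b * c = 1) (h' : a' * d' - b' * c' = 1) :
    mk2 a b c d h * mk2 a' b' c' d' h' =
      mk2 (a * a' + b * c') (a * b' + b * d') (c * a' + d * c') (c * b' + d * d')
        (by linear_combination (a' * d' - b' * c') * h + h') := by
  apply Pool.Agent.Helper460_CSP.mt_inj
  rw [mt_mul, mt_mk2, mt_mk2, mt_mk2]
  ext i j
  fin_cases i <;> fin_cases j <;> simp [Matrix.mul_apply, Fin.sum_univ_two]

lemma mk2_congr {a b c d a' b' c' d' : ℤ} (h : a * d - b * c = 1) (h' : a' * d' - b' * c' = 1)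
    (ha : a = a') (hb : b = b') (hc : c = c') (hd : d = d') : mk2 a b c d h = mk2 a' b' c' d' h' := by
  subst ha hb hc hd
  rfl

lemma LL_mk2 {e f : V n} (h : om e f = 1) (a b c d : ℤ) (hd : a * d - b * c = 1) (x : V n) :
    LL h (mk2 a b c d hd) x = x + ((a - 1) * om x f + b * om e x) • e +
      (c * om x f + (d - 1) * om e x) • f := by
  rw [LL_apply, mt_mk2]
  simp

lemma LL_up {e f : V n} (h : om e f = 1) (t : ℤ) (ht : (1 : ℤ) * 1 - t * 0 = 1) :
    LL h (mk2 1 t 0 1 ht) = t1 e (-t) := by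
  apply LinearEquiv.ext
  intro x
  rw [LL_mk2, t1_apply, om_swap e x]
  module

lemma LL_lo {e f : V n} (h : om e f = 1) (t : ℤ) (ht : (1 : ℤ) * 1 - 0 * t = 1) :
    LL h (mk2 1 0 t 1 ht) = t1 f t := by
  apply LinearEquiv.ext
  intro x
  rw [LL_mk2, t1_apply]
  module

section

variable {e f : Fin 3 → V n}

/-- The changed frame. -/
lemma Frame.change (hF : Frame e f) (r : ℤ) :
    Frame ![e 0 + r • e 1, r • f 0 - f 1, e 2] ![f 0, e 1, f 2] := by
  have ef := hF.ef
  have ee := hF.ee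
  have ff := hF.ff
  have fe : ∀ i j, om (f i) (e j) = if i = j then -1 else 0 := by
    intro i j
    rw [om_swap, ef]
    by_cases h : i = j
    · subst h; simp
    · rw [if_neg (fun h' => h h'.symm), if_neg h, neg_zero]
  constructor
  · intro i j
    fin_cases i <;> fin_cases j <;>
      simp [om_add_left, om_add_right, om_sub_left, om_sub_right, om_smul_left, om_smul_right, ef,
        ee, ff, fe, -zsmul_eq_mul]
  · intro i j
    fin_cases i <;> fin_cases j <;>
      simp [om_add_left, om_add_right, om_sub_left, om_sub_right, om_smul_left, om_smul_right, ef,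
        ee, ff, fe, -zsmul_eq_mul]
  · intro i j
    fin_cases i <;> fin_cases j <;>
      simp [om_add_left, om_add_right, om_sub_left, om_sub_right, om_smul_left, om_smul_right, ef,
        ee, ff, fe, -zsmul_eq_mul]

lemma Frame.h0 (hF : Frame e f) : om (e 0) (f 0) = 1 := by rw [hF.ef, if_pos rfl]

lemma Frame.h1 (hF : Frame e f) : om (e 1) (f 1) = 1 := by rw [hF.ef, if_pos rfl]

/-- **The relation between long and short roots.** -/
lemma key (hG : Good' N M) (hF : Frame e f) {a b c d r : ℤ} (h : a * d - b * (c * r ^ 2) = 1)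
    (h' : a * d - (-(b * r ^ 2)) * (-c) = 1)
    (ha : (M : ℤ) ∣ a - 1) (hb : (M : ℤ) ∣ b) (hc : (M : ℤ) ∣ c) (hd : (M : ℤ) ∣ d - 1) :
    LL hF.h0 (mk2 a b (c * r ^ 2) d h) * LL hF.h1 (mk2 a (-(b * r ^ 2)) (-c) d h') ∈ N := by
  have hdet : a * d - (r * b) * (c * r) = 1 := by linear_combination h
  have hF' := hF.change r
  have h12 : om (e 0 + r • e 1) (r • f 0 - f 1) = 0 := by
    have := hF'.ee 0 1
    exact this
  have heq : LL hF.h0 (mk2 a b (c * r ^ 2) d h) * LL hF.h1 (mk2 a (-(b * r ^ 2)) (-c) d h') =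
      t1 (e 0 + r • e 1) (-(a * b)) * t1 (r • f 0 - f 1) (-(c * d)) *
        t2 (e 0 + r • e 1) (r • f 0 - f 1) h12 (-(b * c * r)) *
        SS hF' (B12 a (r * b) (c * r) d hdet) := by
    apply LinearEquiv.ext
    intro x
    have e00 : om (e 0) (f 0) = 1 := hF.h0
    have e11 : om (e 1) (f 1) = 1 := hF.h1
    have e01 : om (e 0) (f 1) = 0 := by rw [hF.ef]; simp
    have e10 : om (e 1) (f 0) = 0 := by rw [hF.ef]; simp
    have f00 : om (f 0) (e 0) = -1 := by rw [om_swap, e00]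
    have f11 : om (f 1) (e 1) = -1 := by rw [om_swap, e11]
    have f10 : om (f 1) (e 0) = 0 := by rw [om_swap, e01, neg_zero]
    have f01 : om (f 0) (e 1) = 0 := by rw [om_swap, e10, neg_zero]
    have ee := hF.ee
    have ff := hF.ff
    simp only [LinearEquiv.mul_apply, LL_mk2, SS_apply, t1_apply, t2_apply]
    simp only [Matrix.cons_val_zero, Matrix.cons_val_one, om_add_left, om_add_right, om_sub_left,
      om_sub_right, om_smul_left, om_smul_right, e00, e11, e01, e10, f00, f11, f10, f01, ee, ff]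
    rw [om_swap (e 0) x, om_swap (e 1) x, om_swap (f 1) x, om_swap (f 0) x]
    match_scalars
    · ring
    · linear_combination (b * r * om x (e 0) + b * r ^ 2 * om x (e 1)) * hdet
    · linear_combination (c * om x (f 1) - c * r * om x (f 0)) * hdet
    · linear_combination (b * om x (e 0) + b * r * om x (e 1)) * hdet
    · linear_combination (c * r ^ 2 * om x (f 0) - c * r * om x (f 1)) * hdet
  rw [heq]
  refine N.mul_mem (N.mul_mem (N.mul_mem (hG.t1_mem _ ?_) (hG.t1_mem _ ?_)) (hG.t2_mem _ _ _ ?_))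
    (hG.SS_mem _ _ ha ?_ ?_ hd)
  · exact (dvd_neg.2 (hb.mul_left a))
  · exact (dvd_neg.2 (hc.mul_right d))
  · exact (dvd_neg.2 ((hb.mul_right c).mul_right r))
  · exact hb.mul_left r
  · exact hc.mul_right r

/-- All blocks with the first column `(a, c)` are in `N`. -/
def QQ (N : Subgroup (V n ≃ₗ[ℤ] V n)) (M : ℕ) (hF : Frame e f) (a c : ℤ) : Prop :=
  ∀ (b d : ℤ) (h : a * d - b * c = 1), (M : ℤ) ∣ b → (M : ℤ) ∣ d - 1 →
    LL hF.h0 (mk2 a b c d h) ∈ N

lemma QQ_one (hG : Good' N M) (hF : Frame e f) {c : ℤ} (hc : (M : ℤ) ∣ c) : QQ N M hF 1 c := by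
  intro b d h hb hd
  have h1 : mk2 1 b c d h = mk2 1 0 c 1 (by ring) * mk2 1 b 0 1 (by ring) := by
    rw [mk2_mul]
    exact mk2_congr _ _ (by ring) (by ring) (by ring) (by linear_combination h)
  rw [h1, map_mul, LL_lo, LL_up]
  exact N.mul_mem (hG.t1_mem _ hc) (hG.t1_mem _ (dvd_neg.2 hb))

lemma QQ_row (hG : Good' N M) (hF : Frame e f) {a c : ℤ} (t : ℤ) (h : QQ N M hF a c) :
    QQ N M hF a (c + t * M * a) := by
  intro b d hd' hb hd
  have e1 : a * (d - t * M * b) - b * c = 1 := by linear_combination hd'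
  have h1 : mk2 a b (c + t * M * a) d hd' =
      mk2 1 0 (t * M) 1 (by ring) * mk2 a b c (d - t * M * b) e1 := by
    rw [mk2_mul]
    exact mk2_congr _ _ (by ring) (by ring) (by ring) (by ring)
  rw [h1, map_mul, LL_lo]
  refine N.mul_mem (hG.t1_mem _ (dvd_mul_left _ _)) (h _ _ e1 hb ?_)
  have h2 : d - t * M * b - 1 = (d - 1) - t * M * b := by ring
  rw [h2]
  exact dvd_sub hd (hb.mul_left _)

lemma QQ_conj (hG : Good' N M) (hF : Frame e f) {a c : ℤ} (t : ℤ) (ha : (M : ℤ) ∣ a - 1)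
    (hc : (M : ℤ) ∣ c) (h : QQ N M hF a c) : QQ N M hF (a + t * c) c := by
  intro b d hd' hb hd
  have e1 : a * (d + c * t) - (b + t * (a - d)) * c = 1 := by linear_combination hd'
  have e2 : (1 : ℤ) * 1 - t * 0 = 1 := by ring
  have h1 : mk2 (a + t * c) b c d hd' * mk2 1 t 0 1 e2 =
      mk2 1 t 0 1 e2 * mk2 a (b + t * (a - d)) c (d + c * t) e1 := by
    rw [mk2_mul, mk2_mul]
    exact mk2_congr _ _ (by ring) (by ring) (by ring) (by ring)
  have h2 : mk2 (a + t * c) b c d hd' =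
      mk2 1 t 0 1 e2 * mk2 a (b + t * (a - d)) c (d + c * t) e1 * (mk2 1 t 0 1 e2)⁻¹ := by
    rw [← h1, mul_inv_cancel_right]
  rw [h2, map_mul, map_mul, map_inv]
  refine hG.conj _ (LL_Sp _ _) _ (h _ _ e1 ?_ ?_)
  · have h3 : b + t * (a - d) = b + t * ((a - 1) - (d - 1)) := by ring
    rw [h3]
    exact dvd_add hb ((dvd_sub ha hd).mul_left _)
  · have h3 : d + c * t - 1 = (d - 1) + c * t := by ring
    rw [h3]
    exact dvd_add hd (hc.mul_right _)

lemma QQ_sq (hG : Good' N M) (hF : Frame e f) {a c : ℤ} (r : ℤ) (ha : (M : ℤ) ∣ a - 1)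
    (hc : (M : ℤ) ∣ c) (h : QQ N M hF a c) : QQ N M hF a (c * r ^ 2) := by
  intro b d hd' hb hd
  have e1 : a * d - (-(b * r ^ 2)) * (-c) = 1 := by linear_combination hd'
  have e2 : a * d - (b * r ^ 2) * c = 1 := by linear_combination hd'
  have e3 : a * d - (b * r ^ 2) * (c * 1 ^ 2) = 1 := by linear_combination hd'
  have e4 : a * d - (-(b * r ^ 2 * 1 ^ 2)) * (-c) = 1 := by linear_combination hd'
  have k1 := key hG hF hd' e1 ha hb hc hd
  have k2 := key hG hF e3 e4 ha (hb.mul_right _) hc hd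
  have k3 : mk2 a (b * r ^ 2) (c * 1 ^ 2) d e3 = mk2 a (b * r ^ 2) c d e2 :=
    mk2_congr _ _ rfl rfl (by ring) rfl
  have k4 : mk2 a (-(b * r ^ 2 * 1 ^ 2)) (-c) d e4 = mk2 a (-(b * r ^ 2)) (-c) d e1 :=
    mk2_congr _ _ rfl (by ring) rfl rfl
  rw [k3, k4] at k2
  have k5 := h _ _ e2 (hb.mul_right _) hd
  have k6 := (N.mul_mem_cancel_left k5).1 k2
  exact (N.mul_mem_cancel_right k6).1 k1

lemma exists_sq {p : ℕ} (hp : p.Prime) (h4 : p % 4 = 3) {c : ℤ} (hc : ¬ (p : ℤ) ∣ c) :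
    ∃ ε r k : ℤ, ε * ε = 1 ∧ c = ε * r ^ 2 + p * k := by
  have := Fact.mk hp
  have hne : ((c : ℤ) : ZMod p) ≠ 0 := by
    intro h
    exact hc ((ZMod.intCast_zmod_eq_zero_iff_dvd c p).1 h)
  have hp2 : ringChar (ZMod p) ≠ 2 := by
    rw [ZMod.ringChar_zmod_n]
    rintro rfl
    omega
  have h1 : quadraticChar (ZMod p) (-1) = -1 := by
    have h2 : ¬ IsSquare (-1 : ZMod p) := by
      intro h
      exact (ZMod.exists_sq_eq_neg_one_iff.1 h) h4
    exact quadraticChar_neg_one_iff_not_isSquare.2 h2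
  have main : ∃ ε : ℤ, ε * ε = 1 ∧ IsSquare (((ε * c : ℤ)) : ZMod p) := by
    rcases quadraticChar_dichotomy hne with h2 | h2
    · refine ⟨1, by ring, ?_⟩
      rw [one_mul]
      exact (quadraticChar_one_iff_isSquare hne).1 h2
    · refine ⟨-1, by ring, ?_⟩
      have h3 : ((-1 * c : ℤ) : ZMod p) = (-1) * (c : ZMod p) := by push_cast; ring
      rw [h3]
      apply (quadraticChar_one_iff_isSquare (mul_ne_zero (by norm_num) hne)).1
      rw [map_mul, h1, h2]
      norm_num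
  obtain ⟨ε, hε, y, hy⟩ := main
  refine ⟨ε, (y.val : ℤ), ?_⟩
  have h5 : (p : ℤ) ∣ ε * c - (y.val : ℤ) ^ 2 := by
    rw [← ZMod.intCast_zmod_eq_zero_iff_dvd]
    push_cast at hy ⊢
    rw [hy, ZMod.natCast_zmod_val]
    ring
  obtain ⟨k, hk⟩ := h5
  refine ⟨ε * k, hε, ?_⟩
  linear_combination ε * hk - c * hε

theorem QQ_all (hG : Good' N M) (h4 : 4 ∣ M) (hF : Frame e f) {a c : ℤ} (ha : (M : ℤ) ∣ a - 1)
    (hc : (M : ℤ) ∣ c) : QQ N M hF a c := by
  intro b d h hb hd
  have h4' : (4 : ℤ) ∣ (M : ℤ) := by exact_mod_cast h4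
  by_cases hc0 : c = 0
  · subst hc0
    have h1 : a * d = 1 := by linear_combination h
    have h2 : a = 1 := by
      rcases Int.isUnit_iff.1 (IsUnit.of_mul_eq_one d h1) with h3 | h3
      · exact h3
      · exfalso
        have h5 := h4'.trans ha
        rw [h3] at h5
        norm_num at h5
    subst h2
    exact QQ_one hG hF hc b d h hb hd
  · have hcop : IsCoprime a c := ⟨d, -b, by linear_combination h⟩
    have hcop' : IsCoprime (-a) (c.natAbs : ℤ) := by
      rw [Int.isCoprime_iff_gcd_eq_one]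
      rw [Int.isCoprime_iff_gcd_eq_one] at hcop
      simpa [Int.gcd, Int.natAbs_abs] using hcop
    obtain ⟨p, hp, hpc⟩ := Pool.Agent.Helper460_CSP.exists_prime_int
      (Int.natAbs_ne_zero.2 hc0) hcop'
    rw [Int.natAbs_dvd, sub_neg_eq_add] at hpc
    obtain ⟨t, ht⟩ := hpc
    have hap : a = -(p : ℤ) + t * c := by linear_combination ht
    have hp1 : (M : ℤ) ∣ -(p : ℤ) - 1 := by
      have : -(p : ℤ) - 1 = (a - 1) - t * c := by rw [hap]; ring
      rw [this]
      exact dvd_sub ha (hc.mul_left _)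
    have hmod : p % 4 = 3 := by
      have h5 := h4'.trans hp1
      omega
    obtain ⟨c1, hc1⟩ := hc
    have hpc1 : ¬ (p : ℤ) ∣ c1 := by
      intro h5
      have h6 : (p : ℤ) ∣ c := by rw [hc1]; exact h5.mul_left _
      have h7 : (p : ℤ) ∣ a := by
        rw [hap]
        exact dvd_add (dvd_neg.2 (dvd_refl _)) (h6.mul_left _)
      have h8 := hcop.isUnit_of_dvd' h7 h6
      exact (Nat.prime_iff_prime_int.1 hp).not_isUnit h8
    obtain ⟨ε, r, k, hε, hk⟩ := exists_sq hp hmod hpc1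
    have hM : (M : ℤ) ∣ (M : ℤ) * ε := dvd_mul_right _ _
    obtain ⟨s, hs⟩ := hp1
    have q1 : QQ N M hF 1 ((M : ℤ) * ε) := QQ_one hG hF hM
    have q2 := QQ_conj hG hF (s * ε) (by simp) hM q1
    have q2' : QQ N M hF (-(p : ℤ)) ((M : ℤ) * ε) := by
      have : 1 + s * ε * ((M : ℤ) * ε) = -(p : ℤ) := by
        linear_combination s * (M : ℤ) * hε - hs
      rwa [this] at q2
    have q3 := QQ_sq hG hF r ⟨s, hs⟩ hM q2'
    have q4 := QQ_row hG hF (-k) q3
    have q4' : QQ N M hF (-(p : ℤ)) c := by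
      have : (M : ℤ) * ε * r ^ 2 + -k * (M : ℤ) * -(p : ℤ) = c := by
        rw [hc1, hk]; ring
      rwa [this] at q4
    have q5 := QQ_conj hG hF t ⟨s, hs⟩ ⟨c1, hc1⟩ q4'
    rw [← hap] at q5
    exact q5 b d h hb hd

/-- **The congruence property for the long root `SL_2`.** -/
theorem LL_mem (hG : Good' N M) (h4 : 4 ∣ M) (hF : Frame e f) {a b c d : ℤ}
    (h : a * d - b * c = 1) (ha : (M : ℤ) ∣ a - 1) (hb : (M : ℤ) ∣ b) (hc : (M : ℤ) ∣ c)
    (hd : (M : ℤ) ∣ d - 1) : LL hF.h0 (mk2 a b c d h) ∈ N :=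
  QQ_all hG h4 hF ha hc b d h hb hd

end

end Pool.Agent.V8H98.JF
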