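import Pool.Agent.V8H98.JF.Sp2

/-!
# The Prym representation of a double cover: definitions

`π` is the group of the surface of genus `h + 1`, `χ : π → {1, -1}` the character with `χ (b_0) = -1`
and `χ = 1` on the other generators, and `κ : π → ℤ^{2h}` the crossed homomorphism
(`κ (x y) = κ (x) + χ (x) κ (y)`) with `κ (a_0) = κ (b_0) = 0`, `κ (a_{i+1}) = e_i`,
`κ (b_{i+1}) = f_i`. The automorphisms `φ` with `χ ∘ φ = χ` act on `ℤ^{2h}` by
`κ (φ x) = psi φ (κ x)` for `x` in the kernel of `χ`.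
-/

set_option autoImplicit false

namespace Pool.Agent.V8H98.JF

variable {h : ℕ}

/-- The group `ℤ^{2h} ⋊ {1, -1}`. -/
@[ext] structure EE (h : ℕ) : Type where
  v : V h
  s : ℤˣ

namespace EE

instance : Mul (EE h) := ⟨fun x y => ⟨x.v + (x.s : ℤ) • y.v, x.s * y.s⟩⟩
instance : One (EE h) := ⟨⟨0, 1⟩⟩
instance : Inv (EE h) := ⟨fun x => ⟨-((x.s⁻¹ : ℤˣ) : ℤ) • x.v, x.s⁻¹⟩⟩

@[simp] lemma mul_v (x y : EE h) : (x * y).v = x.v + (x.s : ℤ) • y.v := rfl
@[simp] lemma mul_s (x y : EE h) : (x * y).s = x.s * y.s := rfl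
@[simp] lemma one_v : (1 : EE h).v = 0 := rfl
@[simp] lemma one_s : (1 : EE h).s = 1 := rfl
@[simp] lemma inv_v (x : EE h) : (x⁻¹).v = -((x.s⁻¹ : ℤˣ) : ℤ) • x.v := rfl
@[simp] lemma inv_s (x : EE h) : (x⁻¹).s = x.s⁻¹ := rfl

instance : Group (EE h) := Group.ofLeftAxioms
  (by
    intro x y z
    ext1
    · show (x.v + (x.s : ℤ) • y.v) + ((x.s * y.s : ℤˣ) : ℤ) • z.v =
        x.v + (x.s : ℤ) • (y.v + (y.s : ℤ) • z.v)
      rw [smul_add, smul_smul, add_assoc, Units.val_mul]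
    · exact mul_assoc _ _ _)
  (by
    intro x
    ext1
    · show (0 : V h) + ((1 : ℤˣ) : ℤ) • x.v = x.v
      simp
    · exact one_mul _)
  (by
    intro x
    ext1
    · show -((x.s⁻¹ : ℤˣ) : ℤ) • x.v + ((x.s⁻¹ : ℤˣ) : ℤ) • x.v = 0
      rw [neg_smul, neg_add_cancel]
    · exact inv_mul_cancel _)

end EE

/-- The images of the generators. -/
def thg (h : ℕ) : Fin (h + 1) ⊕ Fin (h + 1) → EE h
  | Sum.inl i => ⟨Fin.cases (0 : V h) (fun j => ee j) i, 1⟩
  | Sum.inr i => ⟨Fin.cases (0 : V h) (fun j => ff j) i, Fin.cases (-1 : ℤˣ) (fun _ => 1) i⟩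

lemma thg_comm (i : Fin (h + 1)) :
    thg h (Sum.inl i) * thg h (Sum.inr i) * (thg h (Sum.inl i))⁻¹ * (thg h (Sum.inr i))⁻¹ = 1 := by
  rw [mul_inv_eq_one, mul_inv_eq_iff_eq_mul]
  induction i using Fin.cases with
  | zero =>
    ext1
    · show (0 : V h) + ((1 : ℤˣ) : ℤ) • (0 : V h) = (0 : V h) + ((-1 : ℤˣ) : ℤ) • (0 : V h)
      simp
    · exact mul_comm _ _
  | succ j =>
    ext1
    · show ee j + ((1 : ℤˣ) : ℤ) • ff j = ff j + ((1 : ℤˣ) : ℤ) • (ee j : V h)
      simp [add_comm]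
    · exact mul_comm _ _

/-- `x ↦ (κ (x), χ (x))`. -/
def Th (h : ℕ) : SurfaceGroup (h + 1) →* EE h :=
  PresentedGroup.toGroup (f := thg h) (by
    intro r hr
    rw [Set.mem_singleton_iff] at hr
    subst hr
    unfold rel
    rw [map_list_prod]
    apply List.prod_eq_one
    intro x hx
    rw [List.mem_map] at hx
    obtain ⟨y, hy, rfl⟩ := hx
    rw [List.mem_ofFn] at hy
    obtain ⟨i, rfl⟩ := hy
    simp only [map_mul, map_inv, FreeGroup.lift_apply_of]
    exact thg_comm i)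

lemma Th_of (i : Fin (h + 1) ⊕ Fin (h + 1)) :
    Th h (PresentedGroup.of i : SurfaceGroup (h + 1)) = thg h i := PresentedGroup.toGroup.of _

/-- The character. -/
def chi (x : SurfaceGroup (h + 1)) : ℤˣ := (Th h x).s

/-- The crossed homomorphism. -/
def kap (x : SurfaceGroup (h + 1)) : V h := (Th h x).v

lemma chi_mul (x y : SurfaceGroup (h + 1)) : chi (x * y) = chi x * chi y := by
  unfold chi; rw [map_mul]; rfl

lemma chi_one : chi (1 : SurfaceGroup (h + 1)) = 1 := by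
  unfold chi; rw [map_one]; rfl

lemma chi_inv (x : SurfaceGroup (h + 1)) : chi x⁻¹ = (chi x)⁻¹ := by
  unfold chi; rw [map_inv]; rfl

lemma kap_mul (x y : SurfaceGroup (h + 1)) : kap (x * y) = kap x + (chi x : ℤ) • kap y := by
  unfold kap chi; rw [map_mul]; rfl

lemma kap_one : kap (1 : SurfaceGroup (h + 1)) = 0 := by
  unfold kap; rw [map_one]; rfl

lemma kap_inv (x : SurfaceGroup (h + 1)) : kap x⁻¹ = -(((chi x)⁻¹ : ℤˣ) : ℤ) • kap x := by
  unfold kap chi; rw [map_inv]; rfl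

lemma chi_a (i : Fin (h + 1)) : chi (PresentedGroup.of (Sum.inl i) : SurfaceGroup (h + 1)) = 1 := by
  unfold chi; rw [Th_of]; rfl

lemma chi_b0 : chi (PresentedGroup.of (Sum.inr 0) : SurfaceGroup (h + 1)) = -1 := by
  unfold chi; rw [Th_of]; rfl

lemma chi_b (i : Fin h) :
    chi (PresentedGroup.of (Sum.inr i.succ) : SurfaceGroup (h + 1)) = 1 := by
  unfold chi; rw [Th_of]; rfl

lemma kap_a0 : kap (PresentedGroup.of (Sum.inl 0) : SurfaceGroup (h + 1)) = 0 := by
  unfold kap; rw [Th_of]; rfl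

lemma kap_b0 : kap (PresentedGroup.of (Sum.inr 0) : SurfaceGroup (h + 1)) = 0 := by
  unfold kap; rw [Th_of]; rfl

lemma kap_a (i : Fin h) :
    kap (PresentedGroup.of (Sum.inl i.succ) : SurfaceGroup (h + 1)) = ee i := by
  unfold kap; rw [Th_of]; rfl

lemma kap_b (i : Fin h) :
    kap (PresentedGroup.of (Sum.inr i.succ) : SurfaceGroup (h + 1)) = ff i := by
  unfold kap; rw [Th_of]; rfl

/-- The subgroup of index two: the kernel of `χ`. -/
def Gam (h : ℕ) : Subgroup (SurfaceGroup (h + 1)) where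
  carrier := {x | chi x = 1}
  one_mem' := chi_one
  mul_mem' := fun {x y} hx hy => by
    show chi (x * y) = 1
    rw [chi_mul, hx, hy, one_mul]
  inv_mem' := fun {x} hx => by
    show chi x⁻¹ = 1
    rw [chi_inv, hx, inv_one]

lemma mem_Gam {x : SurfaceGroup (h + 1)} : x ∈ Gam h ↔ chi x = 1 := Iff.rfl

lemma kap_mul_Gam {x : SurfaceGroup (h + 1)} (hx : x ∈ Gam h) (y : SurfaceGroup (h + 1)) :
    kap (x * y) = kap x + kap y := by
  rw [kap_mul, hx, Units.val_one, one_smul]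

lemma kap_inv_Gam {x : SurfaceGroup (h + 1)} (hx : x ∈ Gam h) : kap x⁻¹ = - kap x := by
  rw [kap_inv, hx, inv_one, Units.val_one, neg_smul, one_smul]

/-- The automorphisms preserving `χ`. -/
def A0 (h : ℕ) : Subgroup (MulAut (SurfaceGroup (h + 1))) where
  carrier := {φ | ∀ x, chi (φ x) = chi x}
  one_mem' := fun _ => rfl
  mul_mem' := fun {φ ψ} hφ hψ x => by rw [MulAut.mul_apply, hφ, hψ]
  inv_mem' := fun {φ} hφ x => by
    have := hφ (φ⁻¹ x)
    rw [← MulAut.mul_apply, mul_inv_cancel, MulAut.one_apply] at this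
    exact this.symm

/-- Every vector is the value of `κ` at an element of the kernel of `χ`. -/
lemma kap_surj (v : V h) : ∃ x ∈ Gam h, kap x = v := by
  let R : AddSubgroup (V h) :=
    { carrier := {v | ∃ x ∈ Gam h, kap x = v}
      zero_mem' := ⟨1, (Gam h).one_mem, kap_one⟩
      add_mem' := by
        rintro _ _ ⟨x, hx, rfl⟩ ⟨y, hy, rfl⟩
        exact ⟨x * y, (Gam h).mul_mem hx hy, kap_mul_Gam hx y⟩
      neg_mem' := by
        rintro _ ⟨x, hx, rfl⟩
        exact ⟨x⁻¹, (Gam h).inv_mem hx, kap_inv_Gam hx⟩ }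
  have hR : ∀ v : V h, v ∈ R := by
    intro v
    have h1 : v = ∑ i, v i • (Pi.single i 1 : V h) := by
      ext j
      rw [Finset.sum_apply]
      rw [Finset.sum_eq_single j]
      · simp
      · intro k _ hk
        simp [Pi.single_apply, hk.symm]
      · intro h
        exact absurd (Finset.mem_univ j) h
    rw [h1]
    refine AddSubgroup.sum_mem _ fun i _ => AddSubgroup.zsmul_mem _ ?_ _
    rcases i with i | i
    · exact ⟨PresentedGroup.of (Sum.inl i.succ), chi_a _, kap_a i⟩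
    · exact ⟨PresentedGroup.of (Sum.inr i.succ), chi_b i, kap_b i⟩
  exact hR v

end Pool.Agent.V8H98.JF
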